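import Pool.Agent.Lib.MP_44acff_gt.H70Defs
import Pool.Agent.Lib.MP_08f711_an.Holo

/-! Definitions used inside the proof. -/

namespace Pool.Agent.Lib.MP_44acff_gt.NU

open Set Metric MeasureTheory ComplexConjugate

noncomputable section

/-- Closed and nonempty. -/
structure Dom (E : Set ℂ) : Prop where
  closed : IsClosed E
  nonempty : E.Nonempty

/-- The weighted volume condition. -/
def MeasCond (E : Set ℂ) (A : ℝ) : Prop :=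
  ∀ (p : ℂ) (r : ℝ), 0 < r → ∫⁻ ζ in ball p r \ E,
    ENNReal.ofReal (infDist ζ E ^ (-(1 / 4) : ℝ)) ≤ ENNReal.ofReal (A * r ^ (7 / 4 : ℝ))

/-- Positive density at all points and scales. -/
def Fat (E : Set ℂ) (c : ℝ) : Prop :=
  ∀ ξ ∈ E, ∀ r : ℝ, 0 < r → ENNReal.ofReal (c * r ^ 2) ≤ volume (E ∩ ball ξ r)

/-- A hyperbolic density on the complement of `E`, with local developing maps. -/
def Hyp (E : Set ℂ) (lam : ℂ → ℝ) (κ c : ℝ) : Prop :=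
  ∀ z ∉ E, c / infDist z E ≤ lam z ∧ ∃ φ : ℂ → ℂ,
    DifferentiableOn ℂ φ (ball z (κ * infDist z E)) ∧
    MapsTo φ (ball z (κ * infDist z E)) (ball 0 1) ∧ φ z = 0 ∧
    ∀ w ∈ ball z (κ * infDist z E), lam w = 2 * ‖deriv φ w‖ / (1 - ‖φ w‖ ^ 2)

/-- Near a similarity at every point and scale. -/
def NS (F : ℂ → ℂ) (η : ℝ) : Prop :=
  ∀ (x : ℂ) (s : ℝ), 0 < s → ∃ κ : ℂ, κ ≠ 0 ∧
    ∀ h : ℂ, ‖h‖ ≤ s → ‖F (x + h) - F x - κ * h‖ ≤ η * ‖κ‖ * s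

/-- A plane set as a subset of the sphere. -/
def sph (U : Set ℂ) : Set (OnePoint ℂ) := (fun z : ℂ => (z : OnePoint ℂ)) '' U

/-- Holomorphic maps from the disc to `Ω` lift through `p : U → Ω`. -/
def Lifts (p : ℂ → ℂ) (U Ω : Set ℂ) : Prop :=
  ∀ ψ : ℂ → ℂ, DifferentiableOn ℂ ψ (ball 0 1) → MapsTo ψ (ball 0 1) Ω → ∀ x ∈ U, p x = ψ 0 →
    ∃ χ : ℂ → ℂ, DifferentiableOn ℂ χ (ball 0 1) ∧ MapsTo χ (ball 0 1) U ∧ χ 0 = x ∧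
      ∀ t ∈ ball (0 : ℂ) 1, p (χ t) = ψ t

section strips

/-- A rapidly shrinking, separated and dense family of intervals. -/
structure Gaps (a α : ℕ → ℝ) : Prop where
  pos : ∀ n, 0 < α n
  small : α 0 ≤ 1 / 1000
  half : ∀ n, α (n + 1) ≤ α n / 2
  sep : ∀ j n, j < n → 1000 * α n ≤ |a n - (a j - α j)| ∧ 1000 * α n ≤ |a n - (a j + α j)|
  dense : ∀ s s' : ℝ, s < s' → ∃ n, a n ∈ Ioo s s'

/-- The complement of the intervals. -/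
def Cant (a α : ℕ → ℝ) : Set ℝ := {s | ∀ n, α n ≤ |s - a n|}

/-- The product of two such sets. -/
def Eset (a α b β : ℕ → ℝ) : Set ℂ := {z | z.re ∈ Cant a α ∧ z.im ∈ Cant b β}

/-- The crossing of the vertical and the horizontal strip number `n`. -/
def crs (a b : ℕ → ℝ) (n : ℕ) : ℂ := ⟨a n, b n⟩

/-- The scale at which the crossing is looked at. -/
def rad (α : ℕ → ℝ) (n : ℕ) : ℝ := √(√(α n))

/-- The shear. -/
def shear (τ : ℝ) (h : ℂ) : ℂ := h + Complex.I * τ * conj h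

/-- Earlier strips stay away from the crossing number `n`, which is near `c`. -/
def Away (a α b β : ℕ → ℝ) (c : ℂ) (n : ℕ) : Prop :=
  ‖crs a b n - c‖ ≤ 1 / 4 ∧
    ∀ j < n, α j + 2 * rad α n ≤ |a n - a j| ∧ β j + 2 * rad α n ≤ |b n - b j|

/-- The data of the construction. -/
structure Data (τ η : ℝ) (a α b β : ℕ → ℝ) (f : ℂ → ℂ) : Prop where
  ga : Gaps a α
  gb : Gaps b β
  le₁ : ∀ n, β n ≤ α n
  le₂ : ∀ n, α (n + 1) ≤ β n ^ 16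
  lip : LipschitzWith (1 / 2) (fun z => f z - z)
  holo : DifferentiableOn ℂ f (Eset a α b β)ᶜ
  good : ∀ c : ℂ, c = 1 ∨ c = -1 → ∀ N, ∃ n ≥ N, Away a α b β c n ∧
    ∀ h : ℂ, ‖h‖ ≤ rad α n →
      ‖f (crs a b n + h) - f (crs a b n) - shear τ h‖ ≤ η * rad α n

/-- The antiholomorphic derivative. -/
def dbar (F : ℂ → ℂ) (z : ℂ) : ℂ := (fderiv ℝ F z 1 + Complex.I * fderiv ℝ F z Complex.I) / 2

/-- The Cauchy transform. -/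
def ct (ψ : ℂ → ℂ) (z : ℂ) : ℂ := -(1 / Real.pi : ℂ) * ∫ ζ, ψ ζ / (ζ - z)

end strips

section tube

/-- The real slice. -/
def diag (z : ℂ) : ℂ × ℂ := (z, conj z)

/-- The reflection fixing the real slice. -/
def sig (p : ℂ × ℂ) : ℂ × ℂ := (conj p.2, conj p.1)

/-- The projection to the real slice. -/
def mid (p : ℂ × ℂ) : ℂ := (p.1 + conj p.2) / 2

/-- The extension of the complex conjugate function. -/
def st (F : ℂ × ℂ → ℂ) : ℂ × ℂ → ℂ := fun p => conj (F (sig p))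

/-- The derivative in the first variable. -/
def dz (F : ℂ × ℂ → ℂ) : ℂ × ℂ → ℂ := fun p => fderiv ℂ F p (1, 0)

/-- The derivative in the second variable. -/
def dw (F : ℂ × ℂ → ℂ) : ℂ × ℂ → ℂ := fun p => fderiv ℂ F p (0, 1)

/-- The local scale. -/
def DD (E : Set ℂ) (p : ℂ × ℂ) : ℝ := infDist (mid p) E

/-- The defining function of the tube. -/
def del (E : Set ℂ) (θ : ℝ) (p : ℂ × ℂ) : ℝ := θ * DD E p - ‖p.1 - conj p.2‖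

/-- The tube around the real slice over the complement of `E`. -/
def Tube (E : Set ℂ) (θ : ℝ) : Set (ℂ × ℂ) := {p | 0 < del E θ p}

/-- The weight of the top derivative. -/
def aw (E : Set ℂ) (θ : ℝ) (p : ℂ × ℂ) : ℝ := √(DD E p * del E θ p)

/-- Powers of the local scale. -/
def Wj (E : Set ℂ) (j : ℤ) (p : ℂ × ℂ) : ℝ := DD E p ^ j

/-- The pointwise norm of order zero. -/
def n0 (E : Set ℂ) (θ : ℝ) (W : ℂ × ℂ → ℝ) (F : ℂ × ℂ → ℂ) (p : ℂ × ℂ) : ℝ :=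
  (‖F p‖ + aw E θ p * (‖dz F p‖ + ‖dw F p‖)) / W p

/-- The pointwise norm of order one. -/
def n1 (E : Set ℂ) (θ : ℝ) (W : ℂ × ℂ → ℝ) (F : ℂ × ℂ → ℂ) (p : ℂ × ℂ) : ℝ :=
  n0 E θ W F p + n0 E θ (W / DD E) (dz F) p + n0 E θ (W / DD E) (dw F) p

/-- Bounded of order zero. -/
def B0 (E : Set ℂ) (θ : ℝ) (W : ℂ × ℂ → ℝ) (F : ℂ × ℂ → ℂ) (M : ℝ) : Prop :=
  DifferentiableOn ℂ F (Tube E θ) ∧ ∀ p ∈ Tube E θ, n0 E θ W F p ≤ M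

/-- Bounded of order one. -/
def B1 (E : Set ℂ) (θ : ℝ) (W : ℂ × ℂ → ℝ) (F : ℂ × ℂ → ℂ) (M : ℝ) : Prop :=
  DifferentiableOn ℂ F (Tube E θ) ∧ ∀ p ∈ Tube E θ, n1 E θ W F p ≤ M

/-- Admissible weights. -/
structure Adm (E : Set ℂ) (θ : ℝ) (W : ℂ × ℂ → ℝ) (K : ℝ) : Prop where
  pos : ∀ p ∈ Tube E θ, 0 < W p
  le : ∀ p ∈ Tube E θ, ∀ q ∈ Tube E θ, ‖mid q - mid p‖ ≤ DD E p / 2 →
    del E θ p / 2 ≤ del E θ q → W q ≤ K * W p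

/-- A pair of functions, bounded by `A` and at distance `L`, in order zero. -/
def P0 (E : Set ℂ) (θ : ℝ) (j : ℤ) (F F' : ℂ × ℂ → ℂ) (A L : ℝ) : Prop :=
  B0 E θ (Wj E j) F A ∧ B0 E θ (Wj E j) F' A ∧ B0 E θ (Wj E j) (F - F') L

/-- A pair of functions, bounded by `A` and at distance `L`, in order one. -/
def P1 (E : Set ℂ) (θ : ℝ) (j : ℤ) (F F' : ℂ × ℂ → ℂ) (A L : ℝ) : Prop :=
  B1 E θ (Wj E j) F A ∧ B1 E θ (Wj E j) F' A ∧ B1 E θ (Wj E j) (F - F') L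

end tube

section beltrami

/-- Pairs of points used for normalisation. -/
def Pair (E : Set ℂ) (x y : ℂ) : Prop := x ≠ y ∧ infDist x E ≤ 4 * ‖x - y‖

/-- The weight attached to a pair. -/
def wr (E : Set ℂ) (x y ζ : ℂ) : ℝ :=
  ((‖x - y‖ + ‖ζ - x‖) / ‖x - y‖) ^ (1 / 2 : ℝ) * (‖x - y‖ / infDist ζ E) ^ (1 / 4 : ℝ)

/-- The same weight on the tube. -/
def Wp (E : Set ℂ) (x y : ℂ) (p : ℂ × ℂ) : ℝ := wr E x y (mid p)

/-- The Cauchy kernel normalised to vanish at `x` and `y`. -/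
def ker (x y z ζ : ℂ) : ℂ := (z - x) * (z - y) / ((ζ - z) * (ζ - x) * (ζ - y))

/-- The normalised Cauchy transform. -/
def cau (E : Set ℂ) (x y : ℂ) (g : ℂ → ℂ) (z : ℂ) : ℂ :=
  -(1 / Real.pi : ℂ) * ∫ ζ in Eᶜ, g ζ * ker x y z ζ

/-- Its extension to the tube. -/
def ext (E : Set ℂ) (x y : ℂ) (g : ℂ × ℂ → ℂ) (p : ℂ × ℂ) : ℂ :=
  cau E x y (fun ζ => g (diag ζ)) p.1 +
    (p.2 - conj p.1) * ∫ s in (0 : ℝ)..1, g (p.1, conj p.1 + s * (p.2 - conj p.1))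

/-- The logarithmic derivative of the first derivative. -/
def pre (Z : ℂ × ℂ → ℂ) : ℂ × ℂ → ℂ := dz (dz Z) / dz Z

/-- A solution of the Beltrami equation with its estimates. -/
structure Belt (E : Set ℂ) (θ : ℝ) (μ Z : ℂ × ℂ → ℂ) (η : ℝ) : Prop where
  holo : DifferentiableOn ℂ Z (Tube E θ)
  eqn : ∀ p ∈ Tube E θ, dw Z p = μ p * dz Z p
  ne : ∀ p ∈ Tube E θ, dz Z p ≠ 0
  bd : B0 E θ (Wj E (-1)) (pre Z) η
  ns : NS (fun z => Z (diag z)) η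
  loc : ∀ x ∉ E, ∃ a : ℂ, a ≠ 0 ∧ ∀ p ∈ Tube E θ, ‖mid p - x‖ ≤ infDist x E / 2 →
    ‖dz Z p - a‖ ≤ η * ‖a‖ ∧ ‖Z p - Z (diag x) - a * (p.1 - x)‖ ≤ η * ‖a‖ * infDist x E

/-- The extension of the hyperbolic density to the tube. -/
structure Rho (E : Set ℂ) (θ : ℝ) (lam : ℂ → ℝ) (ρ : ℂ × ℂ → ℂ) (R : ℝ) : Prop where
  b : B1 E θ (Wj E (-1)) ρ R
  ne : ∀ p ∈ Tube E θ, ρ p ≠ 0
  binv : B1 E θ (Wj E 1) ρ⁻¹ R
  bl : B1 E θ (Wj E (-1)) (dw ρ / ρ) R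
  sym : EqOn (st ρ) ρ (Tube E θ)
  diag : ∀ z ∉ E, ρ (diag z) = lam z
  pos : ∀ z ∉ E, 0 < lam z

/-- The quantity `e k k*`. -/
def nn (e : ℝ) (k : ℂ × ℂ → ℂ) : ℂ × ℂ → ℂ := (e : ℂ) • (k * st k)

/-- The quantity `e k ^ 2`, minus the Beltrami coefficient. -/
def qq (e : ℝ) (k : ℂ × ℂ → ℂ) : ℂ × ℂ → ℂ := (e : ℂ) • (k * k)

/-- The new unknown. -/
def newP (e : ℝ) (k Z : ℂ × ℂ → ℂ) : ℂ × ℂ → ℂ :=
  (1 / 2 : ℂ) • (-qq e k * pre Z + dz (-qq e k) + st (pre Z)) + dw (nn e k) * (1 - -nn e k)⁻¹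

/-- First coefficient. -/
def al1 (e : ℝ) (k : ℂ × ℂ → ℂ) : ℂ × ℂ → ℂ := qq e k * (1 - nn e k * nn e k)⁻¹

/-- Second coefficient. -/
def al2 (e : ℝ) (k : ℂ × ℂ → ℂ) : ℂ × ℂ → ℂ := nn e k * nn e k * (1 - nn e k * nn e k)⁻¹

/-- Lower order term. -/
def YY (e : ℝ) (k l : ℂ × ℂ → ℂ) : ℂ × ℂ → ℂ :=
  (nn e k * l - qq e k * st l) * (1 - nn e k * nn e k)⁻¹

/-- The Jacobian term. -/
def GG (e : ℝ) (k : ℂ × ℂ → ℂ) : ℂ × ℂ → ℂ :=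
  (e : ℂ) • (dz (st k) * dw k - dw (st k) * dz k) * ((1 - nn e k)⁻¹ * (1 - nn e k)⁻¹)

/-- The square of the height, divided by `e`. -/
def Th (e : ℝ) (k Z ρ : ℂ × ℂ → ℂ) : ℂ × ℂ → ℂ :=
  dz Z * st (dz Z) * ((1 + nn e k) * (1 + nn e k)) * (ρ⁻¹ * ρ⁻¹)

/-- The map to the upper half space. -/
def emb (e : ℝ) (Z Θ : ℂ × ℂ → ℂ) (z : ℂ) : ℂ × ℝ := (Z (diag z), √(e * (Θ (diag z)).re))

/-- A solution of the isometric embedding problem with its estimates. -/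
structure Sol (E : Set ℂ) (θ : ℝ) (lam : ℂ → ℝ) (e η : ℝ) (Z Θ : ℂ × ℂ → ℂ) : Prop where
  holoZ : DifferentiableOn ℂ Z (Tube E θ)
  holoΘ : DifferentiableOn ℂ Θ (Tube E θ)
  sym : EqOn (st Θ) Θ (Tube E θ)
  ns : NS (fun z => Z (diag z)) η
  loc : ∀ x ∉ E, ∃ a : ℂ, a ≠ 0 ∧ ∀ p ∈ Tube E θ, ‖mid p - x‖ ≤ infDist x E / 2 →
    ‖Z p - Z (diag x) - a * (p.1 - x)‖ ≤ η * ‖a‖ * infDist x E ∧
      e * ‖Θ p‖ ≤ η * (‖a‖ * infDist x E) ^ 2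
  pos : ∀ z ∉ E, 0 < (Θ (diag z)).re
  metric : ∀ z ∉ E, ∀ v : ℂ,
    (‖(fderiv ℝ (emb e Z Θ) z v).1‖ ^ 2 + (fderiv ℝ (emb e Z Θ) z v).2 ^ 2) /
      (emb e Z Θ z).2 ^ 2 = (lam z / √e) ^ 2 * ‖v‖ ^ 2

end beltrami

end

end Pool.Agent.Lib.MP_44acff_gt.NU
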