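import Pool.Agent.Lib.MP_44acff_gt.H70Cover

/-! The hyperbolic metric. -/

namespace Pool.Agent.Lib.MP_44acff_gt.NU

open Set Metric MeasureTheory Filter Topology ComplexConjugate
open scoped ContDiff

namespace HypAux

open Pool.Agent.Lib.MP_21db80_an

theorem norm_one_sub (a : ℂ) (ha : ‖a‖ < 1) : ‖1 - conj a * a‖ = 1 - ‖a‖ ^ 2 := by
  have h1 : (1 - conj a * a : ℂ) = ((1 - ‖a‖ ^ 2 : ℝ) : ℂ) := by
    rw [Complex.conj_mul']; push_cast; ring
  rw [h1, Complex.norm_real, Real.norm_eq_abs, abs_of_pos (by nlinarith [norm_nonneg a])]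

theorem one_sub_pos {a : ℂ} (ha : ‖a‖ < 1) : 0 < 1 - ‖a‖ ^ 2 := by nlinarith [norm_nonneg a]

theorem schwarz0 {g : ℂ → ℂ} (hg : DifferentiableOn ℂ g (ball 0 1))
    (hm : MapsTo g (ball 0 1) (ball 0 1)) (h0 : g 0 = 0) : ‖deriv g 0‖ ≤ 1 :=
  Complex.norm_deriv_le_one_of_mapsTo_ball hg
    (by rw [h0]; exact hm.mono_right ball_subset_closedBall) one_pos

theorem diffOn_dmob {a : ℂ} (ha : ‖a‖ < 1) : DifferentiableOn ℂ (dmob a) (ball 0 1) :=
  fun _ hw => (hasDerivAt_dmob ha (mem_ball_zero_iff.mp hw)).differentiableAt.differentiableWithinAt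

theorem mapsTo_dmob {a : ℂ} (ha : ‖a‖ < 1) : MapsTo (dmob a) (ball 0 1) (ball 0 1) :=
  fun _ hw => mem_ball_zero_iff.mpr (norm_dmob ha (mem_ball_zero_iff.mp hw))

theorem pick0 {χ : ℂ → ℂ} (hχ : DifferentiableOn ℂ χ (ball 0 1))
    (hm : MapsTo χ (ball 0 1) (ball 0 1)) : ‖deriv χ 0‖ ≤ 1 - ‖χ 0‖ ^ 2 := by
  have ha : ‖χ 0‖ < 1 := mem_ball_zero_iff.mp (hm (mem_ball_self one_pos))
  have h1 := schwarz0 ((diffOn_dmob ha).comp hχ hm) ((mapsTo_dmob ha).comp hm) (by simp [dmob])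
  have hd : HasDerivAt χ (deriv χ 0) 0 :=
    (hχ.differentiableAt (ball_mem_nhds 0 one_pos)).hasDerivAt
  rw [((hasDerivAt_dmob ha ha).comp 0 hd).deriv, norm_mul, norm_div, norm_pow,
    norm_one_sub _ ha] at h1
  have hp := one_sub_pos ha
  rw [div_mul_eq_mul_div, div_le_one (by positivity)] at h1
  nlinarith

theorem dmob_neg_zero (x : ℂ) : dmob (-x) 0 = x := by simp [dmob]

theorem hasDerivAt_comp_dmob {p : ℂ → ℂ} (hp : DifferentiableOn ℂ p (ball 0 1)) {x : ℂ}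
    (hx : ‖x‖ < 1) : HasDerivAt (p ∘ dmob (-x)) (deriv p x * (1 - conj x * x)) 0 := by
  have hx' : ‖-x‖ < 1 := by rwa [norm_neg]
  have h1 := hasDerivAt_dmob hx' (w := 0) (by simp)
  have h2 : HasDerivAt p (deriv p x) (dmob (-x) 0) := by
    rw [dmob_neg_zero]
    exact (hp.differentiableAt (isOpen_ball.mem_nhds (mem_ball_zero_iff.mpr hx))).hasDerivAt
  refine (h2.comp 0 h1).congr_deriv ?_
  simp

/-- The conformal radius read in the covering. -/
noncomputable def mm (p : ℂ → ℂ) (x : ℂ) : ℝ := (1 - ‖x‖ ^ 2) * ‖deriv p x‖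

theorem mm_le {Ω : Set ℂ} {p : ℂ → ℂ} (hp : DifferentiableOn ℂ p (ball 0 1))
    (hm : MapsTo p (ball 0 1) Ω) (hL : Lifts p (ball 0 1) Ω) {x x' : ℂ} (hx : ‖x‖ < 1)
    (hx' : ‖x'‖ < 1) (h : p x' = p x) : mm p x ≤ mm p x' := by
  have hn : ‖-x‖ < 1 := by rwa [norm_neg]
  obtain ⟨χ, h1, h2, h3, h4⟩ := hL (p ∘ dmob (-x)) (hp.comp (diffOn_dmob hn) (mapsTo_dmob hn))
    (hm.comp (mapsTo_dmob hn)) x' (mem_ball_zero_iff.mpr hx') (by simp [dmob_neg_zero, h])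
  have hd : HasDerivAt χ (deriv χ 0) 0 :=
    (h1.differentiableAt (ball_mem_nhds 0 one_pos)).hasDerivAt
  have h5 : HasDerivAt p (deriv p x') (χ 0) := by
    rw [h3]
    exact (hp.differentiableAt (isOpen_ball.mem_nhds (mem_ball_zero_iff.mpr hx'))).hasDerivAt
  have h6 : HasDerivAt (p ∘ dmob (-x)) (deriv p x' * deriv χ 0) 0 := by
    refine (h5.comp 0 hd).congr_of_eventuallyEq ?_
    filter_upwards [ball_mem_nhds (0 : ℂ) one_pos] with t ht
    exact (h4 t ht).symm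
  have h7 := congrArg norm ((hasDerivAt_comp_dmob hp hx).unique h6)
  rw [norm_mul, norm_mul, norm_one_sub _ hx] at h7
  have h8 := pick0 h1 h2
  rw [h3] at h8
  unfold mm
  nlinarith [norm_nonneg (deriv p x')]

theorem exists_section {E : Set ℂ} (hE : Dom E) {p : ℂ → ℂ} (hL : Lifts p (ball 0 1) Eᶜ) {x : ℂ}
    (hx : ‖x‖ < 1) (hz : p x ∉ E) : ∃ σ : ℂ → ℂ,
      DifferentiableOn ℂ σ (ball (p x) (infDist (p x) E)) ∧
      MapsTo σ (ball (p x) (infDist (p x) E)) (ball 0 1) ∧ σ (p x) = x ∧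
      ∀ w ∈ ball (p x) (infDist (p x) E), p (σ w) = w := by
  set z := p x with hzdef
  set d := infDist z E with hd
  have hd0 : 0 < d := (hE.closed.notMem_iff_infDist_pos hE.nonempty).mp hz
  have hd1 : (d : ℂ) ≠ 0 := by exact_mod_cast hd0.ne'
  obtain ⟨χ, h1, h2, h3, h4⟩ := hL (fun t => z + d * t) (by fun_prop) (fun t ht hE' => by
    have h5 : d ≤ dist z (z + d * t) := infDist_le_dist_of_mem hE'
    rw [dist_self_add_right, norm_mul, Complex.norm_real, Real.norm_eq_abs, abs_of_pos hd0] at h5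
    have := mem_ball_zero_iff.mp ht
    nlinarith) x (mem_ball_zero_iff.mpr hx) (by simp [hzdef])
  have hm : MapsTo (fun w => (w - z) / d) (ball z d) (ball 0 1) := fun w hw => by
    rw [mem_ball_zero_iff, norm_div, Complex.norm_real, Real.norm_eq_abs, abs_of_pos hd0,
      div_lt_one hd0]
    rwa [mem_ball, dist_eq_norm] at hw
  refine ⟨fun w => χ ((w - z) / d), h1.comp (by fun_prop) hm, h2.comp hm, by simp [h3],
    fun w hw => ?_⟩
  rw [h4 _ (hm hw)]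
  field_simp
  ring

theorem surj {E : Set ℂ} (hE : Dom E) (hcon : IsConnected Eᶜ) {p : ℂ → ℂ}
    (hm : MapsTo p (ball 0 1) Eᶜ) (hL : Lifts p (ball 0 1) Eᶜ) : Eᶜ ⊆ p '' ball 0 1 := by
  have hb : ∀ z ∈ p '' ball 0 1, ball z (infDist z E) ⊆ p '' ball 0 1 := by
    rintro _ ⟨x, hx, rfl⟩ w hw
    obtain ⟨σ, -, h2, -, h4⟩ := exists_section hE hL (mem_ball_zero_iff.mp hx) (hm hx)
    exact ⟨σ w, h2 hw, h4 w hw⟩
  have hpos : ∀ z ∉ E, 0 < infDist z E := fun z hz =>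
    (hE.closed.notMem_iff_infDist_pos hE.nonempty).mp hz
  refine hcon.isPreconnected.subset_of_closure_inter_subset ?_ ?_ ?_
  · refine Metric.isOpen_iff.mpr fun z hz => ⟨_, hpos z ?_, hb z hz⟩
    obtain ⟨x, hx, rfl⟩ := hz
    exact hm hx
  · exact ⟨p 0, hm (mem_ball_self one_pos), mem_image_of_mem p (mem_ball_self one_pos)⟩
  · rintro z ⟨hz, hz'⟩
    obtain ⟨z', h1, h2⟩ := Metric.mem_closure_iff.mp hz _ (half_pos (hpos z hz'))
    refine hb z' h1 ?_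
    have h3 : infDist z E ≤ infDist z' E + dist z z' := infDist_le_infDist_add_dist
    rw [mem_ball]
    linarith

theorem one_sub_sq_dmob {a w : ℂ} (ha : ‖a‖ < 1) (hw : ‖w‖ < 1) :
    1 - ‖dmob a w‖ ^ 2 = (1 - ‖a‖ ^ 2) * (1 - ‖w‖ ^ 2) / ‖1 - conj a * w‖ ^ 2 := by
  have e : ‖1 - conj a * w‖ ^ 2 - ‖w - a‖ ^ 2 = (1 - ‖a‖ ^ 2) * (1 - ‖w‖ ^ 2) := by
    simp only [← Complex.normSq_eq_norm_sq, Complex.normSq_apply]
    simp; ring
  have h := norm_pos_iff.mpr (dmob_den ha hw)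
  rw [dmob, norm_div, ← e, div_pow, sub_div, div_self (pow_pos h 2).ne']

end HypAux

open HypAux Pool.Agent.Lib.MP_21db80_an in
theorem exists_hyp {E : Set ℂ} {c : ℝ} (hE : Dom E) (hc : 0 < c) (hF : Fat E c)
    (hb : ∀ z, infDist z E ≤ 1) (hcon : IsConnected Eᶜ) :
    ∃ (lam : ℂ → ℝ) (c' : ℝ), 0 < c' ∧ Hyp E lam 1 c' := by
  obtain ⟨z₀, hz₀⟩ := hcon.nonempty
  obtain ⟨p, hp, hm, -, hL⟩ := exists_cover hE hc hF hb hz₀
  obtain ⟨c', hc', hH⟩ := cara hE hc hF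
  have hs := surj hE hcon hm hL
  have hch : ∀ z, ∃ x : ℂ, z ∉ E → ‖x‖ < 1 ∧ p x = z := fun z => by
    by_cases hz : z ∈ E
    · exact ⟨0, fun h => absurd hz h⟩
    · obtain ⟨x, hx, hx'⟩ := hs hz
      exact ⟨x, fun _ => ⟨mem_ball_zero_iff.mp hx, hx'⟩⟩
  choose X hX using hch
  refine ⟨fun z => 2 / mm p (X z), c', hc', fun z hz => ?_⟩
  obtain ⟨hx, hpx⟩ := hX z hz
  obtain ⟨σ, s1, s2, s3, s4⟩ := exists_section hE hL hx (by rwa [hpx])
  rw [hpx] at s1 s2 s3 s4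
  have hd0 : 0 < infDist z E := (hE.closed.notMem_iff_infDist_pos hE.nonempty).mp hz
  have key : ∀ w ∈ ball z (infDist z E),
      HasDerivAt σ (deriv σ w) w ∧ ‖deriv p (σ w)‖ * ‖deriv σ w‖ = 1 := by
    intro w hw
    have h1 : HasDerivAt σ (deriv σ w) w :=
      (s1.differentiableAt (isOpen_ball.mem_nhds hw)).hasDerivAt
    have h2 : HasDerivAt p (deriv p (σ w)) (σ w) :=
      (hp.differentiableAt (isOpen_ball.mem_nhds (s2 hw))).hasDerivAt
    have h3 : HasDerivAt (fun w : ℂ => w) (deriv p (σ w) * deriv σ w) w := by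
      refine (h2.comp w h1).congr_of_eventuallyEq ?_
      filter_upwards [isOpen_ball.mem_nhds hw] with t ht
      exact (s4 t ht).symm
    have h4 := congrArg norm (h3.unique (hasDerivAt_id w))
    exact ⟨h1, by simpa using h4⟩
  have hmm : 0 < mm p (X z) := by
    have h1 := (key z (mem_ball_self hd0)).2
    rw [s3] at h1
    refine mul_pos (one_sub_pos hx) (lt_of_le_of_ne (norm_nonneg _) fun h => ?_)
    rw [← h] at h1
    simp at h1
  refine ⟨?_, dmob (X z) ∘ σ, ?_, ?_, ?_, ?_⟩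
  · obtain ⟨H, h1, h2, h3, h4⟩ := hH z hz
    have hn : ‖-X z‖ < 1 := by rwa [norm_neg]
    have h5 := schwarz0 (g := H ∘ p ∘ dmob (-X z))
      (h1.comp (hp.comp (diffOn_dmob hn) (mapsTo_dmob hn)) (hm.comp (mapsTo_dmob hn)))
      (h2.comp (hm.comp (mapsTo_dmob hn))) (by simp [dmob_neg_zero, hpx, h3])
    have h6 : HasDerivAt H (deriv H z) ((p ∘ dmob (-X z)) 0) := by
      simp only [Function.comp_apply, dmob_neg_zero, hpx]
      exact (h1.differentiableAt (hE.closed.isOpen_compl.mem_nhds hz)).hasDerivAt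
    rw [(h6.comp 0 (hasDerivAt_comp_dmob hp hx)).deriv, norm_mul, norm_mul,
      norm_one_sub _ hx] at h5
    have h7 : ‖deriv H z‖ * mm p (X z) ≤ 1 := by unfold mm; nlinarith
    rw [le_div_iff₀ hmm]
    have h8 := mul_le_mul_of_nonneg_right h4 hmm.le
    linarith
  · rw [one_mul]
    exact (diffOn_dmob hx).comp s1 s2
  · rw [one_mul]
    exact (mapsTo_dmob hx).comp s2
  · simp [s3, dmob]
  · rw [one_mul]
    intro w hw
    have hy : ‖σ w‖ < 1 := mem_ball_zero_iff.mp (s2 hw)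
    have hwE : w ∉ E := by
      rw [← s4 w hw]
      exact hm (s2 hw)
    obtain ⟨hx', hpx'⟩ := hX w hwE
    have e1 : mm p (X w) = mm p (σ w) :=
      le_antisymm (mm_le hp hm hL hx' hy (by rw [s4 w hw, hpx']))
        (mm_le hp hm hL hy hx' (by rw [s4 w hw, hpx']))
    obtain ⟨k1, k2⟩ := key w hw
    simp only
    rw [e1, ((hasDerivAt_dmob hx hy).comp w k1).deriv, Function.comp_apply, one_sub_sq_dmob hx hy,
      norm_mul, norm_div, norm_pow, norm_one_sub _ hx]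
    have p1 := one_sub_pos hx
    have p2 := one_sub_pos hy
    have p3 := norm_pos_iff.mpr (dmob_den hx hy)
    have p4 : ‖deriv p (σ w)‖ ≠ 0 := fun h => by rw [h] at k2; simp at k2
    have e2 : ‖deriv σ w‖ = ‖deriv p (σ w)‖⁻¹ := by field_simp; linarith
    rw [e2]
    unfold mm
    field_simp

end Pool.Agent.Lib.MP_44acff_gt.NU
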