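import Pool.Agent.Lib.MP_44acff_gt.H70Base

/-! Curvature and completeness. -/

namespace Pool.Agent.Lib.MP_44acff_gt.NU

open Set Metric MeasureTheory Filter Topology ComplexConjugate
open scoped ContDiff

namespace SurfAux

theorem second {φ : ℂ → ℂ} {z : ℂ} (hφ : AnalyticAt ℂ φ z) (h0 : φ z = 0) (v : ℂ) :
    iteratedFDeriv ℝ 2 (fun w => Real.log (1 - ‖φ w‖ ^ 2)) z ![v, v] =
      -(2 * ‖deriv φ z * v‖ ^ 2) := by
  have hr : ContDiffAt ℝ 2 φ z := (hφ.contDiffAt (n := 2)).restrict_scalars ℝ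
  have hne : 1 - ‖φ z‖ ^ 2 ≠ 0 := by simp [h0]
  have hg : ContDiffAt ℝ 2 (fun w => Real.log (1 - ‖φ w‖ ^ 2)) z :=
    (contDiffAt_const.sub (hr.norm_sq ℝ)).log hne
  have hd : DifferentiableAt ℝ (fderiv ℝ fun w => Real.log (1 - ‖φ w‖ ^ 2)) z :=
    (hg.fderiv_right (m := 1) (by norm_num)).differentiableAt (by norm_num)
  have hF : ∀ {ψ : ℂ → ℂ} {w : ℂ}, AnalyticAt ℂ ψ w →
      HasFDerivAt ψ ((ContinuousLinearMap.toSpanSingleton ℂ (deriv ψ w)).restrictScalars ℝ) w :=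
    fun h => h.differentiableAt.hasDerivAt.hasFDerivAt.restrictScalars ℝ
  have hb : ContinuousAt (fun w => 1 - ‖φ w‖ ^ 2) z := by
    have := hφ.continuousAt
    fun_prop
  have e1 : (fun w => fderiv ℝ (fun w => Real.log (1 - ‖φ w‖ ^ 2)) w v) =ᶠ[𝓝 z]
      fun w => (1 - ‖φ w‖ ^ 2)⁻¹ * -(2 * inner ℝ (φ w) (deriv φ w * v)) := by
    filter_upwards [hφ.eventually_analyticAt, hb.eventually_ne hne] with w hw hw'
    rw [(((hF hw).norm_sq.const_sub 1).log hw').fderiv]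
    simp [mul_comm, mul_add]
  have e2 : fderiv ℝ (fun w => fderiv ℝ (fun w => Real.log (1 - ‖φ w‖ ^ 2)) w v) z v =
      fderiv ℝ (fderiv ℝ fun w => Real.log (1 - ‖φ w‖ ^ 2)) z v v := by
    rw [fderiv_clm_apply hd (differentiableAt_const v)]
    simp
  rw [iteratedFDeriv_two_apply]
  simp only [Matrix.cons_val_zero, Matrix.cons_val_one]
  rw [← e2, e1.fderiv_eq]
  have h1 : DifferentiableAt ℝ (fun w => (1 - ‖φ w‖ ^ 2)⁻¹) z :=
    ((hF hφ).norm_sq.const_sub 1).differentiableAt.inv hne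
  have h2 := (((hF hφ).inner ℝ ((hF hφ.deriv).mul_const v)).const_mul 2).neg
  have h3 := h1.hasFDerivAt.mul h2
  refine (congrArg (fun A : ℂ →L[ℝ] ℝ => A v) h3.fderiv).trans ?_
  simp [h0, mul_comm]

theorem lap {φ : ℂ → ℂ} {z : ℂ} (hφ : AnalyticAt ℂ φ z) (h0 : φ z = 0) (h1 : deriv φ z ≠ 0)
    (a : ℝ) : Laplacian.laplacian
      (fun w => a + Real.log ‖deriv φ w‖ - Real.log (1 - ‖φ w‖ ^ 2)) z = 4 * ‖deriv φ z‖ ^ 2 := by
  have hr : ContDiffAt ℝ 2 φ z := (hφ.contDiffAt (n := 2)).restrict_scalars ℝ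
  have hne : 1 - ‖φ z‖ ^ 2 ≠ 0 := by simp [h0]
  have hg : ContDiffAt ℝ 2 (fun w => Real.log (1 - ‖φ w‖ ^ 2)) z :=
    (contDiffAt_const.sub (hr.norm_sq ℝ)).log hne
  obtain ⟨h2, h3⟩ := hφ.deriv.harmonicAt_log_norm h1
  have e1 := ContDiffAt.laplacian_sub (f₁ := fun w => a + Real.log ‖deriv φ w‖)
    (contDiffAt_const.add h2) hg
  have e2 := ContDiffAt.laplacian_add (f₁ := fun _ : ℂ => a) contDiffAt_const h2
  refine e1.trans ?_
  refine (congrArg (· - _) e2).trans ?_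
  rw [h3.eq_of_nhds, InnerProductSpace.laplacian_const,
    InnerProductSpace.laplacian_eq_iteratedFDeriv_complexPlane]
  simp only [second hφ h0]
  simp
  ring

theorem stay {E : Set ℂ} (hE : Dom E) (hb : ∀ z, infDist z E ≤ 1) {γ γ' : ℝ → ℂ} {u : ℝ → ℝ}
    {t : ℝ} (hγ : ContinuousOn γ (Icc 0 t)) (hE' : ∀ s ∈ Icc 0 t, γ s ∉ E)
    (hd : ∀ s ∈ Ico 0 t, HasDerivWithinAt γ (γ' s) (Ici s) s) (hu : Continuous u)
    (hle : ∀ s ∈ Ico 0 t, 2 * ‖γ' s‖ / infDist (γ s) E ≤ u s) {s : ℝ} (hs : s ∈ Icc 0 t) :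
    ‖γ s - γ 0‖ - Real.log (infDist (γ s) E) ≤ - Real.log (infDist (γ 0) E) + ∫ x in 0..s, u x := by
  have hpos : ∀ s ∈ Icc 0 t, 0 < infDist (γ s) E := fun s hs =>
    (hE.closed.notMem_iff_infDist_pos hE.nonempty).1 (hE' s hs)
  have hdc : ContinuousOn (fun s => infDist (γ s) E) (Icc 0 t) :=
    (continuous_infDist_pt E).comp_continuousOn hγ
  refine image_le_of_liminf_slope_right_le_deriv_boundary
    (f := fun s => ‖γ s - γ 0‖ - Real.log (infDist (γ s) E))
    (B := fun s => - Real.log (infDist (γ 0) E) + ∫ x in 0..s, u x) (B' := u)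
    (((hγ.sub continuousOn_const).norm).sub (hdc.log fun s hs => (hpos s hs).ne')) (by simp)
    (fun x _ => ((hu.integral_hasStrictDerivAt 0 x).hasDerivAt.const_add _).continuousAt.continuousWithinAt)
    (fun x _ => ((hu.integral_hasStrictDerivAt 0 x).hasDerivAt.const_add _).hasDerivWithinAt)
    (fun x hx r hr => ?_) hs
  have hx' : x ∈ Icc 0 t := Ico_subset_Icc_self hx
  have hm : Icc 0 t ∈ 𝓝[>] x := mem_of_superset (Ioc_mem_nhdsGT hx.2) fun y hy =>
    ⟨hx.1.trans hy.1.le, hy.2⟩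
  have t1 : Tendsto (slope γ x) (𝓝[>] x) (𝓝 (γ' x)) := by
    exact (hasDerivWithinAt_iff_tendsto_slope' (by simp)).1 ((hd x hx).mono Ioi_subset_Ici_self)
  have t2 : Tendsto (fun s => infDist (γ s) E) (𝓝[>] x) (𝓝 (infDist (γ x) E)) :=
    ((hdc x hx').mono_of_mem_nhdsWithin hm).tendsto
  have t3 := t1.norm.mul ((t2.inv₀ (hpos x hx').ne').const_add 1)
  have hlt : ‖γ' x‖ * (1 + (infDist (γ x) E)⁻¹) < r := by
    refine lt_of_le_of_lt (le_trans ?_ (hle x hx)) hr
    have h1 : 1 ≤ (infDist (γ x) E)⁻¹ := (one_le_inv₀ (hpos x hx')).2 (hb _)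
    rw [div_eq_mul_inv]
    nlinarith [norm_nonneg (γ' x)]
  refine Eventually.frequently ?_
  filter_upwards [t3.eventually (gt_mem_nhds hlt), hm, self_mem_nhdsWithin] with y hy hy1 hy2
  refine lt_of_le_of_lt ?_ hy
  have hxy : 0 < y - x := sub_pos.2 hy2
  rw [slope_def_field, slope_def_module, norm_smul, Real.norm_of_nonneg (inv_nonneg.2 hxy.le),
    div_eq_inv_mul, mul_assoc]
  refine mul_le_mul_of_nonneg_left ?_ (inv_nonneg.2 hxy.le)
  have a1 : ‖γ y - γ 0‖ - ‖γ x - γ 0‖ ≤ ‖γ y - γ x‖ := by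
    simpa using norm_sub_norm_le (γ y - γ 0) (γ x - γ 0)
  have a2 : infDist (γ x) E ≤ infDist (γ y) E + ‖γ y - γ x‖ := by
    rw [← dist_eq_norm, dist_comm]; exact infDist_le_infDist_add_dist
  have p1 := hpos x hx'
  have p2 := hpos y hy1
  have a3 := Real.log_le_sub_one_of_pos (div_pos p1 p2)
  rw [Real.log_div p1.ne' p2.ne'] at a3
  have a4 : infDist (γ x) E / infDist (γ y) E - 1 ≤ ‖γ y - γ x‖ * (infDist (γ y) E)⁻¹ := by
    rw [← div_eq_mul_inv, div_sub_one p2.ne']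
    gcongr
    linarith
  linarith

end SurfAux

open SurfAux in
theorem surface {E : Set ℂ} {lam : ℂ → ℝ} {κ c e : ℝ} (hE : Dom E) (hκ : 0 < κ) (hc : 0 < c)
    (h : Hyp E lam κ c) (hb : ∀ z, infDist z E ≤ 1) (hcon : IsConnected Eᶜ) (he : 0 < e) :
    CompleteSurface (-e) Eᶜ (fun z => lam z / √e) := by
  have hdp : ∀ z ∉ E, 0 < infDist z E := fun z hz =>
    (hE.closed.notMem_iff_infDist_pos hE.nonempty).1 hz
  have hpos : ∀ z ∉ E, 0 < lam z := fun z hz => (div_pos hc (hdp z hz)).trans_le (h z hz).1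
  have hse : 0 < √e := Real.sqrt_pos.2 he
  have loc : ∀ z ∉ E, ∃ φ : ℂ → ℂ, AnalyticAt ℂ φ z ∧ φ z = 0 ∧ deriv φ z ≠ 0 ∧
      lam =ᶠ[𝓝 z] fun w => 2 * ‖deriv φ w‖ / (1 - ‖φ w‖ ^ 2) := by
    intro z hz
    obtain ⟨-, φ, h1, -, h3, h4⟩ := h z hz
    have hm : ball z (κ * infDist z E) ∈ 𝓝 z := ball_mem_nhds z (mul_pos hκ (hdp z hz))
    refine ⟨φ, h1.analyticAt hm, h3, fun h0 => ?_, mem_of_superset hm h4⟩
    have := hpos z hz
    rw [h4 z (mem_of_mem_nhds hm), h0] at this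
    simp at this
  have hsm : ContDiffOn ℝ ∞ (fun z => lam z / √e) Eᶜ := by
    intro z hz
    obtain ⟨φ, h1, h2, h3, h4⟩ := loc z hz
    have a1 : ContDiffAt ℝ ∞ φ z := (h1.contDiffAt (n := ∞)).restrict_scalars ℝ
    have a2 : ContDiffAt ℝ ∞ (deriv φ) z := (h1.deriv.contDiffAt (n := ∞)).restrict_scalars ℝ
    exact ((((contDiffAt_const.mul (a2.norm ℝ h3)).div (contDiffAt_const.sub (a1.norm_sq ℝ))
      (by simp [h2])).congr_of_eventuallyEq h4).div_const _).contDiffWithinAt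
  refine ⟨hE.closed.isOpen_compl, hcon, hsm, fun z hz => div_pos (hpos z hz) hse, fun z hz => ?_,
    fun γ hγ hm hi => ?_⟩
  · obtain ⟨φ, h1, h2, h3, h4⟩ := loc z hz
    have hb' : ContinuousAt (fun w => 1 - ‖φ w‖ ^ 2) z := by
      have := h1.continuousAt
      fun_prop
    have e1 : (fun w => Real.log (lam w / √e)) =ᶠ[𝓝 z]
        fun w => Real.log (2 / √e) + Real.log ‖deriv φ w‖ - Real.log (1 - ‖φ w‖ ^ 2) := by
      filter_upwards [h4, h1.deriv.continuousAt.eventually_ne h3,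
        hb'.eventually_ne (show 1 - ‖φ z‖ ^ 2 ≠ 0 by simp [h2])] with w hw h5 h6
      have h7 : ‖deriv φ w‖ ≠ 0 := norm_ne_zero_iff.2 h5
      rw [hw, ← Real.log_mul (by positivity) h7, ← Real.log_div (by positivity) h6]
      congr 1
      ring
    rw [(InnerProductSpace.laplacian_congr_nhds e1).eq_of_nhds, lap h1 h2 h3, h4.eq_of_nhds, h2,
      div_pow, Real.sq_sqrt he.le]
    simp only [norm_zero]
    field_simp
    ring
  · set M := ∫ s in Ioo (0 : ℝ) 1, lam (γ s) / √e * ‖deriv γ s‖ with hM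
    set N := - Real.log (infDist (γ 0) E) + 2 * √e / c * M with hN
    have key : ∀ t ∈ Ico (0 : ℝ) 1, ‖γ t - γ 0‖ - Real.log (infDist (γ t) E) ≤ N := by
      intro t ht
      have hsub : Icc 0 t ⊆ Ico 0 1 := Icc_subset_Ico_right ht.2
      have hc1 : ContinuousOn (fun s => lam (γ s) / √e * ‖derivWithin γ (Ico 0 1) s‖) (Ico 0 1) :=
        (hsm.continuousOn.comp hγ.continuousOn hm).mul
          (hγ.continuousOn_derivWithin (uniqueDiffOn_Ico 0 1) le_rfl).norm
      have hcl : ∀ s, (projIcc 0 t ht.1 s : ℝ) ∈ Ico (0 : ℝ) 1 := fun s => hsub (projIcc 0 t ht.1 s).2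
      have hc2 : Continuous fun s => 2 * √e / c * (lam (γ (projIcc 0 t ht.1 s)) / √e *
          ‖derivWithin γ (Ico 0 1) (projIcc 0 t ht.1 s)‖) :=
        continuous_const.mul (hc1.comp_continuous
          (continuous_subtype_val.comp continuous_projIcc) hcl)
      refine (stay hE hb (γ' := derivWithin γ (Ico 0 1)) (hγ.continuousOn.mono hsub)
        (fun s hs => hm (hsub hs)) (fun s hs => ?_) hc2 (fun s hs => ?_)
        (right_mem_Icc.2 ht.1)).trans ?_
      · have hs' := hsub (Ico_subset_Icc_self hs)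
        exact ((hγ.differentiableOn (by norm_num) s hs').hasDerivWithinAt).mono_of_mem_nhdsWithin
          (mem_of_superset (Ico_mem_nhdsGE hs'.2) (Ico_subset_Ico_left hs'.1))
      · have hs' := hm (hsub (Ico_subset_Icc_self hs))
        simp only [projIcc_of_mem ht.1 (Ico_subset_Icc_self hs)]
        have h1 := mul_le_mul_of_nonneg_right (h _ hs').1 (norm_nonneg (derivWithin γ (Ico 0 1) s))
        have h2 := hdp _ hs'
        calc _ = 2 / c * (c / infDist (γ s) E * ‖derivWithin γ (Ico 0 1) s‖) := by field_simp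
          _ ≤ 2 / c * (lam (γ s) * ‖derivWithin γ (Ico 0 1) s‖) := by gcongr
          _ = _ := by field_simp
      · rw [hN, intervalIntegral.integral_const_mul, intervalIntegral.integral_of_le ht.1,
          integral_Ioc_eq_integral_Ioo]
        gcongr
        rw [setIntegral_congr_fun (g := fun s => lam (γ s) / √e * ‖deriv γ s‖) measurableSet_Ioo]
        · refine setIntegral_mono_set hi ?_ (Ioo_subset_Ioo_right ht.2.le).eventuallyLE
          filter_upwards [ae_restrict_mem measurableSet_Ioo] with s hs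
          exact mul_nonneg (div_pos (hpos _ (hm (Ioo_subset_Ico_self hs))) hse).le (norm_nonneg _)
        · intro s hs
          simp only [projIcc_of_mem ht.1 (Ioo_subset_Icc_self hs)]
          rw [derivWithin_of_mem_nhds (Ico_mem_nhds hs.1 (hs.2.trans ht.2))]
    refine ⟨closedBall (γ 0) N ∩ {z | Real.exp (-N) ≤ infDist z E}, (isCompact_closedBall _ _).inter_right
      (isClosed_le continuous_const (continuous_infDist_pt E)), fun z hz hz' => ?_, fun t ht => ?_⟩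
    · have := hz.2
      rw [mem_ofPred_eq, infDist_zero_of_mem hz'] at this
      exact absurd this (not_le.2 (Real.exp_pos _))
    · have h1 := key t ht
      have h2 := hdp _ (hm ht)
      have h3 := Real.log_nonpos h2.le (hb (γ t))
      refine ⟨by rw [mem_closedBall, dist_eq_norm]; linarith, ?_⟩
      rw [mem_ofPred_eq, ← Real.le_log_iff_exp_le h2]
      linarith [norm_nonneg (γ t - γ 0)]

end Pool.Agent.Lib.MP_44acff_gt.NU
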