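import Pool.Agent.Lib.MP_44acff_gt.H38Defs

set_option autoImplicit false

open Set Metric Topology Filter

namespace Pool.Agent.Lib.MP_44acff_gt

noncomputable section

section
variable {E : Type} [NormedAddCommGroup E] [InnerProductSpace ℝ E]

theorem cosh_dist (x y : Hyp E) : Real.cosh (dist x y) = -lor x.v y.v :=
  Real.cosh_arcosh (one_le_neg_lor x y)

/-- The base point of hyperbolic space. -/
def Hyp.o : Hyp E := ⟨(1, 0), by simp [lor], one_pos⟩

/-- Future timelike vectors. -/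
def TL (w : ℝ × E) : Prop := lor w w < 0 ∧ 0 < w.1

/-- Future causal (timelike or null, nonzero) vectors. -/
def Caus (w : ℝ × E) : Prop := lor w w ≤ 0 ∧ 0 < w.1

open Classical in
/-- Normalisation of a future timelike vector to a point of the hyperboloid. -/
def nrm (w : ℝ × E) : Hyp E :=
  if h : TL w then
    ⟨(√(-lor w w))⁻¹ • w, by
      have h1 : 0 < -lor w w := by linarith [h.1]
      have h2 := Real.sq_sqrt h1.le
      have h3 := (Real.sqrt_pos.mpr h1).ne'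
      rw [lor_smul_left, lor_smul_right]
      field_simp
      linarith, by
      have h1 : 0 < -lor w w := by linarith [h.1]
      have h3 := Real.sqrt_pos.mpr h1
      have := h.2
      simp only [Prod.smul_fst, smul_eq_mul]
      positivity⟩
  else Hyp.o

theorem nrm_v {w : ℝ × E} (h : TL w) : (nrm w).v = (√(-lor w w))⁻¹ • w := by
  simp [nrm, h]

end

/-- `Aa u p = - lor p (1,u)`; its logarithm is the Busemann function of the ideal point `u`. -/
def Aa (u : S2) (p : H3) : ℝ := -lor p.v (1, (u : E3))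

/-- The ideal boundary as a subset of the unit sphere. -/
def idealS (C : Set H3) : Set S2 := {u | (u : E3) ∈ closure (klein '' C)}

/-- A realisation of `S` as the boundary of a closed convex domain. -/
structure Realis (S : Type) [MetricSpace S] where
  C : Set H3
  closed : IsClosed C
  convex : GConvex C
  int : (interior C).Nonempty
  φ : S → H3
  range_φ : range φ = frontier C
  isom : ∀ x y, edist x y = pathDist (frontier C) (φ x) (φ y)

/-- The ideal point `u` retracts to the point `y` of the surface. -/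
def Ov {S : Type} [MetricSpace S] (R : Realis S) (u : S2) (y : S) : Prop :=
  ∀ c ∈ R.C, Aa u (R.φ y) ≤ Aa u c

/-- The shadow of a part of the surface on the sphere at infinity. -/
def Sh {S : Type} [MetricSpace S] (R : Realis S) (Y : Set S) : Set S2 :=
  {u | ∃ y ∈ Y, Ov R u y}

/-- A test function with cells of size `D` and energy at most `En`. -/
def IsTest {S : Type} [MetricSpace S] (U : S → ℝ) (D En : ℝ) : Prop :=
  ∃ (ι : Type) (J : Finset ι) (c : ι → S) (l : ι → ℝ), (∀ k, 0 ≤ l k) ∧ ∑ k ∈ J, l k ^ 2 ≤ En ∧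
    ∀ y, (∀ᶠ y' in 𝓝 y, U y' = U y) ∨
      ∃ k ∈ J, dist y (c k) ≤ D ∧ ∀ᶠ y' in 𝓝 y, |U y' - U y| ≤ l k * dist y' y

/-- A test function that separates two sets. -/
def SepTest {S : Type} [MetricSpace S] (D En : ℝ) (α β : Set S) : Prop :=
  ∃ U : S → ℝ, IsTest U D En ∧ (∀ y ∈ α, 1 ≤ U y) ∧ ∀ y ∈ β, U y ≤ 0

/-- Parabolicity: balls are separated from infinity with arbitrarily small energy. -/
def Parab (S : Type) [MetricSpace S] : Prop :=
  ∃ D : ℝ, ∀ (o : S) (r ε : ℝ), 0 < ε → ∃ r' : ℝ,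
    SepTest D ε (closedBall o r) {y | r' ≤ dist y o}

/-- The exponent in the cross-ratio estimates. -/
def eps (D En : ℝ) : ℝ := 8 * Real.pi ^ 2 * Real.exp (2 * D) * En

/-- The cross-ratio estimate. -/
def CRle (ε : ℝ) (ξ₀ ξ₁ η₁ η₂ : S2) : Prop :=
  dist ξ₀ ξ₁ * dist η₁ η₂ ≤ Real.exp ε * (dist ξ₀ η₁ * dist ξ₁ η₂) ∧
    (ε ≤ 1 / 10 → dist ξ₀ ξ₁ * dist η₁ η₂ ≤ 10 * ε * (dist ξ₀ η₁ * dist ξ₁ η₂))

/-- `IsKSurface` without planarity. -/
structure PreK (K : ℝ) (S : Type) [MetricSpace S] : Prop where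
  complete : CompleteSpace S
  connected : ConnectedSpace S
  length : ∀ x y : S, edist x y = pathDist univ x y
  chart : ∀ p : S, ∃ r : ℝ, 0 < r ∧ ∃ f : S → H2, f '' ball p r = ball (f p) (√(-K) * r) ∧
    ∀ x ∈ ball p r, ∀ y ∈ ball p r, dist (f x) (f y) = √(-K) * dist x y

/-- The ultralimit of a sequence of sets. -/
def ULim {X : Type} [PseudoMetricSpace X] (𝒰 : Ultrafilter ℕ) (A : ℕ → Set X) : Set X :=
  {p | ∀ ε : ℝ, 0 < ε → ∀ᶠ n in (𝒰 : Filter ℕ), ∃ q ∈ A n, dist q p < ε}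

/-- Pointed convergence of the spaces `S n` to `T` along `𝒰`. -/
structure GConv (S : ℕ → Type) [∀ n, MetricSpace (S n)] (T : Type) [MetricSpace T]
    (𝒰 : Ultrafilter ℕ) (ap : T → ∀ n, S n) (o : T) : Prop where
  dist_tendsto : ∀ x y, Tendsto (fun n => dist (ap x n) (ap y n)) 𝒰 (𝓝 (dist x y))
  bdd : ∀ (y : ∀ n, S n) (r : ℝ), (∀ᶠ n in (𝒰 : Filter ℕ), dist (y n) (ap o n) ≤ r) →
    ∃ x, Tendsto (fun n => dist (y n) (ap x n)) 𝒰 (𝓝 0)

/-- The three kinds of pieces. -/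
inductive Kind : Type
  | cusp : Kind
  | block : Kind
  | marker : Fin 4 → Kind

/-- The combinatorics of the tree of pieces. -/
structure KTree {ι : Type} (I : ℕ → Finset ι) (par : ℕ → ι → ι) (kind : ι → Kind) : Prop where
  par_mem : ∀ j, ∀ a ∈ I (j + 1), par j a ∈ I j
  cusp : ∀ j, ∀ a ∈ I (j + 1), ∀ b ∈ I (j + 1), par j a = par j b → kind (par j a) = .cusp →
    a = b ∧ kind a = .cusp
  marker_ex : ∀ j i, ∃ a ∈ I j, kind a = .marker i
  marker_uniq : ∀ j i, ∀ a ∈ I j, ∀ b ∈ I j, kind a = .marker i → kind b = .marker i → a = b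
  marker_par : ∀ j i, ∀ a ∈ I (j + 1), kind a = .marker i → kind (par j a) = .marker i
  marker_child : ∀ j i, ∀ a ∈ I (j + 1), kind (par j a) = .marker i →
    kind a = .marker i ∨ kind a = .cusp
  marker_cusp : ∀ j i, ∀ a ∈ I j, kind a = .marker i →
    ∃ b ∈ I (j + 1), par j b = a ∧ kind b = .cusp
  block : ∀ j, ∀ a ∈ I j, kind a = .block → ∃ b ∈ I (j + 1), ∃ b' ∈ I (j + 1), b ≠ b' ∧
    par j b = a ∧ par j b' = a ∧ kind b = .block ∧ kind b' = .block

/-- The tree of pieces of the approximating surfaces. -/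
structure PTree (S : ℕ → Type) [∀ n, MetricSpace (S n)] (T : Type) [MetricSpace T]
    (ap : T → ∀ n, S n) (o : T) (D : ℝ) {ι : Type} (I : ℕ → Finset ι) (par : ℕ → ι → ι)
    (P : ℕ → ι → ∀ n, Set (S n)) (Z : ∀ n, Set (S n)) : Prop where
  conn : ∀ j, ∀ a ∈ I j, ∀ᶠ n in atTop, IsPreconnected (P j a n)
  connZ : ∀ᶠ n in atTop, IsPreconnected (Z n)
  anc : ∀ j, ∀ a ∈ I j, ∃ x x' : T, x ≠ x' ∧ ∀ᶠ n in atTop, ap x n ∈ P j a n ∧ ap x' n ∈ P j a n
  ancZ : ∃ x x' : T, x ≠ x' ∧ ∀ᶠ n in atTop, ap x n ∈ Z n ∧ ap x' n ∈ Z n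
  cover : ∀ j, ∃ r : ℝ, ∀ᶠ n in atTop, ∀ y, dist y (ap o n) ≤ r ∨ ∃ a ∈ I j, y ∈ P j a n
  small : ∀ ε : ℝ, 0 < ε → ∀ᶠ j in atTop, ∀ a ∈ I j, ∀ᶠ n in atTop, SepTest D ε (P j a n) (Z n)
  sep : ∀ j, ∃ N : ℝ, ∀ a ∈ I j, ∀ b ∈ I j, a ≠ b →
    ∀ᶠ n in atTop, SepTest D N (P j a n) (P j b n)
  unb : ∀ j, ∀ a ∈ I j, ∀ᶠ n in atTop, ¬ Bornology.IsBounded (P j a n)
  nest : ∀ j, ∀ a ∈ I (j + 1), ∀ᶠ n in atTop, P (j + 1) a n ⊆ P j (par j a) n

/-- A test of energy `En` that separates the markers `i₀, i₁` from the markers `i₂, i₃`. -/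
def MarkTest (S : ℕ → Type) [∀ n, MetricSpace (S n)] (D En : ℝ) {ι : Type} (I : ℕ → Finset ι)
    (kind : ι → Kind) (P : ℕ → ι → ∀ n, Set (S n)) (i₀ i₁ i₂ i₃ : Fin 4) : Prop :=
  ∃ α β : ∀ n, Set (S n),
    (∀ᶠ n in atTop, IsPreconnected (α n) ∧ IsPreconnected (β n) ∧ SepTest D En (α n) (β n)) ∧
    ∀ j, ∀ a ∈ I j, ∀ᶠ n in atTop,
      ((kind a = .marker i₀ ∨ kind a = .marker i₁) → P j a n ⊆ α n) ∧
      ((kind a = .marker i₂ ∨ kind a = .marker i₃) → P j a n ⊆ β n)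

/-- The points of `E` that are limit points but not limits of limit points. -/
def marks {X : Type} [TopologicalSpace X] (E : Set X) : Set X :=
  derivedSet E \ derivedSet (derivedSet E)

end

end Pool.Agent.Lib.MP_44acff_gt
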