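import Pool.Agent.Lib.MP_44acff_gt.H38Core

set_option autoImplicit false

open Set Metric Topology Filter

namespace Pool.Agent.Lib.MP_44acff_gt

noncomputable section

/-- Unit normals of the three sides of the ideal triangle. -/
def ee : Fin 3 → ℝ × E2 := ![(0, !₂[1, 0]), (1, !₂[-1, 1]), (1, !₂[-1, -1])]

/-- `aa i z` is the hyperbolic sine of the signed distance from `z` to side `i`. -/
def aa (i : Fin 3) (z : H2) : ℝ := -lor z.v (ee i)

/-- `hh i` is a horofunction at the vertex opposite to side `i`. -/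
def hh (i : Fin 3) (z : H2) : ℝ := (∑ j, aa j z) - aa i z

/-- The ideal triangle. -/
def Tri : Set H2 := {z | ∀ i, 0 ≤ aa i z}

/-- Barycentric coordinates on the ideal triangle. -/
def bary (z : H2) : Fin 3 → ℝ := fun i => aa i z / ∑ j, aa j z

/-- The simplex without its vertices. -/
def Sx : Set (Fin 3 → ℝ) := {b | b ∈ stdSimplex ℝ (Fin 3) ∧ ∀ i, b i ≠ 1}

/-- The anchor in the ideal triangle. -/
def Z0 : Set H2 := Tri ∩ closedBall Hyp.o (1 / 2)

theorem aa_zero (z : H2) : aa 0 z = -z.v.2 0 := by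
  simp [aa, ee, lor, EuclideanSpace.inner_eq_star_dotProduct, dotProduct, Fin.sum_univ_two]

theorem aa_one (z : H2) : aa 1 z = z.v.1 + z.v.2 0 - z.v.2 1 := by
  simp [aa, ee, lor, EuclideanSpace.inner_eq_star_dotProduct, dotProduct, Fin.sum_univ_two]
  ring

theorem aa_two (z : H2) : aa 2 z = z.v.1 + z.v.2 0 + z.v.2 1 := by
  simp [aa, ee, lor, EuclideanSpace.inner_eq_star_dotProduct, dotProduct, Fin.sum_univ_two]
  ring

theorem o_mem_Tri : (Hyp.o : H2) ∈ Tri := by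
  intro i
  fin_cases i
  · simp [aa_zero, Hyp.o]
  · simp [aa_one, Hyp.o]
  · simp [aa_two, Hyp.o]

theorem exists_side (i : Fin 3) : ∃ z ∈ Tri, aa i z = 0 := by
  have h : ∀ s : ℝ, s ^ 2 = 1 / 4 → lor ((3 / 2 : ℝ), (!₂[-1, s] : E2)) (3 / 2, !₂[-1, s]) = -1 := by
    intro s hs
    simp [lor, EuclideanSpace.norm_sq_eq, Fin.sum_univ_two]
    nlinarith
  fin_cases i
  · exact ⟨Hyp.o, o_mem_Tri, by simp [aa_zero, Hyp.o]⟩
  · refine ⟨⟨_, h (1 / 2) (by norm_num), by norm_num⟩, fun j => ?_, ?_⟩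
    · fin_cases j
      · simp [aa_zero]
      · simp [aa_one]; norm_num
      · simp [aa_two]; norm_num
    · simp [aa_one]; norm_num
  · refine ⟨⟨_, h (-1 / 2) (by norm_num), by norm_num⟩, fun j => ?_, ?_⟩
    · fin_cases j
      · simp [aa_zero]
      · simp [aa_one]; norm_num
      · simp [aa_two]; norm_num
    · simp [aa_two]; norm_num

/-- A set of flags with three fixed-point-free involutions. -/
structure PreFlag (Φ : Type) where
  X : Set Φ
  s : Fin 3 → Φ → Φ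
  s_mem : ∀ i, ∀ x ∈ X, s i x ∈ X
  s_inv : ∀ i, ∀ x ∈ X, s i (s i x) = x
  s_ne : ∀ i, ∀ x ∈ X, s i x ≠ x

variable {Φ : Type}

/-- Reachability through flags of `Y`. -/
def PreFlag.Reach (F : PreFlag Φ) (Y : Set Φ) : Φ → Φ → Prop :=
  Relation.ReflTransGen fun x y => x ∈ Y ∧ y ∈ Y ∧ ∃ i, y = F.s i x

/-- A connected flag system with a base flag. -/
structure FlagSys (Φ : Type) extends PreFlag Φ where
  b : Φ
  b_mem : b ∈ X
  conn : ∀ x ∈ X, toPreFlag.Reach X b x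

/-- Chains of moves inside a triangle and gluings along sides, with their lengths. -/
inductive Chain (F : PreFlag Φ) (x₀ : Φ) (z₀ : H2) : Φ → H2 → ℝ → Prop
  | refl : Chain F x₀ z₀ x₀ z₀ 0
  | move {x : Φ} {z w : H2} {L : ℝ} : Chain F x₀ z₀ x z L → x ∈ F.X → z ∈ Tri → w ∈ Tri →
      Chain F x₀ z₀ x w (L + dist z w)
  | glue {x : Φ} {z : H2} {L : ℝ} (i : Fin 3) : Chain F x₀ z₀ x z L → x ∈ F.X → z ∈ Tri →
      aa i z = 0 → Chain F x₀ z₀ (F.s i x) z L

theorem Chain.nonneg {F : PreFlag Φ} {x₀ x : Φ} {z₀ z : H2} {L : ℝ}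
    (h : Chain F x₀ z₀ x z L) : 0 ≤ L := by
  induction h with
  | refl => exact le_rfl
  | move _ _ _ _ ih => exact add_nonneg ih dist_nonneg
  | glue _ _ _ _ _ ih => exact ih

theorem Chain.trans {F : PreFlag Φ} {x₀ x₁ x₂ : Φ} {z₀ z₁ z₂ : H2} {L L' : ℝ}
    (h : Chain F x₀ z₀ x₁ z₁ L) (h' : Chain F x₁ z₁ x₂ z₂ L') :
    Chain F x₀ z₀ x₂ z₂ (L + L') := by
  induction h' with
  | refl => simpa using h
  | move _ hx hz hw ih => rw [← add_assoc]; exact ih.move hx hz hw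
  | glue i _ hx hz ha ih => exact ih.glue i hx hz ha

theorem Chain.symm {F : PreFlag Φ} {x₀ x : Φ} {z₀ z : H2} {L : ℝ}
    (h : Chain F x₀ z₀ x z L) : Chain F x z x₀ z₀ L := by
  induction h with
  | refl => exact Chain.refl
  | move _ hx hz hw ih =>
    have := ((Chain.refl (F := F)).move hx hw hz).trans ih
    rwa [zero_add, add_comm, dist_comm] at this
  | glue i _ hx hz ha ih =>
    have h1 := (Chain.refl (F := F)).glue i (F.s_mem i _ hx) hz ha
    rw [F.s_inv i _ hx] at h1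
    simpa using h1.trans ih

theorem exists_chain_of_reach {F : PreFlag Φ} {x y : Φ} (h : F.Reach F.X x y) (hx : x ∈ F.X)
    {z : H2} (hz : z ∈ Tri) : ∀ w ∈ Tri, ∃ L, Chain F x z y w L := by
  induction h with
  | refl => exact fun w hw => ⟨_, Chain.refl.move hx hz hw⟩
  | tail _ h ih =>
    obtain ⟨h1, h2, i, rfl⟩ := h
    obtain ⟨m, hm, hm'⟩ := exists_side i
    obtain ⟨L, hL⟩ := ih m hm
    exact fun w hw => ⟨_, (hL.glue i h1 hm hm').move h2 hm hw⟩

theorem FlagSys.exists_chain (F : FlagSys Φ) {x y : Φ} (hx : x ∈ F.X) (hy : y ∈ F.X) {z w : H2}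
    (hz : z ∈ Tri) (hw : w ∈ Tri) : ∃ L, Chain F.toPreFlag x z y w L := by
  obtain ⟨L, hL⟩ := exists_chain_of_reach (F.conn x hx) F.b_mem o_mem_Tri z hz
  obtain ⟨L', hL'⟩ := exists_chain_of_reach (F.conn y hy) F.b_mem o_mem_Tri w hw
  exact ⟨_, hL.symm.trans hL'⟩

/-- The chain distance. -/
def DD (F : PreFlag Φ) (x : Φ) (z : H2) (y : Φ) (w : H2) : ℝ := sInf {L | Chain F x z y w L}

theorem DD_le {F : PreFlag Φ} {x y : Φ} {z w : H2} {L : ℝ} (h : Chain F x z y w L) :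
    DD F x z y w ≤ L :=
  csInf_le ⟨0, fun _ h => h.nonneg⟩ h

theorem DD_nonneg (F : PreFlag Φ) (x y : Φ) (z w : H2) : 0 ≤ DD F x z y w :=
  Real.sInf_nonneg fun _ h => h.nonneg

/-- Points of the disjoint union of the triangles. -/
structure PPt (κ : ℝ) (F : FlagSys Φ) where
  x : Φ
  z : H2
  hx : x ∈ F.X
  hz : z ∈ Tri

instance (κ : ℝ) (F : FlagSys Φ) : PseudoMetricSpace (PPt κ F) where
  dist p q := |κ| * DD F.toPreFlag p.x p.z q.x q.z
  dist_self p := by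
    rw [le_antisymm (DD_le Chain.refl) (DD_nonneg _ _ _ _ _), mul_zero]
  dist_comm p q := by
    unfold DD
    congr 2
    ext L
    exact ⟨Chain.symm, Chain.symm⟩
  dist_triangle p q r := by
    rw [← mul_add]
    refine mul_le_mul_of_nonneg_left ?_ (abs_nonneg κ)
    have h1 := F.exists_chain p.hx q.hx p.hz q.hz
    have h2 := F.exists_chain q.hx r.hx q.hz r.hz
    rw [← sub_le_iff_le_add]
    refine le_csInf h1 fun L hL => ?_
    rw [sub_le_comm]
    refine le_csInf h2 fun L' hL' => ?_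
    have := DD_le (Chain.trans hL hL')
    linarith

/-- The surface glued from copies of the ideal triangle, scaled by `κ`. -/
def Surf (κ : ℝ) (F : FlagSys Φ) : Type := SeparationQuotient (PPt κ F)

instance (κ : ℝ) (F : FlagSys Φ) : MetricSpace (Surf κ F) :=
  inferInstanceAs (MetricSpace (SeparationQuotient (PPt κ F)))

open Classical in
/-- The point `z` of the triangle of the flag `x`. -/
def spt (κ : ℝ) (F : FlagSys Φ) (x : Φ) (z : H2) : Surf κ F :=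
  if h : x ∈ F.X ∧ z ∈ Tri then SeparationQuotient.mk (⟨x, z, h.1, h.2⟩ : PPt κ F)
  else SeparationQuotient.mk (⟨F.b, Hyp.o, F.b_mem, o_mem_Tri⟩ : PPt κ F)

theorem dist_mk (κ : ℝ) (F : FlagSys Φ) {x y : Φ} (hx : x ∈ F.X) (hy : y ∈ F.X) {z w : H2}
    (hz : z ∈ Tri) (hw : w ∈ Tri) :
    dist (spt κ F x z) (spt κ F y w) = |κ| * DD F.toPreFlag x z y w := by
  unfold spt
  rw [dif_pos ⟨hx, hz⟩, dif_pos ⟨hy, hw⟩]
  exact SeparationQuotient.dist_mk _ _

/-- A chosen representative. -/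
def rep {κ : ℝ} {F : FlagSys Φ} (y : Surf κ F) : PPt κ F :=
  (SeparationQuotient.surjective_mk (X := PPt κ F) y).choose

theorem mk_rep {κ : ℝ} {F : FlagSys Φ} (y : Surf κ F) : spt κ F (rep y).x (rep y).z = y := by
  unfold spt
  rw [dif_pos ⟨(rep y).hx, (rep y).hz⟩]
  exact (SeparationQuotient.surjective_mk (X := PPt κ F) y).choose_spec

theorem exists_mk {κ : ℝ} {F : FlagSys Φ} (y : Surf κ F) :
    ∃ x ∈ F.X, ∃ z ∈ Tri, y = spt κ F x z :=
  ⟨_, (rep y).hx, _, (rep y).hz, (mk_rep y).symm⟩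

/-- The approximating points. -/
def apx (κ : ℝ) (F : ℕ → FlagSys Φ) (G : FlagSys Φ) (y : Surf κ G) (n : ℕ) : Surf κ (F n) :=
  spt κ (F n) (rep y).x (rep y).z

/-- Local convergence of flag systems. -/
def Conv (F : ℕ → FlagSys Φ) (G : FlagSys Φ) : Prop :=
  (∀ n, (F n).b = G.b) ∧ ∀ x ∈ G.X, ∀ᶠ n in atTop, x ∈ (F n).X ∧ ∀ i, (F n).s i x = G.s i x

/-- A drawing of a finite flag system as a triangulation of the sphere. -/
structure Emb (F : PreFlag Φ) (τ : Φ → (Fin 3 → ℝ) → S2) : Prop where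
  fin : F.X.Finite
  cont : ∀ x ∈ F.X, ContinuousOn (τ x) (stdSimplex ℝ (Fin 3))
  cover : ∀ u, ∃ x ∈ F.X, ∃ b ∈ stdSimplex ℝ (Fin 3), τ x b = u
  glue : ∀ x ∈ F.X, ∀ i, ∀ b ∈ stdSimplex ℝ (Fin 3), b i = 0 → τ (F.s i x) b = τ x b
  inj : ∀ x ∈ F.X, ∀ x' ∈ F.X, ∀ b ∈ Sx, ∀ b' ∈ stdSimplex ℝ (Fin 3), τ x b = τ x' b' →
    b' = b ∧ (x' = x ∨ ∃ i, b i = 0 ∧ x' = F.s i x)
  vinj : ∀ x ∈ F.X, Function.Injective fun i : Fin 3 => τ x (Pi.single i 1)

/-- The vertices of the drawn triangles. -/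
def vtx (τ : Φ → (Fin 3 → ℝ) → S2) (x : Φ) (i : Fin 3) : S2 := τ x (Pi.single i 1)

/-- The triangles with all vertices in `G` and the cusps at the vertices in `G`. -/
def piece (κ : ℝ) (F : FlagSys Φ) (τ : Φ → (Fin 3 → ℝ) → S2) (G : Set S2) (η : ℝ) :
    Set (Surf κ F) :=
  {y | ∃ x ∈ F.X, ∃ z ∈ Tri, y = spt κ F x z ∧
    ((∀ i, vtx τ x i ∈ G) ∨ ∃ i, vtx τ x i ∈ G ∧ hh i z ≤ η)}

end

end Pool.Agent.Lib.MP_44acff_gt
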