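import Pool.Agent.Lib.MP_44acff_gt.H70BeltA

/-! Solution of the Beltrami equation with scale invariant estimates. -/

namespace Pool.Agent.Lib.MP_44acff_gt.NU

open Set Metric MeasureTheory Filter Topology ComplexConjugate
open scoped ContDiff

variable {E : Set ℂ} {A θ : ℝ}

namespace BeltAux

variable {η η₁ Cp CB Cc M M' : ℝ} {x y x' y' : ℂ} {μ g g' F V : ℂ × ℂ → ℂ} {p : ℂ × ℂ}

/-- The second point of the local pair. -/
noncomputable def nb (E : Set ℂ) (x : ℂ) : ℂ := x + (infDist x E / 4 : ℝ)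

theorem pair_nb (hE : Dom E) (hx : x ∉ E) :
    0 < infDist x E ∧ ‖x - nb E x‖ = infDist x E / 4 ∧ Pair E x (nb E x) := by
  have h1 : 0 < infDist x E := (hE.closed.notMem_iff_infDist_pos hE.nonempty).mp hx
  have h2 : ‖x - nb E x‖ = infDist x E / 4 := by
    rw [nb, sub_add_cancel_left, norm_neg, Complex.norm_real, Real.norm_eq_abs,
      abs_of_pos (by positivity)]
  refine ⟨h1, h2, fun h => ?_, by linarith⟩
  rw [← sub_eq_zero, ← norm_eq_zero, h2] at h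
  linarith

theorem loc_n0 (hE : Dom E) (hx : x ∉ E) (hV : B1 E θ (Wp E x (nb E x)) V M)
    (hp : p ∈ Tube E θ) (hm : ‖mid p - x‖ ≤ infDist x E / 2) :
    n0 E θ (Wj E 0) V p ≤ 2 * M ∧ n0 E θ (Wj E (-1)) (dz V) p ≤ 2 * M ∧ ‖V p‖ ≤ 2 * M := by
  obtain ⟨-, h2, h3⟩ := pair_nb hE hx
  have h4 : Wp E x (nb E x) p ≤ 2 := Wp_le h3.1 (by linarith) hm
  have h5 := Wp_pos h3 p hp
  have hD := DD_pos hp
  have h6 : n0 E θ (Wj E 0) V p ≤ 2 * M :=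
    (n0_weight (k := 2) (Wj_pos 0 hp) h5 (by rw [Wj_zero]; linarith)).trans
      (by linarith [(hV.b0 (Wp_pos h3)).2 p hp])
  refine ⟨h6, (n0_weight (k := 2) (W' := Wp E x (nb E x) / DD E) (Wj_pos _ hp) (div_pos h5 hD)
    ?_).trans (by linarith [(hV.dz (Wp_pos h3)).2 p hp]), le_trans ?_ h6⟩
  · rw [Pi.div_apply, Wj, zpow_neg_one, div_eq_mul_inv]
    gcongr
  · have : 0 ≤ aw E θ p := Real.sqrt_nonneg _
    rw [n0, Wj_zero, div_one, le_add_iff_nonneg_right]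
    positivity

/-- The local representation near `x`. -/
structure Loc (E : Set ℂ) (θ : ℝ) (Z : ℂ × ℂ → ℂ) (x y a : ℂ) (g : ℂ × ℂ → ℂ) : Prop where
  ne : a ≠ 0
  tube : ∀ p ∈ Tube E θ, Z p = Z (diag x) + a * (p.1 - x + ext E x y g p)
  slice : ∀ z, Z (diag z) = Z (diag x) + a * (z - x + ext E x y g (diag z))

theorem Loc.dz {Z : ℂ × ℂ → ℂ} {a : ℂ} (h : Loc E θ Z x y a g)
    (hg : DifferentiableOn ℂ (ext E x y g) (Tube E θ)) :
    EqOn (dz Z) (a • (1 + dz (ext E x y g))) (Tube E θ) := fun p hp => by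
  have h1 : EqOn Z (fun q => (Z (diag x) - a * x) + a * q.1 + a * ext E x y g q) (Tube E θ) :=
    fun q hq => by rw [h.tube q hq]; ring
  rw [dz_congr (isOpen_tube E θ) h1 hp, dz_aff (dAt hg hp)]
  simp [mul_add]

theorem Loc.pre {Z : ℂ × ℂ → ℂ} {a : ℂ} (h : Loc E θ Z x y a g)
    (hg : DifferentiableOn ℂ (ext E x y g) (Tube E θ)) :
    EqOn (pre Z) (NU.dz (NU.dz (ext E x y g)) * (1 + NU.dz (ext E x y g))⁻¹) (Tube E θ) := by
  intro p hp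
  have ho := isOpen_tube E θ
  have h1 : NU.dz (1 : ℂ × ℂ → ℂ) p = 0 := dz_const 1 p
  rw [NU.pre, Pi.div_apply, dz_congr ho (h.dz hg) hp, h.dz hg hp, dz_smul,
    dz_add (F := 1) (differentiableAt_const (1 : ℂ)) (dAt (holo_dz ho hg) hp), Pi.smul_apply,
    smul_eq_mul, mul_div_mul_left _ _ h.ne, Pi.mul_apply, Pi.inv_apply, div_eq_mul_inv, h1,
    zero_add]

/-- A function with local representations for all pairs. -/
structure Good (E : Set ℂ) (θ η₁ : ℝ) (μ Z : ℂ × ℂ → ℂ) : Prop where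
  hμ : B1 E θ (Wj E 0) μ η₁
  holo : DifferentiableOn ℂ Z (Tube E θ)
  eqn : ∀ p ∈ Tube E θ, dw Z p = μ p * dz Z p
  rep : ∀ x y g M, Pair E x y → B1 E θ (Wp E x y) g M → Eqn E θ x y μ 1 g →
    ∃ a, Loc E θ Z x y a g

theorem Ctx.exists_good (c : Ctx E A θ η₁ Cp CB Cc) (hμ : B1 E θ (Wj E 0) μ η₁) :
    ∃ Z, Good E θ η₁ μ Z := by
  obtain ⟨x, hx⟩ := c.hE.nonempty
  have h : Pair E x (x + 1) := ⟨by simp, by rw [infDist_zero_of_mem hx]; positivity⟩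
  obtain ⟨g, hg, e⟩ := c.ex x _ h μ η₁ c.hη₁.le le_rfl hμ
  have hM : 0 ≤ Cp * η₁ := (mul_pos c.hCp c.hη₁).le
  obtain ⟨h1, h2⟩ := c.holo h hM hg
  refine ⟨ZZ E x (x + 1) g, hμ, differentiableOn_fst.add h1, fun p hp => ?_,
    fun x' y' g' M h' hg' e' => ?_⟩
  · rw [ZZ, dw_add differentiableAt_fst (dAt h1 hp), dz_add differentiableAt_fst (dAt h1 hp),
      dz_fst, dw_fst, h2 hp, zero_add, e p hp]
  · obtain ⟨a, h3, h4, h5⟩ := c.rep hμ h h' hM hg hg' e e'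
    exact ⟨a, h3, h4, h5⟩

variable {Z Z' μ' : ℂ × ℂ → ℂ}

theorem Ctx.half (c : Ctx E A θ η₁ Cp CB Cc) (h : η ≤ η₁) : 2 * (CB * (Cp * η)) ≤ 1 / 2 := by
  have h1 : CB * Cp * η ≤ CB * Cp * η₁ :=
    mul_le_mul_of_nonneg_left h (mul_pos c.hCB c.hCp).le
  linarith [c.small]

theorem Ctx.ne (c : Ctx E A θ η₁ Cp CB Cc) (h : Good E θ η₁ μ Z) :
    ∀ p ∈ Tube E θ, dz Z p ≠ 0 := fun p hp => by
  have hx := mid_notMem hp
  obtain ⟨h1, -, h3⟩ := pair_nb c.hE hx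
  obtain ⟨g, hg, e⟩ := c.ex _ _ h3 μ η₁ c.hη₁.le le_rfl h.hμ
  have hM : 0 ≤ Cp * η₁ := (mul_pos c.hCp c.hη₁).le
  obtain ⟨a, ha⟩ := h.rep _ _ g _ h3 hg e
  have h4 := (loc_n0 c.hE hx (c.eb _ _ g _ h3 hM hg).1 hp (by simp; positivity)).2.2
  rw [ha.dz (c.holo h3 hM hg).1 hp, Pi.smul_apply, smul_eq_mul, Pi.add_apply, Pi.one_apply]
  refine mul_ne_zero ha.ne fun h0 => ?_
  rw [eq_neg_of_add_eq_zero_right h0, norm_neg, norm_one] at h4
  linarith [c.half le_rfl]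

theorem Ctx.ne' (c : Ctx E A θ η₁ Cp CB Cc) (h : Good E θ η₁ μ Z) {a : ℂ} (ha : Loc E θ Z x y a g)
    (hg : DifferentiableOn ℂ (ext E x y g) (Tube E θ)) :
    ∀ q ∈ Tube E θ, (1 + dz (ext E x y g)) q ≠ 0 := fun q hq h0 =>
  c.ne h q hq (by rw [ha.dz hg hq, Pi.smul_apply, h0, smul_zero])

theorem Ctx.holo_pre (c : Ctx E A θ η₁ Cp CB Cc) (h : Good E θ η₁ μ Z) :
    DifferentiableOn ℂ (pre Z) (Tube E θ) := by
  rw [pre, div_eq_mul_inv]
  exact (holo_dz (isOpen_tube E θ) (holo_dz (isOpen_tube E θ) h.holo)).mul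
    ((holo_dz (isOpen_tube E θ) h.holo).inv (c.ne h))

theorem Ctx.bd (c : Ctx E A θ η₁ Cp CB Cc) (h : Good E θ η₁ μ Z) (h0 : 0 ≤ η) (h1 : η ≤ η₁)
    (hμ : B1 E θ (Wj E 0) μ η) : B0 E θ (Wj E (-1)) (pre Z) (4 * (CB * (Cp * η))) := by
  refine ⟨c.holo_pre h, fun p hp => ?_⟩
  have ho := isOpen_tube E θ
  have hx := mid_notMem hp
  obtain ⟨h2, -, h3⟩ := pair_nb c.hE hx
  obtain ⟨g, hg, e⟩ := c.ex _ _ h3 μ η h0 h1 hμ
  have hM : 0 ≤ Cp * η := mul_nonneg c.hCp.le h0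
  obtain ⟨a, ha⟩ := h.rep _ _ g _ h3 hg e
  have hU := (c.holo h3 hM hg).1
  have hV := holo_dz ho hU
  obtain ⟨h4, h5, -⟩ := loc_n0 c.hE hx (c.eb _ _ g _ h3 hM hg).1 hp (by simp; positivity)
  have h6 := c.ne' h ha hU
  have h7 := n0_inv hp hV h6 (h4.trans (c.half h1))
  rw [n0_congr hp (ha.pre hU) rfl]
  exact (n0_mulj hp (dAt (holo_dz ho hV) hp) (dAt (((differentiableOn_const (1 : ℂ)).add hV).inv
    h6) hp) (add_zero _) h5 h7).trans (le_of_eq (by ring))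

theorem Ctx.lip (c : Ctx E A θ η₁ Cp CB Cc) (h : Good E θ η₁ μ Z) (h' : Good E θ η₁ μ' Z')
    {L : ℝ} (hL : 0 ≤ L) (hμ : P1 E θ 0 μ μ' η₁ L) :
    B0 E θ (Wj E (-1)) (pre Z - pre Z') (8 * (CB * (Cp * L))) := by
  refine ⟨(c.holo_pre h).sub (c.holo_pre h'), fun p hp => ?_⟩
  have ho := isOpen_tube E θ
  have hx := mid_notMem hp
  obtain ⟨h2, -, h3⟩ := pair_nb c.hE hx
  obtain ⟨g, hg, e⟩ := c.ex _ _ h3 μ η₁ c.hη₁.le le_rfl h.hμ
  obtain ⟨g', hg', e'⟩ := c.ex _ _ h3 μ' η₁ c.hη₁.le le_rfl h'.hμ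
  have hM : 0 ≤ Cp * η₁ := (mul_pos c.hCp c.hη₁).le
  have hML : 0 ≤ Cp * L := mul_nonneg c.hCp.le hL
  obtain ⟨a, ha⟩ := h.rep _ _ g _ h3 hg e
  obtain ⟨a', ha'⟩ := h'.rep _ _ g' _ h3 hg' e'
  have hU := (c.holo h3 hM hg).1
  have hU' := (c.holo h3 hM hg').1
  have hV := holo_dz ho hU
  have hV' := holo_dz ho hU'
  have hm : ‖mid p - mid p‖ ≤ infDist (mid p) E / 2 := by simp; positivity
  obtain ⟨h4, -, -⟩ := loc_n0 c.hE hx (c.eb _ _ g _ h3 hM hg).1 hp hm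
  obtain ⟨h4', h5', -⟩ := loc_n0 c.hE hx (c.eb _ _ g' _ h3 hM hg').1 hp hm
  have hd := c.un _ _ h3 μ μ' g g' 1 _ L hL hM hμ hg hg' e e'
  rw [norm_one, mul_one] at hd
  have hs := ext_sub c.hE c.hA c.hθ c.hθ1 h3 hM hM (hg.b0 (Wp_pos h3)) (hg'.b0 (Wp_pos h3))
  set V := dz (ext E (mid p) (nb E (mid p)) g) with hVd
  set V' := dz (ext E (mid p) (nb E (mid p)) g') with hVd'
  have hD : B1 E θ (Wp E (mid p) (nb E (mid p))) (V - V') (CB * (Cp * L)) :=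
    (c.eb _ _ _ _ h3 hML hd).1.congr fun q hq => by
      rw [dz_congr ho hs hq, dz_sub (dAt hU hq) (dAt hU' hq)]; rfl
  obtain ⟨h8, h9, -⟩ := loc_n0 c.hE hx hD hp hm
  have h6 := c.ne' h ha hU
  have h6' := c.ne' h' ha' hU'
  have h7 := n0_inv hp hV h6 (h4.trans (c.half le_rfl))
  have h7' := n0_inv hp hV' h6' (h4'.trans (c.half le_rfl))
  have hH := dAt (((differentiableOn_const (1 : ℂ)).add hV).inv h6) hp
  have hH' := dAt (((differentiableOn_const (1 : ℂ)).add hV').inv h6') hp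
  have hE : EqOn (pre Z - pre Z')
      (dz (V - V') * (1 + V)⁻¹ + -(dz V' * ((V - V') * ((1 + V)⁻¹ * (1 + V')⁻¹)))) (Tube E θ) := by
    intro q hq
    have e1 := h6 q hq
    have e2 := h6' q hq
    rw [Pi.sub_apply, ha.pre hU hq, ha'.pre hU' hq]
    simp only [Pi.add_apply, Pi.mul_apply, Pi.neg_apply, Pi.inv_apply, Pi.sub_apply, Pi.one_apply,
      dz_sub (dAt hV hq) (dAt hV' hq), ← hVd, ← hVd'] at e1 e2 ⊢
    field_simp
    ring
  have d1 := dAt (holo_dz ho hD.1) hp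
  have d2 := dAt (holo_dz ho hV') hp
  have d3 := dAt hD.1 hp
  have b1 := n0_mulj hp d1 hH (add_zero _) h9 h7
  have b2 := n0_mulj hp d2 (d3.mul (hH.mul hH')) (add_zero _) (h5'.trans (c.half le_rfl))
    (n0_mulj hp d3 (hH.mul hH') (add_zero _) h8 (n0_mulj hp hH hH' (add_zero _) h7 h7'))
  have b3 := n0_add (E := E) (θ := θ) (Wj_pos (-1) hp) (d1.mul hH)
    (d2.mul (d3.mul (hH.mul hH'))).neg
  rw [n0_neg] at b3
  rw [n0_congr hp hE rfl]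
  exact b3.trans (by linarith)

theorem Ctx.cau_le (c : Ctx E A θ η₁ Cp CB Cc) (h : Pair E x y) (hM : 0 ≤ M)
    (hg : B1 E θ (Wp E x y) g M) {z : ℂ} (hz : ‖z - x‖ ≤ 5 * ‖x - y‖) :
    ‖ext E x y g (diag z)‖ ≤ 36 * Cc * M * ‖x - y‖ := by
  obtain ⟨s1, s2⟩ := slice c.hE c.hθ h hg
  have h1 : 0 < ‖x - y‖ := norm_pos_iff.mpr (sub_ne_zero.mpr h.1)
  have h2 : ((‖x - y‖ + ‖z - x‖) / ‖x - y‖) ^ (5 / 4 : ℝ) ≤ 36 := by
    have h3 : (‖x - y‖ + ‖z - x‖) / ‖x - y‖ ≤ 6 := by rw [div_le_iff₀ h1]; linarith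
    calc _ ≤ (6 : ℝ) ^ (5 / 4 : ℝ) := Real.rpow_le_rpow (by positivity) h3 (by norm_num)
      _ ≤ (6 : ℝ) ^ (2 : ℝ) := Real.rpow_le_rpow_of_exponent_le (by norm_num) (by norm_num)
      _ = 36 := by norm_num
  have hC := c.hCc
  rw [ext_diag]
  calc _ ≤ _ := (c.ce x y _ M h hM s1 s2).2 z
    _ ≤ Cc * M * ‖x - y‖ * 36 := by gcongr
    _ = _ := by ring

theorem Ctx.loc (c : Ctx E A θ η₁ Cp CB Cc) (h : Good E θ η₁ μ Z) (h0 : 0 ≤ η) (h1 : η ≤ η₁)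
    (hμ : B1 E θ (Wj E 0) μ η) (hx : x ∉ E) : ∃ a : ℂ, a ≠ 0 ∧ ∀ p ∈ Tube E θ,
      ‖mid p - x‖ ≤ infDist x E / 2 → ‖dz Z p - a‖ ≤ (3 * CB + 9 * Cc) * Cp * η * ‖a‖ ∧
        ‖Z p - Z (diag x) - a * (p.1 - x)‖ ≤ (3 * CB + 9 * Cc) * Cp * η * ‖a‖ * infDist x E := by
  obtain ⟨h2, h2', h3⟩ := pair_nb c.hE hx
  obtain ⟨g, hg, e⟩ := c.ex _ _ h3 μ η h0 h1 hμ
  have hM : 0 ≤ Cp * η := mul_nonneg c.hCp.le h0
  obtain ⟨a, ha⟩ := h.rep _ _ g _ h3 hg e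
  have hU := (c.holo h3 hM hg).1
  obtain ⟨h4, h5⟩ := c.eb _ _ g _ h3 hM hg
  have hB := c.hCB
  have hC := c.hCc
  refine ⟨a, ha.ne, fun p hp hm => ⟨?_, ?_⟩⟩
  · have h6 := (loc_n0 c.hE hx h4 hp hm).2.2
    have h7 : dz Z p - a = dz (ext E x (nb E x) g) p * a := by
      rw [ha.dz hU hp, Pi.smul_apply, smul_eq_mul, Pi.add_apply, Pi.one_apply]; ring
    rw [h7, norm_mul]
    gcongr
    have : 0 ≤ CB * (Cp * η) := by positivity
    have : 0 ≤ Cc * (Cp * η) := by positivity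
    linarith
  · have h6 : Z p - Z (diag x) - a * (p.1 - x) = ext E x (nb E x) g p * a := by
      rw [ha.tube p hp]; ring
    have h7 := abs_DD_sub (E := E) (diag x) p
    rw [DD_diag, mid_diag] at h7
    have h8 : DD E p ≤ 3 / 2 * infDist x E := by linarith [(abs_le.mp h7).2]
    have hD := DD_pos hp
    have h9 : ‖p.1 - x‖ ≤ 5 * ‖x - nb E x‖ := by
      have e1 := norm_fst_sub_mid hp
      have e2 := norm_add_le (p.1 - mid p) (mid p - x)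
      have e3 : θ * DD E p ≤ 1 * DD E p := mul_le_mul_of_nonneg_right c.hθ1 hD.le
      rw [sub_add_sub_cancel] at e2
      linarith
    have h10 := c.cau_le h3 hM hg h9
    have h11 : ‖ext E x (nb E x) g p - ext E x (nb E x) g (diag p.1)‖ ≤
        CB * (Cp * η) * 2 * (3 / 2 * infDist x E) := by
      refine (h5 p hp).trans ?_
      have e1 : Wp E x (nb E x) p ≤ 2 := Wp_le h3.1 (by linarith) hm
      gcongr
    have h12 := norm_add_le (ext E x (nb E x) g p - ext E x (nb E x) g (diag p.1))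
      (ext E x (nb E x) g (diag p.1))
    rw [sub_add_cancel] at h12
    rw [h2'] at h10
    rw [h6, norm_mul, mul_right_comm _ ‖a‖]
    gcongr
    linarith

theorem Ctx.ns (c : Ctx E A θ η₁ Cp CB Cc) (h : Good E θ η₁ μ Z) (h0 : 0 ≤ η) (h1 : η ≤ η₁)
    (hμ : B1 E θ (Wj E 0) μ η) :
    NS (fun z => Z (diag z)) ((2 * CB + 36 * Cc + 2) * Cp * η) := by
  intro x s hs
  have hM : 0 ≤ Cp * η := mul_nonneg c.hCp.le h0
  have hB : 0 ≤ CB * (Cp * η) := mul_nonneg c.hCB.le hM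
  have hC : 0 ≤ Cc * (Cp * η) := mul_nonneg c.hCc.le hM
  have key : ∀ y g, Pair E x y → B1 E θ (Wp E x y) g (Cp * η) → Eqn E θ x y μ 1 g →
      (∀ v : ℂ, ‖v‖ ≤ s → ‖ext E x y g (diag (x + v))‖ ≤ (2 * CB + 36 * Cc + 2) * Cp * η * s) →
      ∃ κ : ℂ, κ ≠ 0 ∧ ∀ v : ℂ, ‖v‖ ≤ s → ‖Z (diag (x + v)) - Z (diag x) - κ * v‖ ≤
        (2 * CB + 36 * Cc + 2) * Cp * η * ‖κ‖ * s := fun y g h3 hg e hb => by
    obtain ⟨a, ha⟩ := h.rep _ _ g _ h3 hg e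
    refine ⟨a, ha.ne, fun v hv => ?_⟩
    have h6 : Z (diag (x + v)) - Z (diag x) - a * v = ext E x y g (diag (x + v)) * a := by
      rw [ha.slice (x + v)]; ring
    rw [h6, norm_mul, mul_right_comm _ ‖a‖]
    gcongr
    exact hb v hv
  by_cases hd : infDist x E ≤ 4 * s
  · have h2 : ‖x - (x + s)‖ = s := by
      rw [sub_add_cancel_left, norm_neg, Complex.norm_real, Real.norm_eq_abs, abs_of_pos hs]
    have h3 : Pair E x (x + s) := ⟨fun h4 => by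
      rw [← sub_eq_zero, ← norm_eq_zero, h2] at h4; linarith, by rwa [h2]⟩
    obtain ⟨g, hg, e⟩ := c.ex _ _ h3 μ η h0 h1 hμ
    refine key _ g h3 hg e fun v hv => ?_
    have h4 := c.cau_le h3 hM hg (z := x + v) (by rw [h2, add_sub_cancel_left]; linarith)
    rw [h2] at h4
    refine h4.trans (mul_le_mul_of_nonneg_right (by linarith) hs.le)
  · have hx : x ∉ E := fun hx => hd (by rw [infDist_zero_of_mem hx]; positivity)
    obtain ⟨h2, h2', h3⟩ := pair_nb c.hE hx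
    obtain ⟨g, hg, e⟩ := c.ex _ _ h3 μ η h0 h1 hμ
    refine key _ g h3 hg e fun v hv => ?_
    obtain ⟨hU, hw⟩ := c.holo h3 hM hg
    have hb : ∀ z ∈ closedBall x s, z ∉ E ∧ ‖mid (diag z) - x‖ ≤ infDist x E / 2 := fun z hz => by
      rw [mem_closedBall, dist_eq_norm] at hz
      refine ⟨fun hz' => ?_, by rw [mid_diag]; linarith⟩
      have := infDist_le_dist_of_mem (x := x) hz'
      rw [dist_comm, dist_eq_norm] at this
      linarith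
    have h5 := (convex_closedBall x s).norm_image_sub_le_of_norm_fderiv_le (𝕜 := ℝ)
      (f := fun z => ext E x (nb E x) g (diag z)) (C := 2 * (CB * (Cp * η)) + 2 * (Cp * η))
      (fun z hz => (fderiv_diag (dAt hU (diag_mem c.hE c.hθ (hb z hz).1))).1)
      (fun z hz => by
        have hp := diag_mem c.hE c.hθ (hb z hz).1
        have e1 := (loc_n0 c.hE hx (c.eb _ _ g _ h3 hM hg).1 hp (hb z hz).2).2.2
        have e2 := (loc_n0 c.hE hx hg hp (hb z hz).2).2.2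
        refine ContinuousLinearMap.opNorm_le_bound _ (by positivity) fun w => ?_
        rw [(fderiv_diag (dAt hU hp)).2 w, hw hp, add_mul]
        refine (norm_add_le _ _).trans ?_
        rw [norm_mul, norm_mul, Complex.norm_conj]
        gcongr)
      (mem_closedBall_self hs.le) (y := x + v) (by simpa using hv)
    have h6 : ext E x (nb E x) g (diag x) = 0 := by simp [cau, ker]
    rw [h6, sub_zero, add_sub_cancel_left] at h5
    exact h5.trans (mul_le_mul (by linarith) hv (norm_nonneg _) (by linarith))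

end BeltAux

open BeltAux in
theorem beltrami (hE : Dom E) (hA : MeasCond E A) (hθ : 0 < θ) (hθ1 : θ ≤ 1) :
    ∃ η₁ > 0, ∃ C > 0, ∃ Z : (ℂ × ℂ → ℂ) → ℂ × ℂ → ℂ,
      (∀ μ η, 0 ≤ η → η ≤ η₁ → B1 E θ (Wj E 0) μ η → Belt E θ μ (Z μ) (C * η)) ∧
      ∀ μ μ' L, 0 ≤ L → P1 E θ 0 μ μ' η₁ L →
        B0 E θ (Wj E (-1)) (pre (Z μ) - pre (Z μ')) (C * L) := by
  obtain ⟨η₁, Cp, CB, Cc, c⟩ := exists_ctx hE hA hθ hθ1
  have h1 : ∀ μ, ∃ Z, B1 E θ (Wj E 0) μ η₁ → Good E θ η₁ μ Z := fun μ => by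
    by_cases h : B1 E θ (Wj E 0) μ η₁
    · exact (c.exists_good h).imp fun Z hZ _ => hZ
    · exact ⟨0, fun h' => absurd h' h⟩
  choose Z hZ using h1
  have hp := c.hCp
  have hB := c.hCB
  have hC := c.hCc
  refine ⟨η₁, c.hη₁, (8 * CB + 36 * Cc + 2) * Cp, by positivity, Z, fun μ η h0 h1 hμ => ?_,
    fun μ μ' L hL hμ => (c.lip (hZ μ hμ.1) (hZ μ' hμ.2.1) hL hμ).mono ?_⟩
  · have h := hZ μ (hμ.mono h1)
    have e0 : 0 ≤ Cp * η := by positivity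
    have e1 : 0 ≤ CB * (Cp * η) := by positivity
    have e2 : 0 ≤ Cc * (Cp * η) := by positivity
    refine ⟨h.holo, h.eqn, c.ne h, (c.bd h h0 h1 hμ).mono (by linarith), fun x s hs => ?_,
      fun x hx => ?_⟩
    · obtain ⟨κ, h2, h3⟩ := c.ns h h0 h1 hμ x s hs
      have e4 : 2 * CB + 36 * Cc + 2 ≤ 8 * CB + 36 * Cc + 2 := by linarith
      exact ⟨κ, h2, fun v hv => (h3 v hv).trans (by gcongr ?_ * _ * _ * _ * _)⟩
    · obtain ⟨a, h2, h3⟩ := c.loc h h0 h1 hμ hx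
      have e3 : 0 ≤ infDist x E := infDist_nonneg
      have e4 : 3 * CB + 9 * Cc ≤ 8 * CB + 36 * Cc + 2 := by linarith
      exact ⟨a, h2, fun p hp hm => ⟨(h3 p hp hm).1.trans (by gcongr ?_ * _ * _ * _),
        (h3 p hp hm).2.trans (by gcongr ?_ * _ * _ * _ * _)⟩⟩
  · have e0 : 0 ≤ Cp * L := by positivity
    have e2 : 0 ≤ Cc * (Cp * L) := by positivity
    linarith

end Pool.Agent.Lib.MP_44acff_gt.NU
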