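import Pool.Agent.Lib.MP_44acff_gt.H70Pair

/-! Change of normalisation for solutions of the Beltrami equation. -/

namespace Pool.Agent.Lib.MP_44acff_gt.NU

open Set Metric MeasureTheory Filter Topology ComplexConjugate
open scoped ContDiff

namespace BeltAux

variable {E : Set ℂ} {A θ η₁ Cp CB Cc M M' : ℝ} {x y x' y' : ℂ} {μ g g' F V : ℂ × ℂ → ℂ}
  {p : ℂ × ℂ}

/-- The standing assumptions. -/
structure Ctx (E : Set ℂ) (A θ η₁ Cp CB Cc : ℝ) : Prop where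
  hE : Dom E
  hA : MeasCond E A
  hθ : 0 < θ
  hθ1 : θ ≤ 1
  hη₁ : 0 < η₁
  hCp : 0 < Cp
  hCB : 0 < CB
  hCc : 0 < Cc
  small : 4 * CB * Cp * η₁ ≤ 1
  ex : ∀ x y, Pair E x y → ∀ μ η, 0 ≤ η → η ≤ η₁ → B1 E θ (Wj E 0) μ η →
    ∃ g, B1 E θ (Wp E x y) g (Cp * η) ∧ Eqn E θ x y μ 1 g
  un : ∀ x y, Pair E x y → ∀ μ μ' g g' a M L, 0 ≤ L → 0 ≤ M → P1 E θ 0 μ μ' η₁ L →
    B1 E θ (Wp E x y) g M → B1 E θ (Wp E x y) g' M → Eqn E θ x y μ a g → Eqn E θ x y μ' a g' →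
    B1 E θ (Wp E x y) (g - g') (Cp * ‖a‖ * L)
  eb : ∀ (x y : ℂ) (g : ℂ × ℂ → ℂ) (M : ℝ), Pair E x y → 0 ≤ M → B1 E θ (Wp E x y) g M →
    B1 E θ (Wp E x y) (dz (ext E x y g)) (CB * M) ∧
    ∀ p ∈ Tube E θ, ‖ext E x y g p - ext E x y g (diag p.1)‖ ≤ CB * M * Wp E x y p * DD E p
  ce : ∀ (x y : ℂ) (g : ℂ → ℂ) (M : ℝ),
    Pair E x y → 0 ≤ M → ContinuousOn g Eᶜ → (∀ ζ ∉ E, ‖g ζ‖ ≤ M * wr E x y ζ) →
      (∀ z, IntegrableOn (fun ζ => g ζ * ker x y z ζ) Eᶜ) ∧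
      (∀ z, ‖cau E x y g z‖ ≤
        Cc * M * ‖x - y‖ * ((‖x - y‖ + ‖z - x‖) / ‖x - y‖) ^ (5 / 4 : ℝ))

theorem exists_ctx (hE : Dom E) (hA : MeasCond E A) (hθ : 0 < θ) (hθ1 : θ ≤ 1) :
    ∃ η₁ Cp CB Cc, Ctx E A θ η₁ Cp CB Cc := by
  obtain ⟨η₁, h1, Cp, h2, h3⟩ := pair_sol hE hA hθ hθ1
  obtain ⟨CB, h4, h5⟩ := ext_bound hE hA hθ hθ1
  obtain ⟨Cc, h6, h7⟩ := cau_est hE hA
  have h8 : min η₁ (1 / (4 * CB * Cp)) ≤ η₁ := min_le_left _ _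
  refine ⟨min η₁ (1 / (4 * CB * Cp)), Cp, CB, Cc, hE, hA, hθ, hθ1, by positivity, h2, h4, h6, ?_,
    fun x y h μ η h9 h10 => (h3 x y h).1 μ η h9 (h10.trans h8),
    fun x y h μ μ' g g' a M L hL hM hμ => (h3 x y h).2 μ μ' g g' a M L hL hM (hμ.mono h8 le_rfl),
    h5, fun x y g M h hM hc hg => ⟨(h7 x y g M h hM hc hg).1, (h7 x y g M h hM hc hg).2.1⟩⟩
  have h9 : min η₁ (1 / (4 * CB * Cp)) ≤ 1 / (4 * CB * Cp) := min_le_right _ _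
  rw [le_div_iff₀ (by positivity)] at h9
  linarith

theorem dAt (h : DifferentiableOn ℂ F (Tube E θ)) (hp : p ∈ Tube E θ) : DifferentiableAt ℂ F p :=
  h.differentiableAt ((isOpen_tube E θ).mem_nhds hp)

theorem Wp_pos (h : Pair E x y) : ∀ p ∈ Tube E θ, 0 < Wp E x y p := (adm_Wp h).pos

theorem slice (hE : Dom E) (hθ : 0 < θ) (h : Pair E x y) (hg : B1 E θ (Wp E x y) g M) :
    ContinuousOn (fun ζ => g (diag ζ)) Eᶜ ∧ ∀ ζ ∉ E, ‖g (diag ζ)‖ ≤ M * wr E x y ζ := by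
  refine ⟨(contDiffOn_diag hE hθ hg.1).continuousOn, fun ζ hζ => ?_⟩
  have hp := diag_mem hE hθ hζ
  simpa [Wp] using ((hg.b0 (Wp_pos h)).norm_le hp (Wp_pos h _ hp)).1

theorem Ctx.holo (c : Ctx E A θ η₁ Cp CB Cc) (h : Pair E x y) (hM : 0 ≤ M)
    (hg : B1 E θ (Wp E x y) g M) :
    DifferentiableOn ℂ (ext E x y g) (Tube E θ) ∧ EqOn (dw (ext E x y g)) g (Tube E θ) :=
  ext_holo c.hE c.hA c.hθ c.hθ1 h hM hg.1 (slice c.hE c.hθ h hg).2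

theorem dz_fst (p : ℂ × ℂ) : dz (fun q : ℂ × ℂ => q.1) p = 1 := by
  rw [dz, fderiv_fst]; rfl

theorem dw_fst (p : ℂ × ℂ) : dw (fun q : ℂ × ℂ => q.1) p = 0 := by
  rw [dw, fderiv_fst]; rfl

theorem dz_aff (hF : DifferentiableAt ℂ F p) (a b c : ℂ) :
    dz (fun q => a + b * q.1 + c * F q) p = b + c * dz F p := by
  have h : HasFDerivAt (fun q : ℂ × ℂ => a + b * q.1 + c * F q)
      (b • ContinuousLinearMap.fst ℂ ℂ ℂ + c • fderiv ℂ F p) p :=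
    ((hasFDerivAt_fst.const_mul b).const_add a).add (hF.hasFDerivAt.const_mul c)
  rw [dz, h.fderiv]
  simp [dz]

/-- The solution attached to a normalised density. -/
noncomputable def ZZ (E : Set ℂ) (x y : ℂ) (g : ℂ × ℂ → ℂ) : ℂ × ℂ → ℂ :=
  (fun q => q.1) + ext E x y g

theorem Ctx.rep (c : Ctx E A θ η₁ Cp CB Cc) (hμ : B1 E θ (Wj E 0) μ η₁) (h : Pair E x y)
    (h' : Pair E x' y') (hM : 0 ≤ M) (hg : B1 E θ (Wp E x y) g M)
    (hg' : B1 E θ (Wp E x' y') g' M') (e : Eqn E θ x y μ 1 g) (e' : Eqn E θ x' y' μ 1 g') :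
    ∃ a : ℂ, a ≠ 0 ∧
      (∀ p ∈ Tube E θ, ZZ E x y g p =
        ZZ E x y g (diag x') + a * (p.1 - x' + ext E x' y' g' p)) ∧
      ∀ z, ZZ E x y g (diag z) =
        ZZ E x y g (diag x') + a * (z - x' + ext E x' y' g' (diag z)) := by
  obtain ⟨s1, s2⟩ := slice c.hE c.hθ h hg
  have hi := (c.ce x y _ M h hM s1 s2).1
  set u := cau E x y (fun ζ => g (diag ζ)) with hu
  set b := (u y' - u x') / (y' - x') with hb
  have h1 : ∀ p, ext E x' y' g p = (-u x' + x' * b) + (-b) * p.1 + 1 * ext E x y g p := fun p => by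
    rw [ext, ext, cau_change h.1 h'.1 hi]
    ring
  have h2 : Eqn E θ x' y' μ (1 + b) g := fun p hp => by
    rw [funext h1, dz_aff (dAt (c.holo h hM hg).1 hp), e p hp]
    ring
  have h3 : Eqn E θ x' y' μ (1 + b) ((1 + b) • g') := fun p hp => by
    rw [ext_smul, dz_smul, Pi.smul_apply, e' p hp, smul_eq_mul]
    ring
  obtain ⟨K, hK, hW⟩ := Wp_le_Wp (E := E) h.1 h'.1
  have h4 := hg.weight (Wp_pos h) (Wp_pos h') fun p _ => hW p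
  have h5 := c.un x' y' h' μ μ g ((1 + b) • g') (1 + b) (max (K * M) (‖1 + b‖ * M')) 0 le_rfl
    (le_max_of_le_left (by positivity)) (P1.refl hμ) (h4.mono (le_max_left _ _))
    ((hg'.smul _).mono (le_max_right _ _)) h2 h3
  have h6 : EqOn g ((1 + b) • g') (Tube E θ) := fun p hp => sub_eq_zero.mp
    (B0.eq_zero (fun ε hε => (h5.b0 (Wp_pos h')).mono (by linarith)) (Wp_pos h') hp)
  obtain ⟨h7, h8⟩ := ext_congr (x := x') (y := y') c.hE c.hθ c.hθ1 h6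
  rw [ext_smul] at h7 h8
  have h9 : ZZ E x y g (diag x') = x' + u x' := by
    rw [ZZ, Pi.add_apply, ext_diag]; rfl
  have h10 : ∀ p, ext E x' y' g p = ((1 + b) • ext E x' y' g') p →
      ZZ E x y g p = ZZ E x y g (diag x') + (1 + b) * (p.1 - x' + ext E x' y' g' p) := by
    intro p hp
    rw [h1, Pi.smul_apply, smul_eq_mul] at hp
    rw [h9, ZZ, Pi.add_apply]
    linear_combination hp
  refine ⟨1 + b, fun h0 => ?_, fun p hp => h10 p (h7 hp), fun z => h10 _ (h8 z)⟩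
  rw [h0] at h6
  have h11 := (ext_congr (x := x) (y := y) c.hE c.hθ c.hθ1 h6).2
  have h12 : ∀ z, u z = 0 := fun z => by
    have := h11 z
    rwa [ext_smul, zero_smul, ext_diag] at this
  rw [hb, h12, h12] at h0
  simp at h0

theorem n0_weight {W W' : ℂ × ℂ → ℝ} {k : ℝ} (hW : 0 < W p) (hW' : 0 < W' p)
    (h : W' p ≤ k * W p) : n0 E θ W F p ≤ k * n0 E θ W' F p := by
  have h1 : 0 ≤ ‖F p‖ + aw E θ p * (‖dz F p‖ + ‖dw F p‖) := by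
    have : 0 ≤ aw E θ p := Real.sqrt_nonneg _
    positivity
  rw [n0, n0, ← mul_div_assoc, div_le_div_iff₀ hW hW']
  nlinarith

theorem n0_neg {W : ℂ × ℂ → ℝ} : n0 E θ W (-F) p = n0 E θ W F p := by
  simp only [n0, dz_neg, dw_neg, Pi.neg_apply, norm_neg]

theorem n0_mulj {i j k : ℤ} {G : ℂ × ℂ → ℂ} (hp : p ∈ Tube E θ) (hF : DifferentiableAt ℂ F p)
    (hG : DifferentiableAt ℂ G p) (e : i + j = k) {a b : ℝ} (ha : n0 E θ (Wj E i) F p ≤ a)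
    (hb : n0 E θ (Wj E j) G p ≤ b) : n0 E θ (Wj E k) (F * G) p ≤ a * b := by
  have h1 : n0 E θ (Wj E k) (F * G) p = n0 E θ (Wj E i * Wj E j) (F * G) p :=
    n0_congr hp (fun _ _ => rfl) (by
      rw [Pi.mul_apply, Wj, Wj, Wj, ← e, zpow_add₀ (DD_pos hp).ne'])
  rw [h1]
  exact (n0_mul (Wj_pos _ hp) (Wj_pos _ hp) hF hG).trans
    (mul_le_mul ha hb (n0_nonneg (Wj_pos _ hp)) ((n0_nonneg (Wj_pos _ hp)).trans ha))

theorem n0_inv (hp : p ∈ Tube E θ) (hV : DifferentiableOn ℂ V (Tube E θ))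
    (h0 : ∀ q ∈ Tube E θ, (1 + V) q ≠ 0) (h : n0 E θ (Wj E 0) V p ≤ 1 / 2) :
    n0 E θ (Wj E 0) (1 + V)⁻¹ p ≤ 2 := by
  have hH : DifferentiableOn ℂ (1 + V)⁻¹ (Tube E θ) :=
    ((differentiableOn_const (1 : ℂ)).add hV).inv h0
  have h1 : EqOn (1 + V)⁻¹ ((fun _ => (1 : ℂ)) + -(V * (1 + V)⁻¹)) (Tube E θ) := fun q hq => by
    have := h0 q hq
    simp only [Pi.add_apply, Pi.inv_apply, Pi.neg_apply, Pi.mul_apply, Pi.one_apply] at this ⊢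
    field_simp
    ring
  have h2 := n0_add (E := E) (θ := θ) (Wj_pos 0 hp) (differentiableAt_const (1 : ℂ))
    ((dAt hV hp).mul (dAt hH hp)).neg
  have h3 := n0_mulj hp (dAt hV hp) (dAt hH hp) (add_zero 0) h le_rfl
  have h4 : n0 E θ (Wj E 0) (fun _ => (1 : ℂ)) p = 1 := by simp [n0, Wj_zero]
  rw [← n0_congr hp h1 rfl, n0_neg, h4] at h2
  linarith

end BeltAux

end Pool.Agent.Lib.MP_44acff_gt.NU
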