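import Pool.Agent.Lib.MP_44acff_gt.H70Base

/-! The convex body above a graph. -/

namespace Pool.Agent.Lib.MP_44acff_gt.NU

open Set Metric MeasureTheory Filter Topology ComplexConjugate
open scoped ContDiff

namespace BodyAux

lemma one_le_arg {p q : ℂ × ℝ} (hp : p ∈ H3) (hq : q ∈ H3) :
    1 ≤ 1 + (‖p.1 - q.1‖ ^ 2 + (p.2 - q.2) ^ 2) / (2 * p.2 * q.2) := by
  have h1 : 0 < p.2 := hp
  have h2 : 0 < q.2 := hq
  have : 0 ≤ (‖p.1 - q.1‖ ^ 2 + (p.2 - q.2) ^ 2) / (2 * p.2 * q.2) := by positivity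
  linarith

lemma hdist_nonneg {p q : ℂ × ℝ} (hp : p ∈ H3) (hq : q ∈ H3) : 0 ≤ hdist p q :=
  Real.arcosh_nonneg (one_le_arg hp hq)

lemma norm_sq (z : ℂ) : ‖z‖ ^ 2 = z.re ^ 2 + z.im ^ 2 := by
  rw [Complex.sq_norm, Complex.normSq_apply]; ring

lemma cosh_hdist {p q : ℂ × ℝ} (hp : p ∈ H3) (hq : q ∈ H3) :
    2 * p.2 * q.2 * Real.cosh (hdist p q) =
      (p.1.re - q.1.re) ^ 2 + (p.1.im - q.1.im) ^ 2 + p.2 ^ 2 + q.2 ^ 2 := by
  have h1 : 0 < p.2 := hp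
  have h2 : 0 < q.2 := hq
  rw [hdist, Real.cosh_arcosh (one_le_arg hp hq), norm_sq, Complex.sub_re, Complex.sub_im]
  field_simp
  ring

lemma real_core {x1 y1 x2 y2 t t1 t2 S1 S2 C1 C2 : ℝ} (e1 : C1 ^ 2 = S1 ^ 2 + 1)
    (e2 : C2 ^ 2 = S2 ^ 2 + 1) (h1 : 2 * t1 * t * C1 = x1 ^ 2 + y1 ^ 2 + t1 ^ 2 + t ^ 2)
    (h2 : 2 * t * t2 * C2 = x2 ^ 2 + y2 ^ 2 + t ^ 2 + t2 ^ 2)
    (h3 : 2 * t1 * t2 * (C1 * C2 + S1 * S2) = (x1 - x2) ^ 2 + (y1 - y2) ^ 2 + t1 ^ 2 + t2 ^ 2) :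
    S2 * t2 * x1 + S1 * t1 * x2 = 0 ∧ S2 * t2 * y1 + S1 * t1 * y2 = 0 ∧
      S2 * t2 * (t1 ^ 2 + x1 ^ 2 + y1 ^ 2) + S1 * t1 * (t2 ^ 2 + x2 ^ 2 + y2 ^ 2) =
        (S2 * t2 + S1 * t1) * t ^ 2 := by
  have key : (S2 * t2 * x1 + S1 * t1 * x2) ^ 2 + (S2 * t2 * y1 + S1 * t1 * y2) ^ 2 +
      ((S2 * t2 + S1 * t1) * t - (S1 * C2 + C1 * S2) * t1 * t2) ^ 2 = 0 := by
    linear_combination (-(S2 ^ 2 * t2 ^ 2 + S1 * S2 * t1 * t2)) * h1 -
      (S1 ^ 2 * t1 ^ 2 + S1 * S2 * t1 * t2) * h2 + (S1 * S2 * t1 * t2) * h3 +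
      (S2 ^ 2 * t1 ^ 2 * t2 ^ 2) * e1 + (S1 ^ 2 * t1 ^ 2 * t2 ^ 2) * e2
  have a1 := sq_nonneg (S2 * t2 * x1 + S1 * t1 * x2)
  have a2 := sq_nonneg (S2 * t2 * y1 + S1 * t1 * y2)
  have a3 := sq_nonneg ((S2 * t2 + S1 * t1) * t - (S1 * C2 + C1 * S2) * t1 * t2)
  have b3 : (S2 * t2 + S1 * t1) * t - (S1 * C2 + C1 * S2) * t1 * t2 = 0 :=
    pow_eq_zero_iff (two_ne_zero) |>.1 (by linarith)
  refine ⟨pow_eq_zero_iff (two_ne_zero) |>.1 (by linarith),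
    pow_eq_zero_iff (two_ne_zero) |>.1 (by linarith), ?_⟩
  linear_combination (-(S2 * t2)) * h1 - (S1 * t1) * h2 - 2 * t * b3

/-- A continuous function with local support lines lies below its chord. -/
lemma le_chord {f : ℝ → ℝ} (hf : Continuous f)
    (h : ∀ s, ∃ m : ℝ, ∀ᶠ s' in 𝓝 s, f s + m * (s' - s) ≤ f s') {s : ℝ} (hs : s ∈ Icc (0 : ℝ) 1) :
    f s ≤ (1 - s) * f 0 + s * f 1 := by
  set g : ℝ → ℝ := fun u => f u - ((1 - u) * f 0 + u * f 1) with hg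
  have hgc : Continuous g := by rw [hg]; fun_prop
  obtain ⟨a, ha, hmax⟩ := isCompact_Icc.exists_isMaxOn ⟨s, hs⟩ hgc.continuousOn
  by_contra hlt
  have hM : 0 < g a := lt_of_lt_of_le (by simp only [hg]; linarith) (hmax hs)
  have hK : IsCompact (Icc (0 : ℝ) 1 ∩ {u | g u = g a}) :=
    isCompact_Icc.inter_right (isClosed_eq hgc continuous_const)
  obtain ⟨c, ⟨hc1, hc2⟩, hc3⟩ := hK.exists_isMaxOn ⟨a, ha, rfl⟩ continuous_id.continuousOn
  have hc2' : g c = g a := hc2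
  have c0 : 0 < c := lt_of_le_of_ne hc1.1 (by
    rintro rfl
    simp only [hg] at hc2' hM
    linarith)
  have c1 : c < 1 := lt_of_le_of_ne hc1.2 (by
    rintro rfl
    simp only [hg] at hc2' hM
    linarith)
  obtain ⟨m, hm⟩ := h c
  obtain ⟨ε, hε, hball⟩ := Metric.eventually_nhds_iff.1 hm
  set δ := min (ε / 2) (min c (1 - c)) with hδ
  have d0 : 0 < δ := lt_min (by linarith) (lt_min c0 (by linarith))
  have d1 : δ ≤ ε / 2 := min_le_left _ _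
  have d2 : δ ≤ c := (min_le_right _ _).trans (min_le_left _ _)
  have d3 : δ ≤ 1 - c := (min_le_right _ _).trans (min_le_right _ _)
  have k1 := hball (y := c + δ) (by
    rw [Real.dist_eq, abs_lt]; constructor <;> linarith)
  have k2 := hball (y := c - δ) (by
    rw [Real.dist_eq, abs_lt]; constructor <;> linarith)
  have m1 : c + δ ∈ Icc (0 : ℝ) 1 := ⟨by linarith, by linarith⟩
  have m2 : c - δ ∈ Icc (0 : ℝ) 1 := ⟨by linarith, by linarith⟩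
  have l1 : g (c + δ) ≤ g a := hmax m1
  have l2 : g (c - δ) ≤ g a := hmax m2
  have l3 : 2 * g c ≤ g (c + δ) + g (c - δ) := by
    simp only [hg]
    nlinarith
  have l4 : g (c + δ) = g a := by linarith
  have l5 : c + δ ≤ c := hc3 ⟨m1, l4⟩
  linarith

lemma phi_convex {E : Set ℂ} {t : ℂ → ℝ} (ht : Continuous t) (hz : ∀ b, t b = 0 ↔ b ∈ E)
    (hs : ∀ b ∉ E, ∃ β : ℂ, ∀ᶠ b' in 𝓝 b, t b ^ 2 + ‖b - β‖ ^ 2 ≤ t b' ^ 2 + ‖b' - β‖ ^ 2)
    (a b : ℂ) {s : ℝ} (h : s ∈ Icc (0 : ℝ) 1) :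
    t ((1 - s : ℝ) • a + s • b) ^ 2 + ‖(1 - s : ℝ) • a + s • b‖ ^ 2 ≤
      (1 - s) * (t a ^ 2 + ‖a‖ ^ 2) + s * (t b ^ 2 + ‖b‖ ^ 2) := by
  have hs' : ∀ c, ∃ β : ℂ, ∀ᶠ c' in 𝓝 c, t c ^ 2 + ‖c - β‖ ^ 2 ≤ t c' ^ 2 + ‖c' - β‖ ^ 2 := by
    intro c
    by_cases hc : c ∈ E
    · refine ⟨c, Eventually.of_forall fun c' => ?_⟩
      rw [(hz c).2 hc, sub_self, norm_zero]
      have := sq_nonneg (t c')
      have := sq_nonneg ‖c' - c‖
      nlinarith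
    · exact hs c hc
  set γ : ℝ → ℂ := fun u => (1 - u : ℝ) • a + u • b with hγ
  have hγc : Continuous γ := by rw [hγ]; fun_prop
  have := le_chord (f := fun u => t (γ u) ^ 2 + ‖γ u‖ ^ 2) (by fun_prop) (fun u => by
    obtain ⟨β, hβ⟩ := hs' (γ u)
    refine ⟨2 * (β.re * (b.re - a.re) + β.im * (b.im - a.im)), ?_⟩
    filter_upwards [hγc.continuousAt.eventually hβ] with u' hu'
    simp only [norm_sq, Complex.sub_re, Complex.sub_im] at hu' ⊢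
    have r : ∀ v, (γ v).re = (1 - v) * a.re + v * b.re := fun v => by simp [hγ]
    have i : ∀ v, (γ v).im = (1 - v) * a.im + v * b.im := fun v => by simp [hγ]
    have r1 : (γ u').re - (γ u).re = (u' - u) * (b.re - a.re) := by rw [r, r]; ring
    have i1 : (γ u').im - (γ u).im = (u' - u) * (b.im - a.im) := by rw [i, i]; ring
    linear_combination hu' - 2 * β.re * r1 - 2 * β.im * i1) h
  simpa [hγ] using this

end BodyAux

open BodyAux

theorem seg_affine {p q x : ℂ × ℝ} (hp : p ∈ H3) (hq : q ∈ H3) (hx : x ∈ H3)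
    (h : hdist p x + hdist x q = hdist p q) : ∃ s ∈ Icc (0 : ℝ) 1,
      x.1 = (1 - s : ℝ) • p.1 + s • q.1 ∧
      x.2 ^ 2 + ‖x.1‖ ^ 2 = (1 - s) * (p.2 ^ 2 + ‖p.1‖ ^ 2) + s * (q.2 ^ 2 + ‖q.1‖ ^ 2) := by
  have t1 : 0 < p.2 := hp
  have t2 : 0 < q.2 := hq
  have h1 := cosh_hdist hp hx
  have h2 := cosh_hdist hx hq
  have h3 := cosh_hdist hp hq
  rw [← h, Real.cosh_add] at h3
  have s1 : 0 ≤ Real.sinh (hdist p x) := Real.sinh_nonneg_iff.2 (hdist_nonneg hp hx)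
  have s2 : 0 ≤ Real.sinh (hdist x q) := Real.sinh_nonneg_iff.2 (hdist_nonneg hx hq)
  have e1 := Real.cosh_sq (hdist p x)
  have e2 := Real.cosh_sq (hdist x q)
  have c1 := Real.cosh_pos (hdist p x)
  generalize Real.sinh (hdist p x) = S1 at *
  generalize Real.sinh (hdist x q) = S2 at *
  generalize Real.cosh (hdist p x) = C1 at *
  generalize Real.cosh (hdist x q) = C2 at *
  obtain ⟨k1, k2, k3⟩ := real_core (x1 := p.1.re - x.1.re) (y1 := p.1.im - x.1.im)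
    (x2 := q.1.re - x.1.re) (y2 := q.1.im - x.1.im) (t := x.2) (t1 := p.2) (t2 := q.2) e1 e2
    h1 (by linear_combination h2) (by linear_combination h3)
  have a1 : 0 ≤ S1 * p.2 := by positivity
  have a2 : 0 ≤ S2 * q.2 := by positivity
  simp only [norm_sq]
  rcases (add_nonneg a2 a1).eq_or_lt with h0 | h0
  · have b1 : S1 = 0 := by
      have : S1 * p.2 = 0 := by linarith
      exact (mul_eq_zero.1 this).resolve_right t1.ne'
    have b2 : C1 = 1 := by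
      rw [b1] at e1
      nlinarith
    rw [b2] at h1
    have d1 := sq_nonneg (p.1.re - x.1.re)
    have d2 := sq_nonneg (p.1.im - x.1.im)
    have d3 := sq_nonneg (p.2 - x.2)
    have d4 : (p.1.re - x.1.re) ^ 2 + (p.1.im - x.1.im) ^ 2 + (p.2 - x.2) ^ 2 = 0 := by
      linear_combination -h1
    have f1 : p.1.re - x.1.re = 0 := pow_eq_zero_iff (two_ne_zero) |>.1 (by linarith)
    have f2 : p.1.im - x.1.im = 0 := pow_eq_zero_iff (two_ne_zero) |>.1 (by linarith)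
    have f3 : p.2 - x.2 = 0 := pow_eq_zero_iff (two_ne_zero) |>.1 (by linarith)
    have g1 : x.1.re = p.1.re := by linarith
    have g2 : x.1.im = p.1.im := by linarith
    have g3 : x.2 = p.2 := by linarith
    refine ⟨0, ⟨le_rfl, zero_le_one⟩, ?_, ?_⟩
    · apply Complex.ext <;> simp [g1, g2]
    · rw [g1, g2, g3]; ring
  · set s := S1 * p.2 / (S2 * q.2 + S1 * p.2) with hs
    have hs1 : s * (S2 * q.2 + S1 * p.2) = S1 * p.2 := div_mul_cancel₀ _ h0.ne'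
    have g1 : x.1.re = (1 - s) * p.1.re + s * q.1.re := by
      apply mul_right_cancel₀ h0.ne'
      linear_combination -k1 + (p.1.re - q.1.re) * hs1
    have g2 : x.1.im = (1 - s) * p.1.im + s * q.1.im := by
      apply mul_right_cancel₀ h0.ne'
      linear_combination -k2 + (p.1.im - q.1.im) * hs1
    refine ⟨s, ⟨div_nonneg a1 h0.le, (div_le_one h0).2 (by linarith)⟩, ?_, ?_⟩
    · apply Complex.ext
      · simpa using g1
      · simpa using g2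
    · apply mul_right_cancel₀ h0.ne'
      linear_combination -k3 - 2 * x.1.re * k1 - 2 * x.1.im * k2 +
        ((p.2 ^ 2 + (p.1.re ^ 2 + p.1.im ^ 2)) - (q.2 ^ 2 + (q.1.re ^ 2 + q.1.im ^ 2))) * hs1

theorem body {E : Set ℂ} (hE : IsClosed E) (hi : interior E = ∅) {t : ℂ → ℝ} (ht : Continuous t)
    (h0 : ∀ b, 0 ≤ t b) (hz : ∀ b, t b = 0 ↔ b ∈ E)
    (hs : ∀ b ∉ E, ∃ β : ℂ, ∀ᶠ b' in 𝓝 b, t b ^ 2 + ‖b - β‖ ^ 2 ≤ t b' ^ 2 + ‖b' - β‖ ^ 2) :
    IsDomainFor (sph Eᶜ) {p | 0 < p.2 ∧ t p.1 ≤ p.2} ∧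
      bdry {p | 0 < p.2 ∧ t p.1 ≤ p.2} = {p | p.1 ∉ E ∧ p.2 = t p.1} := by
  set C : Set (ℂ × ℝ) := {p | 0 < p.2 ∧ t p.1 ≤ p.2} with hC
  have ht1 : Continuous fun p : ℂ × ℝ => t p.1 := ht.comp continuous_fst
  have hcl : closure C ⊆ {p | t p.1 ≤ p.2} :=
    closure_minimal (fun p hp => hp.2) (isClosed_le ht1 continuous_snd)
  have hint : {p : ℂ × ℝ | t p.1 < p.2} ⊆ interior C :=
    interior_maximal (fun p hp => ⟨lt_of_le_of_lt (h0 _) hp, le_of_lt hp⟩)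
      (isOpen_lt ht1 continuous_snd)
  have hdense : Dense Eᶜ := interior_eq_empty_iff_dense_compl.1 hi
  have hconv : HConvex C := by
    refine ⟨fun p hp => hp.1, fun p hp q hq x hx h => ⟨hx, ?_⟩⟩
    obtain ⟨s, hs1, hs2, hs3⟩ := seg_affine hp.1 hq.1 hx h
    have h1 := phi_convex ht hz hs p.1 q.1 hs1
    rw [← hs2] at h1
    have h2 : t p.1 ^ 2 ≤ p.2 ^ 2 := pow_le_pow_left₀ (h0 _) hp.2 2
    have h3 : t q.1 ^ 2 ≤ q.2 ^ 2 := pow_le_pow_left₀ (h0 _) hq.2 2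
    have h4 := mul_le_mul_of_nonneg_left h2 (sub_nonneg.2 hs1.2)
    have h5 := mul_le_mul_of_nonneg_left h3 hs1.1
    have h6 : t x.1 ^ 2 ≤ x.2 ^ 2 := by linarith
    exact (pow_le_pow_iff_left₀ (h0 _) (le_of_lt hx) two_ne_zero).1 h6
  have hclosed : closure C ∩ H3 ⊆ C := fun p hp => ⟨hp.2, hcl hp.1⟩
  have hmem : ∀ z : ℂ, (z : OnePoint ℂ) ∈ (sph Eᶜ)ᶜ ↔ z ∈ E := by
    intro z
    simp [sph]
  have hinf : (OnePoint.infty : OnePoint ℂ) ∈ (sph Eᶜ)ᶜ := by simp [sph]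
  have ideal_eq : ∀ B : Set (ℂ × ℝ), ¬ Bornology.IsBounded B →
      (∀ z : ℂ, (z, (0 : ℝ)) ∈ closure B ↔ z ∈ E) → idealBdry B = (sph Eᶜ)ᶜ := by
    intro B h1 h2
    ext ξ
    induction ξ using OnePoint.rec with
    | infty => exact ⟨fun _ => hinf, fun _ => Or.inl ⟨rfl, h1⟩⟩
    | coe z =>
      rw [hmem]
      constructor
      · rintro (⟨h, _⟩ | ⟨w, h3, h4⟩)
        · exact absurd h (OnePoint.coe_ne_infty z)
        · rw [OnePoint.coe_eq_coe.1 h3]; exact (h2 w).1 h4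
      · exact fun h => Or.inr ⟨z, rfl, (h2 z).2 h⟩
  have hideal : idealBdry C = (sph Eᶜ)ᶜ := by
    refine ideal_eq C (fun hb => ?_) (fun z => ⟨fun h => ?_, fun h => ?_⟩)
    · obtain ⟨R, hR⟩ := hb.exists_norm_le
      have h1 := h0 0
      have h2 := abs_nonneg R
      have h3 := hR (0, t 0 + |R| + 1) ⟨by dsimp only; linarith, by dsimp only; linarith⟩
      have h4 := (norm_snd_le ((0 : ℂ), t 0 + |R| + 1)).trans h3
      have h5 := le_abs_self R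
      have h6 := le_abs_self (t 0 + |R| + 1)
      rw [Real.norm_eq_abs] at h4
      dsimp only at h4
      linarith
    · exact (hz z).1 (le_antisymm (hcl h) (h0 z))
    · have h1 : Tendsto (fun u : ℝ => (z, u)) (𝓝[>] 0) (𝓝 (z, 0)) :=
        ((Continuous.prodMk_right z).tendsto 0).mono_left nhdsWithin_le_nhds
      refine mem_closure_of_tendsto h1 ?_
      filter_upwards [self_mem_nhdsWithin] with u hu
      exact ⟨hu, by rw [(hz z).2 h]; exact le_of_lt hu⟩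
  have hb : bdry C = {p | p.1 ∉ E ∧ p.2 = t p.1} := by
    ext p
    constructor
    · rintro ⟨⟨h1, h2⟩, h3⟩
      have h4 : p.2 = t p.1 := le_antisymm (not_lt.1 fun h => h2 (hint h)) (hcl h1)
      refine ⟨fun h => ?_, h4⟩
      have h5 : 0 < p.2 := h3
      rw [h4, (hz _).2 h] at h5
      exact lt_irrefl _ h5
    · rintro ⟨h1, h2⟩
      have h3 : 0 < p.2 := by
        rw [h2]; exact lt_of_le_of_ne (h0 _) fun h => h1 ((hz _).1 h.symm)
      refine ⟨⟨subset_closure ⟨h3, h2.ge⟩, fun h => ?_⟩, h3⟩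
      have h4 : Tendsto (fun u : ℝ => (p.1, u)) (𝓝[<] p.2) (𝓝 p) :=
        ((Continuous.prodMk_right p.1).tendsto p.2).mono_left nhdsWithin_le_nhds
      obtain ⟨u, h5, h6⟩ :=
        ((h4.eventually (mem_interior_iff_mem_nhds.1 h)).and self_mem_nhdsWithin).exists
      have h7 : t p.1 ≤ u := h5.2
      have h8 : u < p.2 := h6
      linarith
  refine ⟨⟨hconv, hclosed, ⟨(0, t 0 + 1), hint (by simp)⟩,
    sInter_subset_of_mem ⟨hconv, hclosed, hideal.symm.subset⟩, hideal, ?_⟩, hb⟩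
  have hopen : IsOpen (sph Eᶜ) := OnePoint.isOpen_image_coe.2 hE.isOpen_compl
  have hd : Dense (sph Eᶜ) :=
    OnePoint.denseRange_coe.dense_image OnePoint.continuous_coe hdense
  rw [hopen.frontier_eq, hd.closure_eq, ← compl_eq_univ_sdiff, hb]
  refine ideal_eq _ (fun hbd => ?_) (fun z => ⟨fun h => ?_, fun h => ?_⟩)
  · obtain ⟨R, hR⟩ := hbd.exists_norm_le
    obtain ⟨w, h1, h2⟩ := hdense.exists_mem_open (U := {w : ℂ | R < ‖w‖})
      (isOpen_lt continuous_const continuous_norm) (by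
        obtain ⟨w, hw⟩ := NormedSpace.exists_lt_norm ℝ ℂ R
        exact ⟨w, hw⟩)
    have h3 := (norm_fst_le (w, t w)).trans (hR (w, t w) ⟨h1, rfl⟩)
    exact absurd h2 (not_lt.2 h3)
  · have h1 : closure {p : ℂ × ℝ | p.1 ∉ E ∧ p.2 = t p.1} ⊆ {p | p.2 = t p.1} :=
      closure_minimal (fun p hp => hp.2) (isClosed_eq continuous_snd ht1)
    exact (hz z).1 (h1 h).symm
  · have h1 : (z, t z) ∈ closure {p : ℂ × ℝ | p.1 ∉ E ∧ p.2 = t p.1} :=
      map_mem_closure (f := fun w => (w, t w)) (by fun_prop) (hdense z) fun w hw => ⟨hw, rfl⟩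
    rwa [(hz z).2 h] at h1

end Pool.Agent.Lib.MP_44acff_gt.NU
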