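import Pool.Agent.Lib.MP_44acff_gt.H70Base

/-! The Cauchy transform of compactly supported functions. -/

namespace Pool.Agent.Lib.MP_44acff_gt.NU

open Set Metric MeasureTheory Filter Topology ComplexConjugate
open scoped ContDiff

namespace CTAux

theorem locInt : LocallyIntegrable (fun ξ : ℂ => ξ⁻¹) volume := by
  refine locallyIntegrable_of_norm_le_rpow (C := 1) (α := 1) (by simp) (by simp)
    (Eventually.of_forall fun x => ?_) measurable_inv.aestronglyMeasurable
  simp [Real.rpow_neg_one]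

theorem ct_shift (ψ : ℂ → ℂ) (z : ℂ) :
    ct ψ z = -(1 / Real.pi : ℂ) * ∫ ξ, ψ (ξ + z) / ξ := by
  rw [ct, ← integral_add_right_eq_self (fun ζ => ψ ζ / (ζ - z)) z]
  simp only [add_sub_cancel_right]

theorem ct_conv (ψ : ℂ → ℂ) : ct ψ = fun z => (1 / Real.pi : ℂ) *
    convolution (fun ξ : ℂ => ξ⁻¹) ψ (ContinuousLinearMap.mul ℝ ℂ) volume z := by
  funext z
  rw [ct, convolution_def, ← integral_sub_left_eq_self (fun ζ => ψ ζ / (ζ - z)) volume z,
    neg_mul, ← mul_neg, ← integral_neg]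
  congr 2
  funext t
  simp only [ContinuousLinearMap.mul_apply', sub_sub_cancel_left, div_neg, neg_neg]
  rw [div_eq_inv_mul]

/-- The point of the unit circle. -/
noncomputable def ex (t : ℝ) : ℂ := Real.cos t + Real.sin t * Complex.I

theorem ex_eq (t : ℝ) : ex t = Complex.exp (t * Complex.I) := by
  rw [Complex.exp_mul_I, ex, Complex.ofReal_cos, Complex.ofReal_sin]

theorem norm_ex (t : ℝ) : ‖ex t‖ = 1 := by
  rw [ex_eq, Complex.norm_exp_ofReal_mul_I]

theorem ex_ne (t : ℝ) : ex t ≠ 0 := by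
  rw [ex_eq]
  exact Complex.exp_ne_zero _

theorem continuous_ex : Continuous ex := by
  unfold ex
  fun_prop

theorem hasDerivAt_ex (t : ℝ) : HasDerivAt ex (Complex.I * ex t) t := by
  have h1 : HasDerivAt (fun s : ℝ => (s : ℂ) * Complex.I) Complex.I t := by
    simpa using (Complex.ofRealCLM.hasDerivAt (x := t)).mul_const Complex.I
  have h2 := h1.cexp
  rw [← ex_eq, mul_comm] at h2
  simpa only [← ex_eq] using h2

theorem ex_pi : ex Real.pi = ex (-Real.pi) := by
  simp [ex]

theorem lin_ex (L : ℂ →L[ℝ] ℂ) (t : ℝ) :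
    (L 1 + Complex.I * L Complex.I) / ex t = L (ex t) + Complex.I * L (Complex.I * ex t) := by
  have h1 : ex t = Real.cos t • (1 : ℂ) + Real.sin t • Complex.I := by simp [ex]
  have h2 : Complex.I * ex t = (-Real.sin t) • (1 : ℂ) + Real.cos t • Complex.I := by
    simp only [ex, Complex.real_smul, Complex.ofReal_neg]
    linear_combination (Real.sin t : ℂ) * Complex.I_mul_I
  have h3 : (Real.sin t : ℂ) ^ 2 + (Real.cos t : ℂ) ^ 2 = 1 := by
    exact_mod_cast Real.sin_sq_add_cos_sq t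
  have h4 : L (ex t) = Real.cos t * L 1 + Real.sin t * L Complex.I := by
    rw [h1, map_add, map_smul, map_smul, Complex.real_smul, Complex.real_smul]
  have h5 : L (Complex.I * ex t) = -Real.sin t * L 1 + Real.cos t * L Complex.I := by
    rw [h2, map_add, map_smul, map_smul, Complex.real_smul, Complex.real_smul, Complex.ofReal_neg]
  rw [div_eq_iff (ex_ne t), h4, h5, ex]
  linear_combination (-(L 1) - Complex.I * L Complex.I) * h3 +
    ((Real.sin t : ℂ) ^ 2 * L 1 - (Real.sin t : ℂ) * (Real.cos t : ℂ) * L Complex.I) *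
      Complex.I_mul_I

theorem integrableOn_polar {g : ℂ → ℂ →L[ℝ] ℂ} (hg : Continuous g) (hc : HasCompactSupport g)
    {v : ℝ → ℂ} (hv : Continuous v) :
    IntegrableOn (fun p : ℝ × ℝ => g (p.1 * ex p.2) (v p.2))
      (Ioi (0 : ℝ) ×ˢ Ioo (-Real.pi) Real.pi) (volume.prod volume) := by
  obtain ⟨R, hR⟩ := hc.isCompact.isBounded.subset_closedBall 0
  have he := continuous_ex
  have h1 : Continuous fun p : ℝ × ℝ => g (p.1 * ex p.2) (v p.2) := by fun_prop
  have h2 : IntegrableOn (fun p : ℝ × ℝ => g (p.1 * ex p.2) (v p.2))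
      (Icc (0 : ℝ) R ×ˢ Icc (-Real.pi) Real.pi) (volume.prod volume) :=
    h1.continuousOn.integrableOn_compact (isCompact_Icc.prod isCompact_Icc)
  refine h2.of_forall_sdiff_eq_zero (measurableSet_Ioi.prod measurableSet_Ioo) ?_
  rintro ⟨r, t⟩ ⟨⟨hr, ht⟩, hn⟩
  have hr' : 0 < r := hr
  have h3 : R < r := by
    by_contra h
    exact hn ⟨⟨hr'.le, not_lt.1 h⟩, Ioo_subset_Icc_self ht⟩
  have h4 : (r : ℂ) * ex t ∉ tsupport g := fun h => by
    have := hR h
    rw [mem_closedBall, dist_zero_right, norm_mul, norm_ex, Complex.norm_real,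
      Real.norm_of_nonneg hr'.le] at this
    linarith
  simp only [image_eq_zero_of_notMem_tsupport h4, zero_apply]

theorem radial {φ : ℂ → ℂ} (hφ : ContDiff ℝ 1 φ) (hc : HasCompactSupport φ) (t : ℝ) :
    ∫ r in Ioi (0 : ℝ), fderiv ℝ φ (r * ex t) (ex t) = -φ 0 := by
  have h1 : ContDiff ℝ 1 fun r : ℝ => φ (r * ex t) :=
    hφ.comp (Complex.ofRealCLM.contDiff.mul contDiff_const)
  have h2 : Isometry fun r : ℝ => (r : ℂ) * ex t := by
    refine Isometry.of_dist_eq fun a b => ?_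
    rw [dist_eq_norm, ← sub_mul, norm_mul, norm_ex, mul_one, ← Complex.ofReal_sub,
      Complex.norm_real, dist_eq_norm]
  have h3 : HasCompactSupport fun r : ℝ => φ (r * ex t) :=
    hc.comp_isClosedEmbedding h2.isClosedEmbedding
  have h4 := h3.integral_Ioi_deriv_eq h1 0
  simp only [Complex.ofReal_zero, zero_mul] at h4
  rw [← h4]
  congr 1
  funext r
  have h5 : HasDerivAt (fun s : ℝ => (s : ℂ) * ex t) (ex t) r := by
    simpa using (Complex.ofRealCLM.hasDerivAt (x := r)).mul_const (ex t)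
  exact ((hφ.differentiable one_ne_zero _).hasFDerivAt.comp_hasDerivAt r h5).deriv.symm

theorem angular {φ : ℂ → ℂ} (hφ : ContDiff ℝ 1 φ) {r : ℝ} (hr : 0 < r) :
    ∫ t in Ioo (-Real.pi) Real.pi, fderiv ℝ φ (r * ex t) (Complex.I * ex t) = 0 := by
  have he := continuous_ex
  have hd := hφ.continuous_fderiv one_ne_zero
  have h1 : ∀ t : ℝ, HasDerivAt (fun s : ℝ => φ (r * ex s))
      (r • fderiv ℝ φ (r * ex t) (Complex.I * ex t)) t := fun t => by
    have := (hφ.differentiable one_ne_zero _).hasFDerivAt.comp_hasDerivAt t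
      ((hasDerivAt_ex t).const_mul (r : ℂ))
    rwa [← Complex.real_smul (z := Complex.I * ex t), map_smul] at this
  have h2 := intervalIntegral.integral_eq_sub_of_hasDerivAt (a := -Real.pi) (b := Real.pi)
    (fun t _ => h1 t) (Continuous.intervalIntegrable (by fun_prop) _ _)
  rw [ex_pi, sub_self, intervalIntegral.integral_smul, smul_eq_zero,
    intervalIntegral.integral_of_le (by linarith [Real.pi_pos]),
    integral_Ioc_eq_integral_Ioo] at h2
  exact h2.resolve_left hr.ne'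

theorem pompeiu {φ : ℂ → ℂ} (hφ : ContDiff ℝ 1 φ) (hc : HasCompactSupport φ) :
    ∫ ξ, dbar φ ξ / ξ = -Real.pi * φ 0 := by
  have he := continuous_ex
  have hd := hφ.continuous_fderiv one_ne_zero
  have iA := integrableOn_polar hd (hc.fderiv ℝ) he
  have iB := integrableOn_polar hd (hc.fderiv ℝ) (v := fun t => Complex.I * ex t) (by fun_prop)
  have eA : ∫ p in Ioi (0 : ℝ) ×ˢ Ioo (-Real.pi) Real.pi,
      fderiv ℝ φ (p.1 * ex p.2) (ex p.2) ∂(volume.prod volume) = -(2 * Real.pi) * φ 0 := by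
    rw [IntegrableOn, ← Measure.prod_restrict] at iA
    rw [← Measure.prod_restrict, integral_prod_symm _ iA]
    simp only [radial hφ hc, integral_const, MeasurableSet.univ, measureReal_restrict_apply,
      univ_inter, Real.volume_real_Ioo_of_le (show -Real.pi ≤ Real.pi by linarith [Real.pi_pos]),
      Complex.real_smul]
    push_cast
    ring
  have eB : ∫ p in Ioi (0 : ℝ) ×ˢ Ioo (-Real.pi) Real.pi,
      fderiv ℝ φ (p.1 * ex p.2) (Complex.I * ex p.2) ∂(volume.prod volume) = 0 := by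
    rw [setIntegral_prod _ iB]
    exact setIntegral_eq_zero_of_forall_eq_zero fun r hr => angular hφ hr
  rw [← Complex.integral_comp_polarCoord_symm]
  have e1 : ∫ p in polarCoord.target, p.1 • (dbar φ (Complex.polarCoord.symm p) /
      Complex.polarCoord.symm p) = ∫ p in Ioi (0 : ℝ) ×ˢ Ioo (-Real.pi) Real.pi,
      (1 / 2 : ℂ) * (fderiv ℝ φ (p.1 * ex p.2) (ex p.2) +
        Complex.I * fderiv ℝ φ (p.1 * ex p.2) (Complex.I * ex p.2)) ∂(volume.prod volume) := by
    refine setIntegral_congr_fun polarCoord.open_target.measurableSet fun p hp => ?_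
    have hp1 : (p.1 : ℂ) ≠ 0 := Complex.ofReal_ne_zero.2 (ne_of_gt hp.1)
    have h5 : Complex.polarCoord.symm p = p.1 * ex p.2 := Complex.polarCoord_symm_apply p
    have h6 := ex_ne p.2
    simp only [h5, ← lin_ex, dbar, Complex.real_smul]
    field_simp
  rw [e1, integral_const_mul, integral_add iA (iB.const_mul _), integral_const_mul, eA, eB]
  ring

end CTAux

theorem integrable_ct {ψ : ℂ → ℂ} (hψ : Continuous ψ) (hc : HasCompactSupport ψ) (z : ℂ) :
    Integrable (fun ζ => ψ ζ / (ζ - z)) := by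
  have h1 : Integrable fun ξ : ℂ => ψ (ξ + z) • ξ⁻¹ :=
    CTAux.locInt.integrable_smul_left_of_hasCompactSupport (by fun_prop)
      (hc.comp_homeomorph (Homeomorph.addRight z))
  have h2 := h1.comp_sub_right z
  simpa only [sub_add_cancel, smul_eq_mul, div_eq_mul_inv] using h2

theorem ct_contDiff {ψ : ℂ → ℂ} (hψ : ContDiff ℝ 1 ψ) (hc : HasCompactSupport ψ) :
    ContDiff ℝ 1 (ct ψ) ∧
      ∀ z v, fderiv ℝ (ct ψ) z v = ct (fun ζ => fderiv ℝ ψ ζ v) z := by
  constructor
  · rw [CTAux.ct_conv]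
    exact contDiff_const.mul (hc.contDiff_convolution_right (n := 1) _ CTAux.locInt hψ)
  · intro z v
    have h1 := (hc.hasFDerivAt_convolution_right (ContinuousLinearMap.mul ℝ ℂ) CTAux.locInt hψ
      z).const_mul (1 / Real.pi : ℂ)
    rw [CTAux.ct_conv, CTAux.ct_conv, h1.fderiv, smul_apply,
      convolution_precompR_apply _ CTAux.locInt (hc.fderiv ℝ) (hψ.continuous_fderiv one_ne_zero),
      smul_eq_mul]

/-- The formula of Cauchy and Pompeiu. -/
theorem ct_dbar {ψ : ℂ → ℂ} (hψ : ContDiff ℝ 1 ψ) (hc : HasCompactSupport ψ) (z : ℂ) :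
    ct (dbar ψ) z = ψ z := by
  have h1 : ContDiff ℝ 1 fun ξ => ψ (ξ + z) := hψ.comp (contDiff_id.add contDiff_const)
  have h2 := CTAux.pompeiu h1 (hc.comp_homeomorph (Homeomorph.addRight z))
  have h3 : ∀ ξ, dbar (fun ξ => ψ (ξ + z)) ξ = dbar ψ (ξ + z) := fun ξ => by
    simp only [dbar, fderiv_comp_add_right]
  have h4 : (Real.pi : ℂ) ≠ 0 := Complex.ofReal_ne_zero.2 Real.pi_ne_zero
  simp only [h3, zero_add] at h2
  rw [CTAux.ct_shift, h2]
  field_simp

theorem dbar_ct {ψ : ℂ → ℂ} (hψ : ContDiff ℝ 1 ψ) (hc : HasCompactSupport ψ) (z : ℂ) :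
    dbar (ct ψ) z = ψ z := by
  have hd := hψ.continuous_fderiv one_ne_zero
  have i1 : ∀ v : ℂ, Integrable fun ζ => fderiv ℝ ψ ζ v / (ζ - z) := fun v =>
    integrable_ct (by fun_prop) (hc.fderiv_apply ℝ v) z
  rw [← ct_dbar hψ hc z, dbar, (ct_contDiff hψ hc).2, (ct_contDiff hψ hc).2]
  have h1 : (fun ζ => dbar ψ ζ / (ζ - z)) = fun ζ => (1 / 2 : ℂ) * (fderiv ℝ ψ ζ 1 / (ζ - z) +
      Complex.I * (fderiv ℝ ψ ζ Complex.I / (ζ - z))) := by
    funext ζ
    rw [dbar]
    ring
  simp only [ct]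
  rw [h1, integral_const_mul, integral_add (i1 1) ((i1 _).const_mul _), integral_const_mul]
  ring

theorem lintegral_inv_ball (z : ℂ) {r : ℝ} (hr : 0 < r) :
    ∫⁻ ζ in ball z r, ENNReal.ofReal (‖ζ - z‖⁻¹) ≤ ENNReal.ofReal (2 * Real.pi * r) := by
  rw [← lintegral_indicator measurableSet_ball, ← lintegral_add_right_eq_self _ z,
    ← Complex.lintegral_comp_polarCoord_symm]
  calc _ ≤ ∫⁻ p in polarCoord.target,
        (Ioo (0 : ℝ) r ×ˢ Ioo (-Real.pi) Real.pi).indicator (fun _ => (1 : ENNReal)) p := by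
        refine setLIntegral_mono' polarCoord.open_target.measurableSet fun p hp => ?_
        have hp1 : 0 < p.1 := hp.1
        have h1 : ‖Complex.polarCoord.symm p‖ = p.1 := by
          rw [Complex.norm_polarCoord_symm, abs_of_pos hp1]
        by_cases h : p.1 < r
        · rw [indicator_of_mem (show p ∈ Ioo (0 : ℝ) r ×ˢ Ioo (-Real.pi) Real.pi from
            ⟨⟨hp1, h⟩, hp.2⟩)]
          refine le_trans (mul_le_mul_right (indicator_le_self _ _ _) _) ?_
          rw [add_sub_cancel_right, h1, ← ENNReal.ofReal_mul hp1.le, mul_inv_cancel₀ hp1.ne',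
            ENNReal.ofReal_one]
        · rw [indicator_of_notMem, smul_zero]
          · exact zero_le
          · rwa [mem_ball, dist_eq_norm, add_sub_cancel_right, h1]
    _ ≤ ∫⁻ p, (Ioo (0 : ℝ) r ×ˢ Ioo (-Real.pi) Real.pi).indicator (fun _ => (1 : ENNReal)) p :=
        setLIntegral_le_lintegral _ _
    _ = ENNReal.ofReal (2 * Real.pi * r) := by
        rw [lintegral_indicator (measurableSet_Ioo.prod measurableSet_Ioo), setLIntegral_one,
          Measure.volume_eq_prod, Measure.prod_prod, Real.volume_Ioo, Real.volume_Ioo,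
          ← ENNReal.ofReal_mul (by linarith)]
        congr 1
        ring

theorem lintegral_inv_le {S : Set ℂ} {V r : ℝ} (hV0 : 0 ≤ V) (hV : volume S ≤ ENNReal.ofReal V)
    (hr : 0 < r) (z : ℂ) :
    ∫⁻ ζ in S, ENNReal.ofReal (‖ζ - z‖⁻¹) ≤ ENNReal.ofReal (2 * Real.pi * r + V / r) := by
  calc _ ≤ ∫⁻ ζ in S, ((ball z r).indicator (fun ζ => ENNReal.ofReal (‖ζ - z‖⁻¹)) ζ +
        ENNReal.ofReal r⁻¹) := by
        refine lintegral_mono fun ζ => ?_
        by_cases h : ζ ∈ ball z r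
        · rw [indicator_of_mem h]
          exact le_self_add
        · rw [indicator_of_notMem h, zero_add]
          rw [mem_ball, dist_eq_norm, not_lt] at h
          exact ENNReal.ofReal_le_ofReal (inv_anti₀ hr h)
    _ = (∫⁻ ζ in S, (ball z r).indicator (fun ζ => ENNReal.ofReal (‖ζ - z‖⁻¹)) ζ) +
        ENNReal.ofReal r⁻¹ * volume S := by
        rw [lintegral_add_right _ measurable_const, setLIntegral_const]
    _ ≤ ENNReal.ofReal (2 * Real.pi * r) + ENNReal.ofReal r⁻¹ * ENNReal.ofReal V := by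
        refine add_le_add ((setLIntegral_le_lintegral _ _).trans ?_) (mul_le_mul_right hV _)
        rw [lintegral_indicator measurableSet_ball]
        exact lintegral_inv_ball z hr
    _ = ENNReal.ofReal (2 * Real.pi * r + V / r) := by
        rw [← ENNReal.ofReal_mul (by positivity), ← ENNReal.ofReal_add (by positivity)
          (by positivity), div_eq_inv_mul]

theorem norm_ct_le {ψ : ℂ → ℂ} {S : Set ℂ} {M V r : ℝ} (hS : MeasurableSet S) (hM0 : 0 ≤ M)
    (hV0 : 0 ≤ V) (hV : volume S ≤ ENNReal.ofReal V) (hM : ∀ ζ, ‖ψ ζ‖ ≤ M)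
    (h0 : ∀ ζ ∉ S, ψ ζ = 0) (hr : 0 < r) (z : ℂ) : ‖ct ψ z‖ ≤ M * (2 * r + V / r) := by
  have hpi := Real.pi_pos
  have h1 : ∫⁻ ζ, ENNReal.ofReal ‖ψ ζ / (ζ - z)‖ ≤
      ENNReal.ofReal (M * (2 * Real.pi * r + V / r)) := by
    calc _ ≤ ∫⁻ ζ, S.indicator (fun ζ => ENNReal.ofReal M * ENNReal.ofReal (‖ζ - z‖⁻¹)) ζ := by
          refine lintegral_mono fun ζ => ?_
          by_cases h : ζ ∈ S
          · rw [indicator_of_mem h, ← ENNReal.ofReal_mul hM0, norm_div, div_eq_mul_inv]
            exact ENNReal.ofReal_le_ofReal (mul_le_mul_of_nonneg_right (hM ζ) (by positivity))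
          · simp [h0 ζ h]
      _ = ENNReal.ofReal M * ∫⁻ ζ in S, ENNReal.ofReal (‖ζ - z‖⁻¹) := by
          rw [lintegral_indicator hS, lintegral_const_mul' _ _ ENNReal.ofReal_ne_top]
      _ ≤ ENNReal.ofReal M * ENNReal.ofReal (2 * Real.pi * r + V / r) :=
          mul_le_mul_right (lintegral_inv_le hV0 hV hr z) _
      _ = _ := (ENNReal.ofReal_mul hM0).symm
  have h2 : ‖∫ ζ, ψ ζ / (ζ - z)‖ ≤ M * (2 * Real.pi * r + V / r) :=
    (norm_integral_le_lintegral_norm _).trans
      (ENNReal.toReal_le_of_le_ofReal (by positivity) h1)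
  have h3 : ‖(-(1 / Real.pi : ℂ))‖ = 1 / Real.pi := by
    rw [norm_neg, norm_div, norm_one, Complex.norm_real, Real.norm_of_nonneg hpi.le]
  rw [ct, norm_mul, h3]
  refine (mul_le_mul_of_nonneg_left h2 (by positivity)).trans ?_
  rw [one_div_mul_eq_div, div_le_iff₀ hpi]
  have h4 : 0 ≤ M * (V / r) := by positivity
  nlinarith [Real.pi_gt_three]

theorem differentiableAt_of_dbar {F : ℂ → ℂ} {z : ℂ} (hF : DifferentiableAt ℝ F z)
    (h : dbar F z = 0) : DifferentiableAt ℂ F z := by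
  refine differentiableAt_complex_iff_differentiableAt_real.2 ⟨hF, ?_⟩
  rw [dbar, div_eq_zero_iff, or_iff_left two_ne_zero] at h
  rw [smul_eq_mul]
  linear_combination (-Complex.I) * h + fderiv ℝ F z Complex.I * Complex.I_mul_I

end Pool.Agent.Lib.MP_44acff_gt.NU
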