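import Pool.Agent.Lib.MP_44acff_gt.H70CT

/-! Bounded holomorphic functions on the complement of a fat set. -/

namespace Pool.Agent.Lib.MP_44acff_gt.NU

open Set Metric MeasureTheory Filter Topology ComplexConjugate
open scoped ContDiff

namespace CaraAux

/-- The Cauchy integral over a subset of `E` is holomorphic off `E`. -/
theorem hasDerivAt_int {E A : Set ℂ} (hE : Dom E) (hA : MeasurableSet A) (hAE : A ⊆ E)
    (hfin : volume A ≠ ⊤) {w : ℂ} (hw : w ∉ E) :
    Integrable (fun ξ : ℂ => ((ξ - w) ^ 2)⁻¹) (volume.restrict A) ∧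
      HasDerivAt (fun w' : ℂ => ∫ ξ in A, (ξ - w')⁻¹) (∫ ξ in A, ((ξ - w) ^ 2)⁻¹) w := by
  have hδ : 0 < infDist w E := (hE.closed.notMem_iff_infDist_pos hE.nonempty).1 hw
  set δ := infDist w E with hδdef
  have : IsFiniteMeasure (volume.restrict A) := isFiniteMeasure_restrict.2 hfin
  have hlow : ∀ ξ ∈ A, ∀ x ∈ ball w (δ / 2), δ / 2 ≤ ‖ξ - x‖ := by
    intro ξ hξ x hx
    have h1 : δ ≤ dist w ξ := infDist_le_dist_of_mem (hAE hξ)
    have h2 := dist_triangle w x ξ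
    have h3 := mem_ball'.1 hx
    rw [← dist_eq_norm, dist_comm]
    linarith
  have hm : ∀ x : ℂ, AEStronglyMeasurable (fun ξ : ℂ => (ξ - x)⁻¹) (volume.restrict A) :=
    fun x => ((measurable_id.sub_const x).inv).aestronglyMeasurable
  have hb1 : ∀ ξ ∈ A, ‖(ξ - w)⁻¹‖ ≤ (δ / 2)⁻¹ := by
    intro ξ hξ
    rw [norm_inv]
    exact inv_anti₀ (half_pos hδ) (hlow ξ hξ w (mem_ball_self (half_pos hδ)))
  refine hasDerivAt_integral_of_dominated_loc_of_deriv_le (F := fun x ξ : ℂ => (ξ - x)⁻¹)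
    (F' := fun x ξ : ℂ => ((ξ - x) ^ 2)⁻¹) (bound := fun _ => ((δ / 2) ^ 2)⁻¹)
    (ball_mem_nhds w (half_pos hδ)) (Eventually.of_forall hm) ?_ ?_ ?_ (integrable_const _) ?_
  · refine Integrable.mono' (integrable_const (δ / 2)⁻¹) (hm w) ?_
    exact (ae_restrict_mem hA).mono hb1
  · exact (((measurable_id.sub_const w).pow_const 2).inv).aestronglyMeasurable
  · refine (ae_restrict_mem hA).mono fun ξ hξ x hx => ?_
    rw [norm_inv, norm_pow]
    exact inv_anti₀ (by positivity) (pow_le_pow_left₀ (half_pos hδ).le (hlow ξ hξ x hx) 2)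
  · refine (ae_restrict_mem hA).mono fun ξ hξ x hx => ?_
    have hne : ξ - x ≠ 0 := norm_pos_iff.1 ((half_pos hδ).trans_le (hlow ξ hξ x hx))
    have h1 := ((hasDerivAt_id x).const_sub ξ).inv hne
    simp only [id, neg_neg, one_div] at h1
    exact h1

theorem norm_int_le {A : Set ℂ} {d : ℝ} (hd : 0 < d) (hA : volume A ≤ ENNReal.ofReal (d ^ 2))
    (w : ℂ) : ‖∫ ξ in A, (ξ - w)⁻¹‖ ≤ 9 * d := by
  refine (norm_integral_le_lintegral_norm _).trans ?_
  have h1 := lintegral_inv_le (sq_nonneg d) hA hd w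
  simp only [norm_inv]
  refine (ENNReal.toReal_mono ENNReal.ofReal_ne_top h1).trans ?_
  have h2 : d ^ 2 / d = d := by field_simp
  have h3 := Real.pi_le_four
  have h4 := Real.pi_pos
  rw [h2, ENNReal.toReal_ofReal (by positivity)]
  nlinarith

theorem point_le {u e : ℂ} {d : ℝ} (hd : 0 < d) (hu : ‖u‖ = d) (he : ‖e‖ ≤ d / 8) :
    ‖u ^ 2 * ((u + e) ^ 2)⁻¹ - 1‖ ≤ 1 / 2 := by
  have h1 : 7 * d / 8 ≤ ‖u + e‖ := by
    have := norm_sub_norm_le u (-e)
    rw [norm_neg, sub_neg_eq_add] at this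
    linarith
  have hne : u + e ≠ 0 := norm_pos_iff.1 (lt_of_lt_of_le (by positivity) h1)
  have h2 : u ^ 2 * ((u + e) ^ 2)⁻¹ - 1 = -(e * (2 * u + e)) / (u + e) ^ 2 := by
    field_simp
    ring
  have h3 : ‖2 * u + e‖ ≤ 17 * d / 8 := by
    have := norm_add_le (2 * u) e
    rw [norm_mul, Complex.norm_two, hu] at this
    linarith
  have h4 : ‖e‖ * ‖2 * u + e‖ ≤ d / 8 * (17 * d / 8) :=
    mul_le_mul he h3 (norm_nonneg _) (by positivity)
  have h5 : (7 * d / 8) ^ 2 ≤ ‖u + e‖ ^ 2 := pow_le_pow_left₀ (by positivity) h1 2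
  rw [h2, norm_div, norm_neg, norm_mul, norm_pow, div_le_iff₀ (lt_of_lt_of_le (by positivity) h5)]
  nlinarith

end CaraAux

open CaraAux in
theorem cara {E : Set ℂ} {c : ℝ} (hE : Dom E) (hc : 0 < c) (hF : Fat E c) : ∃ c' > 0,
    ∀ z ∉ E, ∃ H : ℂ → ℂ, DifferentiableOn ℂ H Eᶜ ∧ MapsTo H Eᶜ (ball 0 1) ∧ H z = 0 ∧
      c' / infDist z E ≤ ‖deriv H z‖ := by
  refine ⟨c / 3456, by positivity, fun z hz => ?_⟩
  have hd : 0 < infDist z E := (hE.closed.notMem_iff_infDist_pos hE.nonempty).1 hz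
  obtain ⟨ξ0, hξ0, hdist⟩ := hE.closed.exists_infDist_eq_dist hE.nonempty z
  set d := infDist z E with hddef
  set A : Set ℂ := E ∩ ball ξ0 (d / 8) with hAdef
  have hA : MeasurableSet A := hE.closed.measurableSet.inter measurableSet_ball
  have hAE : A ⊆ E := inter_subset_left
  have hvol : volume A ≤ ENNReal.ofReal (d ^ 2) := by
    refine (measure_mono inter_subset_right).trans ?_
    rw [Complex.volume_ball, ← ENNReal.ofReal_pow (by positivity), ← ENNReal.ofReal_coe_nnreal,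
      ← ENNReal.ofReal_mul (by positivity), NNReal.coe_real_pi]
    refine ENNReal.ofReal_le_ofReal ?_
    have := Real.pi_le_four
    nlinarith [sq_nonneg d]
  have hfin : volume A ≠ ⊤ := ne_top_of_le_ne_top ENNReal.ofReal_ne_top hvol
  have hlow : c * (d / 8) ^ 2 ≤ volume.real A := by
    have h1 := ENNReal.toReal_mono hfin (hF ξ0 hξ0 (d / 8) (by positivity))
    rwa [ENNReal.toReal_ofReal (by positivity)] at h1
  let h : ℂ → ℂ := fun w => ∫ ξ in A, (ξ - w)⁻¹
  have hD : ((27 * d : ℝ) : ℂ) ≠ 0 := Complex.ofReal_ne_zero.2 (by positivity)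
  have hDn : ‖((27 * d : ℝ) : ℂ)‖ = 27 * d := by
    rw [Complex.norm_real, Real.norm_of_nonneg (by positivity)]
  refine ⟨fun w => (h w - h z) / ((27 * d : ℝ) : ℂ), fun w hw => ?_, fun w _ => ?_, by simp, ?_⟩
  · exact (((hasDerivAt_int hE hA hAE hfin hw).2.sub_const _).div_const
      _).differentiableAt.differentiableWithinAt
  · rw [mem_ball_zero_iff, norm_div, hDn, div_lt_one (by positivity)]
    have h1 := norm_sub_le (h w) (h z)
    have h2 : ‖h w‖ ≤ 9 * d := norm_int_le hd hvol w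
    have h3 : ‖h z‖ ≤ 9 * d := norm_int_le hd hvol z
    linarith
  · obtain ⟨hint, hder⟩ := hasDerivAt_int hE hA hAE hfin hz
    rw [((hder.sub_const (h z)).div_const _).deriv, norm_div, hDn]
    have : IsFiniteMeasure (volume.restrict A) := isFiniteMeasure_restrict.2 hfin
    have hu : ‖ξ0 - z‖ = d := by rw [hdist, dist_comm, dist_eq_norm]
    have h1 : ‖∫ ξ in A, ((ξ0 - z) ^ 2 * ((ξ - z) ^ 2)⁻¹ - 1)‖ ≤ 1 / 2 * volume.real A := by
      refine norm_setIntegral_le_of_norm_le_const hfin.lt_top fun ξ hξ => ?_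
      have h2 : ξ - z = (ξ0 - z) + (ξ - ξ0) := by ring
      rw [h2]
      refine point_le hd hu ?_
      rw [← dist_eq_norm]
      exact (mem_ball.1 hξ.2).le
    rw [integral_sub (hint.const_mul _) (integrable_const _), integral_const_mul,
      setIntegral_const] at h1
    have h3 := norm_sub_norm_le ((volume.real A) • (1 : ℂ))
      ((ξ0 - z) ^ 2 * ∫ ξ in A, ((ξ - z) ^ 2)⁻¹)
    rw [norm_sub_rev, norm_smul, norm_one, mul_one, Real.norm_of_nonneg measureReal_nonneg,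
      norm_mul, norm_pow, hu] at h3
    have h4 : c / 128 * d ^ 2 ≤ ‖∫ ξ in A, ((ξ - z) ^ 2)⁻¹‖ * d ^ 2 := by nlinarith
    have h5 := le_of_mul_le_mul_right h4 (by positivity)
    rw [div_le_div_iff₀ hd (by positivity)]
    nlinarith

end Pool.Agent.Lib.MP_44acff_gt.NU
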