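import Pool.Agent.Lib.MP_44acff_gt.H70Est

/-! Size and oscillation of the normalised Cauchy transform. -/

namespace Pool.Agent.Lib.MP_44acff_gt.NU

open Set Metric MeasureTheory Filter Topology ComplexConjugate
open scoped ContDiff

variable {E : Set ℂ} {A : ℝ}

namespace CauAux

/-- The weighted integral of `h` is at most `B`. -/
def Bd (E : Set ℂ) (h : ℂ → ℝ) (B : ℝ) : Prop :=
  IntegrableOn (fun ζ => infDist ζ E ^ (-(1 / 4) : ℝ) * h ζ) Eᶜ ∧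
    ∫ ζ in Eᶜ, infDist ζ E ^ (-(1 / 4) : ℝ) * h ζ ≤ B

theorem Bd.add {h h' : ℂ → ℝ} {B B' : ℝ} (a : Bd E h B) (b : Bd E h' B') :
    Bd E (fun ζ => h ζ + h' ζ) (B + B') := by
  simp only [Bd, mul_add]
  exact ⟨a.1.add b.1, (integral_add a.1 b.1).trans_le (add_le_add a.2 b.2)⟩

theorem Bd.mul {h : ℂ → ℝ} {B c : ℝ} (hc : 0 ≤ c) (a : Bd E h B) :
    Bd E (fun ζ => c * h ζ) (c * B) := by
  simp only [Bd, mul_left_comm _ c]
  exact ⟨a.1.const_mul c, (integral_const_mul _ _).trans_le (mul_le_mul_of_nonneg_left a.2 hc)⟩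

/-- A power of the distance to `p`, cut off outside `S`. -/
noncomputable def cut (S : Set ℂ) (p : ℂ) (γ : ℝ) : ℂ → ℝ := S.indicator fun ζ => ‖ζ - p‖ ^ (-γ)

theorem cut_nonneg (S : Set ℂ) (p : ℂ) (γ : ℝ) (ζ : ℂ) : 0 ≤ cut S p γ ζ :=
  indicator_nonneg (fun _ _ => by positivity) ζ

theorem cut_mem {S : Set ℂ} {ζ : ℂ} (h : ζ ∈ S) (p : ℂ) (γ : ℝ) :
    cut S p γ ζ = ‖ζ - p‖ ^ (-γ) := indicator_of_mem h _

theorem bd_cut {S : Set ℂ} (hS : MeasurableSet S) {p : ℂ} {γ B : ℝ} (hB : 0 ≤ B)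
    (h : ∫⁻ ζ in S \ E, ENNReal.ofReal (infDist ζ E ^ (-(1 / 4) : ℝ) * ‖ζ - p‖ ^ (-γ)) ≤
      ENNReal.ofReal B) : Bd E (cut S p γ) B := by
  have hm : Measurable fun ζ => infDist ζ E ^ (-(1 / 4) : ℝ) * ‖ζ - p‖ ^ (-γ) :=
    ((continuous_infDist_pt E).measurable.pow_const _).mul
      ((measurable_id.sub_const p).norm.pow_const _)
  have h0 : ∀ ζ, 0 ≤ infDist ζ E ^ (-(1 / 4) : ℝ) * ‖ζ - p‖ ^ (-γ) := fun ζ => by
    have := infDist_nonneg (x := ζ) (s := E)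
    positivity
  have hi : IntegrableOn (fun ζ => infDist ζ E ^ (-(1 / 4) : ℝ) * ‖ζ - p‖ ^ (-γ)) (S \ E) :=
    ⟨hm.aestronglyMeasurable, (hasFiniteIntegral_iff_ofReal (ae_of_all _ h0)).2
      (h.trans_lt ENNReal.ofReal_lt_top)⟩
  have e : (fun ζ => infDist ζ E ^ (-(1 / 4) : ℝ) * cut S p γ ζ) =
      S.indicator fun ζ => infDist ζ E ^ (-(1 / 4) : ℝ) * ‖ζ - p‖ ^ (-γ) :=
    funext fun ζ => by by_cases hζ : ζ ∈ S <;> simp [cut, hζ]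
  rw [Bd, e, IntegrableOn, integrable_indicator_iff hS, integral_indicator hS, IntegrableOn,
    Measure.restrict_restrict hS, ← sdiff_eq]
  refine ⟨hi, ?_⟩
  rw [integral_eq_lintegral_of_nonneg_ae (ae_of_all _ h0) hm.aestronglyMeasurable]
  exact ENNReal.toReal_le_of_le_ofReal hB h

theorem near (hA : MeasCond E A) {γ k : ℝ} (h0 : 0 < γ) (h : γ < 7 / 4) (hk : 0 < k) :
    ∃ C > 0, ∀ (p : ℂ) (r : ℝ), 0 < r →
      Bd E (cut (ball p (k * r)) p γ) (C * r ^ (7 / 4 - γ)) := by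
  obtain ⟨C, hC, H⟩ := est_near hA h0 h
  refine ⟨C * k ^ (7 / 4 - γ), by positivity, fun p r hr =>
    bd_cut measurableSet_ball (by positivity) ?_⟩
  rw [mul_assoc, ← Real.mul_rpow hk.le hr.le]
  exact H p _ (by positivity)

theorem far (hA : MeasCond E A) {γ k : ℝ} (h : 7 / 4 < γ) (hk : 0 < k) :
    ∃ C > 0, ∀ (p : ℂ) (r : ℝ), 0 < r →
      Bd E (cut (ball p (k * r))ᶜ p γ) (C * r ^ (7 / 4 - γ)) := by
  obtain ⟨C, hC, H⟩ := est_far hA h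
  refine ⟨C * k ^ (7 / 4 - γ), by positivity, fun p r hr =>
    bd_cut measurableSet_ball.compl (by positivity) ?_⟩
  rw [mul_assoc, ← Real.mul_rpow hk.le hr.le]
  exact H p _ (by positivity)

theorem sqrt_le {t a : ℝ} (h : t ≤ 9 * a) : √t ≤ 3 * √a := by
  refine (Real.sqrt_le_sqrt h).trans_eq ?_
  rw [Real.sqrt_mul (by norm_num), show (9 : ℝ) = 3 ^ 2 by norm_num, Real.sqrt_sq (by norm_num)]

theorem rp52 {a : ℝ} (ha : 0 < a) : a ^ (-(5 / 2) : ℝ) = √a / a ^ 3 := by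
  rw [Real.sqrt_eq_rpow, ← Real.rpow_natCast, ← Real.rpow_sub ha]
  norm_num

theorem rp32 {a : ℝ} (ha : 0 < a) : a ^ (-(3 / 2) : ℝ) = 1 / (a * √a) := by
  rw [Real.sqrt_eq_rpow, Real.rpow_neg ha.le, one_div (a * _), ← Real.rpow_one_add' ha.le
    (by norm_num)]
  norm_num

theorem two_pt {t a b : ℝ} (ha : 0 < a) (hb : 0 < b) (h : t ≤ 2 * a + b) :
    √t * (1 / (a * b)) ≤ 3 * (a ^ (-(3 / 2) : ℝ) + b ^ (-(3 / 2) : ℝ)) := by
  have key : ∀ {a b : ℝ}, 0 < a → a ≤ b → t ≤ 9 * b → √t * (1 / (a * b)) ≤ 3 * (1 / (a * √a)) :=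
    fun {a b} ha hab h => by
      have hb := ha.trans_le hab
      have h1 := Real.sqrt_pos.2 ha
      have h2 := Real.sqrt_le_sqrt hab
      have h3 := Real.mul_self_sqrt hb.le
      rw [mul_one_div, mul_one_div, div_le_div_iff₀ (by positivity) (by positivity)]
      calc √t * (a * √a) ≤ 3 * √b * (a * √b) := by gcongr; exact sqrt_le h
        _ = 3 * (a * (√b * √b)) := by ring
        _ = _ := by rw [h3]
  rw [rp32 ha, rp32 hb]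
  have h1 : 0 ≤ 1 / (a * √a) := by positivity
  have h2 : 0 ≤ 1 / (b * √b) := by positivity
  rcases le_total a b with h' | h'
  · linarith [key ha h' (by linarith)]
  · have := key hb h' (by linarith)
    rw [mul_comm b a] at this
    linarith

variable {x y z z₀ ζ : ℂ} {T δ : ℝ}

theorem ker_sub (h1 : ζ ≠ x) (h2 : ζ ≠ y) (h3 : ζ ≠ z) (h4 : ζ ≠ z₀) :
    ker x y z ζ - ker x y z₀ ζ =
      (z - z₀) * (1 / ((ζ - z) * (ζ - z₀)) - 1 / ((ζ - x) * (ζ - y))) := by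
  have := sub_ne_zero.2 h1
  have := sub_ne_zero.2 h2
  have := sub_ne_zero.2 h3
  have := sub_ne_zero.2 h4
  unfold ker
  field_simp
  ring

theorem tri (u v w : ℂ) : ‖u - w‖ ≤ ‖u - v‖ + ‖v - w‖ := norm_sub_le_norm_sub_add_norm_sub u v w

theorem far_pt (hT : 0 < T) (hs : ‖x - y‖ ≤ T) (h0 : ‖z₀ - x‖ ≤ T) (hz : ‖z - z₀‖ ≤ T)
    (ha : 4 * T ≤ ‖ζ - x‖) :
    ‖1 / ((ζ - z) * (ζ - z₀)) - 1 / ((ζ - x) * (ζ - y))‖ ≤ 40 * T / ‖ζ - x‖ ^ 3 := by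
  have hzx : ‖z - x‖ ≤ 2 * T := by linarith [tri z z₀ x]
  have hb : ‖ζ - x‖ / 2 ≤ ‖ζ - y‖ := by linarith [tri ζ y x, norm_sub_rev x y]
  have hc : ‖ζ - x‖ / 2 ≤ ‖ζ - z‖ := by linarith [tri ζ z x]
  have hd : ‖ζ - x‖ / 2 ≤ ‖ζ - z₀‖ := by linarith [tri ζ z₀ x]
  have h1 : 0 < ‖ζ - x‖ := by linarith
  have e : (ζ - x) * (ζ - y) - (ζ - z) * (ζ - z₀) =
      (ζ - x) * ((z - x) + (z₀ - x) + (x - y)) - (z - x) * (z₀ - x) := by ring
  have hn : ‖(ζ - x) * (ζ - y) - (ζ - z) * (ζ - z₀)‖ ≤ 5 * T * ‖ζ - x‖ := by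
    rw [e]
    refine (norm_sub_le _ _).trans ?_
    rw [norm_mul, norm_mul]
    have h2 := mul_le_mul_of_nonneg_left (norm_add₃_le.trans (add_le_add (add_le_add hzx h0) hs))
      h1.le
    have h3 := mul_le_mul hzx h0 (norm_nonneg _) (by positivity)
    nlinarith
  rw [div_sub_div _ _ (mul_ne_zero (norm_pos_iff.1 (by linarith)) (norm_pos_iff.1 (by linarith)))
    (mul_ne_zero (norm_pos_iff.1 h1) (norm_pos_iff.1 (by linarith))), one_mul, mul_one, norm_div]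
  simp only [norm_mul]
  calc _ ≤ 5 * T * ‖ζ - x‖ / (‖ζ - x‖ / 2 * (‖ζ - x‖ / 2) * (‖ζ - x‖ * (‖ζ - x‖ / 2))) := by gcongr
    _ = _ := by field_simp; ring

theorem near_pt (hδ : 0 < δ) (hz : ‖z - z₀‖ ≤ δ) (h3 : ζ ≠ z) (h4 : ζ ≠ z₀) :
    ‖z - z₀‖ * (1 / (‖ζ - z‖ * ‖ζ - z₀‖)) ≤ cut (ball z (3 * δ)) z 1 ζ +
      cut (ball z₀ (3 * δ)) z₀ 1 ζ + 2 * δ * cut (ball z₀ (2 * δ))ᶜ z₀ 2 ζ := by
  have hc := norm_pos_iff.2 (sub_ne_zero.2 h3)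
  have hd := norm_pos_iff.2 (sub_ne_zero.2 h4)
  by_cases h : ζ ∈ ball z₀ (2 * δ)
  · have h' := mem_ball_iff_norm.1 h
    rw [cut_mem (mem_ball_iff_norm.2 (by linarith [tri ζ z₀ z, norm_sub_rev z z₀])),
      cut_mem (mem_ball_iff_norm.2 (by linarith)), Real.rpow_neg_one, Real.rpow_neg_one]
    refine le_add_of_le_of_nonneg ?_ (mul_nonneg (by positivity) (cut_nonneg _ _ _ _))
    rw [inv_add_inv hc.ne' hd.ne', mul_one_div]
    gcongr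
    linarith [tri z ζ z₀, norm_sub_rev z ζ]
  · have h' := not_lt.1 (mt mem_ball_iff_norm.2 h)
    refine le_add_of_nonneg_of_le (add_nonneg (cut_nonneg _ _ _ _) (cut_nonneg _ _ _ _)) ?_
    have h5 : ‖ζ - z₀‖ / 2 ≤ ‖ζ - z‖ := by linarith [tri ζ z z₀]
    rw [cut_mem (mem_compl h), Real.rpow_neg hd.le, Real.rpow_two]
    calc _ ≤ δ * (1 / (‖ζ - z₀‖ / 2 * ‖ζ - z₀‖)) := by gcongr
      _ = _ := by field_simp

/-- The majorant of the weighted kernel. -/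
noncomputable def maj (x y z z₀ : ℂ) (T δ : ℝ) (ζ : ℂ) : ℝ :=
  120 * δ * T * cut (ball x (4 * T))ᶜ x (5 / 2) ζ + 3 * √T * (cut (ball z (3 * δ)) z 1 ζ +
    cut (ball z₀ (3 * δ)) z₀ 1 ζ + 2 * δ * cut (ball z₀ (2 * δ))ᶜ z₀ 2 ζ) +
    3 * δ * (cut (ball x (5 * T)) x (3 / 2) ζ + cut (ball y (5 * T)) y (3 / 2) ζ)

theorem le_maj (hδ : 0 < δ) (hT : δ ≤ T) (hs : ‖x - y‖ ≤ T) (h0 : ‖z₀ - x‖ ≤ T)
    (hz : ‖z - z₀‖ ≤ δ) (h1 : ζ ≠ x) (h2 : ζ ≠ y) (h3 : ζ ≠ z) (h4 : ζ ≠ z₀) :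
    √(‖x - y‖ + ‖ζ - x‖) * ‖ker x y z ζ - ker x y z₀ ζ‖ ≤ maj x y z z₀ T δ ζ := by
  have ha := norm_pos_iff.2 (sub_ne_zero.2 h1)
  have hb := norm_pos_iff.2 (sub_ne_zero.2 h2)
  have hT0 := hδ.trans_le hT
  have hn := near_pt hδ hz h3 h4
  rw [ker_sub h1 h2 h3 h4, norm_mul, maj]
  by_cases h : ζ ∈ ball x (4 * T)
  · have h' := mem_ball_iff_norm.1 h
    rw [cut_mem (S := ball x (5 * T)) (mem_ball_iff_norm.2 (by linarith)),
      cut_mem (S := ball y (5 * T)) (mem_ball_iff_norm.2 (by linarith [tri ζ x y])), add_assoc]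
    refine le_add_of_nonneg_of_le (mul_nonneg (by positivity) (cut_nonneg _ _ _ _)) ?_
    have h5 := two_pt (t := ‖x - y‖ + ‖ζ - x‖) ha hb (by linarith [tri x ζ y, norm_sub_rev x ζ])
    have h6 := mul_le_mul (sqrt_le (t := ‖x - y‖ + ‖ζ - x‖) (a := T) (by linarith)) hn
      (by positivity) (by positivity)
    have h7 := mul_le_mul hz h5 (by positivity) hδ.le
    have h8 := mul_le_mul_of_nonneg_left (norm_sub_le (1 / ((ζ - z) * (ζ - z₀)))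
      (1 / ((ζ - x) * (ζ - y)))) (mul_nonneg (Real.sqrt_nonneg (‖x - y‖ + ‖ζ - x‖))
        (norm_nonneg (z - z₀)))
    simp only [norm_div, norm_one, norm_mul] at h8
    linarith
  · have h' := not_lt.1 (mt mem_ball_iff_norm.2 h)
    rw [add_assoc]
    refine le_add_of_le_of_nonneg ?_ (add_nonneg
      (mul_nonneg (by positivity) (le_trans (by positivity) hn))
      (mul_nonneg (by positivity) (add_nonneg (cut_nonneg _ _ _ _) (cut_nonneg _ _ _ _))))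
    rw [cut_mem (mem_compl h), rp52 ha]
    calc _ ≤ 3 * √‖ζ - x‖ * (δ * (40 * T / ‖ζ - x‖ ^ 3)) := by
          gcongr
          · exact sqrt_le (by linarith)
          · exact far_pt hT0 hs h0 (hz.trans hT) h'
      _ = _ := by ring

theorem pw {q : ℝ} (hq : 0 < q) {e : ℝ} (n : ℤ) (h : 4 * e = n) : (q ^ 4) ^ e = q ^ n := by
  rw [← Real.rpow_natCast, ← Real.rpow_mul hq.le, ← Real.rpow_intCast, ← h]
  norm_num

theorem exists_root {T : ℝ} (hT : 0 < T) : ∃ q > 0, T = q ^ 4 :=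
  ⟨T ^ ((4 : ℕ) : ℝ)⁻¹, by positivity, (Real.rpow_inv_natCast_pow hT.le (by norm_num)).symm⟩

theorem bd_maj (hA : MeasCond E A) : ∃ C > 0, ∀ (x y z z₀ : ℂ) (T δ : ℝ), 0 < δ →
    δ ≤ T → Bd E (maj x y z z₀ T δ) (C * (√T * δ ^ (3 / 4 : ℝ))) := by
  obtain ⟨C₁, h₁, H₁⟩ := far hA (γ := 5 / 2) (k := 4) (by norm_num) (by norm_num)
  obtain ⟨C₂, h₂, H₂⟩ := near hA (γ := 1) (k := 3) (by norm_num) (by norm_num) (by norm_num)
  obtain ⟨C₃, h₃, H₃⟩ := far hA (γ := 2) (k := 2) (by norm_num) (by norm_num)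
  obtain ⟨C₄, h₄, H₄⟩ := near hA (γ := 3 / 2) (k := 5) (by norm_num) (by norm_num) (by norm_num)
  refine ⟨120 * C₁ + 6 * C₂ + 6 * C₃ + 6 * C₄, by positivity, fun x y z z₀ T δ hδ hT => ?_⟩
  have hT0 := hδ.trans_le hT
  have H := (((H₁ x T hT0).mul (c := 120 * δ * T) (by positivity)).add
    ((((H₂ z δ hδ).add (H₂ z₀ δ hδ)).add ((H₃ z₀ δ hδ).mul (c := 2 * δ) (by positivity))).mul
      (c := 3 * √T) (by positivity))).add
    (((H₄ x T hT0).add (H₄ y T hT0)).mul (c := 3 * δ) (by positivity))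
  refine ⟨H.1, H.2.trans ?_⟩
  obtain ⟨p, hp, rfl⟩ := exists_root hδ
  obtain ⟨q, hq, rfl⟩ := exists_root hT0
  have hpq : p ≤ q := le_of_pow_le_pow_left₀ (by norm_num) hq.le hT
  rw [Real.sqrt_eq_rpow, pw hq (-3) (by norm_num), pw hq 2 (by norm_num), pw hp 3 (by norm_num),
    pw hp (-1) (by norm_num), pw hq 1 (by norm_num), pw hp 3 (by norm_num)]
  have h5 : p ^ 4 * q ≤ q ^ 2 * p ^ 3 := by
    calc p ^ 4 * q = p * (q * p ^ 3) := by ring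
      _ ≤ q * (q * p ^ 3) := by gcongr
      _ = _ := by ring
  calc _ = (120 * C₁ + 6 * C₄) * (p ^ 4 * q) + (6 * C₂ + 6 * C₃) * (q ^ 2 * p ^ 3) := by
        field_simp
        ring
    _ ≤ (120 * C₁ + 6 * C₄) * (q ^ 2 * p ^ 3) + (6 * C₂ + 6 * C₃) * (q ^ 2 * p ^ 3) := by gcongr
    _ = _ := by
        field_simp
        ring

theorem wr_eq (h : x ≠ y) (ζ : ℂ) : wr E x y ζ =
    ‖x - y‖ ^ (-(1 / 4) : ℝ) * (infDist ζ E ^ (-(1 / 4) : ℝ) * √(‖x - y‖ + ‖ζ - x‖)) := by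
  have hs := norm_pos_iff.2 (sub_ne_zero.2 h)
  have hd := infDist_nonneg (x := ζ) (s := E)
  have e : ‖x - y‖ ^ (-(1 / 4) : ℝ) = ‖x - y‖ ^ (1 / 4 : ℝ) / ‖x - y‖ ^ (1 / 2 : ℝ) := by
    rw [← Real.rpow_sub hs]
    norm_num
  rw [wr, Real.div_rpow (by positivity) hs.le, Real.div_rpow hs.le hd, e, Real.rpow_neg hd,
    Real.sqrt_eq_rpow]
  ring

theorem main (hE : Dom E) (hA : MeasCond E A) : ∃ C > 0, ∀ (x y : ℂ) (g : ℂ → ℂ) (M : ℝ),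
    x ≠ y → 0 ≤ M → ContinuousOn g Eᶜ → (∀ ζ ∉ E, ‖g ζ‖ ≤ M * wr E x y ζ) →
      ∀ (z z₀ : ℂ) (T δ : ℝ), 0 < δ → δ ≤ T → ‖x - y‖ ≤ T → ‖z₀ - x‖ ≤ T → ‖z - z₀‖ ≤ δ →
        IntegrableOn (fun ζ => g ζ * (ker x y z ζ - ker x y z₀ ζ)) Eᶜ ∧
        ‖∫ ζ in Eᶜ, g ζ * (ker x y z ζ - ker x y z₀ ζ)‖ ≤
          M * ‖x - y‖ ^ (-(1 / 4) : ℝ) * (C * (√T * δ ^ (3 / 4 : ℝ))) := by
  obtain ⟨C, hC, H⟩ := bd_maj hA
  refine ⟨C, hC, fun x y g M hxy hM hg hb z z₀ T δ hδ hT hs h0 hz => ?_⟩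
  have hm := hE.closed.isOpen_compl.measurableSet
  obtain ⟨h1, h2⟩ := (H x y z z₀ T δ hδ hT).mul (c := M * ‖x - y‖ ^ (-(1 / 4) : ℝ)) (by positivity)
  have h3 : ∀ᵐ ζ ∂volume.restrict Eᶜ, ‖g ζ * (ker x y z ζ - ker x y z₀ ζ)‖ ≤
      infDist ζ E ^ (-(1 / 4) : ℝ) * (M * ‖x - y‖ ^ (-(1 / 4) : ℝ) * maj x y z z₀ T δ ζ) := by
    filter_upwards [ae_restrict_mem hm,
      ae_restrict_of_ae ((toFinite {x, y, z, z₀}).countable.ae_notMem volume)] with ζ h4 h5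
    simp only [mem_insert_iff, mem_singleton_iff, not_or] at h5
    have h6 := infDist_nonneg (x := ζ) (s := E)
    have h7 := hb ζ h4
    rw [wr_eq hxy] at h7
    rw [norm_mul]
    refine (mul_le_mul_of_nonneg_right h7 (norm_nonneg _)).trans ?_
    calc _ = infDist ζ E ^ (-(1 / 4) : ℝ) * (M * ‖x - y‖ ^ (-(1 / 4) : ℝ) *
          (√(‖x - y‖ + ‖ζ - x‖) * ‖ker x y z ζ - ker x y z₀ ζ‖)) := by ring
      _ ≤ _ := by
          gcongr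
          exact le_maj hδ hT hs h0 hz h5.1 h5.2.1 h5.2.2.1 h5.2.2.2
  refine ⟨h1.mono' ((hg.aestronglyMeasurable hm).mul (Measurable.aestronglyMeasurable ?_)) h3,
    (norm_integral_le_of_norm_le h1 h3).trans h2⟩
  unfold ker
  fun_prop

theorem norm_pi_mul (w : ℂ) : ‖-(1 / Real.pi : ℂ) * w‖ ≤ ‖w‖ := by
  rw [norm_mul, norm_neg, norm_div, norm_one, Complex.norm_real, Real.norm_of_nonneg Real.pi_pos.le]
  exact mul_le_of_le_one_left (norm_nonneg _)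
    ((div_le_one Real.pi_pos).2 (by linarith [Real.pi_gt_three]))

end CauAux

open CauAux

theorem cau_est (hE : Dom E) (hA : MeasCond E A) : ∃ C > 0, ∀ (x y : ℂ) (g : ℂ → ℂ) (M : ℝ),
    Pair E x y → 0 ≤ M → ContinuousOn g Eᶜ → (∀ ζ ∉ E, ‖g ζ‖ ≤ M * wr E x y ζ) →
      (∀ z, IntegrableOn (fun ζ => g ζ * ker x y z ζ) Eᶜ) ∧
      (∀ z, ‖cau E x y g z‖ ≤
        C * M * ‖x - y‖ * ((‖x - y‖ + ‖z - x‖) / ‖x - y‖) ^ (5 / 4 : ℝ)) ∧
      ∀ z₀ ∉ E, ∀ z, ‖z - z₀‖ ≤ infDist z₀ E / 4 →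
        ‖cau E x y g z - cau E x y g z₀‖ ≤ C * M * wr E x y z₀ * infDist z₀ E := by
  obtain ⟨C, hC, H⟩ := main hE hA
  refine ⟨C, hC, fun x y g M hp hM hg hb => ?_⟩
  have hs := norm_pos_iff.2 (sub_ne_zero.2 hp.1)
  have H1 := fun z => H x y g M hp.1 hM hg hb z x (‖x - y‖ + ‖z - x‖) (‖x - y‖ + ‖z - x‖)
    (by positivity) le_rfl (by simp) (by rw [sub_self, norm_zero]; positivity) (by simp)
  have h0 : ∀ ζ, ker x y x ζ = 0 := fun ζ => by simp [ker]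
  simp only [h0, sub_zero] at H1
  refine ⟨fun z => (H1 z).1, fun z => ((norm_pi_mul _).trans (H1 z).2).trans_eq ?_,
    fun z₀ hz₀ z hz => ?_⟩
  · obtain ⟨q, hq, e⟩ := exists_root (T := ‖x - y‖ + ‖z - x‖) (by positivity)
    obtain ⟨p, hp, e'⟩ := exists_root hs
    rw [Real.div_rpow (by positivity) hs.le, e, e', Real.sqrt_eq_rpow, pw hq 2 (by norm_num),
      pw hq 3 (by norm_num), pw hq 5 (by norm_num), pw hp (-1) (by norm_num),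
      pw hp 5 (by norm_num)]
    field_simp
  · have hD : 0 < infDist z₀ E := (hE.closed.notMem_iff_infDist_pos hE.nonempty).1 hz₀
    have h1 := infDist_le_infDist_add_dist (x := z₀) (y := x) (s := E)
    rw [dist_eq_norm] at h1
    have h2 := (H x y g M hp.1 hM hg hb z z₀ (‖x - y‖ + ‖z₀ - x‖) (infDist z₀ E / 4)
      (by positivity) (by linarith [hp.2, norm_nonneg (z₀ - x)]) (by simp) (by simp) hz).2
    simp only [mul_sub] at h2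
    rw [integral_sub (H1 z).1 (H1 z₀).1] at h2
    rw [cau, cau, ← mul_sub, wr_eq hp.1]
    refine ((norm_pi_mul _).trans h2).trans ?_
    have h3 : (infDist z₀ E / 4) ^ (3 / 4 : ℝ) ≤ infDist z₀ E ^ (-(1 / 4) : ℝ) * infDist z₀ E := by
      rw [← Real.rpow_add_one hD.ne', show (-(1 / 4) + 1 : ℝ) = 3 / 4 by norm_num]
      gcongr
      linarith
    calc _ ≤ M * ‖x - y‖ ^ (-(1 / 4) : ℝ) * (C * (√(‖x - y‖ + ‖z₀ - x‖) *
          (infDist z₀ E ^ (-(1 / 4) : ℝ) * infDist z₀ E))) := by gcongr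
      _ = _ := by ring

end Pool.Agent.Lib.MP_44acff_gt.NU
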