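import Pool.Agent.Lib.MP_44acff_gt.H70Koebe
import Pool.Agent.Lib.MP_44acff_gt.H70Cara

/-! The universal covering map. -/

namespace Pool.Agent.Lib.MP_44acff_gt.NU

open Set Metric MeasureTheory Filter Topology ComplexConjugate
open scoped ContDiff

namespace CoverAux

/-- The theorem of Montel along an ultrafilter. -/
lemma montel {U : Set ℂ} {F : ℕ → ℂ → ℂ} (l : Ultrafilter ℕ)
    (hd : ∀ n, DifferentiableOn ℂ (F n) U)
    (hb : ∀ x ∈ U, ∃ r > 0, ∃ M : ℝ, ball x r ⊆ U ∧ ∀ n, ∀ y ∈ ball x r, ‖F n y‖ ≤ M) :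
    ∃ f, TendstoLocallyUniformlyOn F f l U := by
  have hlim : ∀ z, ∃ w, z ∈ U → Tendsto (fun n => F n z) l (𝓝 w) := by
    intro z
    by_cases hz : z ∈ U
    · obtain ⟨r, hr, M, -, h⟩ := hb z hz
      obtain ⟨w, -, h'⟩ := (isCompact_closedBall (0 : ℂ) M).ultrafilter_le_nhds
        (l.map fun n => F n z) (by
          rw [Ultrafilter.coe_map, le_principal_iff, mem_map]
          exact univ_mem' fun n => mem_closedBall_zero_iff.2 (h n z (mem_ball_self hr)))
      exact ⟨w, fun _ => h'⟩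
    · exact ⟨0, fun h => absurd h hz⟩
  choose f hf using hlim
  refine ⟨f, ?_⟩
  rw [Metric.tendstoLocallyUniformlyOn_iff]
  intro ε hε x hx
  obtain ⟨r, hr, M, hrU, h⟩ := hb x hx
  have hM : 0 ≤ M := (norm_nonneg _).trans (h 0 x (mem_ball_self hr))
  have lip : ∀ n, ∀ y ∈ ball x r, dist (F n y) (F n x) ≤ (2 * M + 1) / r * dist y x :=
    fun n y hy => Complex.dist_le_div_mul_dist_of_mapsTo_ball ((hd n).mono hrU) (fun w hw => by
      rw [mem_closedBall, dist_eq_norm]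
      linarith [norm_sub_le (F n w) (F n x), h n w hw, h n x (mem_ball_self hr)]) hy
  refine ⟨ball x (min r (ε * r / (4 * (2 * M + 1)))), mem_nhdsWithin_of_mem_nhds (ball_mem_nhds _
    (by positivity)), ?_⟩
  filter_upwards [Metric.tendsto_nhds.1 (hf x hx) (ε / 4) (by positivity)] with n hn y hy
  rw [mem_ball, lt_min_iff] at hy
  have a1 := lip n y hy.1
  have a2 : dist (f y) (f x) ≤ (2 * M + 1) / r * dist y x :=
    le_of_tendsto ((hf y (hrU hy.1)).dist (hf x hx)) (.of_forall fun n => lip n y hy.1)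
  have a3 : (2 * M + 1) / r * dist y x ≤ ε / 4 := by
    calc (2 * M + 1) / r * dist y x ≤ (2 * M + 1) / r * (ε * r / (4 * (2 * M + 1))) := by
          gcongr
          exact hy.2.le
      _ = ε / 4 := by field_simp
  linarith [dist_triangle4 (f y) (f x) (F n x) (F n y), dist_comm (F n x) (f x),
    dist_comm (F n y) (F n x)]

/-- A value taken by a nonconstant limit is taken nearby by most of the functions. -/
lemma hurwitz' {F : ℕ → ℂ → ℂ} {f : ℂ → ℂ} {U V : Set ℂ} {l : Ultrafilter ℕ} (hU : IsOpen U)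
    (hF : TendstoLocallyUniformlyOn F f l U) (hd : ∀ n, DifferentiableOn ℂ (F n) U) {z : ℂ}
    (hz : z ∈ U) (hV : V ∈ 𝓝 z) (hf : ¬ ∀ᶠ w in 𝓝 z, f w = f z) :
    ∀ᶠ n in l, ∃ w ∈ V, w ∈ U ∧ F n w = f z := by
  classical
  by_contra hn
  rw [← Ultrafilter.eventually_not] at hn
  obtain ⟨n₀, hn₀⟩ := hn.exists
  let σ : ℕ → ℕ := fun n => if ∃ w ∈ V, w ∈ U ∧ F n w = f z then n₀ else n
  have hσ : ∀ n, ¬ ∃ w ∈ V, w ∈ U ∧ F (σ n) w = f z := fun n => by
    simp only [σ]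
    split_ifs with h
    exacts [hn₀, h]
  have h1 : TendstoLocallyUniformlyOn (fun n w => F (σ n) w - f z) (fun w => f w - f z) l U := by
    rw [Metric.tendstoLocallyUniformlyOn_iff] at hF ⊢
    intro ε hε x hx
    obtain ⟨t, ht, h⟩ := hF ε hε x hx
    refine ⟨t, ht, ?_⟩
    filter_upwards [h, hn] with n h2 h3 y hy
    rw [dist_sub_right, show σ n = n from if_neg h3]
    exact h2 y hy
  exact MP_21db80_an.hurwitz hU h1 (fun n => (hd _).sub_const _) hz hV
    (fun n w hw hw' e => hσ n ⟨w, hw, hw', sub_eq_zero.1 e⟩)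
    (fun h => hf (h.mono fun w hw => sub_eq_zero.1 hw)) (sub_self _)

/-- Holomorphic discs in the complement of `E` are uniformly bounded on smaller discs. -/
lemma disc_le {E : Set ℂ} {c : ℝ} (hE : Dom E) (hc : 0 < c) (hF : Fat E c)
    (hb : ∀ z, infDist z E ≤ 1) {ρ : ℝ} (hρ : ρ < 1) : ∃ L : ℝ, ∀ P : ℂ → ℂ,
      DifferentiableOn ℂ P (ball 0 1) → MapsTo P (ball 0 1) Eᶜ →
        ∀ y ∈ ball (0 : ℂ) ρ, ‖P y - P 0‖ ≤ L := by
  obtain ⟨c', hc', H⟩ := cara hE hc hF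
  have hsub : ball (0 : ℂ) ρ ⊆ ball 0 1 := ball_subset_ball hρ.le
  have hρ' : 0 < 1 - ρ := sub_pos.2 hρ
  refine ⟨1 / (1 - ρ) / c' * 1, fun P hP hm y hy => ?_⟩
  have hda : ∀ x ∈ ball (0 : ℂ) ρ, DifferentiableAt ℂ P x := fun x hx =>
    hP.differentiableAt (isOpen_ball.mem_nhds (hsub hx))
  have hder : ∀ x ∈ ball (0 : ℂ) ρ, ‖deriv P x‖ ≤ 1 / (1 - ρ) / c' := fun x hx => by
    have hz : P x ∉ E := hm (hsub hx)
    obtain ⟨H, h1, h2, h3, h4⟩ := H _ hz
    have hs : ball x (1 - ρ) ⊆ ball 0 1 := ball_subset_ball' (by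
      have := mem_ball.1 hx
      linarith)
    have h5 := Complex.norm_deriv_le_div_of_mapsTo_ball (f := H ∘ P) (R₂ := 1)
      (h1.comp (hP.mono hs) (hm.mono_left hs)) (fun w hw => by
        rw [Function.comp_apply, h3]
        exact ball_subset_closedBall (h2 (hm (hs hw)))) hρ'
    rw [deriv_comp x (h1.differentiableAt (hE.closed.isOpen_compl.mem_nhds hz)) (hda x hx),
      norm_mul] at h5
    have h6 : 0 < infDist (P x) E := (hE.closed.notMem_iff_infDist_pos hE.nonempty).1 hz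
    have h7 : c' ≤ ‖deriv H (P x)‖ := le_trans (le_div_self hc'.le h6 (hb _)) h4
    rw [le_div_iff₀ hc', mul_comm]
    exact (mul_le_mul_of_nonneg_right h7 (norm_nonneg _)).trans h5
  have h0 : (0 : ℂ) ∈ ball (0 : ℂ) ρ := mem_ball_self (pos_of_mem_ball hy)
  refine ((convex_ball (0 : ℂ) ρ).norm_image_sub_le_of_norm_deriv_le hda hder h0 hy).trans ?_
  gcongr
  rw [sub_zero]
  exact (mem_ball_zero_iff.1 (hsub hy)).le

lemma scale_mem {r : ℝ} (h0 : 0 < r) {t : ℂ} (ht : t ∈ ball (0 : ℂ) 1) :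
    (r : ℂ) * t ∈ ball (0 : ℂ) r := by
  rw [mem_ball_zero_iff] at ht ⊢
  rw [norm_mul, Complex.norm_real, Real.norm_of_nonneg h0.le]
  exact mul_lt_of_lt_one_right h0 ht

/-- Lower bound for the derivative at the origin. -/
lemma le_deriv {U Ω : Set ℂ} {p : ℂ → ℂ} {z₀ : ℂ} {d : ℝ} (hd : 0 < d) (hs : ball z₀ d ⊆ Ω)
    (hU : IsOpen U) (hU1 : U ⊆ ball 0 1) (h0 : (0 : ℂ) ∈ U) (hp : DifferentiableOn ℂ p U)
    (hp0 : p 0 = z₀) (hL : Lifts p U Ω) : d ≤ ‖deriv p 0‖ := by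
  obtain ⟨χ, h1, h2, h3, h4⟩ := hL (fun t => z₀ + d * t) (by fun_prop) (fun t ht => hs (by
    rw [mem_ball, dist_eq_norm, add_sub_cancel_left]
    exact mem_ball_zero_iff.1 (scale_mem hd ht))) 0 h0 (by simp [hp0])
  have h5 := Complex.norm_deriv_le_div_of_mapsTo_ball (R₂ := 1) h1 (fun t ht => by
    rw [h3]
    exact ball_subset_closedBall (hU1 (h2 ht))) one_pos
  have h6 : deriv (p ∘ χ) 0 = d := by
    rw [Filter.EventuallyEq.deriv_eq (f₁ := p ∘ χ) (f := fun t => z₀ + d * t)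
      (eventually_of_mem (ball_mem_nhds 0 one_pos) h4)]
    simp
  rw [deriv_comp 0 (hp.differentiableAt (hU.mem_nhds (h2 (mem_ball_self one_pos))))
    (h1.differentiableAt (ball_mem_nhds 0 one_pos)), h3] at h6
  have h7 := congrArg norm h6
  rw [norm_mul, Complex.norm_real, Real.norm_of_nonneg hd.le] at h7
  rw [← h7]
  exact mul_le_of_le_one_right (norm_nonneg _) (by simpa using h5)

end CoverAux

open CoverAux in
theorem exists_cover {E : Set ℂ} {c : ℝ} (hE : Dom E) (hc : 0 < c) (hF : Fat E c)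
    (hb : ∀ z, infDist z E ≤ 1) {z₀ : ℂ} (hz : z₀ ∉ E) :
    ∃ p : ℂ → ℂ, DifferentiableOn ℂ p (ball 0 1) ∧ MapsTo p (ball 0 1) Eᶜ ∧ p 0 = z₀ ∧
      Lifts p (ball 0 1) Eᶜ := by
  obtain ⟨r, -, hr, hr1⟩ := exists_seq_strictMono_tendsto' (show (1 / 2 : ℝ) < 1 by norm_num)
  have r0 : ∀ n, 0 < r n := fun n => lt_trans (by norm_num) (hr n).1
  have rsub : ∀ n, ball (0 : ℂ) (r n) ⊆ ball 0 1 := fun n => ball_subset_ball (hr n).2.le
  have hk := fun n : ℕ => koebe (Ω := Eᶜ ∩ ball z₀ (n + 1))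
    (hE.closed.isOpen_compl.inter isOpen_ball) (isBounded_ball.subset inter_subset_right)
    (z₀ := z₀) ⟨hz, mem_ball_self (by positivity)⟩ (hr n).2
  choose U q Uo Ur U1 U0 qd qm q0 qL using hk
  let P : ℕ → ℂ → ℂ := fun n t => q n (r n * t)
  have Pd : ∀ n, DifferentiableOn ℂ (P n) (ball 0 1) := fun n =>
    (qd n).comp (f := fun t => (r n : ℂ) * t) (by fun_prop) fun t ht => Ur n (scale_mem (r0 n) ht)
  have Pm : ∀ n, MapsTo (P n) (ball 0 1) Eᶜ := fun n t ht => (qm n (Ur n (scale_mem (r0 n) ht))).1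
  have P0 : ∀ n, P n 0 = z₀ := fun n => by simp only [P, mul_zero, q0]
  let l : Ultrafilter ℕ := Ultrafilter.of atTop
  have hl : (l : Filter ℕ) ≤ atTop := Ultrafilter.of_le _
  obtain ⟨p, hloc⟩ := montel l Pd fun x hx => by
    rw [mem_ball_zero_iff] at hx
    obtain ⟨L, hL⟩ := disc_le hE hc hF hb (ρ := (1 + ‖x‖) / 2) (by linarith)
    have hs : ball x ((1 - ‖x‖) / 2) ⊆ ball 0 ((1 + ‖x‖) / 2) := ball_subset_ball' (by
      rw [dist_zero_right]
      linarith)
    refine ⟨(1 - ‖x‖) / 2, by linarith, ‖z₀‖ + L, hs.trans (ball_subset_ball (by linarith)),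
      fun n y hy => ?_⟩
    have := hL _ (Pd n) (Pm n) y (hs hy)
    rw [P0] at this
    linarith [norm_sub_norm_le (P n y) z₀]
  have h01 : (0 : ℂ) ∈ ball (0 : ℂ) 1 := mem_ball_self one_pos
  have pd : DifferentiableOn ℂ p (ball 0 1) := hloc.differentiableOn (.of_forall Pd) isOpen_ball
  have hd : 0 < infDist z₀ E := (hE.closed.notMem_iff_infDist_pos hE.nonempty).1 hz
  have hd0 : deriv p 0 ≠ 0 := by
    have h1 := ((hloc.deriv (.of_forall Pd) isOpen_ball).tendsto_at h01).norm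
    have h2 : infDist z₀ E / 2 ≤ ‖deriv p 0‖ := ge_of_tendsto' h1 fun n => by
      have h3 := le_deriv hd (Ω := Eᶜ ∩ ball z₀ (n + 1)) (subset_inter
        (fun y hy => notMem_of_dist_lt_infDist (by rwa [dist_comm])) (ball_subset_ball
          ((hb _).trans (by linarith [Nat.cast_nonneg (α := ℝ) n])))) (Uo n) (U1 n) (U0 n) (qd n)
        (q0 n) (qL n)
      have h4 : deriv (P n) 0 = r n * deriv (q n) 0 := by
        simp only [P]
        rw [deriv_comp_mul_left, mul_zero, smul_eq_mul]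
      rw [Function.comp_apply, h4, norm_mul, Complex.norm_real, Real.norm_of_nonneg (r0 n).le]
      nlinarith [(hr n).1]
    rw [← norm_pos_iff]
    linarith
  have hnc : ∀ z ∈ ball (0 : ℂ) 1, ∀ a, ¬ ∀ᶠ w in 𝓝 z, p w = a := fun z hz a h => by
    have h1 := (pd.analyticOnNhd isOpen_ball).eqOn_of_preconnected_of_eventuallyEq
      analyticOnNhd_const (convex_ball (0 : ℂ) 1).isPreconnected hz h
    refine hd0 ?_
    rw [Filter.EventuallyEq.deriv_eq (f := fun _ => a)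
      (eventually_of_mem (ball_mem_nhds 0 one_pos) h1)]
    simp
  refine ⟨p, pd, fun x hx hxE => ?_, ?_, fun ψ ψd ψm x hx hψ => ?_⟩
  · obtain ⟨n, w, -, hw, e⟩ := (hurwitz' isOpen_ball hloc Pd hx univ_mem (hnc x hx _)).exists
    exact Pm n hw (e ▸ hxE)
  · refine tendsto_nhds_unique (hloc.tendsto_at h01) ?_
    simp only [P0]
    exact tendsto_const_nhds
  have csub : ∀ k, closedBall (0 : ℂ) (r k) ⊆ ball 0 1 := fun k => closedBall_subset_ball (hr k).2
  have step : ∀ k : ℕ, ∃ (n : ℕ) (w : ℂ) (χ : ℂ → ℂ), k ≤ n ∧ dist w x < 1 / ((k : ℝ) + 1) ∧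
      (∀ y ∈ closedBall (0 : ℂ) (r k), dist (p y) (P n y) < 1 / ((k : ℝ) + 1)) ∧
      DifferentiableOn ℂ χ (ball 0 1) ∧ MapsTo χ (ball 0 1) (ball 0 1) ∧ χ 0 = r n * w ∧
      ∀ t ∈ ball (0 : ℂ) 1, q n (χ t) = ψ (r k * t) := fun k => by
    have hk : (0 : ℝ) < 1 / ((k : ℝ) + 1) := by positivity
    obtain ⟨R, hR⟩ := (((isCompact_closedBall (0 : ℂ) (r k)).image_of_continuousOn
      (ψd.continuousOn.mono (csub k))).isBounded).subset_ball z₀
    have e1 := hurwitz' isOpen_ball hloc Pd hx (ball_mem_nhds x hk) (hnc x hx _)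
    have e2 := Metric.tendstoUniformlyOn_iff.1 ((tendstoLocallyUniformlyOn_iff_forall_isCompact
      isOpen_ball).1 hloc _ (csub k) (isCompact_closedBall _ _)) _ hk
    have e3 : ∀ᶠ n : ℕ in l, k ≤ n ∧ R ≤ n :=
      hl ((eventually_ge_atTop k).and (tendsto_natCast_atTop_atTop.eventually_ge_atTop R))
    obtain ⟨n, ⟨w, hw, hw1, e⟩, h2, h3, h4⟩ := (e1.and (e2.and e3)).exists
    obtain ⟨χ, c1, c2, c3, c4⟩ := qL n (fun t => ψ (r k * t))
      (ψd.comp (f := fun t => (r k : ℂ) * t) (by fun_prop) fun t ht =>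
        rsub k (scale_mem (r0 k) ht))
      (fun t ht => ⟨ψm (rsub k (scale_mem (r0 k) ht)), ball_subset_ball (by linarith)
        (hR ⟨_, ball_subset_closedBall (scale_mem (r0 k) ht), rfl⟩)⟩)
      (r n * w) (Ur n (scale_mem (r0 n) hw1)) (by rw [mul_zero, ← hψ, ← e])
    exact ⟨n, w, χ, h3, hw, h2, c1, c2.mono_right (U1 n), c3, c4⟩
  choose n w χ s1 s2 s3 s4 s5 s6 s7 using step
  obtain ⟨f, hf⟩ := montel l s4 fun y hy => by
    obtain ⟨δ, hδ, hs⟩ := Metric.isOpen_iff.1 isOpen_ball y hy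
    exact ⟨δ, hδ, 1, hs, fun k t ht => (mem_ball_zero_iff.1 (s5 k (hs ht))).le⟩
  have fd : DifferentiableOn ℂ f (ball 0 1) := hf.differentiableOn (.of_forall s4) isOpen_ball
  have t0 : Tendsto (fun k : ℕ => 1 / ((k : ℝ) + 1)) l (𝓝 0) :=
    tendsto_one_div_add_atTop_nhds_zero_nat.mono_left hl
  have t1 : Tendsto (fun k => (r k : ℂ)) l (𝓝 1) :=
    ((Complex.continuous_ofReal.tendsto 1).comp hr1).mono_left hl
  have t2 : Tendsto (fun k => (r (n k) : ℂ)) l (𝓝 1) :=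
    (((Complex.continuous_ofReal.tendsto 1).comp hr1).comp
      (tendsto_atTop_mono s1 tendsto_id)).mono_left hl
  have f0 : f 0 = x := by
    refine tendsto_nhds_unique (hf.tendsto_at h01) ?_
    simp only [s6]
    have := t2.mul (tendsto_iff_dist_tendsto_zero.2
      (squeeze_zero (fun _ => dist_nonneg) (fun k => (s2 k).le) t0))
    rwa [one_mul] at this
  have fle : ∀ t ∈ ball (0 : ℂ) 1, ‖f t‖ ≤ 1 := fun t ht =>
    le_of_tendsto' (hf.tendsto_at ht).norm fun k => (mem_ball_zero_iff.1 (s5 k ht)).le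
  have fm : MapsTo f (ball 0 1) (ball 0 1) := fun t ht => by
    rw [mem_ball_zero_iff]
    by_contra h1
    have h2 := Complex.norm_eqOn_of_isPreconnected_of_isMaxOn
      (convex_ball (0 : ℂ) 1).isPreconnected isOpen_ball fd ht
      (fun y hy => (fle y hy).trans (not_lt.1 h1)) h01
    simp only [Function.comp_apply, Function.const_apply, f0] at h2
    exact h1 (h2 ▸ mem_ball_zero_iff.1 hx)
  refine ⟨f, fd, fm, f0, fun t ht => ?_⟩
  have y1 : Tendsto (fun k => χ k t / r (n k)) l (𝓝 (f t)) := by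
    have := (hf.tendsto_at ht).div t2 one_ne_zero
    rwa [div_one] at this
  have y2 : Tendsto (fun k => p (χ k t / r (n k))) l (𝓝 (p (f t))) :=
    ((pd.continuousOn.continuousAt (isOpen_ball.mem_nhds (fm ht))).tendsto).comp y1
  have y3 : Tendsto (fun k => ψ (r k * t)) l (𝓝 (ψ t)) := by
    have := t1.mul_const t
    rw [one_mul] at this
    exact ((ψd.continuousOn.continuousAt (isOpen_ball.mem_nhds ht)).tendsto).comp this
  have y4 : Tendsto (fun k => dist (p (χ k t / r (n k))) (ψ (r k * t))) l (𝓝 0) := by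
    refine squeeze_zero' (.of_forall fun _ => dist_nonneg) ?_ t0
    filter_upwards [y1.norm.eventually_lt (hr1.mono_left hl) (mem_ball_zero_iff.1 (fm ht))]
      with k hk
    have := s3 k _ (mem_closedBall_zero_iff.2 hk.le)
    simp only [P] at this
    rw [mul_div_cancel₀ _ (Complex.ofReal_ne_zero.2 (r0 _).ne'), s7 k t ht] at this
    exact this.le
  exact dist_eq_zero.1 (tendsto_nhds_unique (y2.dist y3) y4)

end Pool.Agent.Lib.MP_44acff_gt.NU
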