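import Pool.Agent.Lib.MP_44acff_gt.H70Gaps

/-! A sheared cross does not fit into a right angled cross. -/

namespace Pool.Agent.Lib.MP_44acff_gt.NU

open Set Metric MeasureTheory Filter Topology ComplexConjugate
open scoped ContDiff

namespace CrossAux

theorem anti {a α : ℕ → ℝ} (h : Gaps a α) : Antitone α :=
  antitone_nat_of_succ_le fun n => by have := h.half n; have := h.pos n; linarith

theorem small {a α : ℕ → ℝ} (h : Gaps a α) {ε : ℝ} (hε : 0 < ε) : ∃ N, ∀ n ≥ N, α n ≤ ε := by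
  have h1 : ∀ n, α n ≤ (1 / 2) ^ n := by
    intro n
    induction n with
    | zero => have := h.small; simp only [pow_zero]; linarith
    | succ n ih => have := h.half n; rw [pow_succ]; linarith
  obtain ⟨N, hN⟩ := exists_pow_lt_of_lt_one hε (by norm_num : (1 / 2 : ℝ) < 1)
  exact ⟨N, fun n hn => (anti h hn).trans ((h1 N).trans hN.le)⟩

/-- A point of the product set near a point which is away from the first strips. -/
theorem near {a α b β : ℕ → ℝ} (ha : Gaps a α) (hb : Gaps b β) (h₁ : ∀ n, β n ≤ α n) (n : ℕ)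
    (y : ℂ) (h1 : ∀ j < n, α j + 5 * α n ≤ |y.re - a j|)
    (h2 : ∀ j < n, β j + 5 * β n ≤ |y.im - b j|) :
    ∃ ξ ∈ Eset a α b β, ‖ξ - y‖ ≤ 10 * α n := by
  obtain ⟨u, hu, hu'⟩ := cant_near ha n y.re h1
  obtain ⟨v, hv, hv'⟩ := cant_near hb n y.im h2
  refine ⟨⟨u, v⟩, ⟨hu, hv⟩, (Complex.norm_le_abs_re_add_abs_im _).trans ?_⟩
  simp only [Complex.sub_re, Complex.sub_im]
  have := h₁ n
  linarith

/-- Moving towards the centre of an interval. -/
theorem inward {u a w e δ : ℝ} (h : |u - a| < w + e) (hδ : 0 ≤ δ) (hw : δ ≤ w) (he : 0 ≤ e) :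
    ∃ u', |u' - u| ≤ δ ∧ ∀ x, w ≤ |x - a| → δ - e ≤ |x - u'| := by
  have key : ∀ u', |u' - a| ≤ w - δ + e → ∀ x, w ≤ |x - a| → δ - e ≤ |x - u'| := by
    intro u' h1 x hx
    have := abs_sub_le x u' a
    linarith
  rcases le_total (u - a) δ with h1 | h1
  · rcases le_total (-δ) (u - a) with h2 | h2
    · refine ⟨a, ?_, key a ?_⟩
      · rw [abs_le]; constructor <;> linarith
      · rw [sub_self, abs_zero]; linarith
    · refine ⟨u + δ, ?_, key _ ?_⟩
      · rw [add_sub_cancel_left, abs_of_nonneg hδ]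
      · rw [abs_lt] at h
        rw [abs_le]; constructor <;> linarith
  · refine ⟨u - δ, ?_, key _ ?_⟩
    · rw [sub_sub_cancel_left, abs_neg, abs_of_nonneg hδ]
    · rw [abs_lt] at h
      rw [abs_le]; constructor <;> linarith

/-- Images of points on the axes of the cross are close to the axes of the cross. -/
theorem axis {τ C : ℝ} (hτ : 0 < τ) (hτ1 : τ ≤ 1 / 2) (hC : 0 < C) {a α b β : ℕ → ℝ}
    (ha : Gaps a α) (hb : Gaps b β) (h₁ : ∀ n, β n ≤ α n) (h₂ : ∀ n, α (n + 1) ≤ β n ^ 16)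
    {c : ℂ} {G : ℂ → ℂ}
    (hE : ∀ z ∈ closedBall c (1 / 2), z ∈ Eset a α b β → G z ∈ Eset a α b β)
    (hinv : ∀ z ∈ closedBall c (1 / 2), ∀ ξ ∈ Eset a α b β, ‖ξ - G z‖ ≤ 1 / C →
      ∃ ξ' ∈ Eset a α b β, ‖ξ' - z‖ ^ 2 ≤ C * ‖ξ - G z‖)
    {n : ℕ} (hA : Away a α b β c n) {q : ℝ} (hq : 0 < q) (hq1 : q ≤ 1 / 10)
    (hq2 : C * q ≤ τ / 6000) (hqr : rad α n = q ^ 4) (hqα : α n = q ^ 16) {κ : ℂ}
    (hκ1 : rad α n / C ≤ ‖κ‖) (hκ2 : ‖κ‖ * rad α n ≤ C * q ^ 2) {M : ℂ → ℂ}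
    (hadd : ∀ h h', M (h + h') = M h + M h') (hup : ∀ h, ‖M h‖ ≤ 3 / 2 * ‖h‖)
    (hsurj : ∀ w, ∃ h, M h = w ∧ ‖h‖ ≤ 2 * ‖w‖)
    (hG : ∀ h : ℂ, ‖h‖ ≤ rad α n → ‖G (crs a b n + h) - G (crs a b n) - κ * M h‖ ≤
      τ / 1000 * ‖κ‖ * rad α n)
    {h : ℂ} (hh : ‖h‖ ≤ rad α n / 10) (h0 : h.re = 0 ∨ h.im = 0) :
    |(G (crs a b n + h)).re - a n| ≤ τ / 1000 * ‖κ‖ * rad α n ∨
      |(G (crs a b n + h)).im - b n| ≤ τ / 1000 * ‖κ‖ * rad α n := by
  obtain ⟨hc, hA⟩ := hA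
  rw [hqr] at hκ1 hκ2 hG hh hA ⊢
  set x := crs a b n with hx
  set y := G (x + h) with hy
  have hxr : x.re = a n := rfl
  have hxi : x.im = b n := rfl
  have q4 : 0 < q ^ 4 := by positivity
  have p1 : ∀ k : ℕ, q ^ k ≤ 1 := fun k => pow_le_one₀ hq.le (by linarith)
  have r1 : q ^ 4 ≤ 1 / 10000 := by
    calc q ^ 4 ≤ (1 / 10) ^ 4 := pow_le_pow_left₀ hq.le hq1 4
      _ = 1 / 10000 := by norm_num
  have r3 : q ^ 12 ≤ 1 / 100000 := by
    calc q ^ 12 ≤ (1 / 10) ^ 12 := pow_le_pow_left₀ hq.le hq1 12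
      _ ≤ 1 / 100000 := by norm_num
  have hκ0 : 0 < ‖κ‖ := lt_of_lt_of_le (by positivity) hκ1
  have hκne : κ ≠ 0 := norm_pos_iff.1 hκ0
  set s := ‖κ‖ * q ^ 4 with hs
  have hs0 : 0 < s := by positivity
  have hes : τ / 1000 * ‖κ‖ * q ^ 4 = τ / 1000 * s := by rw [hs]; ring
  rw [hes] at hG ⊢
  have hs1 : τ / 1000 * s ≤ s / 2000 := by
    have := mul_le_mul_of_nonneg_right hτ1 hs0.le
    linarith
  have hball : ∀ k : ℂ, ‖k‖ ≤ q ^ 4 → x + k ∈ closedBall c (1 / 2) := by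
    intro k hk
    rw [mem_closedBall, dist_eq_norm, add_sub_right_comm]
    have := norm_add_le (x - c) k
    linarith
  have hαs : 6 * α n ≤ τ / 1000 * s := by
    have e1 : q ^ 4 ≤ ‖κ‖ * C := (div_le_iff₀ hC).1 hκ1
    have e2 : C * q * (q ^ 7 * s) ≤ τ / 6000 * s := by
      have : q ^ 7 * s ≤ s := mul_le_of_le_one_left hs0.le (p1 7)
      gcongr
    have e3 : q ^ 16 ≤ C * q * (q ^ 7 * s) := by
      calc q ^ 16 = q ^ 4 * q ^ 12 := by ring
        _ ≤ ‖κ‖ * C * q ^ 12 := by gcongr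
        _ = C * q * (q ^ 7 * s) := by rw [hs]; ring
    rw [hqα]
    linarith
  have hsq : s ≤ q := by
    have f1 : C * q ^ 2 = C * q * q := by ring
    have f2 : C * q * q ≤ q := mul_le_of_le_one_left hq.le (by linarith)
    linarith
  have hαn : α (n + 1) ≤ α n := anti ha (Nat.le_succ n)
  have hβn : β (n + 1) ≤ α n := (h₁ _).trans hαn
  have hCα : 10 * (C * α n) < 1 := by
    have e1 : C * α n = C * q * q ^ 15 := by rw [hqα]; ring
    have e2 : C * q * q ^ 15 ≤ C * q := mul_le_of_le_one_right (mul_pos hC hq).le (p1 15)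
    linarith
  -- the image point is far from the product set
  have far : ∀ ξ ∈ Eset a α b β, 10 * α (n + 1) < ‖ξ - y‖ := by
    intro ξ hξ
    by_contra hlt
    rw [not_lt] at hlt
    obtain ⟨ξ', hξ', hd⟩ := hinv (x + h) (hball h (by linarith)) ξ hξ (by
      rw [le_div_iff₀ hC]
      have := mul_le_mul_of_nonneg_right (hlt.trans (mul_le_mul_of_nonneg_left hαn (by norm_num)))
        hC.le
      linarith)
    have hβ0 := hb.pos n
    have e1 : β n ≤ ‖ξ' - (x + h)‖ := by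
      rcases h0 with h0 | h0
      · refine (h₁ n).trans ((hξ'.1 n).trans ?_)
        have := Complex.abs_re_le_norm (ξ' - (x + h))
        rwa [Complex.sub_re, Complex.add_re, h0, add_zero, hxr] at this
      · refine (hξ'.2 n).trans ?_
        have := Complex.abs_im_le_norm (ξ' - (x + h))
        rwa [Complex.sub_im, Complex.add_im, h0, add_zero, hxi] at this
    have e2 : β n ^ 2 ≤ C * (10 * β n ^ 16) := by
      calc β n ^ 2 ≤ ‖ξ' - (x + h)‖ ^ 2 := by gcongr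
        _ ≤ C * ‖ξ - y‖ := hd
        _ ≤ C * (10 * β n ^ 16) := by
          have := h₂ n
          gcongr
          linarith
    have e3 : β n ≤ 1 := by have := h₁ n; have := p1 16; linarith
    have e4 : β n ^ 16 ≤ β n ^ 2 * α n := by
      calc β n ^ 16 = β n ^ 2 * β n * β n ^ 13 := by ring
        _ ≤ β n ^ 2 * α n * 1 := by
          have := h₁ n
          have := ha.pos n
          gcongr
          exact pow_le_one₀ hβ0.le e3
        _ = β n ^ 2 * α n := mul_one _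
    have e5 : 0 < β n ^ 2 := by positivity
    have e6 := mul_le_mul_of_nonneg_left e4 hC.le
    have e7 := mul_lt_mul_of_pos_left hCα e5
    linarith
  -- every point near the image point is near the product set at the scale `s`
  have close : ∀ y' : ℂ, ‖y' - y‖ ≤ s / 100 → ∃ ξ ∈ Eset a α b β, ‖ξ - y'‖ ≤ s / 1000 := by
    intro y' hy'
    obtain ⟨k, hk, hk'⟩ := hsurj ((y' - G x - κ * M h) / κ)
    have e0 := hG h (by linarith)
    have e1 : ‖y' - G x - κ * M h‖ ≤ s / 50 := by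
      have e2 : y' - G x - κ * M h = (y' - y) + (y - G x - κ * M h) := by ring
      rw [e2]
      refine (norm_add_le _ _).trans ?_
      linarith
    have e2 : ‖k‖ ≤ q ^ 4 / 25 := by
      refine hk'.trans ?_
      rw [norm_div, ← mul_div_assoc, div_le_iff₀ hκ0]
      have f1 : q ^ 4 / 25 * ‖κ‖ = s / 25 := by rw [hs]; ring
      linarith
    have e3 : ‖h + k‖ ≤ q ^ 4 / 2 := by have := norm_add_le h k; linarith
    have e4 : 10 * α n ≤ q ^ 4 / 2 := by
      have f1 : q ^ 16 = q ^ 4 * q ^ 12 := by ring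
      have f2 := mul_le_mul_of_nonneg_left r3 q4.le
      rw [hqα]
      linarith
    obtain ⟨ξ, hξ, hd⟩ := near ha hb h₁ n (x + (h + k)) (fun j hj => by
      have f1 := (hA j hj).1
      have f2 := Complex.abs_re_le_norm (h + k)
      have f3 := abs_sub_abs_le_abs_sub (a n - a j) ((x + (h + k)).re - a j)
      have f4 : a n - a j - ((x + (h + k)).re - a j) = -(h + k).re := by
        rw [Complex.add_re x, hxr]; ring
      rw [f4, abs_neg] at f3
      linarith) (fun j hj => by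
      have f1 := (hA j hj).2
      have f2 := Complex.abs_im_le_norm (h + k)
      have f3 := abs_sub_abs_le_abs_sub (b n - b j) ((x + (h + k)).im - b j)
      have f4 : b n - b j - ((x + (h + k)).im - b j) = -(h + k).im := by
        rw [Complex.add_im x, hxi]; ring
      rw [f4, abs_neg] at f3
      have := h₁ n
      linarith)
    obtain ⟨m, rfl⟩ : ∃ m, ξ = x + (h + k + m) := ⟨ξ - (x + (h + k)), by ring⟩
    have e5 : x + (h + k + m) - (x + (h + k)) = m := by ring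
    rw [e5] at hd
    have e6 : ‖h + k + m‖ ≤ q ^ 4 := by have := norm_add_le (h + k) m; linarith
    refine ⟨_, hE _ (hball _ e6) hξ, ?_⟩
    have e7 := hG _ e6
    have e8 : G (x + (h + k + m)) - y' =
        (G (x + (h + k + m)) - G x - κ * M (h + k + m)) + κ * M m := by
      rw [hadd, hadd, hk]
      field_simp
      ring
    rw [e8]
    refine (norm_add_le _ _).trans ?_
    have e9 : ‖κ * M m‖ ≤ 15 * q ^ 12 * s := by
      rw [norm_mul]
      calc ‖κ‖ * ‖M m‖ ≤ ‖κ‖ * (3 / 2 * (10 * q ^ 16)) := by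
            have := hup m
            rw [hqα] at hd
            gcongr
            linarith
        _ = 15 * q ^ 12 * s := by rw [hs]; ring
    have e10 := mul_le_mul_of_nonneg_right r3 hs0.le
    linarith
  have wide : ∀ j < n, s / 100 ≤ β j := by
    intro j hj
    obtain ⟨m, rfl⟩ : ∃ m, n = m + 1 := ⟨n - 1, by omega⟩
    have e1 : q ^ 16 ≤ β m ^ 16 := hqα ▸ h₂ m
    have e2 : q ≤ β m := le_of_pow_le_pow_left₀ (by norm_num) (hb.pos m).le e1
    have e3 : β m ≤ β j := anti hb (by omega)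
    linarith
  by_contra hcon
  rw [not_or, not_le, not_le] at hcon
  have hα0 := ha.pos (n + 1)
  have hβ0 := hb.pos (n + 1)
  obtain ⟨ξ, hξ, hd⟩ := near ha hb h₁ (n + 1) y (fun j hj => by
    rcases Nat.lt_succ_iff_lt_or_eq.1 hj with hj | rfl
    · by_contra hlt
      rw [not_le] at hlt
      obtain ⟨u, hu, hu'⟩ := inward hlt (δ := s / 100) (by linarith)
        ((wide j hj).trans (h₁ j)) (by linarith)
      obtain ⟨ξ, hξ, hd⟩ := close ⟨u, y.im⟩ (by
        refine (Complex.norm_le_abs_re_add_abs_im _).trans ?_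
        simpa using hu)
      have f1 := hu' ξ.re (hξ.1 j)
      have f2 : |ξ.re - u| ≤ _ := Complex.abs_re_le_norm (ξ - ⟨u, y.im⟩)
      linarith
    · linarith [hcon.1]) (fun j hj => by
    rcases Nat.lt_succ_iff_lt_or_eq.1 hj with hj | rfl
    · by_contra hlt
      rw [not_le] at hlt
      obtain ⟨u, hu, hu'⟩ := inward hlt (δ := s / 100) (by linarith) (wide j hj) (by linarith)
      obtain ⟨ξ, hξ, hd⟩ := close ⟨y.re, u⟩ (by
        refine (Complex.norm_le_abs_re_add_abs_im _).trans ?_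
        simpa using hu)
      have f1 := hu' ξ.im (hξ.2 j)
      have f2 : |ξ.im - u| ≤ _ := Complex.abs_im_le_norm (ξ - ⟨y.re, u⟩)
      linarith
    · linarith [hcon.2, h₁ j])
  exact absurd (far ξ hξ) (not_lt.2 hd)

/-- Two of three collinear points are close to the same axis. -/
theorem pigeon {u p y₁ y₂ : ℂ} {A B e : ℝ} (he : 0 ≤ e) (h0 : |p.re - A| ≤ e ∨ |p.im - B| ≤ e)
    (h1 : |y₁.re - A| ≤ e ∨ |y₁.im - B| ≤ e) (h2 : |y₂.re - A| ≤ e ∨ |y₂.im - B| ≤ e)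
    (e1 : ‖y₁ - p - u‖ ≤ e) (e2 : ‖y₂ - p - -u‖ ≤ e) : |(u ^ 2).im| ≤ 6 * e * ‖u‖ := by
  have a1 := (Complex.abs_re_le_norm _).trans e1
  have a2 := (Complex.abs_im_le_norm _).trans e1
  have a3 := (Complex.abs_re_le_norm _).trans e2
  have a4 := (Complex.abs_im_le_norm _).trans e2
  simp only [Complex.sub_re, Complex.sub_im, Complex.neg_re, Complex.neg_im, abs_le] at *
  have key : |u.re| ≤ 3 * e ∨ |u.im| ≤ 3 * e := by
    simp only [abs_le]
    rcases h0 with h0 | h0 <;> rcases h1 with h1 | h1 <;> rcases h2 with h2 | h2 <;>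
      first
        | (left; constructor <;> linarith [h0.1, h0.2, h1.1, h1.2, h2.1, h2.2])
        | (right; constructor <;> linarith [h0.1, h0.2, h1.1, h1.2, h2.1, h2.2])
  have b1 := Complex.abs_re_le_norm u
  have b2 := Complex.abs_im_le_norm u
  have b3 : |(u ^ 2).im| = 2 * (|u.re| * |u.im|) := by
    have : (u ^ 2).im = 2 * (u.re * u.im) := by rw [sq, Complex.mul_im]; ring
    rw [this, abs_mul, abs_mul, abs_two]
  rw [← abs_le, b3]
  have b4 := abs_nonneg u.re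
  have b5 := abs_nonneg u.im
  rcases key with key | key <;> nlinarith

/-- The final inequality. -/
theorem final {τ σ ρ : ℝ} (hτ : 0 < τ) (hτ1 : τ ≤ 1 / 2) (hσ : σ = 1 ∨ σ = -1) (hρ : 0 < ρ) {κ : ℂ}
    (hκ : 0 < ‖κ‖) {u v : ℂ} (hu : u = ρ * (1 + σ * τ * Complex.I))
    (hv : v = ρ * (τ + σ * Complex.I))
    (h1 : |((κ * u) ^ 2).im| ≤ 9 / 100 * τ * (‖κ‖ * ρ) ^ 2)
    (h2 : |((κ * v) ^ 2).im| ≤ 9 / 100 * τ * (‖κ‖ * ρ) ^ 2) : False := by
  have hσ2 : σ ^ 2 = 1 := by rcases hσ with rfl | rfl <;> norm_num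
  have e1 : ((κ * u) ^ 2).im =
      ρ ^ 2 * ((1 - τ ^ 2) * (κ ^ 2).im + 2 * σ * τ * (κ ^ 2).re) := by
    rw [hu]
    simp only [sq, Complex.mul_im, Complex.mul_re, Complex.add_re, Complex.add_im,
      Complex.ofReal_re, Complex.ofReal_im, Complex.I_re, Complex.I_im, Complex.one_re,
      Complex.one_im]
    linear_combination (-2 * ρ ^ 2 * τ ^ 2 * κ.re * κ.im) * hσ2
  have e2 : ((κ * v) ^ 2).im =
      ρ ^ 2 * (-(1 - τ ^ 2) * (κ ^ 2).im + 2 * σ * τ * (κ ^ 2).re) := by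
    rw [hv]
    simp only [sq, Complex.mul_im, Complex.mul_re, Complex.add_re, Complex.add_im,
      Complex.ofReal_re, Complex.ofReal_im, Complex.I_re, Complex.I_im]
    linear_combination (-2 * ρ ^ 2 * κ.re * κ.im) * hσ2
  have hρ2 : 0 < ρ ^ 2 := by positivity
  have e3 : 9 / 100 * τ * (‖κ‖ * ρ) ^ 2 = ρ ^ 2 * (9 / 100 * τ * ‖κ‖ ^ 2) := by ring
  rw [e1, e3, abs_mul, abs_of_pos hρ2, mul_le_mul_iff_right₀ hρ2, abs_le] at h1
  rw [e2, e3, abs_mul, abs_of_pos hρ2, mul_le_mul_iff_right₀ hρ2, abs_le] at h2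
  have e4 := Complex.norm_le_abs_re_add_abs_im (κ ^ 2)
  rw [norm_pow] at e4
  set N := ‖κ‖ ^ 2 with hN
  have hN0 : 0 < N := by positivity
  set X := (κ ^ 2).re
  set Y := (κ ^ 2).im
  have e5 : |X| ≤ N / 10 := by
    rw [abs_le]
    rcases hσ with rfl | rfl <;> constructor <;> by_contra hlt <;> rw [not_le] at hlt <;>
      nlinarith [h1.1, h1.2, h2.1, h2.2]
  have e6 : |Y| ≤ N / 10 := by
    have f1 : 3 / 4 ≤ 1 - τ ^ 2 := by nlinarith
    have f2 : τ * N ≤ N / 2 := by nlinarith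
    rw [abs_le]
    constructor <;> by_contra hlt <;> rw [not_le] at hlt <;> nlinarith [h1.1, h1.2, h2.1, h2.2]
  linarith

theorem shear_add (τ : ℝ) (h h' : ℂ) : shear τ (h + h') = shear τ h + shear τ h' := by
  simp only [shear, map_add]
  ring

theorem norm_twist {τ : ℝ} (hτ : 0 < τ) (h : ℂ) : ‖Complex.I * τ * conj h‖ = τ * ‖h‖ := by
  rw [norm_mul, norm_mul, Complex.norm_I, one_mul, Complex.norm_real, Real.norm_of_nonneg hτ.le,
    Complex.norm_conj]

theorem shear_up {τ : ℝ} (hτ : 0 < τ) (hτ1 : τ ≤ 1 / 2) (h : ℂ) : ‖shear τ h‖ ≤ 3 / 2 * ‖h‖ := by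
  have e1 := norm_add_le h (Complex.I * τ * conj h)
  rw [norm_twist hτ] at e1
  have e2 := norm_nonneg h
  rw [shear]
  nlinarith

theorem shear_surj {τ : ℝ} (hτ : 0 < τ) (hτ1 : τ ≤ 1 / 2) (w : ℂ) :
    ∃ h, shear τ h = w ∧ ‖h‖ ≤ 2 * ‖w‖ := by
  have e0 : (1 - τ ^ 2 : ℝ) ≠ 0 := by nlinarith
  have e1 : shear τ ⟨(w.re - τ * w.im) / (1 - τ ^ 2), (w.im - τ * w.re) / (1 - τ ^ 2)⟩ = w := by
    apply Complex.ext
    · simp only [shear, Complex.add_re, Complex.mul_re, Complex.mul_im, Complex.I_re, Complex.I_im,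
        Complex.ofReal_re, Complex.ofReal_im, Complex.conj_re, Complex.conj_im]
      field_simp
      ring
    · simp only [shear, Complex.add_im, Complex.mul_re, Complex.mul_im, Complex.I_re, Complex.I_im,
        Complex.ofReal_re, Complex.ofReal_im, Complex.conj_re, Complex.conj_im]
      field_simp
      ring
  refine ⟨_, e1, ?_⟩
  generalize (⟨(w.re - τ * w.im) / (1 - τ ^ 2), (w.im - τ * w.re) / (1 - τ ^ 2)⟩ : ℂ) = h at e1
  have e2 := norm_sub_le (shear τ h) (Complex.I * τ * conj h)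
  rw [norm_twist hτ, e1, ← e1, shear, add_sub_cancel_right, ← shear, e1] at e2
  have e3 := norm_nonneg h
  nlinarith

end CrossAux

open CrossAux in
theorem cross {τ C : ℝ} (hτ : 0 < τ) (hτ1 : τ ≤ 1 / 2) (hC : 0 < C) {a α b β : ℕ → ℝ}
    (ha : Gaps a α) (hb : Gaps b β) (h₁ : ∀ n, β n ≤ α n) (h₂ : ∀ n, α (n + 1) ≤ β n ^ 16)
    {c : ℂ} {G : ℂ → ℂ}
    (hE : ∀ z ∈ closedBall c (1 / 2), z ∈ Eset a α b β → G z ∈ Eset a α b β)
    (hinv : ∀ z ∈ closedBall c (1 / 2), ∀ ξ ∈ Eset a α b β, ‖ξ - G z‖ ≤ 1 / C →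
      ∃ ξ' ∈ Eset a α b β, ‖ξ' - z‖ ^ 2 ≤ C * ‖ξ - G z‖)
    (hg : ∀ N, ∃ n ≥ N, Away a α b β c n ∧ ∃ κ : ℂ, rad α n / C ≤ ‖κ‖ ∧
      ‖κ‖ * rad α n ≤ C * √(rad α n) ∧
      ((∀ h : ℂ, ‖h‖ ≤ rad α n → ‖G (crs a b n + h) - G (crs a b n) - κ * shear τ h‖ ≤
          τ / 1000 * ‖κ‖ * rad α n) ∨
        ∀ h : ℂ, ‖h‖ ≤ rad α n → ‖G (crs a b n + h) - G (crs a b n) - κ * conj (shear τ h)‖ ≤
          τ / 1000 * ‖κ‖ * rad α n)) : False := by
  have hε : 0 < min (1 / 10) (τ / 6000 / C) := lt_min (by norm_num) (by positivity)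
  obtain ⟨N, hN⟩ := small ha (pow_pos hε 16)
  obtain ⟨n, hn, hA, κ, hκ1, hκ2, hG⟩ := hg N
  have hα := ha.pos n
  have hr : 0 < rad α n := Real.sqrt_pos.2 (Real.sqrt_pos.2 hα)
  have four : ∀ t : ℝ, 0 ≤ t → √(√t) ^ 2 = √t ∧ √(√t) ^ 4 = t := by
    intro t ht
    have e1 : √(√t) ^ 2 = √t := Real.sq_sqrt (Real.sqrt_nonneg t)
    exact ⟨e1, by rw [show 4 = 2 * 2 from rfl, pow_mul, e1, Real.sq_sqrt ht]⟩
  set q := √(√(rad α n)) with hq
  have hq0 : 0 < q := Real.sqrt_pos.2 (Real.sqrt_pos.2 hr)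
  have hqr : rad α n = q ^ 4 := (four _ hr.le).2.symm
  have hqα : α n = q ^ 16 := by
    rw [show 16 = 4 * 4 from rfl, pow_mul, ← hqr]
    exact (four _ hα.le).2.symm
  have hqε : q ≤ min (1 / 10) (τ / 6000 / C) :=
    le_of_pow_le_pow_left₀ (n := 16) (by norm_num) hε.le (hqα ▸ hN n hn)
  have hq1 : q ≤ 1 / 10 := hqε.trans (min_le_left _ _)
  have hq2 : C * q ≤ τ / 6000 := by
    rw [mul_comm]
    exact (le_div_iff₀ hC).1 (hqε.trans (min_le_right _ _))
  rw [← (four _ hr.le).1] at hκ2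
  have hκ0 : 0 < ‖κ‖ := lt_of_lt_of_le (by positivity) hκ1
  have main : ∀ (M : ℂ → ℂ) (σ : ℝ), (σ = 1 ∨ σ = -1) → (∀ h h', M (h + h') = M h + M h') →
      (∀ h, ‖M h‖ ≤ 3 / 2 * ‖h‖) → (∀ w, ∃ h, M h = w ∧ ‖h‖ ≤ 2 * ‖w‖) →
      (∀ ρ : ℝ, M ρ = ρ * (1 + σ * τ * Complex.I)) →
      (∀ ρ : ℝ, M (ρ * Complex.I) = ρ * (τ + σ * Complex.I)) →
      (∀ h : ℂ, ‖h‖ ≤ rad α n → ‖G (crs a b n + h) - G (crs a b n) - κ * M h‖ ≤
        τ / 1000 * ‖κ‖ * rad α n) → False := by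
    intro M σ hσ hadd hup hsurj hM1 hM2 hG
    have hM0 : M 0 = 0 := by
      have := hup 0
      rw [norm_zero, mul_zero] at this
      exact norm_le_zero_iff.1 this
    have hneg : ∀ h, M (-h) = -M h := fun h => by
      have := hadd h (-h)
      rw [add_neg_cancel, hM0] at this
      linear_combination -this
    have line : ∀ h : ℂ, ‖h‖ = rad α n / 10 → (h.re = 0 ∨ h.im = 0) →
        |((κ * M h) ^ 2).im| ≤ 9 / 100 * τ * (‖κ‖ * (rad α n / 10)) ^ 2 := by
      intro h hh h0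
      have ax := fun k hk hk0 => axis hτ hτ1 hC ha hb h₁ h₂ hE hinv hA hq0 hq1 hq2 hqr hqα hκ1 hκ2
        hadd hup hsurj hG (h := k) hk hk0
      have a0 := ax 0 (by rw [norm_zero]; positivity) (Or.inl rfl)
      rw [add_zero] at a0
      have a1 := ax h hh.le h0
      have a2 := ax (-h) (by rw [norm_neg]; exact hh.le) (by simpa using h0)
      have g1 := hG h (by linarith)
      have g2 := hG (-h) (by rw [norm_neg]; linarith)
      rw [hneg, mul_neg] at g2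
      refine (pigeon (by positivity) a0 a1 a2 g1 g2).trans ?_
      have g3 := hup h
      rw [hh] at g3
      rw [norm_mul]
      calc 6 * (τ / 1000 * ‖κ‖ * rad α n) * (‖κ‖ * ‖M h‖)
          ≤ 6 * (τ / 1000 * ‖κ‖ * rad α n) * (‖κ‖ * (3 / 2 * (rad α n / 10))) := by gcongr
        _ = 9 / 100 * τ * (‖κ‖ * (rad α n / 10)) ^ 2 := by ring
    have hρ : 0 < rad α n / 10 := by positivity
    refine final hτ hτ1 hσ hρ hκ0 (hM1 _) (hM2 _) (line _ ?_ (Or.inr (Complex.ofReal_im _)))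
      (line _ ?_ (Or.inl (by simp)))
    · rw [Complex.norm_real, Real.norm_of_nonneg hρ.le]
    · rw [norm_mul, Complex.norm_I, mul_one, Complex.norm_real, Real.norm_of_nonneg hρ.le]
  rcases hG with hG | hG
  · refine main (shear τ) 1 (Or.inl rfl) (shear_add τ) (shear_up hτ hτ1) (shear_surj hτ hτ1)
      (fun ρ => ?_) (fun ρ => ?_) hG
    · apply Complex.ext <;> simp [shear, mul_comm]
    · apply Complex.ext <;> simp [shear, mul_comm]
  · refine main (fun h => conj (shear τ h)) (-1) (Or.inr rfl)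
      (fun h h' => by rw [shear_add, map_add]) (fun h => ?_) (fun w => ?_)
      (fun ρ => ?_) (fun ρ => ?_) hG
    · rw [Complex.norm_conj]
      exact shear_up hτ hτ1 h
    · obtain ⟨h, e1, e2⟩ := shear_surj hτ hτ1 (conj w)
      exact ⟨h, by rw [e1, Complex.conj_conj], by rwa [Complex.norm_conj] at e2⟩
    · apply Complex.ext <;> simp [shear, mul_comm]
    · apply Complex.ext <;> simp [shear, mul_comm]

end Pool.Agent.Lib.MP_44acff_gt.NU
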