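import Pool.Agent.Lib.MP_44acff_gt.H70CT

/-! Cutting one thin strip. -/

namespace Pool.Agent.Lib.MP_44acff_gt.NU

open Set Metric MeasureTheory Filter Topology ComplexConjugate
open scoped ContDiff

namespace CutAux

/-- The coordinate across the strip. -/
noncomputable def lamL (u : ℂ) : ℂ →L[ℝ] ℝ :=
  Complex.reCLM.comp (ContinuousLinearMap.mul ℝ ℂ (conj u))

theorem lamL_apply (u z : ℂ) : lamL u z = (conj u * z).re := rfl

theorem abs_lamL_le {u : ℂ} (hu : ‖u‖ = 1) (v : ℂ) : |lamL u v| ≤ ‖v‖ := by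
  rw [lamL_apply]
  refine (Complex.abs_re_le_norm _).trans ?_
  rw [norm_mul, Complex.norm_conj, hu, one_mul]

theorem lamL_dbar {u : ℂ} (hu : ‖u‖ = 1) :
    conj u * ((lamL u 1 : ℂ) + Complex.I * (lamL u Complex.I : ℂ)) = 1 := by
  have h1 : (lamL u 1 : ℂ) + Complex.I * (lamL u Complex.I : ℂ) = u := by
    apply Complex.ext <;> simp [lamL_apply]
  rw [h1, mul_comm, Complex.mul_conj, Complex.normSq_eq_norm_sq, hu]
  simp

theorem vol_strip {u : ℂ} (hu : ‖u‖ = 1) (c : ℝ) {a R : ℝ} (ha : 0 ≤ a) :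
    volume {z : ℂ | |(conj u * z).re - c| ≤ a ∧ |(conj u * z).im| ≤ R} ≤
      ENNReal.ofReal (4 * a * R) := by
  have hu' : conj u ∈ sphere (0 : ℂ) 1 := by simp [hu]
  let e : ℂ ≃ₗᵢ[ℝ] ℂ := rotation (⟨conj u, hu'⟩ : Circle)
  have he : ∀ z, e z = conj u * z := fun z => rfl
  have h1 : {z : ℂ | |(conj u * z).re - c| ≤ a ∧ |(conj u * z).im| ≤ R} =
      e ⁻¹' (Complex.measurableEquivRealProd ⁻¹' (Icc (c - a) (c + a) ×ˢ Icc (-R) R)) := by
    ext z
    simp only [mem_ofPred_eq, mem_preimage, he, Complex.measurableEquivRealProd_apply, mem_prod,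
      mem_Icc, abs_le]
    constructor
    · rintro ⟨⟨h1, h2⟩, h3⟩
      exact ⟨⟨by linarith, by linarith⟩, h3⟩
    · rintro ⟨⟨h1, h2⟩, h3⟩
      exact ⟨⟨by linarith, by linarith⟩, h3⟩
  have hm : MeasurableSet (Icc (c - a) (c + a) ×ˢ Icc (-R) R) :=
    measurableSet_Icc.prod measurableSet_Icc
  rw [h1, e.measurePreserving.measure_preimage
      (Complex.measurableEquivRealProd.measurable hm).nullMeasurableSet,
    Complex.volume_preserving_equiv_real_prod.measure_preimage hm.nullMeasurableSet,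
    Measure.volume_eq_prod, Measure.prod_prod, Real.volume_Icc, Real.volume_Icc,
    ← ENNReal.ofReal_mul (by linarith)]
  exact ENNReal.ofReal_le_ofReal (le_of_eq (by ring))

theorem exists_prim (c : ℝ) {w : ℝ} (hw : 0 < w) :
    ∃ χ₀ P : ℝ → ℝ, ContDiff ℝ ∞ χ₀ ∧ (∀ t, 0 ≤ χ₀ t ∧ χ₀ t ≤ 1) ∧
      (∀ t, |t - c| ≤ w → χ₀ t = 1) ∧ (∀ t, 2 * w ≤ |t - c| → χ₀ t = 0) ∧
      (∀ t, HasDerivAt P (χ₀ t) t) ∧ ∀ t, |P t| ≤ 4 * w := by
  let b : ContDiffBump c := ⟨w, 2 * w, hw, by linarith⟩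
  have hb : Continuous b := b.continuous
  refine ⟨b, fun t => ∫ s in c..t, b s, b.contDiff, fun t => ⟨b.nonneg, b.le_one⟩,
    fun t ht => b.one_of_mem_closedBall (by simpa [Real.dist_eq] using ht),
    fun t ht => b.zero_of_le_dist (by simpa [Real.dist_eq] using ht),
    fun t => (hb.integral_hasStrictDerivAt c t).hasDerivAt, fun t => ?_⟩
  have h1 : |∫ s in c..t, b s| ≤ ∫ s in uIoc c t, ‖b s‖ := by
    rw [← Real.norm_eq_abs]
    exact intervalIntegral.norm_integral_le_integral_norm_uIoc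
  have h2 : ∫ s in uIoc c t, ‖b s‖ ≤ ∫ s, ‖b s‖ :=
    setIntegral_le_integral b.integrable.norm (Eventually.of_forall fun s => norm_nonneg _)
  have h3 : ∫ s, ‖b s‖ = ∫ s, b s := by
    congr 1
    ext s
    exact Real.norm_of_nonneg b.nonneg
  have h4 : ∫ s, b s ≤ (volume : Measure ℝ).real (closedBall c b.rOut) :=
    b.integral_le_measure_closedBall volume
  have h5 : (volume : Measure ℝ).real (closedBall c b.rOut) = 4 * w := by
    rw [Real.volume_real_closedBall (by show (0 : ℝ) ≤ 2 * w; linarith)]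
    show 2 * (2 * w) = 4 * w
    ring
  linarith

theorem ct_add {f g : ℂ → ℂ} (hf : Continuous f) (hf' : HasCompactSupport f) (hg : Continuous g)
    (hg' : HasCompactSupport g) (z : ℂ) : ct (fun ζ => f ζ + g ζ) z = ct f z + ct g z := by
  unfold ct
  rw [← mul_add, ← integral_add (integrable_ct hf hf' z) (integrable_ct hg hg' z)]
  simp only [add_div]

theorem exists_bound {g : ℂ → ℂ} (hg : ContDiff ℝ 1 g) (hc : HasCompactSupport g) :
    ∃ M, 0 ≤ M ∧ ∀ z, ‖g z‖ ≤ M ∧ ‖fderiv ℝ g z‖ ≤ M := by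
  obtain ⟨A, hA⟩ := hg.continuous.bounded_above_of_compact_support hc
  obtain ⟨B, hB⟩ := (hg.continuous_fderiv one_ne_zero).bounded_above_of_compact_support
    (hc.fderiv ℝ)
  exact ⟨max A B, (norm_nonneg _).trans ((hA 0).trans (le_max_left _ _)), fun z =>
    ⟨(hA z).trans (le_max_left _ _), (hB z).trans (le_max_right _ _)⟩⟩

theorem dbar_contDiff {φ : ℂ → ℂ} (hφ : ContDiff ℝ ∞ φ) : ContDiff ℝ 1 (dbar φ) := by
  have h : ContDiff ℝ 1 (fderiv ℝ φ) := hφ.fderiv_right (m := 1) (by norm_cast)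
  unfold dbar
  exact ((h.clm_apply contDiff_const).add
    (contDiff_const.mul (h.clm_apply contDiff_const))).div_const _

theorem dbar_supp {φ : ℂ → ℂ} (hc : HasCompactSupport φ) : HasCompactSupport (dbar φ) :=
  (hc.fderiv ℝ).comp_left
    (g := fun L : ℂ →L[ℝ] ℂ => (L 1 + Complex.I * L Complex.I) / 2) (by simp)

/-- The product of a function with the primitive across the strip. -/
noncomputable def pr (u : ℂ) (P : ℝ → ℝ) (g : ℂ → ℂ) (z : ℂ) : ℂ :=
  2 * conj u * ((P (lamL u z) : ℂ) * g z)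

theorem pr_contDiff (u : ℂ) {P : ℝ → ℝ} {g : ℂ → ℂ} (hP : ContDiff ℝ 1 P) (hg : ContDiff ℝ 1 g) :
    ContDiff ℝ 1 (pr u P g) :=
  contDiff_const.mul ((Complex.ofRealCLM.contDiff.comp (hP.comp (lamL u).contDiff)).mul hg)

theorem pr_supp (u : ℂ) (P : ℝ → ℝ) {g : ℂ → ℂ} (hc : HasCompactSupport g) :
    HasCompactSupport (pr u P g) :=
  (hc.mul_left (f := fun z => (P (lamL u z) : ℂ))).mul_left (f := fun _ => 2 * conj u)

theorem pr_fderiv (u : ℂ) {χ₀ P : ℝ → ℝ} {g : ℂ → ℂ} (hP : ∀ t, HasDerivAt P (χ₀ t) t)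
    (hg : ContDiff ℝ 1 g) (z v : ℂ) :
    fderiv ℝ (pr u P g) z v = 2 * conj u * ((χ₀ (lamL u z) : ℂ) * (lamL u v : ℂ) * g z) +
      2 * conj u * ((P (lamL u z) : ℂ) * fderiv ℝ g z v) := by
  have h1 := (hP (lamL u z)).comp_hasFDerivAt z (lamL u).hasFDerivAt
  have h2 := Complex.ofRealCLM.hasFDerivAt.comp z h1
  have h3 := (h2.mul (hg.differentiable one_ne_zero z).hasFDerivAt).const_mul (2 * conj u)
  have h4 : fderiv ℝ (pr u P g) z = _ := h3.fderiv
  rw [h4]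
  simp
  ring

theorem norm_two_mul {u : ℂ} (hu : ‖u‖ = 1) (a : ℂ) : ‖2 * conj u * a‖ = 2 * ‖a‖ := by
  rw [norm_mul, norm_mul, Complex.norm_conj, hu]
  simp

end CutAux

open CutAux

theorem cut {φ : ℂ → ℂ} (hφ : ContDiff ℝ ∞ φ) (hc : HasCompactSupport φ) {u : ℂ} (hu : ‖u‖ = 1)
    (c : ℝ) {ε w₀ : ℝ} (hε : 0 < ε) (hw₀ : 0 < w₀) :
    ∃ w, 0 < w ∧ w < w₀ ∧ ∃ χ : ℂ → ℝ, ContDiff ℝ ∞ χ ∧ (∀ z, 0 ≤ χ z ∧ χ z ≤ 1) ∧
      (∀ z, |(conj u * z).re - c| ≤ w → χ z = 1) ∧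
      (∀ z, 2 * w ≤ |(conj u * z).re - c| → χ z = 0) ∧
      ∃ k : ℂ → ℂ, ContDiff ℝ 1 k ∧ ∀ z, dbar k z = φ z * χ z ∧
        ‖fderiv ℝ k z‖ ≤ 2 * ‖φ z‖ * χ z + ε ∧ ‖k z‖ ≤ √w := by
  have hφ1 : ContDiff ℝ 1 φ := hφ.of_le (by norm_cast)
  have hg1 : ContDiff ℝ 1 (dbar φ) := dbar_contDiff hφ
  have hgc : HasCompactSupport (dbar φ) := dbar_supp hc
  set g := dbar φ with hgdef
  obtain ⟨M₁, hM₁, hb₁⟩ := exists_bound hφ1 hc
  obtain ⟨M₂, hM₂, hb₂⟩ := exists_bound hg1 hgc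
  obtain ⟨R, hR, hRs⟩ := hgc.isCompact.isBounded.subset_closedBall_lt 0 (0 : ℂ)
  have hg0 : ∀ z ∉ closedBall (0 : ℂ) R, g z = 0 := fun z hz =>
    image_eq_zero_of_notMem_tsupport fun h => hz (hRs h)
  have hg0' : ∀ z ∉ closedBall (0 : ℂ) R, fderiv ℝ g z = 0 := fun z hz =>
    fderiv_of_notMem_tsupport ℝ fun h => hz (hRs h)
  obtain ⟨V, hV0, hV⟩ : ∃ V : ℝ, 0 ≤ V ∧ volume (closedBall (0 : ℂ) R) ≤ ENNReal.ofReal V :=
    ⟨(volume (closedBall (0 : ℂ) R)).toReal, ENNReal.toReal_nonneg,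
      (ENNReal.ofReal_toReal measure_closedBall_lt_top.ne).ge⟩
  obtain ⟨C, hC⟩ : ∃ C : ℝ, C = 8 * M₁ + 2 * M₂ * (2 + 8 * R) + 8 * M₂ * (2 + V) := ⟨_, rfl⟩
  have hC0 : 0 ≤ C := by rw [hC]; positivity
  obtain ⟨s, hs0, hs1, hsε, hsC, hsw⟩ :
      ∃ s : ℝ, 0 < s ∧ s ≤ 1 ∧ s * C ≤ ε ∧ s * C ≤ 1 ∧ s < w₀ := by
    refine ⟨min (min 1 (w₀ / 2)) (min ε 1 / (C + 1)), by positivity,
      (min_le_left _ _).trans (min_le_left _ _), ?_, ?_,
      ((min_le_left _ _).trans (min_le_right _ _)).trans_lt (by linarith)⟩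
    all_goals
      have h1 : min (min 1 (w₀ / 2)) (min ε 1 / (C + 1)) * C ≤ min ε 1 / (C + 1) * (C + 1) :=
        mul_le_mul (min_le_right _ _) (by linarith) hC0 (by positivity)
      rw [div_mul_cancel₀ _ (by positivity)] at h1
    · exact h1.trans (min_le_left _ _)
    · exact h1.trans (min_le_right _ _)
  have hw : 0 < s ^ 2 := by positivity
  have hws : s ^ 2 ≤ s := by nlinarith
  obtain ⟨χ₀, P, hχ, hχ01, hχ1, hχ0, hP, hPb⟩ := exists_prim c hw
  have hP1 : ContDiff ℝ 1 P := by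
    rw [contDiff_one_iff_deriv]
    refine ⟨fun t => (hP t).differentiableAt, ?_⟩
    have : deriv P = χ₀ := funext fun t => (hP t).deriv
    rw [this]
    exact hχ.continuous
  have hψ1 : ContDiff ℝ 1 (pr u P g) := pr_contDiff u hP1 hg1
  have hψc : HasCompactSupport (pr u P g) := pr_supp u P hgc
  have hk1 : ContDiff ℝ 1 (pr u P φ) := pr_contDiff u hP1 hφ1
  obtain ⟨hct1, hctd⟩ := ct_contDiff hψ1 hψc
  have hPn : ∀ (z a : ℂ) (B : ℝ), ‖a‖ ≤ B →
      ‖2 * conj u * ((P (lamL u z) : ℂ) * a)‖ ≤ 8 * s ^ 2 * B := by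
    intro z a B ha
    rw [norm_two_mul hu, norm_mul, Complex.norm_real, Real.norm_eq_abs]
    have := mul_le_mul (hPb (lamL u z)) ha (norm_nonneg _) (by positivity)
    linarith
  have hfd : ∀ z v, fderiv ℝ (fun z => pr u P φ z - ct (pr u P g) z) z v =
      fderiv ℝ (pr u P φ) z v - fderiv ℝ (ct (pr u P g)) z v := by
    intro z v
    rw [fderiv_fun_sub (hk1.differentiable one_ne_zero z) (hct1.differentiable one_ne_zero z)]
    rfl
  refine ⟨s ^ 2, hw, hws.trans_lt hsw, fun z => χ₀ (lamL u z), hχ.comp (lamL u).contDiff,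
    fun z => hχ01 _, fun z hz => hχ1 _ hz, fun z hz => hχ0 _ hz,
    fun z => pr u P φ z - ct (pr u P g) z, hk1.sub hct1, fun z => ⟨?_, ?_, ?_⟩⟩
  · have h1 := dbar_ct hψ1 hψc z
    have h2 := lamL_dbar hu
    have h3 : g z = (fderiv ℝ φ z 1 + Complex.I * fderiv ℝ φ z Complex.I) / 2 := rfl
    unfold dbar at h1 ⊢
    rw [hfd, hfd, pr_fderiv u hP hφ1, pr_fderiv u hP hφ1]
    unfold pr at h1
    unfold pr
    rw [h3] at h1
    linear_combination (φ z * (χ₀ (lamL u z) : ℂ)) * h2 - h1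
  · refine ContinuousLinearMap.opNorm_le_bound _
      (by have := (hχ01 (lamL u z)).1; positivity) fun v => ?_
    have hcl : Continuous fun ζ : ℂ => (χ₀ (lamL u ζ) : ℂ) :=
      Complex.continuous_ofReal.comp (hχ.continuous.comp (lamL u).continuous)
    have hcP : Continuous fun ζ : ℂ => (P (lamL u ζ) : ℂ) :=
      Complex.continuous_ofReal.comp (hP1.continuous.comp (lamL u).continuous)
    have hcd : Continuous fun ζ : ℂ => fderiv ℝ g ζ v :=
      (hg1.continuous_fderiv one_ne_zero).clm_apply continuous_const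
    have hsd : HasCompactSupport fun ζ : ℂ => fderiv ℝ g ζ v :=
      (hgc.fderiv ℝ).comp_left (g := fun L : ℂ →L[ℝ] ℂ => L v) (by simp)
    have hsplit : fderiv ℝ (ct (pr u P g)) z v =
        ct (fun ζ => 2 * conj u * ((χ₀ (lamL u ζ) : ℂ) * (lamL u v : ℂ) * g ζ)) z +
          ct (fun ζ => 2 * conj u * ((P (lamL u ζ) : ℂ) * fderiv ℝ g ζ v)) z := by
      rw [hctd]
      refine Eq.trans ?_ (ct_add
        (continuous_const.mul ((hcl.mul continuous_const).mul hg1.continuous))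
        ((hgc.mul_left (f := fun ζ => (χ₀ (lamL u ζ) : ℂ) * (lamL u v : ℂ))).mul_left
          (f := fun _ => 2 * conj u))
        (continuous_const.mul (hcP.mul hcd))
        ((hsd.mul_left (f := fun ζ => (P (lamL u ζ) : ℂ))).mul_left (f := fun _ => 2 * conj u)) z)
      congr 1
      ext ζ
      exact pr_fderiv u hP hg1 ζ v
    have hχn : ∀ (ζ a : ℂ), ‖2 * conj u * ((χ₀ (lamL u ζ) : ℂ) * (lamL u v : ℂ) * a)‖ ≤
        2 * ‖a‖ * χ₀ (lamL u ζ) * ‖v‖ := by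
      intro ζ a
      rw [norm_two_mul hu, norm_mul, norm_mul, Complex.norm_real, Complex.norm_real,
        Real.norm_of_nonneg (hχ01 _).1, Real.norm_eq_abs]
      have := mul_le_mul_of_nonneg_left (abs_lamL_le hu v)
        (mul_nonneg (norm_nonneg a) (hχ01 (lamL u ζ)).1)
      linarith
    have hA : ‖ct (fun ζ => 2 * conj u * ((χ₀ (lamL u ζ) : ℂ) * (lamL u v : ℂ) * g ζ)) z‖ ≤
        2 * M₂ * ‖v‖ * (2 * s + 4 * (2 * s ^ 2) * R / s) := by
      refine norm_ct_le (S := {ζ : ℂ | |(conj u * ζ).re - c| ≤ 2 * s ^ 2 ∧ |(conj u * ζ).im| ≤ R})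
        ?_ (by positivity) (by positivity) (vol_strip hu c (by positivity)) ?_ ?_ hs0 z
      · have h1 : IsClosed {ζ : ℂ | |(conj u * ζ).re - c| ≤ 2 * s ^ 2} :=
          isClosed_le (by fun_prop) continuous_const
        have h2 : IsClosed {ζ : ℂ | |(conj u * ζ).im| ≤ R} :=
          isClosed_le (by fun_prop) continuous_const
        exact (h1.inter h2).measurableSet
      · intro ζ
        refine (hχn ζ _).trans (mul_le_mul_of_nonneg_right ?_ (norm_nonneg v))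
        have := mul_le_mul (hb₂ ζ).1 (hχ01 (lamL u ζ)).2 (hχ01 (lamL u ζ)).1 hM₂
        linarith
      · intro ζ hζ
        by_cases h1 : |(conj u * ζ).re - c| ≤ 2 * s ^ 2
        · have h2 : ¬ |(conj u * ζ).im| ≤ R := fun h => hζ ⟨h1, h⟩
          have h3 : ζ ∉ closedBall (0 : ℂ) R := by
            intro h
            apply h2
            refine (Complex.abs_im_le_norm _).trans ?_
            rw [norm_mul, Complex.norm_conj, hu, one_mul]
            simpa using h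
          rw [hg0 ζ h3]
          simp
        · rw [hχ0 (lamL u ζ) (not_le.mp h1).le]
          simp
    have hB : ‖ct (fun ζ => 2 * conj u * ((P (lamL u ζ) : ℂ) * fderiv ℝ g ζ v)) z‖ ≤
        8 * s ^ 2 * (M₂ * ‖v‖) * (2 * 1 + V / 1) := by
      refine norm_ct_le measurableSet_closedBall (by positivity) hV0 hV ?_ ?_ one_pos z
      · intro ζ
        exact hPn ζ _ _ (((fderiv ℝ g ζ).le_opNorm v).trans
          (mul_le_mul_of_nonneg_right (hb₂ ζ).2 (norm_nonneg v)))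
      · intro ζ hζ
        rw [hg0' ζ hζ]
        simp
    have hD := hPn z (fderiv ℝ φ z v) (M₁ * ‖v‖) (((fderiv ℝ φ z).le_opNorm v).trans
      (mul_le_mul_of_nonneg_right (hb₁ z).2 (norm_nonneg v)))
    have hE := hχn z (φ z)
    have hdiv : 4 * (2 * s ^ 2) * R / s = 8 * s * R := by
      field_simp
      ring
    rw [hdiv] at hA
    rw [hfd, hsplit, pr_fderiv u hP hφ1]
    refine (norm_sub_le _ _).trans ((add_le_add (norm_add_le _ _) (norm_add_le _ _)).trans ?_)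
    have h5 : s ^ 2 * (8 * M₁ + 8 * M₂ * (2 + V)) ≤ s * (8 * M₁ + 8 * M₂ * (2 + V)) :=
      mul_le_mul_of_nonneg_right hws (by positivity)
    have h6 : s ^ 2 * (8 * M₁ + 8 * M₂ * (2 + V)) + s * (2 * M₂ * (2 + 8 * R)) ≤ ε := by
      rw [hC] at hsε
      linarith
    have h7 := mul_le_mul_of_nonneg_right h6 (norm_nonneg v)
    linarith
  · have hA := hPn z (φ z) M₁ (hb₁ z).1
    have hB : ‖ct (pr u P g) z‖ ≤ 8 * s ^ 2 * M₂ * (2 * 1 + V / 1) := by
      refine norm_ct_le measurableSet_closedBall (by positivity) hV0 hV ?_ ?_ one_pos z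
      · intro ζ
        exact hPn ζ _ _ (hb₂ ζ).1
      · intro ζ hζ
        unfold pr
        rw [hg0 ζ hζ]
        simp
    rw [Real.sqrt_sq hs0.le]
    refine (norm_sub_le _ _).trans ?_
    have h5 : s * (8 * M₁ + 8 * M₂ * (2 + V)) ≤ 1 := by
      have : 0 ≤ s * (2 * M₂ * (2 + 8 * R)) := by positivity
      rw [hC] at hsC
      linarith
    have h6 := mul_le_mul_of_nonneg_left h5 hs0.le
    have h7 : ‖pr u P φ z‖ ≤ 8 * s ^ 2 * M₁ := hA
    nlinarith

end Pool.Agent.Lib.MP_44acff_gt.NU
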