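import Pool.Agent.Lib.MP_44acff_gt.H70DataA

/-! The product set and the conformal map on its complement. -/

namespace Pool.Agent.Lib.MP_44acff_gt.NU

open Set Metric MeasureTheory Filter Topology ComplexConjugate
open scoped ContDiff

namespace DataAux

/-- Finite sums of the corrections. -/
noncomputable def PS (u : ℕ → Step) (m : ℕ) (z : ℂ) : ℂ := ∑ j ∈ Finset.range m, (u j).k z

/-- The sum of all corrections. -/
noncomputable def KS (u : ℕ → Step) (z : ℂ) : ℂ := ∑' j, (u j).k z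

/-- A chain of steps. -/
structure Chain (ε : ℝ) (u : ℕ → Step) : Prop where
  next : ∀ n, (u (n + 1)).φ = (u n).φ'
  an : ∀ n, An (ε * (1 / 2) ^ n) (u n)
  q : ∀ n, (u (n + 1)).α ≤ (u n).α / 4

variable {ε : ℝ} {u : ℕ → Step}

theorem ps_succ (u : ℕ → Step) (m : ℕ) : PS u (m + 1) = fun z => PS u m z + (u m).k z := by
  funext z
  exact Finset.sum_range_succ _ _

theorem ps_zero (u : ℕ → Step) : PS u 0 = fun _ => 0 := by
  funext z
  simp [PS]

theorem Chain.contDiff (h : Chain ε u) (m : ℕ) : ContDiff ℝ 1 (PS u m) :=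
  ContDiff.sum fun j _ => (h.an j).ck

theorem Chain.diff (h : Chain ε u) (m : ℕ) (z : ℂ) : DifferentiableAt ℝ (PS u m) z :=
  (h.contDiff m).differentiable one_ne_zero z

theorem Chain.dbar_ps (h : Chain ε u) (m : ℕ) (z : ℂ) :
    dbar (PS u m) z = (u 0).φ z - (u m).φ z := by
  induction m with
  | zero => simp [ps_zero, dbar]
  | succ m ih =>
    rw [ps_succ, dbar_add (h.diff m z) ((h.an m).ck.differentiable one_ne_zero z), ih,
      (h.an m).db, h.next]
    ring

theorem Chain.fderiv_ps' (h : Chain ε u) (m : ℕ) (z : ℂ) :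
    ‖fderiv ℝ (PS u m) z‖ ≤ 2 * (‖(u 0).φ z‖ - ‖(u m).φ z‖) + ε * (2 - 2 * (1 / 2) ^ m) := by
  induction m with
  | zero => simp [ps_zero]
  | succ m ih =>
    rw [ps_succ, fderiv_fun_add (h.diff m z) ((h.an m).ck.differentiable one_ne_zero z), h.next]
    have h1 := norm_add_le (fderiv ℝ (PS u m) z) (fderiv ℝ (u m).k z)
    have h2 := (h.an m).dk z
    have h3 : ε * (2 - 2 * (1 / 2) ^ (m + 1)) = ε * (2 - 2 * (1 / 2) ^ m) + ε * (1 / 2) ^ m := by
      ring
    linarith

theorem Chain.fderiv_ps (h : Chain ε u) (hε : 0 ≤ ε) (m : ℕ) (z : ℂ) :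
    ‖fderiv ℝ (PS u m) z‖ ≤ 2 * (‖(u 0).φ z‖ - ‖(u m).φ z‖) + 2 * ε := by
  have h1 := h.fderiv_ps' m z
  have h2 : 0 ≤ ε * (1 / 2) ^ m := by positivity
  nlinarith

theorem Chain.sqrt_le (h : Chain ε u) (n j : ℕ) :
    √(u (j + n)).α ≤ √(u n).α * (1 / 2) ^ j := by
  induction j with
  | zero => simp
  | succ j ih =>
    have e : j + 1 + n = j + n + 1 := by ring
    have h1 : √(u (j + n + 1)).α ≤ √(u (j + n)).α / 2 := by
      refine (Real.sqrt_le_sqrt (h.q (j + n))).trans (le_of_eq ?_)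
      rw [Real.sqrt_div' _ (by norm_num), show (4 : ℝ) = 2 ^ 2 by norm_num,
        Real.sqrt_sq (by norm_num)]
    rw [e, pow_succ]
    linarith

theorem Chain.norm_k (h : Chain ε u) (n j : ℕ) (z : ℂ) :
    ‖(u (j + n)).k z‖ ≤ 2 * √(u n).α * (1 / 2) ^ j := by
  have h1 := (h.an (j + n)).bk z
  have h2 := h.sqrt_le n j
  linarith

theorem Chain.tendsto (h : Chain ε u) : TendstoUniformly (PS u) (KS u) atTop :=
  tendstoUniformly_tsum_nat (u := fun j => 2 * √(u 0).α * (1 / 2) ^ j)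
    (summable_geometric_two.mul_left _) (fun j z => h.norm_k 0 j z)

theorem Chain.tail (h : Chain ε u) (n : ℕ) (z : ℂ) : ‖KS u z - PS u n z‖ ≤ 4 * √(u n).α := by
  have hs : Summable fun j => (u j).k z :=
    Summable.of_norm_bounded (summable_geometric_two.mul_left (2 * √(u 0).α))
      (fun j => h.norm_k 0 j z)
  have h1 := hs.sum_add_tsum_nat_add n
  have h2 : KS u z - PS u n z = ∑' j, (u (j + n)).k z := by
    unfold KS PS
    rw [← h1]
    ring
  rw [h2]
  have h3 := tsum_of_norm_bounded (hasSum_geometric_two.mul_left (2 * √(u n).α))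
    (fun j => h.norm_k n j z)
  linarith

theorem Chain.phi_zero (h : Chain ε u) {n : ℕ} {z : ℂ}
    (hz : |z.re - (u n).a| ≤ (u n).α ∨ |z.im - (u n).b| ≤ (u n).β) {m : ℕ} (hm : n + 1 ≤ m) :
    (u m).φ z = 0 := by
  induction m, hm using Nat.le_induction with
  | base => rw [h.next]; exact (h.an n).zero z hz
  | succ m _ ih =>
    have h1 := (h.an m).mono z
    rw [ih, norm_zero] at h1
    rw [h.next]
    exact norm_le_zero_iff.mp h1

theorem Chain.phi_same (h : Chain ε u) {z : ℂ} (n : ℕ)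
    (hz : ∀ j < n, 2 * (u j).α ≤ |z.re - (u j).a| ∧ 2 * (u j).β ≤ |z.im - (u j).b|) :
    (u n).φ z = (u 0).φ z := by
  induction n with
  | zero => rfl
  | succ n ih =>
    rw [h.next, (h.an n).same z (hz n (by omega)).1 (hz n (by omega)).2]
    exact ih fun j hj => hz j (by omega)

theorem Chain.lip (h : Chain ε u) (hε : 0 ≤ ε) {M : ℝ} (hM : ∀ z, ‖(u 0).φ z‖ ≤ M) (x y : ℂ) :
    ‖KS u x - KS u y‖ ≤ (2 * M + 2 * ε) * ‖x - y‖ := by
  refine le_of_tendsto' (((h.tendsto.tendsto_at x).sub (h.tendsto.tendsto_at y)).norm) fun m => ?_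
  refine convex_univ.norm_image_sub_le_of_norm_fderiv_le (𝕜 := ℝ) (fun z _ => h.diff m z)
    (fun z _ => ?_) (mem_univ y) (mem_univ x)
  linarith [h.fderiv_ps hε m z, hM z, norm_nonneg ((u m).φ z)]

theorem Chain.holo (h : Chain ε u) {g : ℂ → ℂ} (hg : Differentiable ℝ g)
    (hd : (u 0).φ = dbar g) (n : ℕ) {U : Set ℂ} (hU : IsOpen U)
    (hz : ∀ z ∈ U, |z.re - (u n).a| ≤ (u n).α ∨ |z.im - (u n).b| ≤ (u n).β) :
    DifferentiableOn ℂ (fun z => g z - KS u z) U := by
  have ht : TendstoUniformly (fun m z => g z - PS u m z) (fun z => g z - KS u z) atTop := by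
    rw [Metric.tendstoUniformly_iff]
    intro e he
    filter_upwards [Metric.tendstoUniformly_iff.mp h.tendsto e he] with m hm z
    rw [dist_sub_left]
    exact hm z
  refine ht.tendstoUniformlyOn.tendstoLocallyUniformlyOn.differentiableOn ?_ hU
  filter_upwards [eventually_ge_atTop (n + 1)] with m hm z hzU
  refine (differentiableAt_of_dbar ((hg z).fun_sub (h.diff m z)) ?_).differentiableWithinAt
  rw [dbar_sub (hg z) (h.diff m z), h.dbar_ps, h.phi_zero (hz z hzU) hm, hd]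
  ring

theorem Chain.good (h : Chain ε u) (n : ℕ) {r : ℝ} (hε : 0 ≤ ε) (c : ℂ)
    (hc : ∀ j < n, 2 * (u j).α + r ≤ |c.re - (u j).a| ∧ 2 * (u j).β + r ≤ |c.im - (u j).b|)
    {v : ℂ} (hv : ‖v‖ ≤ r) : ‖KS u (c + v) - KS u c‖ ≤ 2 * ε * r + 8 * √(u n).α := by
  have hr : 0 ≤ r := (norm_nonneg v).trans hv
  have h1 : ‖PS u n (c + v) - PS u n c‖ ≤ 2 * ε * ‖c + v - c‖ := by
    refine (convex_closedBall c r).norm_image_sub_le_of_norm_fderiv_le (𝕜 := ℝ)
      (fun z _ => h.diff n z) (fun z hz => ?_) (mem_closedBall_self hr)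
      (by simpa [dist_eq_norm] using hv)
    rw [mem_closedBall, dist_eq_norm] at hz
    have e1 : |z.re - c.re| ≤ r := by simpa using (Complex.abs_re_le_norm (z - c)).trans hz
    have e2 : |z.im - c.im| ≤ r := by simpa using (Complex.abs_im_le_norm (z - c)).trans hz
    have h2 := h.phi_same (z := z) n fun j hj => by
      have e3 := abs_sub_le c.re z.re (u j).a
      have e4 := abs_sub_le c.im z.im (u j).b
      rw [abs_sub_comm c.re z.re] at e3
      rw [abs_sub_comm c.im z.im] at e4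
      exact ⟨by linarith [(hc j hj).1], by linarith [(hc j hj).2]⟩
    have h3 := h.fderiv_ps hε n z
    rw [h2] at h3
    linarith
  rw [add_sub_cancel_left] at h1
  have h4 : KS u (c + v) - KS u c = (PS u n (c + v) - PS u n c) +
      ((KS u (c + v) - PS u n (c + v)) - (KS u c - PS u n c)) := by ring
  have h5 := norm_add_le (PS u n (c + v) - PS u n c)
    ((KS u (c + v) - PS u n (c + v)) - (KS u c - PS u n c))
  have h6 := norm_sub_le (KS u (c + v) - PS u n (c + v)) (KS u c - PS u n c)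
  have h7 : 2 * ε * ‖v‖ ≤ 2 * ε * r := mul_le_mul_of_nonneg_left hv (by positivity)
  rw [h4]
  linarith [h.tail n (c + v), h.tail n c]

theorem exists_g : ∃ (g : ℂ → ℂ) (M : ℝ), 0 ≤ M ∧ ContDiff ℝ ∞ g ∧ ContDiff ℝ ∞ (dbar g) ∧
    HasCompactSupport (dbar g) ∧ (∀ z, ‖fderiv ℝ g z‖ ≤ M) ∧ ∀ z : ℂ, ‖z‖ ≤ 2 → g z = conj z := by
  let χ : ContDiffBump (0 : ℂ) := ⟨2, 3, by norm_num, by norm_num⟩
  let g : ℂ → ℂ := fun z => conj z * (χ z : ℂ)
  have hg : ContDiff ℝ ∞ g :=
    Complex.conjCLE.contDiff.mul (Complex.ofRealCLM.contDiff.comp χ.contDiff)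
  have hc : HasCompactSupport g :=
    (χ.hasCompactSupport.comp_left (g := fun x : ℝ => (x : ℂ)) (by simp)).mul_left
  have hD : ContDiff ℝ ∞ (fderiv ℝ g) := hg.fderiv_right (m := ∞) (by simp)
  have hDc : HasCompactSupport (fderiv ℝ g) := hc.fderiv (𝕜 := ℝ)
  obtain ⟨M, hM⟩ := hD.continuous.bounded_above_of_compact_support hDc
  refine ⟨g, M, (norm_nonneg _).trans (hM 0), hg, ?_, ?_, hM, fun z hz => ?_⟩
  · exact ((hD.clm_apply contDiff_const).add
      (contDiff_const.mul (hD.clm_apply contDiff_const))).div_const 2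
  · exact hDc.comp_left (g := fun L : ℂ →L[ℝ] ℂ => (L 1 + Complex.I * L Complex.I) / 2) (by simp)
  · have : χ z = 1 := χ.one_of_mem_closedBall (by simpa using hz)
    simp [g, this]

theorem dense_of {s ρ a : ℕ → ℝ} (ha : ∀ n, |a n - s n| < ρ n)
    (h : ∀ (x : ℚ) (m : ℕ), ∃ n, s n = x ∧ ρ n = 1 / (10 * ((m : ℝ) + 1))) (x y : ℝ)
    (hxy : x < y) : ∃ n, a n ∈ Ioo x y := by
  obtain ⟨q, hq₁, hq₂⟩ := exists_rat_btwn (show x + (y - x) / 3 < y - (y - x) / 3 by linarith)
  obtain ⟨m, hm⟩ := exists_nat_one_div_lt (show 0 < (y - x) / 3 by linarith)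
  obtain ⟨n, hn₁, hn₂⟩ := h q m
  have h1 : 1 / (10 * ((m : ℝ) + 1)) ≤ 1 / ((m : ℝ) + 1) :=
    one_div_le_one_div_of_le (by positivity) (by linarith [Nat.cast_nonneg (α := ℝ) m])
  have h2 := abs_lt.mp (ha n)
  rw [hn₁, hn₂] at h2
  exact ⟨n, by linarith [h2.1], by linarith [h2.2]⟩

end DataAux

open DataAux in
theorem exists_data : ∃ τ : ℝ, 0 < τ ∧ τ ≤ 1 / 2 ∧ ∀ η > 0, ∃ a α b β f, Data τ η a α b β f := by
  obtain ⟨g, M, hM0, hg, hφ, hφc, hM, hgc⟩ := exists_g
  have hgd : Differentiable ℝ g := hg.differentiable (by simp)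
  set τ : ℝ := 1 / (10 * (M + 1)) with hτ
  have hτ0 : 0 < τ := by positivity
  have hτM : τ * (M + 1) = 1 / 10 := by
    rw [hτ]
    field_simp
  have hτ1 : τ ≤ 1 / 10 := by nlinarith
  refine ⟨τ, hτ0, by linarith, fun η hη => ?_⟩
  obtain ⟨s, t, ρ, hρ, htg⟩ := targets
  set ε : ℝ := min (1 / 2) (η / 4) with hεdef
  have hε0 : 0 < ε := lt_min (by norm_num) (by linarith)
  have hε1 : ε ≤ 1 / 2 := min_le_left _ _
  have hε2 : ε ≤ η / 4 := min_le_right _ _
  obtain ⟨u, h0, hnext, hδ, hP, hR⟩ := exists_steps hφ hφc hε0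
    (δ := min (1 / 1000) ((η / 16) ^ 4)) (lt_min (by norm_num) (by positivity))
    (min_le_left _ _) s t ρ hρ
  have hβ : ∀ n, 0 < (u n).β := fun n => (hP n).1.pos
  have hβα : ∀ n, (u n).β ≤ (u n).α := fun n => (hP n).1.le
  have hα : ∀ n, 0 < (u n).α := fun n => (hβ n).trans_le (hβα n)
  have hq : ∀ n, (u (n + 1)).α ≤ (u n).β / 4 := fun n => (hR n (n + 1) (by omega)).q
  have hC : Chain ε u := ⟨hnext, fun n => (hP n).1, fun n => by linarith [hq n, hβα n]⟩
  have hα0 : ∀ n, (u n).α ≤ min (1 / 1000) ((η / 16) ^ 4) := by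
    intro n
    induction n with
    | zero => exact hδ
    | succ n ih => linarith [hC.q n, hα n]
  have hnI : ∀ w : ℂ, ‖Complex.I * τ * w‖ = τ * ‖w‖ := fun w => by
    rw [norm_mul, norm_mul, Complex.norm_I, Complex.norm_real, Real.norm_eq_abs, abs_of_pos hτ0,
      one_mul]
  refine ⟨fun n => (u n).a, fun n => (u n).α, fun n => (u n).b, fun n => (u n).β,
    fun z => z + Complex.I * τ * (g z - KS u z), ⟨hα, (hα0 0).trans (min_le_left _ _),
      fun n => by linarith [hq n, hβα n, hβ n], fun j n hj => (hR j n hj).sa, ?_⟩,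
    ⟨hβ, (hβα 0).trans ((hα0 0).trans (min_le_left _ _)),
      fun n => by linarith [hq n, hβα (n + 1), hβ n], fun j n hj => ?_, ?_⟩, hβα,
    fun n => (hR n (n + 1) (by omega)).p, ?_, ?_, ?_⟩
  · refine dense_of (s := s) (ρ := ρ) (fun n => (hP n).2.1) fun x m => ?_
    obtain ⟨n, -, h1, -, h3⟩ := htg x 0 m 0
    exact ⟨n, h1, h3⟩
  · have h1 := (hR j n hj).sb
    exact ⟨by linarith [h1.1, hβα n], by linarith [h1.2, hβα n]⟩
  · refine dense_of (s := t) (ρ := ρ) (fun n => (hP n).2.2) fun x m => ?_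
    obtain ⟨n, -, -, h2, h3⟩ := htg 0 x m 0
    exact ⟨n, h2, h3⟩
  · refine LipschitzWith.of_dist_le_mul fun x y => ?_
    have e : x + Complex.I * τ * (g x - KS u x) - x - (y + Complex.I * τ * (g y - KS u y) - y) =
        Complex.I * τ * ((g x - g y) - (KS u x - KS u y)) := by ring
    have h1 : ‖g x - g y‖ ≤ M * ‖x - y‖ :=
      convex_univ.norm_image_sub_le_of_norm_fderiv_le (𝕜 := ℝ) (fun z _ => hgd z)
        (fun z _ => hM z) (mem_univ y) (mem_univ x)
    have h2 := hC.lip hε0.le (M := M) (fun z => by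
      rw [h0]
      exact (norm_dbar_le g z).trans (hM z)) x y
    have h3 := norm_sub_le (g x - g y) (KS u x - KS u y)
    have h4 : ‖(g x - g y) - (KS u x - KS u y)‖ ≤ 3 * (M + 1) * ‖x - y‖ := by
      nlinarith [norm_nonneg (x - y)]
    rw [dist_eq_norm, dist_eq_norm, e, hnI]
    have h5 : τ * ‖(g x - g y) - (KS u x - KS u y)‖ ≤ τ * (3 * (M + 1) * ‖x - y‖) :=
      mul_le_mul_of_nonneg_left h4 hτ0.le
    have h6 : τ * (3 * (M + 1) * ‖x - y‖) = 3 / 10 * ‖x - y‖ := by
      rw [show τ * (3 * (M + 1) * ‖x - y‖) = 3 * (τ * (M + 1)) * ‖x - y‖ by ring, hτM]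
      ring
    push_cast
    linarith [norm_nonneg (x - y)]
  · intro z hz
    have key : ∃ n, ∃ U : Set ℂ, IsOpen U ∧ z ∈ U ∧
        ∀ z ∈ U, |z.re - (u n).a| ≤ (u n).α ∨ |z.im - (u n).b| ≤ (u n).β := by
      simp only [Eset, Cant, mem_compl_iff, mem_ofPred_eq, not_and_or, not_forall, not_le] at hz
      rcases hz with ⟨n, hn⟩ | ⟨n, hn⟩
      · exact ⟨n, {w | |w.re - (u n).a| < (u n).α}, isOpen_lt (by fun_prop) continuous_const, hn,
          fun w hw => Or.inl (le_of_lt hw)⟩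
      · exact ⟨n, {w | |w.im - (u n).b| < (u n).β}, isOpen_lt (by fun_prop) continuous_const, hn,
          fun w hw => Or.inr (le_of_lt hw)⟩
    obtain ⟨n, U, hU, hzU, hUU⟩ := key
    have h1 := (hC.holo hgd h0 n hU hUU).differentiableAt (hU.mem_nhds hzU)
    exact (differentiableAt_id.fun_add (h1.const_mul _)).differentiableWithinAt
  · intro c hc N
    obtain ⟨x, hx⟩ : ∃ x : ℚ, c = ((x : ℝ) : ℂ) ∧ ‖c‖ = 1 := by
      rcases hc with rfl | rfl
      · exact ⟨1, by simp, by simp⟩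
      · exact ⟨-1, by simp, by simp⟩
    obtain ⟨n, hn, h1, h2, h3⟩ := htg x 0 0 N
    have hρn : ρ n = 1 / 10 := by rw [h3]; norm_num
    have ha := (hP n).2.1
    have hb := (hP n).2.2
    rw [h1, hρn] at ha
    rw [h2, hρn, Rat.cast_zero, sub_zero] at hb
    set p : ℂ := crs (fun n => (u n).a) (fun n => (u n).b) n with hp
    set r : ℝ := rad (fun n => (u n).α) n with hr
    have hpc : ‖p - c‖ ≤ 1 / 4 := by
      have e1 : (p - c).re = (u n).a - x := by rw [hx.1]; simp [hp, crs]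
      have e2 : (p - c).im = (u n).b := by rw [hx.1]; simp [hp, crs]
      have := Complex.norm_le_abs_re_add_abs_im (p - c)
      rw [e1, e2] at this
      linarith
    have haw : ∀ j < n, 2 * (u j).α + 2 * r ≤ |(u n).a - (u j).a| ∧
        2 * (u j).β + 2 * r ≤ |(u n).b - (u j).b| := fun j hj => (hR j n hj).aw hρn.ge
    have hr0 : 0 ≤ r := Real.sqrt_nonneg _
    have hr2 : r * r = √(u n).α := Real.mul_self_sqrt (Real.sqrt_nonneg _)
    have hr4 : r ^ 4 = (u n).α := by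
      rw [show r ^ 4 = (r * r) * (r * r) by ring, hr2, Real.mul_self_sqrt (hα n).le]
    have hrη : r ≤ η / 16 :=
      le_of_pow_le_pow_left₀ (n := 4) (by norm_num) (by positivity)
        (hr4.trans_le ((hα0 n).trans (min_le_right _ _)))
    have hr1 : r ≤ 1 / 2 :=
      le_of_pow_le_pow_left₀ (n := 4) (by norm_num) (by positivity)
        (hr4.trans_le ((hα0 n).trans ((min_le_left _ _).trans (by norm_num))))
    refine ⟨n, hn, ⟨hpc, fun j hj => ?_⟩, fun v hv => ?_⟩
    · exact ⟨by linarith [(haw j hj).1, hα j], by linarith [(haw j hj).2, hβ j]⟩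
    · have hp2 : ‖p‖ ≤ 5 / 4 := by
        have := norm_add_le (p - c) c
        rw [sub_add_cancel, hx.2] at this
        linarith
      have hpv : ‖p + v‖ ≤ 2 := by linarith [norm_add_le p v]
      have h4 := hC.good n hε0.le p (r := r) (fun j hj =>
        ⟨by have := (haw j hj).1; simp only [hp, crs]; linarith,
          by have := (haw j hj).2; simp only [hp, crs]; linarith⟩) hv
      have e : p + v + Complex.I * τ * (g (p + v) - KS u (p + v)) -
          (p + Complex.I * τ * (g p - KS u p)) - shear τ v =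
          -(Complex.I * τ * (KS u (p + v) - KS u p)) := by
        rw [hgc _ hpv, hgc p (by linarith), shear, map_add]
        ring
      rw [e, norm_neg, hnI]
      have h5 : ‖KS u (p + v) - KS u p‖ ≤ η * r := by
        rw [← hr2] at h4
        nlinarith
      nlinarith [norm_nonneg (KS u (p + v) - KS u p)]

end Pool.Agent.Lib.MP_44acff_gt.NU
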