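import Pool.Agent.Lib.MP_44acff_gt.H70Cut

/-! The product set and the conformal map on its complement: one step of the construction. -/

namespace Pool.Agent.Lib.MP_44acff_gt.NU

open Set Metric MeasureTheory Filter Topology ComplexConjugate
open scoped ContDiff

namespace DataAux

theorem seq_dc {X : Type} [Nonempty X] (P : ℕ → X → Prop) (r : ℕ → X → ℕ → X → Prop)
    (h : ∀ n (u : ℕ → X), (∀ j < n, P j (u j)) → ∃ x, P n x ∧ ∀ j < n, r j (u j) n x) :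
    ∃ u : ℕ → X, (∀ n, P n (u n)) ∧ ∀ j n, j < n → r j (u j) n (u n) := by
  classical
  choose! F hF using h
  let U : ℕ → ℕ → X := fun n =>
    Nat.rec (fun _ => Classical.arbitrary X) (fun n V => Function.update V n (F n V)) n
  have hU : ∀ n, U (n + 1) = Function.update (U n) n (F n (U n)) := fun n => rfl
  let u : ℕ → X := fun n => F n (U n)
  have hagree : ∀ n j, j < n → U n j = u j := by
    intro n
    induction n with
    | zero => intro j hj; omega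
    | succ n ih =>
      intro j hj
      rw [hU]
      by_cases hjn : j = n
      · subst hjn
        simp [u]
      · rw [Function.update_of_ne hjn]
        exact ih j (by omega)
  have hP : ∀ n, P n (u n) := by
    intro n
    induction n using Nat.strong_induction_on with
    | _ n ih => exact (hF n (U n) (fun j hj => by rw [hagree n j hj]; exact ih j hj)).1
  refine ⟨u, hP, fun j n hj => ?_⟩
  have := (hF n (U n) (fun j hj => by rw [hagree n j hj]; exact hP j)).2 j hj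
  rwa [hagree n j hj] at this

theorem dbar_add {F G : ℂ → ℂ} {z : ℂ} (hF : DifferentiableAt ℝ F z)
    (hG : DifferentiableAt ℝ G z) : dbar (fun w => F w + G w) z = dbar F z + dbar G z := by
  unfold dbar
  rw [fderiv_fun_add hF hG]
  simp only [add_apply]
  ring

theorem dbar_sub {F G : ℂ → ℂ} {z : ℂ} (hF : DifferentiableAt ℝ F z)
    (hG : DifferentiableAt ℝ G z) : dbar (fun w => F w - G w) z = dbar F z - dbar G z := by
  unfold dbar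
  rw [fderiv_fun_sub hF hG]
  simp only [sub_apply]
  ring

theorem norm_dbar_le (F : ℂ → ℂ) (z : ℂ) : ‖dbar F z‖ ≤ ‖fderiv ℝ F z‖ := by
  unfold dbar
  have h1 : ‖fderiv ℝ F z 1‖ ≤ ‖fderiv ℝ F z‖ := by
    simpa using (fderiv ℝ F z).le_opNorm 1
  have h2 : ‖Complex.I * fderiv ℝ F z Complex.I‖ ≤ ‖fderiv ℝ F z‖ := by
    simpa using (fderiv ℝ F z).le_opNorm Complex.I
  have h3 := norm_add_le (fderiv ℝ F z 1) (Complex.I * fderiv ℝ F z Complex.I)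
  rw [norm_div]
  have : ‖(2 : ℂ)‖ = 2 := by simp
  rw [this]
  linarith

theorem cut1 {φ : ℂ → ℂ} (hφ : ContDiff ℝ ∞ φ) (hc : HasCompactSupport φ) {u : ℂ} (hu : ‖u‖ = 1)
    (c : ℝ) {ε w₀ : ℝ} (hε : 0 < ε) (hw₀ : 0 < w₀) :
    ∃ w, 0 < w ∧ w < w₀ ∧ ∃ φ' k : ℂ → ℂ, ContDiff ℝ ∞ φ' ∧ HasCompactSupport φ' ∧
      ContDiff ℝ 1 k ∧ ∀ z, dbar k z = φ z - φ' z ∧
        ‖fderiv ℝ k z‖ ≤ 2 * (‖φ z‖ - ‖φ' z‖) + ε ∧ ‖k z‖ ≤ √w ∧ ‖φ' z‖ ≤ ‖φ z‖ ∧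
        (|(conj u * z).re - c| ≤ w → φ' z = 0) ∧
        (2 * w ≤ |(conj u * z).re - c| → φ' z = φ z) := by
  obtain ⟨w, hw, hww, χ, hχ, h01, h1, h0, k, hk, hkk⟩ := cut hφ hc hu c hε hw₀
  refine ⟨w, hw, hww, fun z => φ z * ((1 - χ z : ℝ) : ℂ), k, ?_, hc.mul_right, hk, fun z => ?_⟩
  · exact hφ.mul (Complex.ofRealCLM.contDiff.comp (contDiff_const.sub hχ))
  · obtain ⟨e1, e2, e3⟩ := hkk z
    have hn : ‖φ z * ((1 - χ z : ℝ) : ℂ)‖ = ‖φ z‖ * (1 - χ z) := by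
      rw [norm_mul, Complex.norm_real, Real.norm_eq_abs, abs_of_nonneg (by linarith [(h01 z).2])]
    refine ⟨?_, ?_, e3, ?_, fun h => ?_, fun h => ?_⟩
    · rw [e1]
      push_cast
      ring
    · rw [hn]
      linarith
    · rw [hn]
      nlinarith [norm_nonneg (φ z), (h01 z).1]
    · simp [h1 z h]
    · simp [h0 z h]

/-- The data of one step. -/
structure Step where
  a : ℝ
  α : ℝ
  b : ℝ
  β : ℝ
  φ : ℂ → ℂ
  φ' : ℂ → ℂ
  k : ℂ → ℂ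

instance : Nonempty Step := ⟨⟨0, 0, 0, 0, 0, 0, 0⟩⟩

/-- The analytic properties of one step. -/
structure An (ε : ℝ) (x : Step) : Prop where
  pos : 0 < x.β
  le : x.β ≤ x.α
  sm : ContDiff ℝ ∞ x.φ'
  cs : HasCompactSupport x.φ'
  ck : ContDiff ℝ 1 x.k
  db : ∀ z, dbar x.k z = x.φ z - x.φ' z
  dk : ∀ z, ‖fderiv ℝ x.k z‖ ≤ 2 * (‖x.φ z‖ - ‖x.φ' z‖) + ε
  bk : ∀ z, ‖x.k z‖ ≤ 2 * √x.α
  mono : ∀ z, ‖x.φ' z‖ ≤ ‖x.φ z‖
  zero : ∀ z : ℂ, |z.re - x.a| ≤ x.α ∨ |z.im - x.b| ≤ x.β → x.φ' z = 0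
  same : ∀ z : ℂ, 2 * x.α ≤ |z.re - x.a| → 2 * x.β ≤ |z.im - x.b| → x.φ' z = x.φ z

theorem cut2 {φ : ℂ → ℂ} (hφ : ContDiff ℝ ∞ φ) (hc : HasCompactSupport φ) (a b : ℝ)
    {ε w₀ : ℝ} (hε : 0 < ε) (hw₀ : 0 < w₀) :
    ∃ x : Step, x.a = a ∧ x.b = b ∧ x.φ = φ ∧ x.α < w₀ ∧ An ε x := by
  obtain ⟨α, hα, hαw, φ₁, k₁, hs₁, hc₁, hk₁, h₁⟩ :=
    cut1 hφ hc (u := 1) norm_one a (half_pos hε) hw₀
  obtain ⟨β, hβ, hβw, φ₂, k₂, hs₂, hc₂, hk₂, h₂⟩ :=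
    cut1 hs₁ hc₁ (u := Complex.I) Complex.norm_I b (half_pos hε) hα
  have d₁ : ∀ z, DifferentiableAt ℝ k₁ z := fun z => (hk₁.differentiable one_ne_zero) z
  have d₂ : ∀ z, DifferentiableAt ℝ k₂ z := fun z => (hk₂.differentiable one_ne_zero) z
  have r₁ : ∀ z : ℂ, (conj (1 : ℂ) * z).re = z.re := fun z => by simp
  have r₂ : ∀ z : ℂ, (conj Complex.I * z).re = z.im := fun z => by simp
  refine ⟨⟨a, α, b, β, φ, φ₂, fun z => k₁ z + k₂ z⟩, rfl, rfl, rfl, hαw, hβ, hβw.le, hs₂, hc₂,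
    hk₁.add hk₂, fun z => ?_, fun z => ?_, fun z => ?_, fun z => ?_, fun z hz => ?_,
    fun z hz hz' => ?_⟩
  · dsimp only
    rw [dbar_add (d₁ z) (d₂ z), (h₁ z).1, (h₂ z).1]
    ring
  · dsimp only
    rw [fderiv_fun_add (d₁ z) (d₂ z)]
    have := norm_add_le (fderiv ℝ k₁ z) (fderiv ℝ k₂ z)
    linarith [(h₁ z).2.1, (h₂ z).2.1]
  · dsimp only
    have := norm_add_le (k₁ z) (k₂ z)
    have h3 : √β ≤ √α := Real.sqrt_le_sqrt hβw.le
    linarith [(h₁ z).2.2.1, (h₂ z).2.2.1]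
  · exact (h₂ z).2.2.2.1.trans (h₁ z).2.2.2.1
  · dsimp only at hz ⊢
    rcases hz with hz | hz
    · have h3 := (h₁ z).2.2.2.2.1 (by rw [r₁]; exact hz)
      have h4 := (h₂ z).2.2.2.1
      rw [h3, norm_zero] at h4
      exact norm_le_zero_iff.mp h4
    · exact (h₂ z).2.2.2.2.1 (by rw [r₂]; exact hz)
  · dsimp only at hz hz' ⊢
    rw [(h₂ z).2.2.2.2.2 (by rw [r₂]; exact hz'), (h₁ z).2.2.2.2.2 (by rw [r₁]; exact hz)]

theorem targets : ∃ s t ρ : ℕ → ℝ, (∀ n, 0 < ρ n) ∧ ∀ (x y : ℚ) (m N : ℕ),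
    ∃ n ≥ N, s n = x ∧ t n = y ∧ ρ n = 1 / (10 * ((m : ℝ) + 1)) := by
  obtain ⟨e, he⟩ := exists_surjective_nat (ℚ × ℚ × ℕ)
  refine ⟨fun n => (e n.unpair.1).1, fun n => (e n.unpair.1).2.1,
    fun n => 1 / (10 * (((e n.unpair.1).2.2 : ℝ) + 1)), fun n => by positivity, fun x y m N => ?_⟩
  obtain ⟨i, hi⟩ := he (x, y, m)
  refine ⟨Nat.pair i N, Nat.right_le_pair i N, ?_, ?_, ?_⟩ <;> simp [Nat.unpair_pair, hi]

theorem geo_sum (n : ℕ) : ∑ j ∈ Finset.range n, (1 / 2 : ℝ) ^ j = 2 - 2 * (1 / 2) ^ n := by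
  induction n with
  | zero => simp
  | succ n ih => rw [Finset.sum_range_succ, ih]; ring

theorem pick (n : ℕ) (a α : ℕ → ℝ) (hpos : ∀ j < n, 0 < α j)
    (hs : ∀ j < n, α j ≤ 1 / 1000 * (1 / 2) ^ j) (s : ℝ) {ρ : ℝ} (hρ : 0 < ρ) :
    ∃ x, |x - s| < ρ ∧ ∀ j < n, (x ≠ a j - α j ∧ x ≠ a j + α j) ∧
      (1 / 10 ≤ ρ → 2 * α j < |x - a j|) := by
  classical
  by_cases h : 1 / 10 ≤ ρ
  · have key : ¬ ball s ρ ⊆ ⋃ j ∈ Finset.range n, closedBall (a j) (2 * α j) := by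
      intro hsub
      have h1 := (measure_mono hsub).trans (measure_biUnion_finset_le (μ := volume) _ _)
      simp only [Real.volume_ball, Real.volume_closedBall] at h1
      rw [← ENNReal.ofReal_sum_of_nonneg
        (fun j hj => by have := hpos j (Finset.mem_range.mp hj); positivity)] at h1
      have h2 : ∑ j ∈ Finset.range n, 2 * (2 * α j) ≤
          ∑ j ∈ Finset.range n, 4 / 1000 * (1 / 2 : ℝ) ^ j :=
        Finset.sum_le_sum fun j hj => by linarith [hs j (Finset.mem_range.mp hj)]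
      rw [← Finset.mul_sum, ← Finset.mul_sum, ← Finset.mul_sum, geo_sum] at h2
      have h3 : (0 : ℝ) ≤ (1 / 2) ^ n := by positivity
      have h4 : 0 ≤ ∑ j ∈ Finset.range n, 2 * (2 * α j) :=
        Finset.sum_nonneg fun j hj => by have := hpos j (Finset.mem_range.mp hj); positivity
      rw [ENNReal.ofReal_le_ofReal_iff h4, ← Finset.mul_sum, ← Finset.mul_sum] at h1
      linarith
    obtain ⟨x, hx, hx'⟩ := not_subset.mp key
    refine ⟨x, by simpa [Real.dist_eq] using hx, fun j hj => ?_⟩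
    have h5 : 2 * α j < |x - a j| := by
      by_contra hcon
      exact hx' (mem_biUnion (Finset.mem_coe.mpr (Finset.mem_range.mpr hj))
        (by rw [mem_closedBall, Real.dist_eq]; exact not_lt.mp hcon))
    have h6 := hpos j hj
    refine ⟨⟨fun he => ?_, fun he => ?_⟩, fun _ => h5⟩
    · rw [he, sub_sub_cancel_left, abs_neg, abs_of_pos h6] at h5
      linarith
    · rw [he, add_sub_cancel_left, abs_of_pos h6] at h5
      linarith
  · obtain ⟨x, hx, hx'⟩ := (Set.Ioo_infinite (show s - ρ < s + ρ by linarith)).exists_notMem_finset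
      ((Finset.range n).image (fun j => a j - α j) ∪ (Finset.range n).image (fun j => a j + α j))
    refine ⟨x, abs_lt.mpr ⟨by linarith [hx.1], by linarith [hx.2]⟩, fun j hj => ?_⟩
    refine ⟨⟨fun he => hx' ?_, fun he => hx' ?_⟩, fun h' => absurd h' h⟩
    · exact Finset.mem_union_left _
        (Finset.mem_image.mpr ⟨j, Finset.mem_range.mpr hj, he.symm⟩)
    · exact Finset.mem_union_right _
        (Finset.mem_image.mpr ⟨j, Finset.mem_range.mpr hj, he.symm⟩)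

/-- The relation between an earlier step `y` and a new centre and width. -/
structure Rel (fl : Prop) (y : Step) (a b w : ℝ) : Prop where
  q : w ≤ y.β / 4
  p : w ≤ y.β ^ 16
  sa : 1000 * w ≤ |a - (y.a - y.α)| ∧ 1000 * w ≤ |a - (y.a + y.α)|
  sb : 1000 * w ≤ |b - (y.b - y.β)| ∧ 1000 * w ≤ |b - (y.b + y.β)|
  aw : fl → 2 * y.α + 2 * √(√w) ≤ |a - y.a| ∧ 2 * y.β + 2 * √(√w) ≤ |b - y.b|

theorem ev {g : ℝ → ℝ} (hg : Continuous g) {c : ℝ} (h : g 0 < c) :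
    ∀ᶠ w in 𝓝 (0 : ℝ), g w ≤ c :=
  ((hg.tendsto 0).eventually (gt_mem_nhds h)).mono fun _ hw => hw.le

theorem rel_ev (fl : Prop) (y : Step) (a b : ℝ) (hy : 0 < y.β)
    (ha : (a ≠ y.a - y.α ∧ a ≠ y.a + y.α) ∧ (fl → 2 * y.α < |a - y.a|))
    (hb : (b ≠ y.b - y.β ∧ b ≠ y.b + y.β) ∧ (fl → 2 * y.β < |b - y.b|)) :
    ∀ᶠ w in 𝓝 (0 : ℝ), Rel fl y a b w := by
  have e1 : ∀ᶠ w in 𝓝 (0 : ℝ), w ≤ y.β / 4 := ev (g := fun w => w) continuous_id (by positivity)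
  have e2 : ∀ᶠ w in 𝓝 (0 : ℝ), w ≤ y.β ^ 16 := ev (g := fun w => w) continuous_id (by positivity)
  have e3 : ∀ c d : ℝ, c ≠ d → ∀ᶠ w in 𝓝 (0 : ℝ), 1000 * w ≤ |c - d| := fun c d h =>
    ev (g := fun w => 1000 * w) (by fun_prop) (by simpa [sub_eq_zero] using h)
  have e4 : ∀ c d : ℝ, c < d → ∀ᶠ w in 𝓝 (0 : ℝ), c + 2 * √(√w) ≤ d := fun c d h =>
    ev (g := fun w => c + 2 * √(√w)) (by fun_prop) (by simpa using h)
  have e5 : ∀ᶠ w in 𝓝 (0 : ℝ),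
      fl → 2 * y.α + 2 * √(√w) ≤ |a - y.a| ∧ 2 * y.β + 2 * √(√w) ≤ |b - y.b| := by
    by_cases h : fl
    · filter_upwards [e4 _ _ (ha.2 h), e4 _ _ (hb.2 h)] with w h1 h2 using fun _ => ⟨h1, h2⟩
    · exact Eventually.of_forall fun w h' => absurd h' h
  filter_upwards [e1, e2, e3 _ _ ha.1.1, e3 _ _ ha.1.2, e3 _ _ hb.1.1, e3 _ _ hb.1.2, e5] with
    w h1 h2 h3 h4 h5 h6 h7 using ⟨h1, h2, ⟨h3, h4⟩, ⟨h5, h6⟩, h7⟩

theorem exists_steps {φ₀ : ℂ → ℂ} (hφ : ContDiff ℝ ∞ φ₀) (hc : HasCompactSupport φ₀)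
    {ε δ : ℝ} (hε : 0 < ε) (hδ : 0 < δ) (hδ' : δ ≤ 1 / 1000) (s t ρ : ℕ → ℝ)
    (hρ : ∀ n, 0 < ρ n) :
    ∃ u : ℕ → Step, (u 0).φ = φ₀ ∧ (∀ n, (u (n + 1)).φ = (u n).φ') ∧ (u 0).α ≤ δ ∧
      (∀ n, An (ε * (1 / 2) ^ n) (u n) ∧ |(u n).a - s n| < ρ n ∧ |(u n).b - t n| < ρ n) ∧
      ∀ j n, j < n → Rel (1 / 10 ≤ ρ n) (u j) (u n).a (u n).b (u n).α := by
  obtain ⟨u, hP, hr⟩ := seq_dc
    (fun n x => An (ε * (1 / 2) ^ n) x ∧ x.α ≤ δ * (1 / 2) ^ n ∧ |x.a - s n| < ρ n ∧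
      |x.b - t n| < ρ n ∧ (n = 0 → x.φ = φ₀))
    (fun j y n x => Rel (1 / 10 ≤ ρ n) y x.a x.b x.α ∧ (n = j + 1 → x.φ = y.φ')) (by
      intro n u hu
      have hsm : ∀ j < n, (u j).α ≤ 1 / 1000 * (1 / 2) ^ j := fun j hj =>
        (hu j hj).2.1.trans (mul_le_mul_of_nonneg_right hδ' (by positivity))
      obtain ⟨a, ha, ha'⟩ := pick n (fun j => (u j).a) (fun j => (u j).α)
        (fun j hj => (hu j hj).1.pos.trans_le (hu j hj).1.le) hsm (s n) (hρ n)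
      obtain ⟨b, hb, hb'⟩ := pick n (fun j => (u j).b) (fun j => (u j).β)
        (fun j hj => (hu j hj).1.pos) (fun j hj => (hu j hj).1.le.trans (hsm j hj)) (t n) (hρ n)
      have e1 : ∀ᶠ w in 𝓝 (0 : ℝ), ∀ j ∈ Finset.range n, Rel (1 / 10 ≤ ρ n) (u j) a b w :=
        (eventually_all_finset _).mpr fun j hj => by
          have hj' := Finset.mem_range.mp hj
          exact rel_ev _ _ _ _ (hu j hj').1.pos (ha' j hj') (hb' j hj')
      have e2 : ∀ᶠ w in 𝓝 (0 : ℝ), w ≤ δ * (1 / 2) ^ n :=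
        ev (g := fun w => w) continuous_id (by positivity)
      obtain ⟨w₀, hw₀, hw⟩ := Metric.eventually_nhds_iff.mp (e1.and e2)
      obtain ⟨φ, hφ₁, hφ₂, hφ₃, hφ₄⟩ : ∃ φ : ℂ → ℂ, ContDiff ℝ ∞ φ ∧ HasCompactSupport φ ∧
          (n = 0 → φ = φ₀) ∧ ∀ j, n = j + 1 → φ = (u j).φ' := by
        rcases n with _ | n
        · exact ⟨φ₀, hφ, hc, fun _ => rfl, fun j hj => by omega⟩
        · refine ⟨(u n).φ', (hu n (by omega)).1.sm, (hu n (by omega)).1.cs, fun h => by omega,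
            fun j hj => ?_⟩
          obtain rfl : n = j := by omega
          rfl
      obtain ⟨x, hxa, hxb, hxφ, hxw, hx⟩ :=
        cut2 hφ₁ hφ₂ a b (ε := ε * (1 / 2) ^ n) (by positivity) hw₀
      have hα : 0 < x.α := hx.pos.trans_le hx.le
      have h1 := hw (y := x.α) (by rw [Real.dist_eq, sub_zero, abs_of_pos hα]; exact hxw)
      refine ⟨x, ⟨hx, h1.2, by rw [hxa]; exact ha, by rw [hxb]; exact hb,
        fun h => hxφ.trans (hφ₃ h)⟩, fun j hj => ⟨?_, fun h => hxφ.trans (hφ₄ j h)⟩⟩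
      rw [hxa, hxb]
      exact h1.1 j (Finset.mem_range.mpr hj))
  refine ⟨u, (hP 0).2.2.2.2 rfl, fun n => (hr n (n + 1) (by omega)).2 rfl, ?_,
    fun n => ⟨(hP n).1, (hP n).2.2.1, (hP n).2.2.2.1⟩, fun j n h => (hr j n h).1⟩
  simpa using (hP 0).2.1

end DataAux

end Pool.Agent.Lib.MP_44acff_gt.NU
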