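import Mathlib

/-! Hyperbolic space, convex domains, circle domains and complete surfaces. -/

namespace Pool.Agent.Lib.MP_44acff_gt.NU

open Set Metric Topology ComplexConjugate
open scoped ContDiff

/-- The upper half space model of hyperbolic three space, with metric `(|dz|^2 + dt^2) / t^2`. -/
def H3 : Set (ℂ × ℝ) := {p | 0 < p.2}

/-- The hyperbolic distance. -/
noncomputable def hdist (p q : ℂ × ℝ) : ℝ :=
  Real.arcosh (1 + (‖p.1 - q.1‖ ^ 2 + (p.2 - q.2) ^ 2) / (2 * p.2 * q.2))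

/-- A subset of hyperbolic space containing the geodesic segment between any two of its points. -/
def HConvex (C : Set (ℂ × ℝ)) : Prop :=
  C ⊆ H3 ∧ ∀ p ∈ C, ∀ q ∈ C, ∀ x ∈ H3, hdist p x + hdist x q = hdist p q → x ∈ C

/-- The accumulation points of `C` on the sphere at infinity. -/
def idealBdry (C : Set (ℂ × ℝ)) : Set (OnePoint ℂ) :=
  {ξ | (ξ = OnePoint.infty ∧ ¬ Bornology.IsBounded C) ∨ ∃ z : ℂ, ξ = z ∧ (z, (0 : ℝ)) ∈ closure C}

/-- The hyperbolic convex hull of a subset of the sphere at infinity. -/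
def hull (X : Set (OnePoint ℂ)) : Set (ℂ × ℝ) :=
  ⋂₀ {C | HConvex C ∧ closure C ∩ H3 ⊆ C ∧ X ⊆ idealBdry C}

/-- The boundary of `C` in hyperbolic space. -/
def bdry (C : Set (ℂ × ℝ)) : Set (ℂ × ℝ) := frontier C ∩ H3

/-- A domain of the Riemann sphere whose complementary components are points or closed round
discs. -/
def IsCircleDomain (Γ : Set (OnePoint ℂ)) : Prop :=
  IsOpen Γ ∧ IsConnected Γ ∧ ∀ ξ ∉ Γ, connectedComponentIn Γᶜ ξ = {ξ} ∨
    ∃ g : GL (Fin 2) ℂ, connectedComponentIn Γᶜ ξ =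
      (fun z : ℂ => g • (z : OnePoint ℂ)) '' closedBall 0 1

/-- `C` is a closed convex domain that contains the convex hull of the complement of `Γ`,
accumulates exactly on that complement, and whose boundary surface accumulates exactly on the
boundary of `Γ`. -/
structure IsDomainFor (Γ : Set (OnePoint ℂ)) (C : Set (ℂ × ℝ)) : Prop where
  convex : HConvex C
  closed : closure C ∩ H3 ⊆ C
  interior_nonempty : (interior C).Nonempty
  hull_subset : hull Γᶜ ⊆ C
  ideal : idealBdry C = Γᶜ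
  ideal_bdry : idealBdry (bdry C) = frontier Γ

/-- The plane domain `Ω` with the metric `lam ^ 2 |dz| ^ 2` is complete of constant curvature `K`:
curves of finite length stay in compact subsets. -/
structure CompleteSurface (K : ℝ) (Ω : Set ℂ) (lam : ℂ → ℝ) : Prop where
  isOpen : IsOpen Ω
  isConnected : IsConnected Ω
  smooth : ContDiffOn ℝ ∞ lam Ω
  pos : ∀ z ∈ Ω, 0 < lam z
  curv : ∀ z ∈ Ω, Laplacian.laplacian (fun w => Real.log (lam w)) z = -K * lam z ^ 2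
  complete : ∀ γ : ℝ → ℂ, ContDiffOn ℝ 1 γ (Ico 0 1) → MapsTo γ (Ico 0 1) Ω →
    MeasureTheory.IntegrableOn (fun s => lam (γ s) * ‖deriv γ s‖) (Ioo 0 1) →
    ∃ L : Set ℂ, IsCompact L ∧ L ⊆ Ω ∧ MapsTo γ (Ico 0 1) L

/-- The surface `(Ω, lam ^ 2 |dz| ^ 2)` is isometric to the boundary of `C` with its induced
metric, through a smooth embedding. -/
def IsometricTo (Ω : Set ℂ) (lam : ℂ → ℝ) (C : Set (ℂ × ℝ)) : Prop :=
  ∃ X : ℂ → ℂ × ℝ, ContDiffOn ℝ ∞ X Ω ∧ IsEmbedding (Ω.domRestrict X) ∧ X '' Ω = bdry C ∧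
    ∀ z ∈ Ω, ∀ v : ℂ, (‖(fderiv ℝ X z v).1‖ ^ 2 + (fderiv ℝ X z v).2 ^ 2) / (X z).2 ^ 2 =
      lam z ^ 2 * ‖v‖ ^ 2

/-- `Γ₂` is the image of `Γ₁` or of its mirror image under a Moebius transformation. -/
def MoebiusRelated (Γ₁ Γ₂ : Set (OnePoint ℂ)) : Prop :=
  ∃ g : GL (Fin 2) ℂ, (fun ξ => g • ξ) '' Γ₁ = Γ₂ ∨
    (fun ξ => g • OnePoint.map (fun z : ℂ => conj z) ξ) '' Γ₁ = Γ₂

end Pool.Agent.Lib.MP_44acff_gt.NU
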