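import Pool.Agent.Lib.MP_44acff_gt.H70Tube

/-! Integral estimates for the normalised Cauchy kernel. -/

namespace Pool.Agent.Lib.MP_44acff_gt.NU

open Set Metric MeasureTheory Filter Topology ComplexConjugate
open scoped ContDiff

variable {E : Set ℂ} {A θ : ℝ}

namespace EstAux

lemma ann (hA : MeasCond E A) {γ : ℝ} (h0 : 0 ≤ γ) (p : ℂ) {ρ : ℝ} (hρ : 0 < ρ) :
    ∫⁻ ζ in {ζ : ℂ | ρ / 4 ≤ ‖ζ - p‖} ∩ (ball p ρ \ E),
      ENNReal.ofReal (infDist ζ E ^ (-(1 / 4) : ℝ) * ‖ζ - p‖ ^ (-γ)) ≤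
        ENNReal.ofReal (4 ^ γ * (|A| + 1) * ρ ^ (7 / 4 - γ)) := by
  have hm : MeasurableSet {ζ : ℂ | ρ / 4 ≤ ‖ζ - p‖} :=
    (isClosed_le continuous_const (by fun_prop)).measurableSet
  have h4 : 0 < ρ / 4 := by positivity
  rw [← Measure.restrict_restrict hm]
  calc _ ≤ ∫⁻ ζ in {ζ : ℂ | ρ / 4 ≤ ‖ζ - p‖}, ENNReal.ofReal ((ρ / 4) ^ (-γ)) *
        ENNReal.ofReal (infDist ζ E ^ (-(1 / 4) : ℝ)) ∂(volume.restrict (ball p ρ \ E)) := by
        refine setLIntegral_mono' hm fun ζ hζ => ?_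
        rw [← ENNReal.ofReal_mul (by positivity), mul_comm]
        exact ENNReal.ofReal_le_ofReal (mul_le_mul_of_nonneg_right
          (Real.rpow_le_rpow_of_nonpos h4 hζ (by linarith)) (Real.rpow_nonneg infDist_nonneg _))
    _ ≤ _ := setLIntegral_le_lintegral _ _
    _ = _ := lintegral_const_mul' _ _ ENNReal.ofReal_ne_top
    _ ≤ ENNReal.ofReal ((ρ / 4) ^ (-γ)) * ENNReal.ofReal (A * ρ ^ (7 / 4 : ℝ)) := by
        gcongr
        exact hA p ρ hρ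
    _ ≤ _ := by
        rw [← ENNReal.ofReal_mul (by positivity)]
        refine ENNReal.ofReal_le_ofReal ?_
        rw [Real.div_rpow hρ.le (by norm_num), sub_eq_add_neg, Real.rpow_add hρ,
          Real.rpow_neg (show (0 : ℝ) ≤ 4 by norm_num), div_inv_eq_mul]
        calc _ = 4 ^ γ * A * (ρ ^ (7 / 4 : ℝ) * ρ ^ (-γ)) := by ring
          _ ≤ _ := by
            gcongr
            linarith [le_abs_self A]

lemma geo (hA : MeasCond E A) {γ b : ℝ} (h0 : 0 ≤ γ) (hb : 0 < b) (hq : b ^ (7 / 4 - γ) < 1) :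
    ∃ C > 0, ∀ (p : ℂ) (r : ℝ), 0 < r → ∀ S : Set ℂ,
      (∀ ζ ∈ S, ζ ≠ p → ∃ j : ℕ, 2 * r * b ^ j / 4 ≤ ‖ζ - p‖ ∧ ‖ζ - p‖ < 2 * r * b ^ j) →
      ∫⁻ ζ in S \ E, ENNReal.ofReal (infDist ζ E ^ (-(1 / 4) : ℝ) * ‖ζ - p‖ ^ (-γ)) ≤
        ENNReal.ofReal (C * r ^ (7 / 4 - γ)) := by
  have q0 : 0 < b ^ (7 / 4 - γ) := by positivity
  have q1 : 0 < 1 - b ^ (7 / 4 - γ) := by linarith
  refine ⟨4 ^ γ * (|A| + 1) * 2 ^ (7 / 4 - γ) * (1 - b ^ (7 / 4 - γ))⁻¹, by positivity,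
    fun p r hr S hS => ?_⟩
  have hsub : S \ E ⊆ {p} ∪ ⋃ j : ℕ,
      {ζ : ℂ | 2 * r * b ^ j / 4 ≤ ‖ζ - p‖} ∩ (ball p (2 * r * b ^ j) \ E) := fun ζ hζ => by
    by_cases h : ζ = p
    · exact Or.inl h
    · obtain ⟨j, h1, h2⟩ := hS ζ hζ.1 h
      exact Or.inr (mem_iUnion.2 ⟨j, h1, mem_ball_iff_norm.2 h2, hζ.2⟩)
  refine (lintegral_mono_set hsub).trans ((lintegral_union_le _ _ _).trans ?_)
  rw [setLIntegral_measure_zero _ _ (measure_singleton p), zero_add]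
  refine (lintegral_iUnion_le _ _).trans ((ENNReal.tsum_le_tsum fun j =>
    ann hA h0 p (by positivity)).trans_eq ?_)
  have e : ∀ j : ℕ, 4 ^ γ * (|A| + 1) * (2 * r * b ^ j) ^ (7 / 4 - γ) =
      4 ^ γ * (|A| + 1) * 2 ^ (7 / 4 - γ) * r ^ (7 / 4 - γ) * (b ^ (7 / 4 - γ)) ^ j := fun j => by
    rw [Real.mul_rpow (by positivity) (by positivity), Real.mul_rpow (by positivity) hr.le,
      ← Real.rpow_pow_comm hb.le]
    ring
  simp only [e]
  rw [← ENNReal.ofReal_tsum_of_nonneg (fun j => by positivity)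
    ((summable_geometric_of_lt_one q0.le hq).mul_left _), tsum_mul_left,
    tsum_geometric_of_lt_one q0.le hq]
  congr 1
  ring

lemma q4 {a b K : ℝ} (ha : 0 ≤ a) (hb : 0 ≤ b) (hK : 0 ≤ K) (h : a ≤ K ^ 4 * b) :
    a ^ (1 / 4 : ℝ) ≤ K * b ^ (1 / 4 : ℝ) := by
  refine (Real.rpow_le_rpow ha h (by norm_num)).trans_eq ?_
  rw [Real.mul_rpow (by positivity) hb, one_div]
  exact congrArg (· * _) (by exact_mod_cast Real.pow_rpow_inv_natCast hK four_ne_zero)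

lemma wr_eq {x y : ℂ} (h : x ≠ y) (ζ : ℂ) : wr E x y ζ =
    ((‖x - y‖ + ‖ζ - x‖) ^ 2 / ‖x - y‖ / infDist ζ E) ^ (1 / 4 : ℝ) := by
  have s0 : 0 < ‖x - y‖ := norm_pos_iff.2 (sub_ne_zero.2 h)
  have d0 : 0 ≤ infDist ζ E := infDist_nonneg
  rw [wr, show (1 / 2 : ℝ) = (2 : ℕ) * (1 / 4) by norm_num, Real.rpow_natCast_mul (by positivity),
    ← Real.mul_rpow (by positivity) (by positivity)]
  congr 1
  rw [← mul_div_assoc]
  congr 1
  field_simp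

lemma dpos {p : ℂ × ℂ} (hp : p ∈ Tube E θ) : 0 < infDist (mid p) E := by
  refine infDist_nonneg.lt_of_ne fun h => ?_
  have h1 : 0 < θ * infDist (mid p) E - ‖p.1 - conj p.2‖ := hp
  rw [← h] at h1
  linarith [norm_nonneg (p.1 - conj p.2)]

lemma inf_le (a b : ℂ) : infDist a E ≤ infDist b E + ‖a - b‖ := by
  rw [← dist_eq_norm]
  exact infDist_le_infDist_add_dist

end EstAux

open EstAux

theorem est_near (hA : MeasCond E A) {γ : ℝ} (h0 : 0 < γ) (h : γ < 7 / 4) : ∃ C > 0,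
    ∀ (p : ℂ) (r : ℝ), 0 < r → ∫⁻ ζ in ball p r \ E,
      ENNReal.ofReal (infDist ζ E ^ (-(1 / 4) : ℝ) * ‖ζ - p‖ ^ (-γ)) ≤
        ENNReal.ofReal (C * r ^ (7 / 4 - γ)) := by
  obtain ⟨C, C0, hC⟩ := geo hA h0.le (b := 1 / 2) (by norm_num)
    (Real.rpow_lt_one (by norm_num) (by norm_num) (by linarith))
  refine ⟨C, C0, fun p r hr => hC p r hr _ fun ζ hζ hp => ?_⟩
  have h1 : 0 < ‖ζ - p‖ := norm_pos_iff.2 (sub_ne_zero.2 hp)
  obtain ⟨j, h2, h3⟩ := exists_nat_pow_near_of_lt_one (x := ‖ζ - p‖ / r) (y := 1 / 2)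
    (by positivity) ((div_le_one hr).2 (mem_ball_iff_norm.1 hζ).le) (by norm_num) (by norm_num)
  rw [lt_div_iff₀ hr, pow_succ] at h2
  rw [div_le_iff₀ hr] at h3
  exact ⟨j, by linarith, by linarith⟩

theorem est_far (hA : MeasCond E A) {γ : ℝ} (h : 7 / 4 < γ) : ∃ C > 0,
    ∀ (p : ℂ) (r : ℝ), 0 < r → ∫⁻ ζ in (ball p r)ᶜ \ E,
      ENNReal.ofReal (infDist ζ E ^ (-(1 / 4) : ℝ) * ‖ζ - p‖ ^ (-γ)) ≤
        ENNReal.ofReal (C * r ^ (7 / 4 - γ)) := by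
  obtain ⟨C, C0, hC⟩ := geo hA (γ := γ) (by linarith) (b := 2) (by norm_num)
    (Real.rpow_lt_one_of_one_lt_of_neg (by norm_num) (by linarith))
  refine ⟨C, C0, fun p r hr => hC p r hr _ fun ζ hζ _ => ?_⟩
  obtain ⟨j, h2, h3⟩ := exists_nat_pow_near (x := ‖ζ - p‖ / r) (y := 2)
    ((one_le_div hr).2 (not_lt.1 fun h => hζ (mem_ball_iff_norm.2 h))) (by norm_num)
  rw [le_div_iff₀ hr] at h2
  rw [div_lt_iff₀ hr, pow_succ] at h3
  exact ⟨j, by linarith [norm_nonneg (ζ - p)], by linarith⟩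

theorem wr_pos (hE : Dom E) {x y ζ : ℂ} (h : x ≠ y) (hζ : ζ ∉ E) : 0 < wr E x y ζ := by
  have s0 : 0 < ‖x - y‖ := norm_pos_iff.2 (sub_ne_zero.2 h)
  have d0 := (hE.closed.notMem_iff_infDist_pos hE.nonempty).1 hζ
  unfold wr
  positivity

theorem adm_Wp {x y : ℂ} (h : Pair E x y) : Adm E θ (Wp E x y) 4 := by
  have s0 : 0 < ‖x - y‖ := norm_pos_iff.2 (sub_ne_zero.2 h.1)
  refine ⟨fun p hp => ?_, fun p hp q hq h1 _ => ?_⟩
  · have := dpos hp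
    unfold Wp wr
    positivity
  have d0 := dpos hp
  have d1 := dpos hq
  have a1 := inf_le (E := E) (mid p) x
  have a2 := inf_le (E := E) (mid p) (mid q)
  have a3 := norm_sub_le_norm_sub_add_norm_sub (mid q) (mid p) x
  have a4 := norm_nonneg (mid p - x)
  rw [norm_sub_rev] at a2
  rw [DD] at h1
  rw [Wp, Wp, wr_eq h.1, wr_eq h.1]
  refine q4 (by positivity) (by positivity) (by norm_num) ?_
  calc _ ≤ (3 * (‖x - y‖ + ‖mid p - x‖)) ^ 2 / ‖x - y‖ / (infDist (mid p) E / 2) := by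
        gcongr
        · linarith [h.2]
        · linarith
    _ = 18 * ((‖x - y‖ + ‖mid p - x‖) ^ 2 / ‖x - y‖ / infDist (mid p) E) := by
        field_simp
        norm_num
    _ ≤ _ := by
        gcongr
        norm_num

theorem Wp_ge {x y : ℂ} (h : Pair E x y) {p : ℂ × ℂ} (hp : p ∈ Tube E θ) :
    1 / 2 ≤ Wp E x y p := by
  have s0 : 0 < ‖x - y‖ := norm_pos_iff.2 (sub_ne_zero.2 h.1)
  have d0 := dpos hp
  have a1 := inf_le (E := E) (mid p) x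
  have a4 := norm_nonneg (mid p - x)
  have := q4 (a := 1) (K := 2) zero_le_one
    (show 0 ≤ (‖x - y‖ + ‖mid p - x‖) ^ 2 / ‖x - y‖ / infDist (mid p) E by positivity) zero_le_two (by
      rw [← mul_div_assoc, ← mul_div_assoc, le_div_iff₀ d0, le_div_iff₀ s0]
      have a5 : infDist (mid p) E * ‖x - y‖ ≤
          4 * (‖x - y‖ + ‖mid p - x‖) * (‖x - y‖ + ‖mid p - x‖) := by
        gcongr
        · linarith [h.2]
        · linarith
      nlinarith [sq_nonneg (‖x - y‖ + ‖mid p - x‖)])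
  rw [Real.one_rpow] at this
  rw [Wp, wr_eq h.1]
  linarith

theorem Wp_le {x y : ℂ} (h : x ≠ y) (hx : infDist x E = 4 * ‖x - y‖) {p : ℂ × ℂ}
    (hp : ‖mid p - x‖ ≤ infDist x E / 2) : Wp E x y p ≤ 2 := by
  have s0 : 0 < ‖x - y‖ := norm_pos_iff.2 (sub_ne_zero.2 h)
  have a1 := inf_le (E := E) x (mid p)
  have d0 : 0 ≤ infDist (mid p) E := infDist_nonneg
  rw [norm_sub_rev x (mid p)] at a1
  have := q4 (b := 1) (K := 2)
    (show 0 ≤ (‖x - y‖ + ‖mid p - x‖) ^ 2 / ‖x - y‖ / infDist (mid p) E by positivity) zero_le_one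
    zero_le_two (by
      calc _ ≤ (3 * ‖x - y‖) ^ 2 / ‖x - y‖ / (2 * ‖x - y‖) := by
            gcongr <;> linarith
        _ = 9 / 2 := by
            field_simp
            norm_num
        _ ≤ _ := by norm_num)
  rw [Real.one_rpow] at this
  rw [Wp, wr_eq h]
  linarith

theorem Wp_le_Wp {x y x' y' : ℂ} (h : x ≠ y) (h' : x' ≠ y') :
    ∃ C > 0, ∀ p, Wp E x y p ≤ C * Wp E x' y' p := by
  have s0 : 0 < ‖x - y‖ := norm_pos_iff.2 (sub_ne_zero.2 h)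
  have s1 : 0 < ‖x' - y'‖ := norm_pos_iff.2 (sub_ne_zero.2 h')
  obtain ⟨L, hL⟩ : ∃ L, L = 1 + (‖x - y‖ + ‖x' - x‖) / ‖x' - y'‖ := ⟨_, rfl⟩
  have L0 : 0 < L := by rw [hL]; positivity
  refine ⟨1 + L ^ 2 * ‖x' - y'‖ / ‖x - y‖, by positivity, fun p => ?_⟩
  have d0 : 0 ≤ infDist (mid p) E := infDist_nonneg
  have a1 := norm_sub_le_norm_sub_add_norm_sub (mid p) x' x
  have a2 : ‖x - y‖ + ‖mid p - x‖ ≤ L * (‖x' - y'‖ + ‖mid p - x'‖) := by
    have a3 : (‖x - y‖ + ‖x' - x‖) / ‖x' - y'‖ * ‖x' - y'‖ = ‖x - y‖ + ‖x' - x‖ := by field_simp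
    have a4 : 0 ≤ (‖x - y‖ + ‖x' - x‖) / ‖x' - y'‖ * ‖mid p - x'‖ := by positivity
    rw [hL]
    linarith
  rw [Wp, Wp, wr_eq h, wr_eq h']
  refine q4 (by positivity) (by positivity) (by positivity) ?_
  have a5 : 0 ≤ L ^ 2 * ‖x' - y'‖ / ‖x - y‖ := by positivity
  calc _ ≤ (L * (‖x' - y'‖ + ‖mid p - x'‖)) ^ 2 / ‖x - y‖ / infDist (mid p) E := by gcongr
    _ = L ^ 2 * ‖x' - y'‖ / ‖x - y‖ *
        ((‖x' - y'‖ + ‖mid p - x'‖) ^ 2 / ‖x' - y'‖ / infDist (mid p) E) := by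
        rw [← mul_div_assoc _ _ (infDist (mid p) E)]
        congr 1
        field_simp
    _ ≤ _ := by
        gcongr
        exact (le_add_of_nonneg_left zero_le_one).trans
          (le_self_pow₀ (le_add_of_nonneg_right a5) four_ne_zero)

theorem cau_change {x y x' y' : ℂ} (h : x ≠ y) (h' : x' ≠ y') {g : ℂ → ℂ}
    (hg : ∀ z, IntegrableOn (fun ζ => g ζ * ker x y z ζ) Eᶜ) (z : ℂ) :
    cau E x' y' g z = cau E x y g z - cau E x y g x' -
      (z - x') * ((cau E x y g y' - cau E x y g x') / (y' - x')) := by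
  have e : (fun ζ => g ζ * ker x' y' z ζ) =ᵐ[volume.restrict Eᶜ] fun ζ =>
      g ζ * ker x y z ζ - g ζ * ker x y x' ζ -
        (z - x') / (y' - x') * (g ζ * ker x y y' ζ - g ζ * ker x y x' ζ) := by
    filter_upwards [ae_restrict_of_ae
      ((Set.toFinite ({x, y, z, x', y'} : Set ℂ)).countable.ae_notMem volume)] with ζ hζ
    simp only [mem_insert_iff, mem_singleton_iff, not_or] at hζ
    have h1 := sub_ne_zero.2 hζ.1
    have h2 := sub_ne_zero.2 hζ.2.1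
    have h3 := sub_ne_zero.2 hζ.2.2.1
    have h4 := sub_ne_zero.2 hζ.2.2.2.1
    have h5 := sub_ne_zero.2 hζ.2.2.2.2
    have h6 := sub_ne_zero.2 h'.symm
    unfold ker
    field_simp
    ring
  unfold cau
  rw [integral_congr_ae e, integral_sub ((hg z).fun_sub (hg x'))
    (((hg y').fun_sub (hg x')).const_mul _),
    integral_sub (hg z) (hg x'), integral_const_mul, integral_sub (hg y') (hg x')]
  ring

end Pool.Agent.Lib.MP_44acff_gt.NU
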