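import Pool.Agent.Lib.MP_44acff_gt.H70Cau
import Pool.Agent.Lib.MP_44acff_gt.H70CT

/-! The extension of the Cauchy transform to the tube is holomorphic. -/

namespace Pool.Agent.Lib.MP_44acff_gt.NU

open Set Metric MeasureTheory Filter Topology ComplexConjugate
open scoped ContDiff

variable {E : Set ℂ} {A θ : ℝ}

namespace ExtAux

theorem far_ratio {z₁ z z' ζ : ℂ} {r : ℝ} (hζ : ζ ∉ ball z₁ r)
    (hz : z ∈ ball z₁ (r / 2)) (hz' : z' ∈ ball z₁ (r / 2)) :
    r / 2 ≤ ‖ζ - z‖ ∧ ‖ζ - z'‖ ≤ 3 * ‖ζ - z‖ := by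
  rw [mem_ball, dist_eq_norm, not_lt] at hζ
  rw [mem_ball, dist_eq_norm] at hz hz'
  have h1 : ‖ζ - z₁‖ ≤ ‖ζ - z‖ + ‖z - z₁‖ := norm_sub_le_norm_sub_add_norm_sub _ _ _
  have h2 : ‖ζ - z'‖ ≤ ‖ζ - z‖ + ‖z - z'‖ := norm_sub_le_norm_sub_add_norm_sub _ _ _
  have h3 : ‖z - z'‖ ≤ ‖z - z₁‖ + ‖z₁ - z'‖ := norm_sub_le_norm_sub_add_norm_sub _ _ _
  rw [norm_sub_rev z₁ z'] at h3
  constructor <;> linarith

/-- The Cauchy transform of a function vanishing on a disc is holomorphic at its centre. -/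
theorem far_diff {μ : Measure ℂ} {φ : ℂ → ℂ} {z₁ z' : ℂ} {r : ℝ} (hr : 0 < r)
    (h0 : ∀ ζ ∈ ball z₁ r, φ ζ = 0) (hz' : z' ∈ ball z₁ (r / 2))
    (hint : Integrable (fun ζ => φ ζ / (ζ - z')) μ) :
    DifferentiableAt ℂ (fun z => ∫ ζ, φ ζ / (ζ - z) ∂μ) z₁ := by
  have hne : ∀ z ∈ ball z₁ (r / 2), ∀ ζ, ζ ∉ ball z₁ r → ζ - z ≠ 0 := by
    intro z hz ζ hζ h
    have := (far_ratio hζ hz hz').1
    rw [h, norm_zero] at this
    linarith
  have hφ : AEStronglyMeasurable φ μ := by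
    have : φ = fun ζ => φ ζ / (ζ - z') * (ζ - z') := by
      funext ζ
      by_cases hζ : ζ ∈ ball z₁ r
      · simp [h0 ζ hζ]
      · rw [div_mul_cancel₀ _ (hne z' hz' ζ hζ)]
    rw [this]
    exact hint.aestronglyMeasurable.mul (by fun_prop)
  have hmeas : ∀ (z : ℂ) (k : ℕ), AEStronglyMeasurable (fun ζ => φ ζ / (ζ - z) ^ k) μ := by
    intro z k
    simp only [div_eq_mul_inv]
    exact hφ.mul (Measurable.aestronglyMeasurable (by fun_prop))
  have hmeas1 : ∀ z : ℂ, AEStronglyMeasurable (fun ζ => φ ζ / (ζ - z)) μ := by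
    intro z
    simpa using hmeas z 1
  have hz₁ : z₁ ∈ ball z₁ (r / 2) := mem_ball_self (by positivity)
  have hb : ∀ z ∈ ball z₁ (r / 2), ∀ ζ, ‖φ ζ / (ζ - z)‖ ≤ 3 * ‖φ ζ / (ζ - z')‖ := by
    intro z hz ζ
    by_cases hζ : ζ ∈ ball z₁ r
    · simp [h0 ζ hζ]
    · have h1 := far_ratio hζ hz hz'
      have h2 : 0 < ‖ζ - z'‖ := norm_pos_iff.2 (hne z' hz' ζ hζ)
      have h3 : 0 < ‖ζ - z‖ := norm_pos_iff.2 (hne z hz ζ hζ)
      rw [norm_div, norm_div, ← mul_div_assoc, div_le_div_iff₀ h3 h2]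
      nlinarith [norm_nonneg (φ ζ)]
  have hint₁ : Integrable (fun ζ => φ ζ / (ζ - z₁)) μ :=
    Integrable.mono' (hint.norm.const_mul 3) (hmeas1 z₁) (Eventually.of_forall (hb z₁ hz₁))
  have key := hasDerivAt_integral_of_dominated_loc_of_deriv_le (μ := μ) (𝕜 := ℂ)
    (F := fun z ζ => φ ζ / (ζ - z)) (F' := fun z ζ => φ ζ / (ζ - z) ^ 2) (x₀ := z₁)
    (bound := fun ζ => 2 / r * (3 * ‖φ ζ / (ζ - z')‖)) (s := ball z₁ (r / 2))
    (ball_mem_nhds z₁ (by positivity)) (Eventually.of_forall hmeas1) hint₁ (hmeas z₁ 2)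
    (Eventually.of_forall ?_) ((hint.norm.const_mul 3).const_mul _) (Eventually.of_forall ?_)
  · exact key.2.differentiableAt
  · intro ζ z hz
    by_cases hζ : ζ ∈ ball z₁ r
    · simp [h0 ζ hζ]
    · have h1 := far_ratio hζ hz hz'
      have h3 : 0 < ‖ζ - z‖ := norm_pos_iff.2 (hne z hz ζ hζ)
      have h4 : φ ζ / (ζ - z) ^ 2 = (ζ - z)⁻¹ * (φ ζ / (ζ - z)) := by
        field_simp
      rw [h4, norm_mul, norm_inv]
      refine mul_le_mul ?_ (hb z hz ζ) (norm_nonneg _) (by positivity)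
      rw [← inv_div]
      exact inv_anti₀ (by positivity) h1.1
  · intro ζ z hz
    by_cases hζ : ζ ∈ ball z₁ r
    · simpa [h0 ζ hζ] using hasDerivAt_const z (0 : ℂ)
    · have h1 : HasDerivAt (fun z : ℂ => ζ - z) (-1) z := by
        simpa using (hasDerivAt_id z).const_sub ζ
      have h2 := (hasDerivAt_const z (φ ζ)).div h1 (hne z hz ζ hζ)
      have h3 : φ ζ / (ζ - z) ^ 2 = (0 * (ζ - z) - φ ζ * -1) / (ζ - z) ^ 2 := by simp
      rw [h3]
      exact h2

theorem ker_eq {x y z ζ : ℂ} (hxy : x ≠ y) (hx : ζ ≠ x) (hy : ζ ≠ y) (hz : ζ ≠ z) (c : ℂ) :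
    c * ker x y z ζ =
      c / (ζ - z) - (z - y) / (x - y) * (c / (ζ - x)) + (z - x) / (x - y) * (c / (ζ - y)) := by
  have h1 : x - y ≠ 0 := sub_ne_zero.2 hxy
  have h2 : ζ - x ≠ 0 := sub_ne_zero.2 hx
  have h3 : ζ - y ≠ 0 := sub_ne_zero.2 hy
  have h4 : ζ - z ≠ 0 := sub_ne_zero.2 hz
  unfold ker
  field_simp
  ring

/-- The normalised transform of a compactly supported function. -/
theorem cau_compact {x y : ℂ} (hxy : x ≠ y) {ψ : ℂ → ℂ} (hψ : Continuous ψ)
    (hc : HasCompactSupport ψ) (h0 : ∀ ζ ∈ E, ψ ζ = 0) (z : ℂ) :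
    IntegrableOn (fun ζ => ψ ζ * ker x y z ζ) Eᶜ ∧
      cau E x y ψ z = ct ψ z - (z - y) / (x - y) * ct ψ x + (z - x) / (x - y) * ct ψ y := by
  have hae : (fun ζ => ψ ζ * ker x y z ζ) =ᵐ[volume] fun ζ =>
      ψ ζ / (ζ - z) - (z - y) / (x - y) * (ψ ζ / (ζ - x)) + (z - x) / (x - y) * (ψ ζ / (ζ - y)) := by
    have hfin : ({x, y, z} : Set ℂ).Finite := toFinite _
    filter_upwards [hfin.countable.ae_notMem volume] with ζ hζ
    simp only [mem_insert_iff, mem_singleton_iff, not_or] at hζ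
    exact ker_eq hxy hζ.1 hζ.2.1 hζ.2.2 _
  have i1 := integrable_ct hψ hc z
  have i2 := (integrable_ct hψ hc x).const_mul ((z - y) / (x - y))
  have i3 := (integrable_ct hψ hc y).const_mul ((z - x) / (x - y))
  have hI : Integrable (fun ζ => ψ ζ * ker x y z ζ) :=
    ((i1.sub i2).add i3).congr hae.symm
  refine ⟨hI.integrableOn, ?_⟩
  have h1 : ∫ ζ in Eᶜ, ψ ζ * ker x y z ζ = ∫ ζ, ψ ζ * ker x y z ζ := by
    refine setIntegral_eq_integral_of_forall_compl_eq_zero fun ζ hζ => ?_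
    rw [h0 ζ (not_not.1 hζ), zero_mul]
  unfold cau ct
  have i12 : Integrable fun ζ => ψ ζ / (ζ - z) - (z - y) / (x - y) * (ψ ζ / (ζ - x)) := i1.sub i2
  rw [h1, integral_congr_ae hae, integral_add i12 i3, integral_sub i1 i2,
    integral_const_mul, integral_const_mul]
  ring

theorem dbar_add_holo {F G : ℂ → ℂ} {z : ℂ} (hF : DifferentiableAt ℝ F z)
    (hG : DifferentiableAt ℂ G z) : dbar (fun w => F w + G w) z = dbar F z := by
  have h1 : HasFDerivAt G ((fderiv ℂ G z).restrictScalars ℝ) z :=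
    hG.hasFDerivAt.restrictScalars ℝ
  have h2 : fderiv ℝ (fun w => F w + G w) z = fderiv ℝ F z + (fderiv ℂ G z).restrictScalars ℝ :=
    (hF.hasFDerivAt.add h1).fderiv
  have h3 : fderiv ℂ G z Complex.I = Complex.I * fderiv ℂ G z 1 := by
    rw [← smul_eq_mul, ← map_smul]; simp
  unfold dbar
  rw [h2]
  simp only [add_apply, ContinuousLinearMap.coe_restrictScalars', h3]
  linear_combination (fderiv ℂ G z 1 / 2) * Complex.I_mul_I

/-- The normalised transform solves the inhomogeneous Cauchy-Riemann equation. -/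
theorem cau_dbar (hE : IsClosed E) {x y : ℂ} (hxy : x ≠ y) {h : ℂ → ℂ}
    (hh : ContDiffOn ℝ 1 h Eᶜ) (hint : ∀ z, IntegrableOn (fun ζ => h ζ * ker x y z ζ) Eᶜ)
    {z₁ : ℂ} (hz₁ : z₁ ∉ E) :
    DifferentiableAt ℝ (cau E x y h) z₁ ∧ dbar (cau E x y h) z₁ = h z₁ := by
  obtain ⟨R, hR, hRE⟩ := Metric.isOpen_iff.1 hE.isOpen_compl z₁ hz₁
  let χ : ContDiffBump z₁ := ⟨R / 4, R / 2, by positivity, by linarith⟩
  have hin : χ.rIn = R / 4 := rfl
  have hout : χ.rOut = R / 2 := rfl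
  set ψ : ℂ → ℂ := fun ζ => (χ ζ : ℂ) * h ζ with hψ
  have hχ0 : ∀ ζ, ζ ∉ ball z₁ (R / 2) → χ ζ = 0 := by
    intro ζ hζ
    refine χ.zero_of_le_dist ?_
    rw [hout]; simpa [mem_ball] using hζ
  have hχc : ContDiff ℝ 1 fun ζ => (χ ζ : ℂ) :=
    Complex.ofRealCLM.contDiff.comp χ.contDiff
  have hψd : ContDiff ℝ 1 ψ := by
    rw [contDiff_iff_contDiffAt]
    intro ζ
    by_cases hζ : ζ ∈ ball z₁ R
    · exact hχc.contDiffAt.mul (hh.contDiffAt (hE.isOpen_compl.mem_nhds (hRE hζ)))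
    · have hn : (closedBall z₁ (R / 2))ᶜ ∈ 𝓝 ζ := by
        refine isClosed_closedBall.isOpen_compl.mem_nhds fun h' => hζ ?_
        exact closedBall_subset_ball (by linarith) h'
      refine (contDiffAt_const (c := (0 : ℂ))).congr_of_eventuallyEq ?_
      filter_upwards [hn] with w hw
      simp [hψ, hχ0 w fun h' => hw (ball_subset_closedBall h')]
  have hψc : HasCompactSupport ψ := by
    refine HasCompactSupport.intro (isCompact_closedBall z₁ (R / 2)) fun w hw => ?_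
    simp [hψ, hχ0 w fun h' => hw (ball_subset_closedBall h')]
  have hψE : ∀ ζ ∈ E, ψ ζ = 0 := by
    intro ζ hζ
    have : ζ ∉ ball z₁ (R / 2) := fun h' => hRE (ball_subset_ball (by linarith) h') hζ
    simp [hψ, hχ0 ζ this]
  set φ : ℂ → ℂ := fun ζ => (h ζ - ψ ζ) / ((ζ - x) * (ζ - y)) with hφ
  have hφ0 : ∀ ζ ∈ ball z₁ (R / 4), φ ζ = 0 := by
    intro ζ hζ
    have : χ ζ = 1 := χ.one_of_mem_closedBall (by rw [hin]; exact ball_subset_closedBall hζ)
    simp [hφ, hψ, this]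
  have hker : ∀ z ζ, h ζ * ker x y z ζ =
      ψ ζ * ker x y z ζ + (z - x) * (z - y) * (φ ζ / (ζ - z)) := by
    intro z ζ
    simp only [hφ, ker, div_eq_mul_inv, mul_inv]
    ring
  have hrest : ∀ z, IntegrableOn (fun ζ => (z - x) * (z - y) * (φ ζ / (ζ - z))) Eᶜ := by
    intro z
    refine ((hint z).sub (cau_compact hxy hψd.continuous hψc hψE z).1).congr
      (Eventually.of_forall fun ζ => ?_)
    simp only [Pi.sub_apply, hker z ζ]
    ring
  have hsplit : cau E x y h = fun z => ct ψ z +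
      (-((z - y) / (x - y) * ct ψ x) + (z - x) / (x - y) * ct ψ y +
        -(1 / Real.pi : ℂ) * ((z - x) * (z - y) * ∫ ζ in Eᶜ, φ ζ / (ζ - z))) := by
    funext z
    have h1 := cau_compact hxy hψd.continuous hψc hψE z
    have h2 : cau E x y h z = cau E x y ψ z +
        -(1 / Real.pi : ℂ) * ((z - x) * (z - y) * ∫ ζ in Eᶜ, φ ζ / (ζ - z)) := by
      unfold cau
      simp only [hker z]
      rw [integral_add h1.1 (hrest z), integral_const_mul]
      ring
    rw [h2, h1.2]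
    ring
  obtain ⟨z', hz', hz'x⟩ : ∃ z' ∈ ball z₁ (R / 4 / 2), z' ∉ ({x, y} : Set ℂ) := by
    have hinf : (ball z₁ (R / 4 / 2)).Infinite :=
      infinite_of_mem_nhds z₁ (ball_mem_nhds z₁ (by positivity))
    exact (hinf.sdiff (toFinite ({x, y} : Set ℂ))).nonempty
  simp only [mem_insert_iff, mem_singleton_iff, not_or] at hz'x
  have hI : Integrable (fun ζ => φ ζ / (ζ - z')) (volume.restrict Eᶜ) := by
    have hne : (z' - x) * (z' - y) ≠ 0 := mul_ne_zero (sub_ne_zero.2 hz'x.1) (sub_ne_zero.2 hz'x.2)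
    refine (Integrable.const_mul (hrest z') ((z' - x) * (z' - y))⁻¹).congr
      (Eventually.of_forall fun ζ => ?_)
    simp only
    rw [← mul_assoc, inv_mul_cancel₀ hne, one_mul]
  have hfar := far_diff (by positivity : 0 < R / 4) hφ0 hz' hI
  have hG : DifferentiableAt ℂ (fun z => -((z - y) / (x - y) * ct ψ x) +
      (z - x) / (x - y) * ct ψ y +
        -(1 / Real.pi : ℂ) * ((z - x) * (z - y) * ∫ ζ in Eᶜ, φ ζ / (ζ - z))) z₁ := by
    refine DifferentiableAt.add (by fun_prop) (DifferentiableAt.const_mul ?_ _)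
    exact DifferentiableAt.mul (by fun_prop) hfar
  have hct : DifferentiableAt ℝ (ct ψ) z₁ :=
    (ct_contDiff hψd hψc).1.differentiable one_ne_zero z₁
  rw [hsplit]
  refine ⟨hct.add (hG.restrictScalars ℝ), ?_⟩
  rw [dbar_add_holo hct hG, dbar_ct hψd hψc]
  have : χ z₁ = 1 := χ.one_of_mem_closedBall (mem_closedBall_self χ.rIn_pos.le)
  simp [hψ, this]

/-- The point of the segment, as a real linear map. -/
noncomputable def seg (s : ℝ) : ℂ × ℂ →L[ℝ] ℂ × ℂ :=
  (ContinuousLinearMap.fst ℝ ℂ ℂ).prod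
      ((Complex.conjCLE : ℂ →L[ℝ] ℂ).comp (ContinuousLinearMap.fst ℝ ℂ ℂ)) +
    s • (0 : ℂ × ℂ →L[ℝ] ℂ).prod (ContinuousLinearMap.snd ℝ ℂ ℂ -
      (Complex.conjCLE : ℂ →L[ℝ] ℂ).comp (ContinuousLinearMap.fst ℝ ℂ ℂ))

theorem seg_apply (s : ℝ) (p : ℂ × ℂ) :
    seg s p = (p.1, conj p.1 + s * (p.2 - conj p.1)) := by
  ext <;> simp [seg]

theorem continuous_seg : Continuous seg := by
  unfold seg
  fun_prop

theorem seg_tube (hθ : 0 < θ) (hθ1 : θ ≤ 1) {p : ℂ × ℂ} (hp : p ∈ Tube E θ) {s : ℝ}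
    (hs : s ∈ Icc (0 : ℝ) 1) : seg s p ∈ Tube E θ := by
  have h1 := (seg_mem hθ hθ1 hp hs).1
  have h2 : 0 < del E θ p := hp
  have h3 : 0 ≤ (1 - s) * ‖p.1 - conj p.2‖ / 2 := by
    have := hs.2
    have : 0 ≤ 1 - s := by linarith
    positivity
  rw [seg_apply]
  change 0 < del E θ _
  linarith

theorem hasFDerivAt_seg (hθ : 0 < θ) (hθ1 : θ ≤ 1) {g : ℂ × ℂ → ℂ}
    (hg : DifferentiableOn ℂ g (Tube E θ)) {p : ℂ × ℂ} (hp : p ∈ Tube E θ) :
    IntervalIntegrable (fun s : ℝ => ((fderiv ℂ g (seg s p)).restrictScalars ℝ).comp (seg s))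
      volume 0 1 ∧
    HasFDerivAt (fun q => ∫ s in (0 : ℝ)..1, g (seg s q))
      (∫ s in (0 : ℝ)..1, ((fderiv ℂ g (seg s p)).restrictScalars ℝ).comp (seg s)) p := by
  have hT := isOpen_tube E θ
  obtain ⟨ε, hε, hεT⟩ := Metric.nhds_basis_closedBall.mem_iff.1 (hT.mem_nhds hp)
  have hcd : ContinuousOn (fderiv ℂ g) (Tube E θ) :=
    (contDiffOn_holo hT hg).continuousOn_fderiv_of_isOpen hT (by simp)
  have hc2 : Continuous fun x : (ℂ × ℂ) × ℝ => seg x.2 x.1 :=
    (continuous_seg.comp continuous_snd).clm_apply continuous_fst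
  have hmaps : MapsTo (fun x : (ℂ × ℂ) × ℝ => seg x.2 x.1) (closedBall p ε ×ˢ Icc 0 1)
      (Tube E θ) := fun x hx => seg_tube hθ hθ1 (hεT hx.1) hx.2
  have hF' : ContinuousOn (fun x : (ℂ × ℂ) × ℝ =>
      ((fderiv ℂ g (seg x.2 x.1)).restrictScalars ℝ).comp (seg x.2))
      (closedBall p ε ×ˢ Icc 0 1) := by
    refine ContinuousOn.clm_comp ?_ (continuous_seg.comp continuous_snd).continuousOn
    exact (ContinuousLinearMap.restrictScalarsL ℂ (ℂ × ℂ) ℂ ℝ ℝ).continuous.comp_continuousOn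
      (hcd.comp hc2.continuousOn hmaps)
  obtain ⟨C, hC⟩ := ((isCompact_closedBall p ε).prod isCompact_Icc).exists_bound_of_continuousOn hF'
  have hsub : uIoc (0 : ℝ) 1 ⊆ Icc 0 1 := by
    rw [uIoc_of_le zero_le_one]; exact Ioc_subset_Icc_self
  have hF : ∀ q ∈ closedBall p ε, ContinuousOn (fun s : ℝ => g (seg s q)) (Icc 0 1) := by
    intro q hq
    exact hg.continuousOn.comp (continuous_seg.clm_apply continuous_const).continuousOn
      fun s hs => seg_tube hθ hθ1 (hεT hq) hs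
  have hF'p : ContinuousOn (fun s : ℝ =>
      ((fderiv ℂ g (seg s p)).restrictScalars ℝ).comp (seg s)) (Icc 0 1) :=
    hF'.comp (f := fun s : ℝ => (p, s)) (by fun_prop)
      fun s hs => ⟨mem_closedBall_self hε.le, hs⟩
  refine ⟨hF'p.intervalIntegrable_of_Icc zero_le_one, ?_⟩
  refine intervalIntegral.hasFDerivAt_integral_of_dominated_of_fderiv_le (𝕜 := ℝ)
    (F := fun q s => g (seg s q))
    (F' := fun q s => ((fderiv ℂ g (seg s q)).restrictScalars ℝ).comp (seg s))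
    (s := closedBall p ε) (bound := fun _ => C) (closedBall_mem_nhds p hε) ?_ ?_ ?_ ?_ ?_ ?_
  · filter_upwards [closedBall_mem_nhds p hε] with q hq
    exact ((hF q hq).mono hsub).aestronglyMeasurable measurableSet_uIoc
  · exact (hF p (mem_closedBall_self hε.le)).intervalIntegrable_of_Icc zero_le_one
  · exact (hF'p.mono hsub).aestronglyMeasurable measurableSet_uIoc
  · exact Eventually.of_forall fun s hs q hq => hC (q, s) ⟨hq, hsub hs⟩
  · exact intervalIntegrable_const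
  · refine Eventually.of_forall fun s hs q hq => ?_
    have h1 : DifferentiableAt ℂ g (seg s q) :=
      hg.differentiableAt (hT.mem_nhds (seg_tube hθ hθ1 (hεT hq) (hsub hs)))
    exact (h1.hasFDerivAt.restrictScalars ℝ).comp q (seg s).hasFDerivAt

/-- The derivative along the segment. -/
theorem hasDerivAt_along (hθ : 0 < θ) (hθ1 : θ ≤ 1) {g : ℂ × ℂ → ℂ}
    (hg : DifferentiableOn ℂ g (Tube E θ)) {p : ℂ × ℂ} (hp : p ∈ Tube E θ) {s : ℝ}
    (hs : s ∈ Icc (0 : ℝ) 1) :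
    HasDerivAt (fun s : ℝ => g (seg s p)) ((p.2 - conj p.1) * dw g (seg s p)) s := by
  have h1 : DifferentiableAt ℂ g (seg s p) :=
    hg.differentiableAt ((isOpen_tube E θ).mem_nhds (seg_tube hθ hθ1 hp hs))
  have h2 : HasDerivAt (fun s : ℝ => seg s p) ((0 : ℂ), p.2 - conj p.1) s := by
    simp only [seg_apply]
    refine (hasDerivAt_const s p.1).prodMk ?_
    simpa using (((hasDerivAt_id s).ofReal_comp).mul_const (p.2 - conj p.1)).const_add (conj p.1)
  have h3 := (h1.hasFDerivAt.restrictScalars ℝ).comp_hasDerivAt s h2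
  rw [ContinuousLinearMap.coe_restrictScalars', fderiv_eq] at h3
  simp only [zero_mul, zero_add] at h3
  exact h3

theorem integrals (hθ : 0 < θ) (hθ1 : θ ≤ 1) {g : ℂ × ℂ → ℂ}
    (hg : DifferentiableOn ℂ g (Tube E θ)) {p : ℂ × ℂ} (hp : p ∈ Tube E θ) (v : ℂ × ℂ) :
    (v.2 - conj v.1) * (∫ s in (0 : ℝ)..1, g (seg s p)) + (p.2 - conj p.1) *
      (∫ s in (0 : ℝ)..1, ((fderiv ℂ g (seg s p)).restrictScalars ℝ).comp (seg s)) v =
    v.1 * ((p.2 - conj p.1) * ∫ s in (0 : ℝ)..1, dz g (seg s p)) + v.2 * g p -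
      conj v.1 * g (diag p.1) := by
  have hT := isOpen_tube E θ
  have hc : ∀ {F : ℂ × ℂ → ℂ}, DifferentiableOn ℂ F (Tube E θ) →
      ContinuousOn (fun s : ℝ => F (seg s p)) (Icc 0 1) := fun hF =>
    hF.continuousOn.comp (continuous_seg.clm_apply continuous_const).continuousOn
      fun s hs => seg_tube hθ hθ1 hp hs
  have c0 := hc hg
  have c1 := hc (holo_dz hT hg)
  have c2 := hc (holo_dw hT hg)
  have hlin : ContinuousOn (fun s : ℝ => conj v.1 + s * (v.2 - conj v.1)) (Icc 0 1) := by fun_prop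
  have i0 := c0.intervalIntegrable_of_Icc (μ := volume) zero_le_one
  have i1 := c1.intervalIntegrable_of_Icc (μ := volume) zero_le_one
  have i2 : IntervalIntegrable (fun s : ℝ => (conj v.1 + s * (v.2 - conj v.1)) * dw g (seg s p))
      volume 0 1 := (hlin.mul c2).intervalIntegrable_of_Icc zero_le_one
  have hftc : ∫ s in (0 : ℝ)..1, ((v.2 - conj v.1) * g (seg s p) +
      (p.2 - conj p.1) * ((conj v.1 + s * (v.2 - conj v.1)) * dw g (seg s p))) =
      (conj v.1 + (1 : ℝ) * (v.2 - conj v.1)) * g (seg 1 p) -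
        (conj v.1 + (0 : ℝ) * (v.2 - conj v.1)) * g (seg 0 p) := by
    refine intervalIntegral.integral_eq_sub_of_hasDerivAt
      (f := fun s : ℝ => (conj v.1 + s * (v.2 - conj v.1)) * g (seg s p)) (fun s hs => ?_)
      ((i0.const_mul _).add (i2.const_mul _))
    rw [uIcc_of_le zero_le_one] at hs
    have h1 : HasDerivAt (fun s : ℝ => conj v.1 + s * (v.2 - conj v.1)) (v.2 - conj v.1) s := by
      simpa using (((hasDerivAt_id s).ofReal_comp).mul_const (v.2 - conj v.1)).const_add (conj v.1)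
    have h2 := h1.mul (hasDerivAt_along hθ hθ1 hg hp hs)
    have h3 : (v.2 - conj v.1) * g (seg s p) +
        (p.2 - conj p.1) * ((conj v.1 + s * (v.2 - conj v.1)) * dw g (seg s p)) =
        (v.2 - conj v.1) * g (seg s p) +
          (conj v.1 + s * (v.2 - conj v.1)) * ((p.2 - conj p.1) * dw g (seg s p)) := by ring
    rw [h3]
    exact h2
  have e1 : seg 1 p = p := by rw [seg_apply]; simp
  have e0 : seg 0 p = diag p.1 := by rw [seg_apply]; simp [diag]
  rw [intervalIntegral.integral_add (i0.const_mul _) (i2.const_mul _),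
    intervalIntegral.integral_const_mul, intervalIntegral.integral_const_mul, e0, e1] at hftc
  have happ : (∫ s in (0 : ℝ)..1, ((fderiv ℂ g (seg s p)).restrictScalars ℝ).comp (seg s)) v =
      v.1 * (∫ s in (0 : ℝ)..1, dz g (seg s p)) +
        ∫ s in (0 : ℝ)..1, (conj v.1 + s * (v.2 - conj v.1)) * dw g (seg s p) := by
    rw [ContinuousLinearMap.intervalIntegral_apply (hasFDerivAt_seg hθ hθ1 hg hp).1,
      ← intervalIntegral.integral_const_mul, ← intervalIntegral.integral_add (i1.const_mul _) i2]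
    refine intervalIntegral.integral_congr fun s _ => ?_
    simp only [ContinuousLinearMap.comp_apply, ContinuousLinearMap.coe_restrictScalars']
    rw [fderiv_eq, seg_apply s v]
  rw [happ]
  push_cast at hftc
  linear_combination hftc

theorem fderiv_real (F : ℂ → ℂ) (z v : ℂ) :
    fderiv ℝ F z v =
      (fderiv ℝ F z 1 - Complex.I * fderiv ℝ F z Complex.I) / 2 * v + dbar F z * conj v := by
  have h1 : v = v.re • (1 : ℂ) + v.im • Complex.I := by
    simp
  have h2 : fderiv ℝ F z v = v.re * fderiv ℝ F z 1 + v.im * fderiv ℝ F z Complex.I := by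
    conv_lhs => rw [h1]
    rw [map_add, map_smul, map_smul]
    simp
  have h3 : conj v = v.re - v.im * Complex.I := by
    apply Complex.ext <;> simp
  have h4 : v = v.re + v.im * Complex.I := (Complex.re_add_im v).symm
  rw [h2, dbar, h3]
  generalize fderiv ℝ F z 1 = a
  generalize fderiv ℝ F z Complex.I = b
  generalize v.re = c at *
  generalize v.im = d at *
  rw [h4]
  linear_combination (d * b) * Complex.I_mul_I

end ExtAux

@[simp] theorem ext_diag (x y : ℂ) (g : ℂ × ℂ → ℂ) (z : ℂ) :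
    ext E x y g (diag z) = cau E x y (fun ζ => g (diag ζ)) z := by
  simp [ext, diag]

theorem ext_holo (hE : Dom E) (hA : MeasCond E A) (hθ : 0 < θ) (hθ1 : θ ≤ 1) {x y : ℂ}
    (h : Pair E x y) {g : ℂ × ℂ → ℂ} {M : ℝ} (hM0 : 0 ≤ M) (hg : DifferentiableOn ℂ g (Tube E θ))
    (hM : ∀ ζ ∉ E, ‖g (diag ζ)‖ ≤ M * wr E x y ζ) :
    DifferentiableOn ℂ (ext E x y g) (Tube E θ) ∧ EqOn (dw (ext E x y g)) g (Tube E θ) := by
  obtain ⟨C, -, hC⟩ := cau_est hE hA
  have hcd := contDiffOn_diag hE hθ hg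
  have hint := (hC x y (fun ζ => g (diag ζ)) M h hM0 hcd.continuousOn hM).1
  have key : ∀ p ∈ Tube E θ, ∃ a : ℂ, HasFDerivAt (ext E x y g)
      (a • ContinuousLinearMap.fst ℂ ℂ ℂ + g p • ContinuousLinearMap.snd ℂ ℂ ℂ) p := by
    intro p hp
    obtain ⟨hu, hb⟩ := ExtAux.cau_dbar hE.closed h.1 (hcd.of_le (by simp)) hint
      (fst_notMem hθ1 hp)
    set u := cau E x y fun ζ => g (diag ζ) with hudef
    have h1 : HasFDerivAt (fun q : ℂ × ℂ => u q.1)
        ((fderiv ℝ u p.1).comp (ContinuousLinearMap.fst ℝ ℂ ℂ)) p :=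
      hu.hasFDerivAt.comp p hasFDerivAt_fst
    have h2 : HasFDerivAt (fun q : ℂ × ℂ => q.2 - conj q.1) (ContinuousLinearMap.snd ℝ ℂ ℂ -
        (Complex.conjCLE : ℂ →L[ℝ] ℂ).comp (ContinuousLinearMap.fst ℝ ℂ ℂ)) p :=
      (ContinuousLinearMap.snd ℝ ℂ ℂ -
        (Complex.conjCLE : ℂ →L[ℝ] ℂ).comp (ContinuousLinearMap.fst ℝ ℂ ℂ)).hasFDerivAt
    have h3 := h1.add (h2.mul (ExtAux.hasFDerivAt_seg hθ hθ1 hg hp).2)
    have h4 : ext E x y g = (fun q : ℂ × ℂ => u q.1) +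
        (fun q : ℂ × ℂ => q.2 - conj q.1) * fun q => ∫ s in (0 : ℝ)..1, g (ExtAux.seg s q) := by
      funext q
      simp [ext, ExtAux.seg_apply, hudef]
    rw [← h4] at h3
    refine ⟨(fderiv ℝ u p.1 1 - Complex.I * fderiv ℝ u p.1 Complex.I) / 2 +
      (p.2 - conj p.1) * ∫ s in (0 : ℝ)..1, dz g (ExtAux.seg s p),
      hasFDerivAt_of_restrictScalars ℝ h3 ?_⟩
    refine ContinuousLinearMap.ext fun v => ?_
    have h5 := ExtAux.integrals hθ hθ1 hg hp v
    have h6 := ExtAux.fderiv_real u p.1 v.1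
    rw [hb] at h6
    simp only [ContinuousLinearMap.coe_restrictScalars', add_apply, smul_apply,
      ContinuousLinearMap.coe_fst', ContinuousLinearMap.coe_snd', smul_eq_mul,
      ContinuousLinearMap.comp_apply, sub_apply, ContinuousLinearEquiv.coe_coe,
      Complex.conjCLE_apply]
    linear_combination -h5 - h6
  refine ⟨fun p hp => ?_, fun p hp => ?_⟩
  · obtain ⟨a, ha⟩ := key p hp
    exact ha.differentiableAt.differentiableWithinAt
  · obtain ⟨a, ha⟩ := key p hp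
    simp [dw, ha.fderiv]

end Pool.Agent.Lib.MP_44acff_gt.NU
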