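import Pool.Agent.Lib.MP_44acff_gt.H70Base

/-! Measure estimates for the product set. -/

namespace Pool.Agent.Lib.MP_44acff_gt.NU

open Set Metric MeasureTheory Filter Topology ComplexConjugate
open scoped ContDiff

variable {a α b β : ℕ → ℝ}

namespace GapsAux

lemma le_pow (h : Gaps a α) (n k : ℕ) : α (n + k) ≤ α n * (1 / 2) ^ k := by
  induction k with
  | zero => simp
  | succ k ih =>
    have := h.half (n + k)
    rw [← add_assoc, pow_succ]
    linarith

lemma vol_gap (h : Gaps a α) (n k : ℕ) :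
    volume (ball (a (n + k)) (α (n + k))) ≤ ENNReal.ofReal (2 * α n * (1 / 2) ^ k) := by
  rw [Real.volume_ball]
  exact ENNReal.ofReal_le_ofReal (by linarith [le_pow h n k])

lemma tail (h : Gaps a α) (n : ℕ) :
    volume (⋃ k, ball (a (n + k)) (α (n + k))) ≤ ENNReal.ofReal (4 * α n) := by
  refine (measure_iUnion_le _).trans ((ENNReal.tsum_le_tsum (vol_gap h n)).trans ?_)
  have hp := h.pos n
  rw [← ENNReal.ofReal_tsum_of_nonneg (fun k => by positivity)
    (summable_geometric_two.mul_left _), tsum_mul_left, tsum_geometric_two]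
  exact le_of_eq (by congr 1; ring)

/-- In a window, the complement is covered by one interval and by narrow ones. -/
lemma cover (h : Gaps a α) (x : ℝ) {r : ℝ} (hr : 0 < r) : ∃ n j, α n ≤ r / 100 ∧
    ball x r \ Cant a α ⊆ (ball x r ∩ ball (a j) (α j)) ∪ ⋃ k, ball (a (n + k)) (α (n + k)) := by
  classical
  have ex : ∃ n, α n ≤ r / 100 := by
    obtain ⟨k, hk⟩ := exists_pow_lt_of_lt_one (show 0 < r / 100 by positivity)
      (show (1 / 2 : ℝ) < 1 by norm_num)
    refine ⟨0 + k, (le_pow h 0 k).trans (le_trans ?_ hk.le)⟩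
    exact mul_le_of_le_one_left (by positivity) (by linarith [h.small])
  by_cases g : ∃ j, ∃ s ∈ ball x r, s ∈ ball (a j) (α j)
  · refine ⟨Nat.find ex, Nat.find g, Nat.find_spec ex, fun s hs => ?_⟩
    obtain ⟨j, hj⟩ := not_forall.1 hs.2
    have hj' : s ∈ ball (a j) (α j) := by rwa [mem_ball, Real.dist_eq, ← not_le]
    rcases le_or_gt (Nat.find ex) j with g1 | g1
    · obtain ⟨k, rfl⟩ := Nat.exists_eq_add_of_le g1
      exact Or.inr (mem_iUnion.2 ⟨k, hj'⟩)
    refine Or.inl ⟨hs.1, ?_⟩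
    rcases (Nat.find_min' g ⟨s, hs.1, hj'⟩).eq_or_lt with g2 | g2
    · rwa [g2]
    obtain ⟨t, t1, t2⟩ := Nat.find_spec g
    obtain ⟨p1, p2⟩ := h.sep _ _ g2
    have p3 := not_le.1 (Nat.find_min ex g1)
    have p4 := hs.1
    rw [mem_ball, Real.dist_eq, abs_lt] at t1 t2 p4 hj' ⊢
    rw [le_abs] at p1 p2
    constructor
    · rcases p1 with p1 | p1 <;> linarith [t1.1, t1.2, t2.1, t2.2, p4.1, p4.2, hj'.1, hj'.2]
    · rcases p2 with p2 | p2 <;> linarith [t1.1, t1.2, t2.1, t2.2, p4.1, p4.2, hj'.1, hj'.2]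
  · obtain ⟨n, hn⟩ := ex
    refine ⟨n, 0, hn, fun s hs => ?_⟩
    obtain ⟨j, hj⟩ := not_forall.1 hs.2
    exact (g ⟨j, s, hs.1, by rwa [mem_ball, Real.dist_eq, ← not_le]⟩).elim

lemma fat1 (h : Gaps a α) {x r : ℝ} (hx : x ∈ Cant a α) (hr : 0 < r) :
    ENNReal.ofReal (r / 2) ≤ volume (Cant a α ∩ ball x r) := by
  obtain ⟨n, j, hn, hc⟩ := cover h x hr
  have key : ∀ u : ℝ, Ioo u (u + r) ⊆ ball x r → Disjoint (Ioo u (u + r)) (ball (a j) (α j)) →
      ENNReal.ofReal (r / 2) ≤ volume (Cant a α ∩ ball x r) := by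
    intro u h1 h2
    have s1 : Ioo u (u + r) ⊆ (Cant a α ∩ ball x r) ∪ ⋃ k, ball (a (n + k)) (α (n + k)) := by
      intro s hs
      by_cases g : s ∈ Cant a α
      · exact Or.inl ⟨g, h1 hs⟩
      · exact Or.inr ((hc ⟨h1 hs, g⟩).resolve_left fun g' => disjoint_left.1 h2 hs g'.2)
    have s2 := (measure_mono (μ := volume) s1).trans ((measure_union_le _ _).trans
      (add_le_add le_rfl ((tail h n).trans
        (ENNReal.ofReal_le_ofReal (show 4 * α n ≤ r / 2 by linarith)))))
    rw [Real.volume_Ioo, show u + r - u = r / 2 + r / 2 by ring,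
      ENNReal.ofReal_add (by positivity) (by positivity)] at s2
    exact (ENNReal.add_le_add_iff_right ENNReal.ofReal_ne_top).1 s2
  rcases le_abs.1 (hx j) with g | g
  · refine key x (fun s hs => ?_) (disjoint_left.2 fun s hs hs' => ?_)
    · rw [mem_ball, Real.dist_eq, abs_lt]
      constructor <;> linarith [hs.1, hs.2]
    · rw [mem_ball, Real.dist_eq, abs_lt] at hs'
      linarith [hs.1, hs'.2]
  · refine key (x - r) (fun s hs => ?_) (disjoint_left.2 fun s hs hs' => ?_)
    · rw [mem_ball, Real.dist_eq, abs_lt]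
      constructor <;> linarith [hs.1, hs.2]
    · rw [mem_ball, Real.dist_eq, abs_lt] at hs'
      linarith [hs.2, hs'.1]

lemma meas_g : Measurable fun s : ℝ => ENNReal.ofReal (s ^ (-(1 / 4) : ℝ)) :=
  (measurable_id.pow_const _).ennreal_ofReal

lemma half {L : ℝ} (hL : 0 < L) : ∫⁻ s in Ioc 0 L, ENNReal.ofReal (s ^ (-(1 / 4) : ℝ)) ≤
    ENNReal.ofReal (2 * L ^ (3 / 4 : ℝ)) := by
  have hi : IntervalIntegrable (fun s : ℝ => s ^ (-(1 / 4) : ℝ)) volume 0 L :=
    intervalIntegral.intervalIntegrable_rpow' (by norm_num)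
  rw [← ofReal_integral_eq_lintegral_ofReal hi.1, ← intervalIntegral.integral_of_le hL.le,
    integral_rpow (Or.inl (by norm_num))]
  · refine ENNReal.ofReal_le_ofReal ?_
    rw [show (-(1 / 4) + 1 : ℝ) = 3 / 4 by norm_num, Real.zero_rpow (by norm_num)]
    linarith [Real.rpow_pos_of_pos hL (3 / 4 : ℝ)]
  · filter_upwards [ae_restrict_mem measurableSet_Ioc] with s hs
    exact Real.rpow_nonneg hs.1.le _

lemma base {φ : ℝ → ℝ} (hφ : MeasurePreserving φ) {J : Set ℝ} {L : ℝ} (hL : 0 < L)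
    (hJ : volume J ≤ ENNReal.ofReal L) (hp : ∀ s ∈ J, 0 < φ s) :
    ∫⁻ s in J, ENNReal.ofReal (φ s ^ (-(1 / 4) : ℝ)) ≤ ENNReal.ofReal (3 * L ^ (3 / 4 : ℝ)) := by
  have s1 : J ⊆ φ ⁻¹' Ioc 0 L ∪ J ∩ {s | L ≤ φ s} := fun s hs =>
    (le_total (φ s) L).imp (fun g => ⟨hp s hs, g⟩) fun g => ⟨hs, g⟩
  have p := Real.rpow_pos_of_pos hL (3 / 4 : ℝ)
  refine (lintegral_mono_set s1).trans ((lintegral_union_le _ _ _).trans ?_)
  rw [hφ.setLIntegral_comp_preimage measurableSet_Ioc meas_g,
    show 3 * L ^ (3 / 4 : ℝ) = 2 * L ^ (3 / 4 : ℝ) + L ^ (3 / 4 : ℝ) by ring,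
    ENNReal.ofReal_add (by positivity) p.le]
  refine add_le_add (half hL) ((setLIntegral_mono (g := fun _ =>
    ENNReal.ofReal (L ^ (-(1 / 4) : ℝ))) measurable_const fun s hs => ENNReal.ofReal_le_ofReal
      (Real.rpow_le_rpow_of_nonpos hL hs.2 (by norm_num))).trans ?_)
  rw [setLIntegral_const]
  refine (mul_le_mul' le_rfl ((measure_mono inter_subset_left).trans hJ)).trans (le_of_eq ?_)
  rw [← ENNReal.ofReal_mul (Real.rpow_nonneg hL.le _), ← Real.rpow_add_one hL.ne']
  norm_num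

lemma on_gap (hne : (Cant a α).Nonempty) (j : ℕ) {J : Set ℝ} {L : ℝ} (hL : 0 < L)
    (hJ : volume J ≤ ENNReal.ofReal L) (hs : J ⊆ ball (a j) (α j)) :
    ∫⁻ s in J, ENNReal.ofReal (infDist s (Cant a α) ^ (-(1 / 4) : ℝ)) ≤
      ENNReal.ofReal (6 * L ^ (3 / 4 : ℝ)) := by
  have m1 := measurePreserving_sub_right volume (a j - α j)
  have m2 := Measure.measurePreserving_sub_left volume (a j + α j)
  have q : ∀ s ∈ J, 0 < s - (a j - α j) ∧ 0 < a j + α j - s := fun s g => by
    have := hs g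
    rw [mem_ball, Real.dist_eq, abs_lt] at this
    constructor <;> linarith [this.1, this.2]
  have p := Real.rpow_pos_of_pos hL (3 / 4 : ℝ)
  refine (setLIntegral_mono ((meas_g.comp m1.measurable).add (meas_g.comp m2.measurable))
    fun s g => ?_).trans ?_
  · have d : α j - |s - a j| ≤ infDist s (Cant a α) := (le_infDist hne).2 fun y hy => by
      have := abs_sub_le y s (a j)
      rw [dist_comm, Real.dist_eq]
      linarith [hy j]
    rcases abs_cases (s - a j) with e | e
    · exact le_add_left (ENNReal.ofReal_le_ofReal (Real.rpow_le_rpow_of_nonpos (q s g).2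
        (by linarith [e.1]) (by norm_num)))
    · exact le_add_right (ENNReal.ofReal_le_ofReal (Real.rpow_le_rpow_of_nonpos (q s g).1
        (by linarith [e.1]) (by norm_num)))
  refine (lintegral_add_left (meas_g.comp m1.measurable) _).trans_le ?_
  rw [show 6 * L ^ (3 / 4 : ℝ) = 3 * L ^ (3 / 4 : ℝ) + 3 * L ^ (3 / 4 : ℝ) by ring,
    ENNReal.ofReal_add (by positivity) (by positivity)]
  exact add_le_add (base m1 hL hJ fun s g => (q s g).1) (base m2 hL hJ fun s g => (q s g).2)

lemma meas1 (h : Gaps a α) (hne : (Cant a α).Nonempty) : ∃ B, 0 ≤ B ∧ ∀ (x r : ℝ), 0 < r →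
    ∫⁻ s in ball x r, ENNReal.ofReal (infDist s (Cant a α) ^ (-(1 / 4) : ℝ)) ≤
      ENNReal.ofReal (B * r ^ (3 / 4 : ℝ)) := by
  set q : ℝ := (1 / 2) ^ (3 / 4 : ℝ) with hq
  have q0 : 0 ≤ q := by positivity
  have q1 : q < 1 := Real.rpow_lt_one (by norm_num) (by norm_num) (by norm_num)
  have q2 : 0 ≤ (1 - q)⁻¹ := inv_nonneg.2 (by linarith)
  refine ⟨6 * 2 ^ (3 / 4 : ℝ) + 6 * (1 - q)⁻¹, by positivity, fun x r hr => ?_⟩
  obtain ⟨n, j, hn, hc⟩ := cover h x hr
  have p := Real.rpow_pos_of_pos hr (3 / 4 : ℝ)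
  have s1 : ball x r ⊆ Cant a α ∪ ((ball x r ∩ ball (a j) (α j)) ∪
      ⋃ k, ball (a (n + k)) (α (n + k))) := fun s hs =>
    (em (s ∈ Cant a α)).imp id fun g => hc ⟨hs, g⟩
  refine (lintegral_mono_set s1).trans ((lintegral_union_le _ _ _).trans ?_)
  have z : ∫⁻ s in Cant a α, ENNReal.ofReal (infDist s (Cant a α) ^ (-(1 / 4) : ℝ)) = 0 := by
    refine le_antisymm ((setLIntegral_mono (g := fun _ => 0) measurable_const
      fun s hs => ?_).trans (by simp)) zero_le
    rw [infDist_zero_of_mem hs, Real.zero_rpow (by norm_num), ENNReal.ofReal_zero]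
  rw [z, zero_add, add_mul, ENNReal.ofReal_add (by positivity) (by positivity)]
  refine (lintegral_union_le _ _ _).trans (add_le_add ?_ ((lintegral_iUnion_le _ _).trans ?_))
  · refine (on_gap hne j (L := 2 * r) (by positivity) ((measure_mono inter_subset_left).trans
      (Real.volume_ball x r).le) inter_subset_right).trans (le_of_eq ?_)
    rw [Real.mul_rpow (by norm_num) hr.le, mul_assoc]
  · have t : ∀ k, ∫⁻ s in ball (a (n + k)) (α (n + k)),
        ENNReal.ofReal (infDist s (Cant a α) ^ (-(1 / 4) : ℝ)) ≤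
          ENNReal.ofReal (6 * r ^ (3 / 4 : ℝ) * q ^ k) := fun k => by
      refine (on_gap hne (n + k) (L := r * (1 / 2) ^ k) (by positivity) ((vol_gap h n k).trans
        (ENNReal.ofReal_le_ofReal (mul_le_mul_of_nonneg_right (by linarith) (by positivity))))
        subset_rfl).trans (le_of_eq ?_)
      rw [Real.mul_rpow hr.le (by positivity), mul_assoc, hq,
        Real.rpow_pow_comm (by norm_num)]
    refine (ENNReal.tsum_le_tsum t).trans (le_of_eq ?_)
    rw [← ENNReal.ofReal_tsum_of_nonneg (fun k => by positivity)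
      ((summable_geometric_of_lt_one q0 q1).mul_left _), tsum_mul_left,
      tsum_geometric_of_lt_one q0 q1]
    congr 1; ring

end GapsAux

open GapsAux

theorem cant_near (h : Gaps a α) (n : ℕ) (s : ℝ) (hs : ∀ j < n, α j + 5 * α n ≤ |s - a j|) :
    ∃ c ∈ Cant a α, |c - s| ≤ 5 * α n := by
  by_contra g
  have s1 : closedBall s (5 * α n) ⊆ ⋃ k, ball (a (n + k)) (α (n + k)) := by
    intro c hc
    rw [mem_closedBall, Real.dist_eq] at hc
    obtain ⟨j, hj⟩ := not_forall.1 fun g' : c ∈ Cant a α => g ⟨c, g', hc⟩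
    rcases le_or_gt n j with g1 | g1
    · obtain ⟨k, rfl⟩ := Nat.exists_eq_add_of_le g1
      exact mem_iUnion.2 ⟨k, by rwa [mem_ball, Real.dist_eq, ← not_le]⟩
    · have := abs_sub_le s c (a j)
      rw [abs_sub_comm s c] at this
      exact (hj (by linarith [hs j g1])).elim
  have s2 := (measure_mono (μ := volume) s1).trans (tail h n)
  have hp := h.pos n
  rw [Real.volume_closedBall, ENNReal.ofReal_le_ofReal_iff (by positivity)] at s2
  linarith

theorem isClosed_cant (a α : ℕ → ℝ) : IsClosed (Cant a α) := by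
  rw [Cant, ofPred_forall]
  exact isClosed_iInter fun n => isClosed_le continuous_const (by fun_prop)

theorem dom_eset (ha : Gaps a α) (hb : Gaps b β) : Dom (Eset a α b β) := by
  obtain ⟨x, hx, -⟩ := cant_near ha 0 0 (by simp)
  obtain ⟨y, hy, -⟩ := cant_near hb 0 0 (by simp)
  exact ⟨((isClosed_cant a α).preimage Complex.continuous_re).inter
    ((isClosed_cant b β).preimage Complex.continuous_im), ⟨x, y⟩, hx, hy⟩

theorem eset_bdd (ha : Gaps a α) (hb : Gaps b β) (z : ℂ) : infDist z (Eset a α b β) ≤ 1 := by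
  obtain ⟨x, hx, hx'⟩ := cant_near ha 0 z.re (by simp)
  obtain ⟨y, hy, hy'⟩ := cant_near hb 0 z.im (by simp)
  refine (infDist_le_dist_of_mem (show (⟨x, y⟩ : ℂ) ∈ Eset a α b β from ⟨hx, hy⟩)).trans ?_
  rw [dist_comm, Complex.dist_eq]
  refine (Complex.norm_le_abs_re_add_abs_im _).trans ?_
  simp only [Complex.sub_re, Complex.sub_im]
  linarith [ha.small, hb.small]

theorem eset_fat (ha : Gaps a α) (hb : Gaps b β) : ∃ c > 0, Fat (Eset a α b β) c := by
  refine ⟨1 / 16, by norm_num, fun ξ hξ r hr => ?_⟩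
  have s1 : Complex.measurableEquivRealProd ⁻¹'
      ((Cant a α ∩ ball ξ.re (r / 2)) ×ˢ (Cant b β ∩ ball ξ.im (r / 2))) ⊆
        Eset a α b β ∩ ball ξ r := by
    rintro z ⟨⟨h1, h2⟩, h3, h4⟩
    refine ⟨⟨h1, h3⟩, ?_⟩
    rw [mem_ball, Complex.dist_eq]
    refine (Complex.norm_le_abs_re_add_abs_im _).trans_lt ?_
    rw [mem_ball, Real.dist_eq] at h2 h4
    simp only [Complex.measurableEquivRealProd_apply] at h2 h4
    simp only [Complex.sub_re, Complex.sub_im]
    linarith
  refine le_trans ?_ (measure_mono s1)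
  rw [Complex.volume_preserving_equiv_real_prod.measure_preimage_equiv, Measure.volume_eq_prod,
    Measure.prod_prod]
  refine le_trans (le_of_eq ?_) (mul_le_mul' (fat1 ha hξ.1 (half_pos hr))
    (fat1 hb hξ.2 (half_pos hr)))
  rw [← ENNReal.ofReal_mul (by positivity)]
  congr 1; ring

theorem eset_meas (ha : Gaps a α) (hb : Gaps b β) : ∃ A, MeasCond (Eset a α b β) A := by
  obtain ⟨hcl, hne⟩ := dom_eset ha hb
  obtain ⟨w, w1, w2⟩ := id hne
  obtain ⟨B, B0, hB⟩ := meas1 ha ⟨_, w1⟩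
  obtain ⟨B', B0', hB'⟩ := meas1 hb ⟨_, w2⟩
  refine ⟨2 * B + 2 * B', fun p r hr => ?_⟩
  have m1 : Measurable fun s : ℝ => ENNReal.ofReal (infDist s (Cant a α) ^ (-(1 / 4) : ℝ)) :=
    meas_g.comp (continuous_infDist_pt _).measurable
  have m2 : Measurable fun s : ℝ => ENNReal.ofReal (infDist s (Cant b β) ^ (-(1 / 4) : ℝ)) :=
    meas_g.comp (continuous_infDist_pt _).measurable
  have m3 := (m1.comp (measurable_fst (β := ℝ))).add (m2.comp measurable_snd)
  have s1 : ball p r \ Eset a α b β ⊆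
      Complex.measurableEquivRealProd ⁻¹' (ball p.re r ×ˢ ball p.im r) := by
    rintro z ⟨hz, -⟩
    rw [mem_ball, Complex.dist_eq] at hz
    exact ⟨(Complex.abs_re_le_norm (z - p)).trans_lt hz,
      (Complex.abs_im_le_norm (z - p)).trans_lt hz⟩
  refine (setLIntegral_mono (m3.comp Complex.measurableEquivRealProd.measurable)
    fun z hz => ?_).trans ((lintegral_mono_set s1).trans ?_)
  · rcases not_and_or.1 hz.2 with g | g
    · refine le_add_right (ENNReal.ofReal_le_ofReal (Real.rpow_le_rpow_of_nonpos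
        (((isClosed_cant a α).notMem_iff_infDist_pos ⟨_, w1⟩).1 g)
        ((le_infDist hne).2 fun y hy => (infDist_le_dist_of_mem hy.1).trans ?_) (by norm_num)))
      rw [Complex.dist_eq]
      exact Complex.abs_re_le_norm (z - y)
    · refine le_add_left (ENNReal.ofReal_le_ofReal (Real.rpow_le_rpow_of_nonpos
        (((isClosed_cant b β).notMem_iff_infDist_pos ⟨_, w2⟩).1 g)
        ((le_infDist hne).2 fun y hy => (infDist_le_dist_of_mem hy.2).trans ?_) (by norm_num)))
      rw [Complex.dist_eq]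
      exact Complex.abs_im_le_norm (z - y)
  refine (Complex.volume_preserving_equiv_real_prod.setLIntegral_comp_preimage
    (measurableSet_ball.prod measurableSet_ball) m3).trans_le ?_
  rw [Measure.volume_eq_prod, ← Measure.prod_restrict, lintegral_prod _ m3.aemeasurable]
  simp only [Function.comp, Pi.add_apply]
  have p1 := Real.rpow_pos_of_pos hr (3 / 4 : ℝ)
  have e : r ^ (7 / 4 : ℝ) = r ^ (3 / 4 : ℝ) * r := by
    rw [← Real.rpow_add_one hr.ne']; norm_num
  simp only [lintegral_add_left measurable_const, setLIntegral_const, Real.volume_ball]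
  rw [lintegral_add_right _ measurable_const, lintegral_mul_const _ m1, setLIntegral_const,
    Real.volume_ball, ← add_mul]
  refine (mul_le_mul' (add_le_add (hB _ r hr) (hB' _ r hr)) le_rfl).trans (le_of_eq ?_)
  rw [← ENNReal.ofReal_add (by positivity) (by positivity), ← ENNReal.ofReal_mul (by positivity), e]
  congr 1; ring

end Pool.Agent.Lib.MP_44acff_gt.NU
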