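import Pool.Agent.Lib.MP_44acff_gt.H70Base

/-! Maps that are near similarities at all scales. -/

namespace Pool.Agent.Lib.MP_44acff_gt.NU

open Set Metric MeasureTheory Filter Topology ComplexConjugate
open scoped ContDiff

variable {F : ℂ → ℂ} {η : ℝ}

theorem NS.mono {η' : ℝ} (h : NS F η) (hη : η ≤ η') : NS F η' := by
  intro x s hs
  obtain ⟨κ, hκ, hk⟩ := h x s hs
  refine ⟨κ, hκ, fun u hu => (hk u hu).trans ?_⟩
  have := norm_nonneg κ
  gcongr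

namespace NSAux

theorem near {a b : ℂ} {e : ℝ} (h : ‖a - b‖ ≤ e) : ‖a‖ ≤ ‖b‖ + e ∧ ‖b‖ - e ≤ ‖a‖ := by
  have h1 := norm_sub_norm_le a b
  have h2 := norm_sub_norm_le b a
  rw [norm_sub_rev b a] at h2
  constructor <;> linarith

/-- Comparison of the increments at two consecutive dyadic scales. -/
theorem half (h : NS F (1 / 30)) (x u : ℂ) :
    ‖F (x + u) - F x‖ ≤ 16 / 29 * ‖F (x + 2 * u) - F x‖ ∧
      14 / 31 * ‖F (x + 2 * u) - F x‖ ≤ ‖F (x + u) - F x‖ := by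
  rcases eq_or_ne u 0 with rfl | hu
  · simp
  have hu' : 0 < ‖u‖ := norm_pos_iff.2 hu
  obtain ⟨κ, -, hk⟩ := h x (2 * ‖u‖) (by linarith)
  have h1 := near (hk u (by linarith))
  have h2 := near (hk (2 * u) (by simp))
  rw [norm_mul] at h1
  rw [norm_mul, norm_mul, Complex.norm_two] at h2
  have h3 : 0 ≤ ‖κ‖ * ‖u‖ := by positivity
  constructor <;> nlinarith [h1.1, h1.2, h2.1, h2.2]

theorem iter (h : NS F (1 / 30)) (x u : ℂ) (n : ℕ) :
    ‖F (x + u) - F x‖ ≤ (16 / 29) ^ n * ‖F (x + 2 ^ n * u) - F x‖ ∧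
      (14 / 31) ^ n * ‖F (x + 2 ^ n * u) - F x‖ ≤ ‖F (x + u) - F x‖ := by
  induction n with
  | zero => simp
  | succ n ih =>
    have h1 := half h x (2 ^ n * u)
    rw [show 2 * (2 ^ n * u) = 2 ^ (n + 1) * u by ring] at h1
    have p1 : (0 : ℝ) ≤ (16 / 29) ^ n := by positivity
    have p2 : (0 : ℝ) ≤ (14 / 31) ^ n := by positivity
    constructor
    · calc _ ≤ _ := ih.1
        _ ≤ (16 / 29) ^ n * (16 / 29 * ‖F (x + 2 ^ (n + 1) * u) - F x‖) :=
          mul_le_mul_of_nonneg_left h1.1 p1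
        _ = _ := by ring
    · calc _ = (14 / 31) ^ n * (14 / 31 * ‖F (x + 2 ^ (n + 1) * u) - F x‖) := by ring
        _ ≤ (14 / 31) ^ n * ‖F (x + 2 ^ n * u) - F x‖ := mul_le_mul_of_nonneg_left h1.2 p2
        _ ≤ _ := ih.2

/-- Bounds at the top scale. -/
theorem top (h : NS F (1 / 30)) {s : ℝ} (hs : 0 < s) : ∃ a b : ℝ, 0 < a ∧ 0 < b ∧
    ∀ x u : ℂ, ‖x‖ ≤ s → s ≤ ‖u‖ → ‖u‖ ≤ 2 * s →
      a ≤ ‖F (x + u) - F x‖ ∧ ‖F (x + u) - F x‖ ≤ b := by
  obtain ⟨κ, hκ, hk⟩ := h 0 (3 * s) (by linarith)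
  have hκ' : 0 < ‖κ‖ := norm_pos_iff.2 hκ
  refine ⟨‖κ‖ * s / 2, 3 * (‖κ‖ * s), by positivity, by positivity, fun x u hx h1 h2 => ?_⟩
  have h3 := hk x (by linarith)
  have h4 := hk (x + u) ((norm_add_le x u).trans (by linarith))
  rw [zero_add] at h3 h4
  have h5 : ‖F (x + u) - F x - κ * u‖ ≤ ‖κ‖ * s / 5 := by
    have : F (x + u) - F x - κ * u = (F (x + u) - F 0 - κ * (x + u)) - (F x - F 0 - κ * x) := by
      ring
    rw [this]
    refine (norm_sub_le _ _).trans ?_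
    linarith
  have h6 := near h5
  rw [norm_mul] at h6
  have h7 : ‖κ‖ * s ≤ ‖κ‖ * ‖u‖ := by gcongr
  have h8 : ‖κ‖ * ‖u‖ ≤ ‖κ‖ * (2 * s) := by gcongr
  have h9 : 0 < ‖κ‖ * s := by positivity
  constructor <;> nlinarith [h6.1, h6.2]

theorem rpow_five {t : ℝ} (ht : 0 ≤ t) (k : ℕ) : (t ^ ((k : ℝ) / 5)) ^ 5 = t ^ k := by
  rw [← Real.rpow_natCast, ← Real.rpow_mul ht, ← Real.rpow_natCast]
  congr 1
  push_cast
  ring

theorem holder (h : NS F (1 / 30)) (R : ℝ) : ∃ C > 0,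
    ∀ x ∈ closedBall (0 : ℂ) R, ∀ y ∈ closedBall (0 : ℂ) R,
      ‖F x - F y‖ ≤ C * ‖x - y‖ ^ (4 / 5 : ℝ) ∧ ‖x - y‖ ^ (6 / 5 : ℝ) ≤ C * ‖F x - F y‖ := by
  set s := |R| + 1 with hs
  have hs1 : 1 ≤ s := by linarith [abs_nonneg R]
  have hRs : R ≤ s := by linarith [le_abs_self R]
  obtain ⟨a, b, ha, hb, hab⟩ := top h (by linarith : 0 < s)
  refine ⟨b + (2 * s) ^ 2 / a, by positivity, fun x hx y hy => ?_⟩
  rw [mem_closedBall_zero_iff] at hx hy
  rcases eq_or_ne x y with rfl | hxy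
  · simp
  have ht : 0 < ‖x - y‖ := norm_pos_iff.2 (sub_ne_zero.2 hxy)
  have ht2 : ‖x - y‖ ≤ 2 * s := (norm_sub_le x y).trans (by linarith)
  obtain ⟨n, hn1, hn2⟩ := exists_nat_pow_near ((one_le_div ht).2 ht2) (one_lt_two (α := ℝ))
  rw [le_div_iff₀ ht] at hn1
  rw [div_lt_iff₀ ht, pow_succ] at hn2
  have hn3 : s ≤ 2 ^ n * ‖x - y‖ := by linarith
  have hnorm : ‖(2 : ℂ) ^ n * (x - y)‖ = 2 ^ n * ‖x - y‖ := by
    rw [norm_mul, norm_pow, Complex.norm_two]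
  obtain ⟨h1, h2⟩ := hab y (2 ^ n * (x - y)) (by linarith) (by rw [hnorm]; exact hn3)
    (by rw [hnorm]; exact hn1)
  obtain ⟨h3, h4⟩ := iter h y (x - y) n
  rw [add_sub_cancel] at h3 h4
  set g := ‖F x - F y‖ with hg
  set t := ‖x - y‖ with ht'
  have hg0 : 0 ≤ g := norm_nonneg _
  have h5 : g ≤ (16 / 29) ^ n * b := h3.trans (by gcongr)
  have h6 : (14 / 31) ^ n * a ≤ g := le_trans (by gcongr) h4
  have p2 : (0 : ℝ) < 2 ^ n := by positivity
  constructor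
  · have h7 : g ≤ b * t ^ (4 / 5 : ℝ) := by
      refine h5.trans ?_
      rw [mul_comm]
      refine mul_le_mul_of_nonneg_left ?_ hb.le
      refine le_of_pow_le_pow_left₀ (n := 5) (by norm_num) (by positivity) ?_
      have := rpow_five ht.le 4
      push_cast at this
      rw [this, ← pow_mul, mul_comm, pow_mul]
      calc (((16 : ℝ) / 29) ^ 5) ^ n ≤ ((1 / 2) ^ 4) ^ n := by
            gcongr
            norm_num
        _ = ((2 ^ n)⁻¹) ^ 4 := by rw [← pow_mul, mul_comm, pow_mul, one_div, inv_pow]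
        _ ≤ t ^ 4 := by
            gcongr
            rw [inv_le_iff_one_le_mul₀' p2]
            linarith
    refine h7.trans ?_
    have : 0 ≤ (2 * s) ^ 2 / a := by positivity
    gcongr
    linarith
  · have h7 : t ^ (6 / 5 : ℝ) ≤ (2 * s) ^ 2 * (14 / 31) ^ n := by
      refine le_of_pow_le_pow_left₀ (n := 5) (by norm_num) (by positivity) ?_
      have := rpow_five ht.le 6
      push_cast at this
      rw [this, mul_pow, ← pow_mul (14 / 31 : ℝ), mul_comm n, pow_mul, ← pow_mul (2 * s)]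
      calc t ^ 6 ≤ (2 * s * (2 ^ n)⁻¹) ^ 6 := by
            gcongr
            rw [← div_eq_mul_inv, le_div_iff₀ p2]
            linarith
        _ = (2 * s) ^ 6 * ((1 / 2) ^ 6) ^ n := by
            rw [mul_pow, ← pow_mul (1 / 2 : ℝ), mul_comm 6 n, pow_mul, one_div, inv_pow 2 n]
        _ ≤ (2 * s) ^ (2 * 5) * ((14 / 31) ^ 5) ^ n := by
            gcongr
            · linarith
            · norm_num
            · norm_num
    calc t ^ (6 / 5 : ℝ) ≤ (2 * s) ^ 2 * (14 / 31) ^ n := h7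
      _ = (2 * s) ^ 2 / a * ((14 / 31) ^ n * a) := by field_simp
      _ ≤ (2 * s) ^ 2 / a * g := by gcongr
      _ ≤ _ := by
          gcongr
          linarith

theorem continuous (h : NS F (1 / 30)) : Continuous F := by
  rw [continuous_iff_continuousAt]
  intro x
  obtain ⟨C, -, hC⟩ := holder h (‖x‖ + 1)
  rw [ContinuousAt, tendsto_iff_norm_sub_tendsto_zero]
  have h1 : Tendsto (fun y : ℂ => C * ‖y - x‖ ^ (4 / 5 : ℝ)) (𝓝 x) (𝓝 0) := by
    have h2 : Continuous fun y : ℂ => C * ‖y - x‖ ^ (4 / 5 : ℝ) :=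
      continuous_const.mul ((continuous_id.sub continuous_const).norm.rpow_const
        fun _ => Or.inr (by norm_num))
    have := h2.tendsto x
    simpa using this
  refine squeeze_zero' (Eventually.of_forall fun _ => norm_nonneg _) ?_ h1
  filter_upwards [closedBall_mem_nhds_of_mem
    (mem_ball_zero_iff.2 (by linarith : ‖x‖ < ‖x‖ + 1))] with y hy
  exact (hC y hy x (mem_closedBall_zero_iff.2 (by linarith))).1

theorem injective (h : NS F (1 / 30)) : Function.Injective F := by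
  intro x y hxy
  obtain ⟨C, -, hC⟩ := holder h (‖x‖ + ‖y‖)
  have h1 := (hC x (mem_closedBall_zero_iff.2 (by linarith [norm_nonneg y])) y
    (mem_closedBall_zero_iff.2 (by linarith [norm_nonneg x]))).2
  rw [hxy, sub_self, norm_zero, mul_zero] at h1
  by_contra hne
  have : 0 < ‖x - y‖ ^ (6 / 5 : ℝ) :=
    Real.rpow_pos_of_pos (norm_pos_iff.2 (sub_ne_zero.2 hne)) _
  linarith

theorem step (h : NS F (1 / 30)) (b x : ℂ) {s : ℝ} (hs : 0 < s)
    (hb : ‖b - F x‖ ≤ 2 / 5 * ‖F (x + s) - F x‖) :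
    ∃ x', ‖x' - x‖ ≤ s / 2 ∧ ‖b - F x'‖ ≤ 2 / 5 * ‖F (x' + (s / 2 : ℝ)) - F x'‖ := by
  obtain ⟨κ, hκ, hk⟩ := h x s hs
  have hκ' : 0 < ‖κ‖ := norm_pos_iff.2 hκ
  have hns : ‖(s : ℂ)‖ = s := by rw [Complex.norm_real, Real.norm_of_nonneg hs.le]
  have hns2 : ‖((s / 2 : ℝ) : ℂ)‖ = s / 2 := by
    rw [Complex.norm_real, Real.norm_of_nonneg (by linarith)]
  have h1 := (near (hk s hns.le)).1
  rw [norm_mul, hns] at h1
  have h0 : 0 < ‖κ‖ * s := by positivity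
  set u := (b - F x) / κ with hu
  have hu1 : κ * u = b - F x := by rw [hu]; field_simp
  have hu2 : ‖u‖ ≤ s / 2 := by
    rw [hu, norm_div, div_le_iff₀ hκ']
    nlinarith
  have h2 := hk u (by linarith)
  have h3 := hk (u + (s / 2 : ℝ)) ((norm_add_le _ _).trans (by rw [hns2]; linarith))
  have h4 : ‖F (x + u + (s / 2 : ℝ)) - F (x + u) - κ * (s / 2 : ℝ)‖ ≤ ‖κ‖ * s / 15 := by
    have : F (x + u + (s / 2 : ℝ)) - F (x + u) - κ * (s / 2 : ℝ) =
        (F (x + (u + (s / 2 : ℝ))) - F x - κ * (u + (s / 2 : ℝ))) -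
          (F (x + u) - F x - κ * u) := by
      rw [add_assoc]
      ring
    rw [this]
    refine (norm_sub_le _ _).trans ?_
    linarith
  have h5 := (near h4).2
  rw [norm_mul, hns2] at h5
  refine ⟨x + u, by rwa [add_sub_cancel_left], ?_⟩
  rw [hu1, show F (x + u) - F x - (b - F x) = -(b - F (x + u)) by ring, norm_neg] at h2
  nlinarith

/-- Quantitative local surjectivity. -/
theorem solve (h : NS F (1 / 30)) (b x : ℂ) {s : ℝ} (hs : 0 < s)
    (hb : ‖b - F x‖ ≤ 2 / 5 * ‖F (x + s) - F x‖) : ∃ y, ‖y - x‖ ≤ s ∧ F y = b := by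
  have key : ∀ (z : ℂ) (r : ℝ), ∃ z', 0 < r → ‖b - F z‖ ≤ 2 / 5 * ‖F (z + r) - F z‖ →
      ‖z' - z‖ ≤ r / 2 ∧ ‖b - F z'‖ ≤ 2 / 5 * ‖F (z' + (r / 2 : ℝ)) - F z'‖ := by
    intro z r
    by_cases hc : 0 < r ∧ ‖b - F z‖ ≤ 2 / 5 * ‖F (z + r) - F z‖
    · obtain ⟨z', hz'⟩ := step h b z hc.1 hc.2
      exact ⟨z', fun _ _ => hz'⟩
    · exact ⟨0, fun h1 h2 => absurd ⟨h1, h2⟩ hc⟩
  choose nx hnx using key
  let f : ℕ → ℂ := fun n => Nat.rec x (fun k z => nx z (s / 2 ^ k)) n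
  have hf : ∀ n, f (n + 1) = nx (f n) (s / 2 ^ n) := fun n => rfl
  have hinv : ∀ n, ‖b - F (f n)‖ ≤ 2 / 5 * ‖F (f n + (s / 2 ^ n : ℝ)) - F (f n)‖ := by
    intro n
    induction n with
    | zero => simpa [f] using hb
    | succ n ih =>
      have := (hnx (f n) (s / 2 ^ n) (by positivity) ih).2
      rwa [← hf, div_div, ← pow_succ] at this
  have hd : ∀ n, dist (f n) (f (n + 1)) ≤ s / 2 / 2 ^ n := by
    intro n
    have := (hnx (f n) (s / 2 ^ n) (by positivity) (hinv n)).1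
    rw [← hf] at this
    rw [dist_comm, dist_eq_norm, div_right_comm]
    exact this
  obtain ⟨y, hy⟩ := cauchySeq_tendsto_of_complete (cauchySeq_of_le_geometric_two hd)
  have h1 := dist_le_of_le_geometric_two_of_tendsto₀ hd hy
  refine ⟨y, by rw [← dist_eq_norm, dist_comm]; exact h1, ?_⟩
  have hc := continuous h
  have t0 : Tendsto (fun n : ℕ => s / 2 ^ n) atTop (𝓝 0) :=
    tendsto_const_nhds.div_atTop (tendsto_pow_atTop_atTop_of_one_lt one_lt_two)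
  have t1 : Tendsto (fun n : ℕ => f n + ((s / 2 ^ n : ℝ) : ℂ)) atTop (𝓝 y) := by
    have := hy.add (Complex.continuous_ofReal.tendsto 0 |>.comp t0)
    simpa using this
  have t2 : Tendsto (fun n => F (f n)) atTop (𝓝 (F y)) := (hc.tendsto y).comp hy
  have t3 := ((((hc.tendsto y).comp t1).sub t2).norm).const_mul (2 / 5 : ℝ)
  have t4 := (t2.const_sub b).norm
  have h2 := le_of_tendsto_of_tendsto' t4 t3 hinv
  rw [sub_self, norm_zero, mul_zero] at h2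
  exact (sub_eq_zero.1 (norm_le_zero_iff.1 h2)).symm

theorem inc_pos (h : NS F (1 / 30)) (x : ℂ) {s : ℝ} (hs : 0 < s) : 0 < ‖F (x + s) - F x‖ := by
  refine norm_pos_iff.2 (sub_ne_zero.2 fun h1 => ?_)
  have := injective h h1
  rw [add_eq_left, Complex.ofReal_eq_zero] at this
  exact hs.ne' this

theorem grow (h : NS F (1 / 30)) (x : ℂ) (B : ℝ) : ∃ s : ℝ, 0 < s ∧ B ≤ ‖F (x + s) - F x‖ := by
  have h0 := inc_pos h x one_pos
  rw [Complex.ofReal_one] at h0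
  obtain ⟨n, hn⟩ := pow_unbounded_of_one_lt (B / ‖F (x + 1) - F x‖) (by norm_num : (1 : ℝ) < 29 / 16)
  rw [div_lt_iff₀ h0] at hn
  have h1 := (iter h x 1 n).1
  refine ⟨2 ^ n, by positivity, hn.le.trans ?_⟩
  push_cast
  rw [mul_one] at h1
  calc (29 / 16 : ℝ) ^ n * ‖F (x + 1) - F x‖
      ≤ (29 / 16 : ℝ) ^ n * ((16 / 29) ^ n * ‖F (x + 2 ^ n) - F x‖) := by gcongr
    _ = _ := by
      rw [← mul_assoc, ← mul_pow]
      norm_num

theorem surjective (h : NS F (1 / 30)) : Function.Surjective F := by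
  intro b
  obtain ⟨s, hs, hB⟩ := grow h 0 (5 / 2 * ‖b - F 0‖)
  obtain ⟨y, -, hy⟩ := solve h b 0 hs (by linarith)
  exact ⟨y, hy⟩

theorem isOpenMap (h : NS F (1 / 30)) : IsOpenMap F := by
  intro U hU
  rw [Metric.isOpen_iff]
  rintro _ ⟨x, hx, rfl⟩
  obtain ⟨e, he, hUe⟩ := Metric.isOpen_iff.1 hU x hx
  have h0 := inc_pos h x (half_pos he)
  refine ⟨2 / 5 * ‖F (x + (e / 2 : ℝ)) - F x‖, by positivity, fun b hb => ?_⟩
  rw [mem_ball, dist_eq_norm] at hb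
  obtain ⟨y, hy, rfl⟩ := solve h b x (half_pos he) hb.le
  refine ⟨y, hUe ?_, rfl⟩
  rw [mem_ball, dist_eq_norm]
  linarith

theorem exists_scale (h : NS F (1 / 30)) (x : ℂ) {B : ℝ} (hB : 0 < B) :
    ∃ s : ℝ, 0 < s ∧ ‖F (x + s) - F x‖ = B := by
  obtain ⟨S, hS, hSB⟩ := grow h x B
  have hc : Continuous fun s : ℝ => ‖F (x + s) - F x‖ :=
    (((continuous h).comp (continuous_const.add Complex.continuous_ofReal)).sub
      continuous_const).norm
  obtain ⟨s, hs, hsB⟩ := intermediate_value_Icc hS.le hc.continuousOn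
    (show B ∈ Icc _ _ from ⟨by simpa using hB.le, hSB⟩)
  refine ⟨s, lt_of_le_of_ne hs.1 ?_, hsB⟩
  rintro rfl
  simp only [Complex.ofReal_zero, add_zero, sub_self, norm_zero] at hsB
  exact hB.ne hsB

end NSAux

theorem ns_holder (h : NS F η) (hη : η ≤ 1 / 30) (R : ℝ) : ∃ C > 0,
    ∀ x ∈ closedBall (0 : ℂ) R, ∀ y ∈ closedBall (0 : ℂ) R,
      ‖F x - F y‖ ≤ C * ‖x - y‖ ^ (4 / 5 : ℝ) ∧ ‖x - y‖ ^ (6 / 5 : ℝ) ≤ C * ‖F x - F y‖ :=
  NSAux.holder (h.mono hη) R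

theorem ns_homeo (h : NS F η) (hη : η ≤ 1 / 30) : ∃ H : ℂ ≃ₜ ℂ, ⇑H = F := by
  have h' := h.mono hη
  have hF : IsHomeomorph F :=
    ⟨NSAux.continuous h', NSAux.isOpenMap h', NSAux.injective h', NSAux.surjective h'⟩
  exact ⟨hF.homeomorph F, rfl⟩

theorem ns_symm {H : ℂ ≃ₜ ℂ} (h : NS H η) (hη : η ≤ 1 / 30) : NS H.symm (3 * η) := by
  have h' := h.mono hη
  intro y r hr
  obtain ⟨x, rfl⟩ := H.surjective y
  obtain ⟨s, hs, hsB⟩ := NSAux.exists_scale h' x (by positivity : 0 < 5 / 2 * r)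
  obtain ⟨κ, hκ, hk⟩ := h x s hs
  have hκ' : 0 < ‖κ‖ := norm_pos_iff.2 hκ
  have h0 : 0 < ‖κ‖ * s := by positivity
  have hη0 : 0 ≤ η := by
    have := hk 0 (by simpa using hs.le)
    simp only [add_zero, sub_self, mul_zero, norm_zero] at this
    rw [mul_assoc] at this
    exact nonneg_of_mul_nonneg_left this h0
  have hns : ‖(s : ℂ)‖ = s := by rw [Complex.norm_real, Real.norm_of_nonneg hs.le]
  have h1 := (NSAux.near (hk s hns.le)).2
  rw [norm_mul, hns, hsB] at h1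
  have h2 : ‖κ‖ * s ≤ 3 * r := by nlinarith
  refine ⟨κ⁻¹, inv_ne_zero hκ, fun k hkr => ?_⟩
  obtain ⟨z, hz, hzk⟩ := NSAux.solve h' (H x + k) x hs (by rw [add_sub_cancel_left, hsB]; linarith)
  have h3 := hk (z - x) hz
  rw [add_sub_cancel, hzk, add_sub_cancel_left] at h3
  rw [← hzk, H.symm_apply_apply, H.symm_apply_apply,
    show z - x - κ⁻¹ * k = -(κ⁻¹ * (k - κ * (z - x))) by field_simp; ring, norm_neg, norm_mul]
  have h4 : 0 ≤ ‖κ⁻¹‖ := norm_nonneg _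
  calc ‖κ⁻¹‖ * ‖k - κ * (z - x)‖ ≤ ‖κ⁻¹‖ * (η * (3 * r)) := by
        refine mul_le_mul_of_nonneg_left (h3.trans ?_) h4
        rw [mul_assoc]
        exact mul_le_mul_of_nonneg_left h2 hη0
    _ = _ := by ring

end Pool.Agent.Lib.MP_44acff_gt.NU
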