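import Pool.Agent.Lib.MP_44acff_gt.H70Supp
import Pool.Agent.Lib.MP_44acff_gt.H70Body
import Pool.Agent.Lib.MP_44acff_gt.H70NS

/-! The solution bounds a convex domain. -/

namespace Pool.Agent.Lib.MP_44acff_gt.NU

open Set Metric MeasureTheory Filter Topology ComplexConjugate
open scoped ContDiff

namespace GeoAux

/-- The height over the point with parameter `z`. -/
noncomputable def hgt (E : Set ℂ) (e : ℝ) (Θ : ℂ × ℂ → ℂ) : ℂ → ℝ :=
  Eᶜ.indicator fun z => √(e * (Θ (diag z)).re)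

variable {E : Set ℂ} {θ e η : ℝ} {lam : ℂ → ℝ} {Z Θ : ℂ × ℂ → ℂ}

theorem hgt_of_mem {z : ℂ} (hz : z ∈ E) : hgt E e Θ z = 0 :=
  indicator_of_notMem (not_not.2 hz) _

theorem hgt_of_notMem {z : ℂ} (hz : z ∉ E) : hgt E e Θ z = √(e * (Θ (diag z)).re) :=
  indicator_of_mem hz _

theorem hgt_nonneg (z : ℂ) : 0 ≤ hgt E e Θ z :=
  indicator_nonneg (fun _ _ => Real.sqrt_nonneg _) z

theorem hgt_le (hE : Dom E) (hθ : 0 < θ) (he : 0 < e) (hη : η ≤ 1 / 30)
    (h : Sol E θ lam e η Z Θ) (x : ℂ) :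
    hgt E e Θ x ≤ 5 * ‖Z (diag (x + (infDist x E / 4 : ℝ))) - Z (diag x)‖ := by
  by_cases hx : x ∈ E
  · rw [hgt_of_mem hx]
    positivity
  obtain ⟨a, -, ha⟩ := h.loc x hx
  have hd : 0 < infDist x E := (hE.closed.notMem_iff_infDist_pos hE.nonempty).1 hx
  set d := infDist x E with hdd
  have hn : ‖((d / 4 : ℝ) : ℂ)‖ = d / 4 := by
    rw [Complex.norm_real, Real.norm_of_nonneg (by positivity)]
  have hy : x + (d / 4 : ℝ) ∉ E := fun hy => by
    have := infDist_le_dist_of_mem (x := x) hy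
    rw [dist_self_add_right, hn] at this
    linarith
  have h1 := (ha _ (diag_mem hE hθ hx) (by rw [mid_diag, sub_self, norm_zero]; positivity)).2
  have h2 := (ha _ (diag_mem hE hθ hy) (by rw [mid_diag, add_sub_cancel_left, hn]; linarith)).1
  have h3 : (diag (x + (d / 4 : ℝ))).1 - x = (d / 4 : ℝ) := add_sub_cancel_left _ _
  rw [h3] at h2
  have h4 := norm_sub_norm_le (a * (d / 4 : ℝ)) (Z (diag (x + (d / 4 : ℝ))) - Z (diag x))
  rw [norm_sub_rev (a * _), norm_mul, hn] at h4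
  have h5 : 0 ≤ ‖a‖ * d := by positivity
  have h6 : η * ‖a‖ * d ≤ 1 / 30 * (‖a‖ * d) := by
    rw [mul_assoc]
    exact mul_le_mul_of_nonneg_right hη h5
  rw [hgt_of_notMem hx]
  refine le_trans (b := ‖a‖ * d) (Real.sqrt_le_iff.2 ⟨h5, ?_⟩) (by linarith)
  have h7 : e * (Θ (diag x)).re ≤ e * ‖Θ (diag x)‖ :=
    mul_le_mul_of_nonneg_left (Complex.re_le_norm _) he.le
  have h8 : η * (‖a‖ * d) ^ 2 ≤ 1 * (‖a‖ * d) ^ 2 :=
    mul_le_mul_of_nonneg_right (by linarith) (sq_nonneg _)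
  linarith

theorem smooth_sqrt (hE : Dom E) (hθ : 0 < θ) (he : 0 < e) (h : Sol E θ lam e η Z Θ) :
    ContDiffOn ℝ ∞ (fun z => √(e * (Θ (diag z)).re)) Eᶜ :=
  (contDiffOn_const.mul (Complex.reCLM.contDiff.comp_contDiffOn
    (contDiffOn_diag hE hθ h.holoΘ))).sqrt fun z hz => (mul_pos he (h.pos z hz)).ne'

theorem continuous_hgt (hE : Dom E) (hθ : 0 < θ) (he : 0 < e) (hη : η ≤ 1 / 30)
    (h : Sol E θ lam e η Z Θ) (hZ : Continuous fun z => Z (diag z)) :
    Continuous (hgt E e Θ) := by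
  refine continuous_iff_continuousAt.2 fun x => ?_
  by_cases hx : x ∈ E
  · have hc : Continuous fun x : ℂ =>
        5 * ‖Z (diag (x + (infDist x E / 4 : ℝ))) - Z (diag x)‖ :=
      continuous_const.mul ((hZ.comp (continuous_id.add (Complex.continuous_ofReal.comp
        ((continuous_infDist_pt E).div_const 4)))).sub hZ).norm
    have h1 := hc.tendsto x
    rw [infDist_zero_of_mem hx] at h1
    simp only [zero_div, Complex.ofReal_zero, add_zero, sub_self, norm_zero, mul_zero] at h1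
    rw [ContinuousAt, hgt_of_mem hx]
    exact squeeze_zero hgt_nonneg (hgt_le hE hθ he hη h) h1
  · have hn : Eᶜ ∈ 𝓝 x := hE.closed.isOpen_compl.mem_nhds hx
    refine ((smooth_sqrt hE hθ he h).continuousOn.continuousAt hn).congr ?_
    filter_upwards [hn] with z hz using (hgt_of_notMem hz).symm

end GeoAux

open GeoAux in
theorem geo {θ : ℝ} (hθ : 0 < θ) (hθ1 : θ ≤ 1) : ∃ η₂ > 0, ∀ (E : Set ℂ) (lam : ℂ → ℝ)
    (e η : ℝ) (Z Θ : ℂ × ℂ → ℂ), Dom E → interior E = ∅ → 0 < e → η ≤ η₂ →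
      Sol E θ lam e η Z Θ → ∃ C, IsDomainFor (sph ((fun z => Z (diag z)) '' Eᶜ)) C ∧
        ContDiffOn ℝ ∞ (emb e Z Θ) Eᶜ ∧ IsEmbedding (Eᶜ.domRestrict (emb e Z Θ)) ∧
        emb e Z Θ '' Eᶜ = bdry C := by
  obtain ⟨η₁, hη₁, hs⟩ := support hθ hθ1
  refine ⟨min η₁ (1 / 30), lt_min hη₁ (by norm_num), fun E lam e η Z Θ hE hi he hη h => ?_⟩
  have hη' : η ≤ 1 / 30 := hη.trans (min_le_right _ _)
  obtain ⟨H, hH⟩ := ns_homeo h.ns hη'
  have hH' : ∀ z, H z = Z (diag z) := congrFun hH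
  have hc := continuous_hgt hE hθ he hη' h (hH ▸ H.continuous)
  have hm : ∀ b, b ∈ H '' E ↔ H.symm b ∈ E := fun b => by
    rw [H.image_eq_preimage_symm, mem_preimage]
  have hsq : ∀ z ∉ E, hgt E e Θ z ^ 2 = e * (Θ (diag z)).re := fun z hz => by
    rw [hgt_of_notMem hz, Real.sq_sqrt (mul_pos he (h.pos z hz)).le]
  obtain ⟨h1, h2⟩ := body (E := H '' E) (t := fun b => hgt E e Θ (H.symm b))
    (H.isClosedMap _ hE.closed) (by rw [← H.image_interior, hi, image_empty])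
    (hc.comp H.symm.continuous) (fun b => hgt_nonneg _)
    (fun b => by
      rw [hm]
      refine ⟨fun hb => by_contra fun hb' => ?_, hgt_of_mem⟩
      have := hsq _ hb'
      rw [hb] at this
      linarith [mul_pos he (h.pos _ hb')])
    (fun b hb => by
      rw [hm] at hb
      obtain ⟨β, hβ⟩ := hs E lam e η Z Θ hE he (hη.trans (min_le_left _ _)) h _ hb
      refine ⟨β, ?_⟩
      filter_upwards [(H.symm.continuous.tendsto b).eventually hβ,
        (H.symm.continuous.tendsto b).eventually (hE.closed.isOpen_compl.mem_nhds hb)]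
        with b' h1 h2
      rw [← hH', ← hH', H.apply_symm_apply, H.apply_symm_apply] at h1
      rw [hsq _ hb, hsq _ h2]
      exact h1)
  have hsm : ContDiffOn ℝ ∞ (emb e Z Θ) Eᶜ :=
    (contDiffOn_diag hE hθ h.holoZ).prodMk (smooth_sqrt hE hθ he h)
  refine ⟨_, by rw [← hH, H.image_compl]; exact h1, hsm, ?_, ?_⟩
  · refine IsEmbedding.of_comp hsm.continuousOn.domRestrict continuous_fst ?_
    have : Prod.fst ∘ Eᶜ.domRestrict (emb e Z Θ) = H ∘ Subtype.val :=
      funext fun z => (hH' z).symm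
    rw [this]
    exact H.isEmbedding.comp IsEmbedding.subtypeVal
  · rw [h2]
    ext p
    constructor
    · rintro ⟨z, hz, rfl⟩
      have : H.symm (emb e Z Θ z).1 = z := H.symm_apply_eq.2 (hH' z).symm
      refine ⟨by rw [hm, this]; exact hz, ?_⟩
      simp only [this]
      exact (hgt_of_notMem hz).symm
    · rintro ⟨h3, h4⟩
      rw [hm] at h3
      refine ⟨H.symm p.1, h3, Prod.ext ((hH' _).symm.trans (H.apply_symm_apply _)) ?_⟩
      rw [h4]
      exact (hgt_of_notMem h3).symm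

end Pool.Agent.Lib.MP_44acff_gt.NU
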