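import Pool.Agent.Lib.MP_44acff_gt.H70Tube

/-! The cancellation of third derivatives. -/

namespace Pool.Agent.Lib.MP_44acff_gt.NU

open Set Metric MeasureTheory Filter Topology ComplexConjugate
open scoped ContDiff

namespace IdAux

variable {F G : ℂ × ℂ → ℂ} {p : ℂ × ℂ} {a b a' b' : ℂ}

/-- `F` is differentiable at `p` with the two given derivatives. -/
def HD (F : ℂ × ℂ → ℂ) (p : ℂ × ℂ) (a b : ℂ) : Prop :=
  DifferentiableAt ℂ F p ∧ dz F p = a ∧ dw F p = b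

theorem HD.of (h : DifferentiableAt ℂ F p) : HD F p (dz F p) (dw F p) := ⟨h, rfl, rfl⟩

theorem HD.one (p : ℂ × ℂ) : HD 1 p 0 0 :=
  ⟨differentiableAt_const _, dz_const 1 p, dw_const 1 p⟩

theorem HD.add (h : HD F p a b) (h' : HD G p a' b') : HD (F + G) p (a + a') (b + b') :=
  ⟨h.1.add h'.1, by rw [dz_add h.1 h'.1, h.2.1, h'.2.1], by rw [dw_add h.1 h'.1, h.2.2, h'.2.2]⟩

theorem HD.sub (h : HD F p a b) (h' : HD G p a' b') : HD (F - G) p (a - a') (b - b') :=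
  ⟨h.1.sub h'.1, by rw [dz_sub h.1 h'.1, h.2.1, h'.2.1], by rw [dw_sub h.1 h'.1, h.2.2, h'.2.2]⟩

theorem HD.neg (h : HD F p a b) : HD (-F) p (-a) (-b) :=
  ⟨h.1.neg, by rw [dz_neg, h.2.1], by rw [dw_neg, h.2.2]⟩

theorem HD.smul (c : ℂ) (h : HD F p a b) : HD (c • F) p (c * a) (c * b) :=
  ⟨h.1.const_smul c, by rw [dz_smul, h.2.1], by rw [dw_smul, h.2.2]⟩

theorem HD.mul (h : HD F p a b) (h' : HD G p a' b') :
    HD (F * G) p (a * G p + F p * a') (b * G p + F p * b') :=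
  ⟨h.1.mul h'.1, by rw [dz_mul h.1 h'.1, h.2.1, h'.2.1], by rw [dw_mul h.1 h'.1, h.2.2, h'.2.2]⟩

theorem HD.inv (h : HD F p a b) (h0 : F p ≠ 0) : HD F⁻¹ p (-a / F p ^ 2) (-b / F p ^ 2) :=
  ⟨h.1.inv h0, by rw [dz_inv h.1 h0, h.2.1], by rw [dw_inv h.1 h0, h.2.2]⟩

/-- Mixed derivatives of a logarithm commute. -/
theorem log_comm {V : Set (ℂ × ℂ)} (hV : IsOpen V) (hF : DifferentiableOn ℂ F V) (hp : p ∈ V)
    (hG : HD G p (dz F p) (dw F p)) (h0 : G p ≠ 0) :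
    dz (dw F * G⁻¹) p = dw (dz F * G⁻¹) p := by
  have h1 := HD.of ((holo_dw hV hF).differentiableAt (hV.mem_nhds hp))
  have h2 := HD.of ((holo_dz hV hF).differentiableAt (hV.mem_nhds hp))
  rw [(h1.mul (hG.inv h0)).2.1, (h2.mul (hG.inv h0)).2.2, dz_dw_comm hV hF hp]
  ring

theorem alg {e K M kz kw mz mw R rz rw s s' : ℂ} (hR : R ≠ 0) (h1 : 1 - -(e * (K * M)) ≠ 0)
    (h2 : 1 - e * (K * M) ≠ 0)
    (hI : (rz * K + R * kz) * (1 - -(e * (K * M)))⁻¹ +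
        R * K * (-(0 - -(e * (kz * M + K * mz))) / (1 - -(e * (K * M))) ^ 2) =
      (rw * M + R * mw) * (1 - -(e * (K * M)))⁻¹ +
        R * M * (-(0 - -(e * (kw * M + K * mw))) / (1 - -(e * (K * M))) ^ 2)) :
    e * (K * K) * (1 - e * (K * M) * (e * (K * M)))⁻¹ *
        (1 / 2 * (-(e * (M * M)) * s' + -(e * (mw * M + M * mw)) + s) +
          e * (kz * M + K * mz) * (1 - -(e * (K * M)))⁻¹) +
      e * (K * M) * (e * (K * M)) * (1 - e * (K * M) * (e * (K * M)))⁻¹ *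
        (1 / 2 * (-(e * (K * K)) * s + -(e * (kz * K + K * kz)) + s') +
          e * (kw * M + K * mw) * (1 - -(e * (K * M)))⁻¹) +
      (e * (K * M) * (rw / R) - e * (K * K) * (rz / R)) * (1 - e * (K * M) * (e * (K * M)))⁻¹ =
    e / 2 * ((M * kw - K * mw) * (1 - e * (K * M))⁻¹) -
      1 / 2 * (-(e * (K * K)) * s + -(e * (kz * K + K * kz)) +
        e * (kw * M + K * mw) * (1 - -(e * (K * M)))⁻¹) := by
  rw [sub_neg_eq_add] at h1 hI ⊢
  have h3 : 1 - e * (K * M) * (e * (K * M)) = (1 + e * (K * M)) * (1 - e * (K * M)) := by ring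
  rw [h3]
  obtain ⟨c, hc⟩ : ∃ c, c = 1 + e * (K * M) := ⟨_, rfl⟩
  obtain ⟨d, hd⟩ : ∃ d, d = 1 - e * (K * M) := ⟨_, rfl⟩
  rw [← hc] at h1 hI ⊢
  rw [← hd] at h2 ⊢
  have h4 : e * (K * M) * (rw / R) - e * (K * K) * (rz / R) = e * K * (kz - mw) -
      e * K * (K * (e * (kz * M + K * mz)) - M * (e * (kw * M + K * mw))) / c := by
    field_simp at hI ⊢
    linear_combination (-e * K) * hI
  rw [h4]
  field_simp
  subst hc hd
  ring

end IdAux

open IdAux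

variable {E : Set ℂ} {θ e : ℝ} {k Z ρ : ℂ × ℂ → ℂ}

theorem identity (hk : DifferentiableOn ℂ k (Tube E θ)) (hρ : DifferentiableOn ℂ ρ (Tube E θ))
    (hZ : DifferentiableOn ℂ Z (Tube E θ)) (hρ0 : ∀ p ∈ Tube E θ, ρ p ≠ 0)
    (hρs : EqOn (st ρ) ρ (Tube E θ)) (hZ0 : ∀ p ∈ Tube E θ, dz Z p ≠ 0)
    (hB : ∀ p ∈ Tube E θ, dw Z p = (-qq e k) p * dz Z p)
    (h1 : ∀ p ∈ Tube E θ, (1 - -nn e k) p ≠ 0) (h2 : ∀ p ∈ Tube E θ, (1 - nn e k) p ≠ 0)
    (hI : ∀ p ∈ Tube E θ,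
      dz (ρ * k * (1 - -nn e k)⁻¹) p = dw (ρ * st k * (1 - -nn e k)⁻¹) p) :
    (∀ p ∈ Tube E θ, dz (newP e k Z) p = dw (st (newP e k Z)) p) ∧
    ∀ p ∈ Tube E θ, dz (newP e k Z) p = GG e k p -
      dz (al1 e k * st (newP e k Z) + al2 e k * newP e k Z + YY e k (dw ρ / ρ)) p -
      dw (st (al1 e k * st (newP e k Z) + al2 e k * newP e k Z + YY e k (dw ρ / ρ))) p := by
  have hV := isOpen_tube E θ
  have hd : ∀ {F : ℂ × ℂ → ℂ}, DifferentiableOn ℂ F (Tube E θ) → ∀ {p}, p ∈ Tube E θ →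
      HD F p (dz F p) (dw F p) := fun hF _ hp => HD.of (hF.differentiableAt (hV.mem_nhds hp))
  have hm := holo_st hk
  have hn : DifferentiableOn ℂ (nn e k) (Tube E θ) := (hk.mul hm).const_smul (e : ℂ)
  have hμ : DifferentiableOn ℂ (-qq e k) (Tube E θ) := ((hk.mul hk).const_smul (e : ℂ)).neg
  have hU := holo_dz hV hZ
  have hS : DifferentiableOn ℂ (pre Z) (Tube E θ) := by
    rw [pre, div_eq_mul_inv]
    exact (holo_dz hV hU).mul (hU.inv hZ0)
  have hc : DifferentiableOn ℂ (1 - -nn e k)⁻¹ (Tube E θ) :=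
    ((differentiableOn_const 1).sub hn.neg).inv h1
  have hT : DifferentiableOn ℂ (-qq e k * pre Z + dz (-qq e k)) (Tube E θ) :=
    (hμ.mul hS).add (holo_dz hV hμ)
  have hLw := (holo_dw hV hn).mul hc
  have hLz := (holo_dz hV hn).mul hc
  have sw : ∀ F : ℂ × ℂ → ℂ, st (dw F) = dz (st F) := fun F => (dz_st F).symm
  have sz : ∀ F : ℂ × ℂ → ℂ, st (dz F) = dw (st F) := fun F => (dw_st F).symm
  have sn : st (nn e k) = nn e k := by
    rw [nn, st_smul, st_mul, st_st, Complex.conj_ofReal, mul_comm]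
  have sL : st (dw (nn e k) * (1 - -nn e k)⁻¹) = dz (nn e k) * (1 - -nn e k)⁻¹ := by
    rw [st_mul, st_inv, st_sub, st_neg, st_one, sw, sn]
  have half : conj (1 / 2 : ℂ) = 1 / 2 := by simp [map_ofNat]
  have sP : st (newP e k Z) = (1 / 2 : ℂ) • (st (-qq e k * pre Z + dz (-qq e k)) + pre Z) +
      dz (nn e k) * (1 - -nn e k)⁻¹ := by
    rw [newP, st_add, sL, st_smul, st_add _ (st _), st_st, half]
  have hA : ∀ p ∈ Tube E θ, dz (-qq e k * pre Z + dz (-qq e k)) p = dw (pre Z) p := by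
    intro p hp
    rw [pre, div_eq_mul_inv, ← log_comm hV hU hp (hd hU hp) (hZ0 p hp)]
    refine dz_congr hV (fun q hq => ?_) hp
    have a1 : dz (dw Z) q = dz (-qq e k * dz Z) q := dz_congr hV hB hq
    have a2 := hZ0 q hq
    rw [((hd hμ hq).mul (hd hU hq)).2.1, dz_dw_comm hV hZ hq] at a1
    simp only [Pi.add_apply, Pi.mul_apply, Pi.inv_apply, a1]
    field_simp
    ring
  have hA' : ∀ p ∈ Tube E θ, dw (st (-qq e k * pre Z + dz (-qq e k))) p = dz (st (pre Z)) p := by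
    intro p hp
    rw [← sz, ← sw]
    exact st_congr hA hp
  have hL : ∀ p ∈ Tube E θ,
      dz (dw (nn e k) * (1 - -nn e k)⁻¹) p = dw (dz (nn e k) * (1 - -nn e k)⁻¹) p := by
    intro p hp
    refine log_comm hV hn hp ?_ (h1 p hp)
    simpa only [zero_sub, neg_neg] using (HD.one p).sub (hd hn hp).neg
  have hP : ∀ p ∈ Tube E θ, dz (newP e k Z) p = 1 / 2 * (dw (pre Z) p + dz (st (pre Z)) p) +
      dz (dw (nn e k) * (1 - -nn e k)⁻¹) p := by
    intro p hp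
    rw [← hA p hp]
    exact ((((hd hT hp).add (hd (holo_st hS) hp)).smul (1 / 2)).add (hd hLw hp)).2.1
  refine ⟨fun p hp => ?_, fun p hp => ?_⟩
  · rw [hP p hp, sP, ((((hd (holo_st hT) hp).add (hd hS hp)).smul (1 / 2)).add (hd hLz hp)).2.2,
      hA' p hp, hL p hp]
    ring
  have hN : ∀ {p}, p ∈ Tube E θ → HD (nn e k) p (e * (dz k p * st k p + k p * dz (st k) p))
      (e * (dw k p * st k p + k p * dw (st k) p)) := fun hp => ((hd hk hp).mul (hd hm hp)).smul e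
  have key : EqOn (al1 e k * st (newP e k Z) + al2 e k * newP e k Z + YY e k (dw ρ / ρ))
      ((e / 2 : ℂ) • ((st k * dw k - k * dw (st k)) * (1 - nn e k)⁻¹) -
        (1 / 2 : ℂ) • (-qq e k * pre Z + dz (-qq e k) + dw (nn e k) * (1 - -nn e k)⁻¹))
      (Tube E θ) := by
    intro q hq
    have a1 := hI q hq
    have a2 := ((HD.one q).sub (hN hq).neg).inv (h1 q hq)
    rw [(((hd hρ hq).mul (hd hk hq)).mul a2).2.1, (((hd hρ hq).mul (hd hm hq)).mul a2).2.2] at a1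
    have a3 : st (-qq e k) = -((e : ℂ) • (st k * st k)) := by
      rw [st_neg, qq, st_smul, st_mul, Complex.conj_ofReal]
    have a4 : dz (-qq e k) q = _ := (((hd hk hq).mul (hd hk hq)).smul e).neg.2.1
    have a5 := (((hd hm hq).mul (hd hm hq)).smul e).neg.2.2
    have a6 : st (dw ρ / ρ) q = dz ρ q / ρ q := by
      rw [st_div, sw, Pi.div_apply, hρs hq, dz_congr hV hρs hq]
    have a7 := alg (s := pre Z q) (s' := st (pre Z) q) (hρ0 q hq) (h1 q hq) (h2 q hq) a1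
    rw [sP, st_add, st_mul, sz, a3]
    simp only [al1, al2, YY, newP, Pi.add_apply, Pi.sub_apply, Pi.mul_apply, Pi.smul_apply,
      Pi.inv_apply, Pi.neg_apply, Pi.one_apply, smul_eq_mul, a4, a5, a6, (hN hq).2.1, (hN hq).2.2]
    exact a7
  have he : conj (e / 2 : ℂ) = e / 2 := by simp [map_ofNat]
  have b1 := ((HD.one p).sub (hN hp)).inv (h2 p hp)
  have b2 := (((((hd hm hp).mul (hd (holo_dw hV hk) hp)).sub
    ((hd hk hp).mul (hd (holo_dw hV hm) hp))).mul b1).smul (e / 2)).sub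
    (((hd hT hp).add (hd hLw hp)).smul (1 / 2))
  have b3 := (((((hd hk hp).mul (hd (holo_dz hV hm) hp)).sub
    ((hd hm hp).mul (hd (holo_dz hV hk) hp))).mul b1).smul (e / 2)).sub
    (((hd (holo_st hT) hp).add (hd hLz hp)).smul (1 / 2))
  have b4 := h2 p hp
  rw [dz_congr hV key hp, dw_congr hV (st_congr key) hp, st_sub, st_smul, st_smul, half, he,
    st_add, sL, st_mul, st_inv, st_sub _ (nn e k), st_one, sn, st_sub, st_mul, st_mul, sw, sw, st_st,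
    b2.2.1, b3.2.2, hP p hp, hA p hp, hA' p hp, hL p hp, dz_dw_comm hV hk hp, dz_dw_comm hV hm hp]
  simp only [GG, nn, Pi.sub_apply, Pi.mul_apply, Pi.smul_apply, Pi.inv_apply, Pi.one_apply,
    smul_eq_mul] at b4 ⊢
  field_simp
  ring

end Pool.Agent.Lib.MP_44acff_gt.NU
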