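import Pool.Agent.Lib.MP_44acff_gt.H70Base

/-! Moebius transformations at small scales. -/

namespace Pool.Agent.Lib.MP_44acff_gt.NU

open Set Metric MeasureTheory Filter Topology ComplexConjugate
open scoped ContDiff

namespace MobAux

theorem bounds {L : Set ℂ} (hL : IsCompact L) {u : ℂ → ℂ} (hu : Continuous u)
    (h : ∀ z ∈ L, u z ≠ 0) : ∃ ε M : ℝ, 0 < ε ∧ 0 < M ∧ ∀ z ∈ L, ε ≤ ‖u z‖ ∧ ‖u z‖ ≤ M := by
  rcases L.eq_empty_or_nonempty with rfl | hne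
  · exact ⟨1, 1, one_pos, one_pos, fun z hz => hz.elim⟩
  obtain ⟨z₀, h₀, hmin⟩ := hL.exists_isMinOn hne hu.norm.continuousOn
  obtain ⟨z₁, h₁, hmax⟩ := hL.exists_isMaxOn hne hu.norm.continuousOn
  exact ⟨‖u z₀‖, ‖u z₁‖, norm_pos_iff.2 (h z₀ h₀), norm_pos_iff.2 (h z₁ h₁),
    fun z hz => ⟨hmin hz, hmax hz⟩⟩

theorem mul_le_of_le_inv {x t C s : ℝ} (hC : 0 < C) (hx : 0 ≤ x) (hs : 0 < s)
    (ht : t ≤ 1 / C) (h : 2 * x / s ≤ C) : x * t ≤ s / 2 := by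
  rw [div_le_iff₀ hs] at h
  calc x * t ≤ x * (1 / C) := mul_le_mul_of_nonneg_left ht hx
    _ = x / C := by ring
    _ ≤ s / 2 := by
      rw [div_le_iff₀ hC]
      linarith

theorem half_le {p q : ℂ} {s : ℝ} (hp : s ≤ ‖p‖) (hq : ‖q‖ ≤ s / 2) : s / 2 ≤ ‖p + q‖ := by
  have := norm_sub_le (p + q) q
  rw [add_sub_cancel_right] at this
  linarith

theorem id₁ {a b c d z v u u' : ℂ} (hu : u ≠ 0) (hu' : u' ≠ 0) (e : u = c * z + d)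
    (e' : u' = c * (z + v) + d) :
    (a * (z + v) + b) / u' - (a * z + b) / u - (a * d - b * c) / u ^ 2 * v =
      -((a * d - b * c) * c / (u ^ 2 * u') * v ^ 2) := by
  field_simp
  rw [e, e']
  ring

theorem id₂ {a b c d z w u q D : ℂ} (hu : u ≠ 0) (hq : q ≠ 0) (hD : D ≠ 0) (e : u = c * z + d)
    (e' : q = D + -(w * u * c)) (e'' : D = a * d - b * c) :
    (a * (z + w * u ^ 2 / q) + b) / (u * D / q) = (a * z + b) / u + w := by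
  field_simp
  rw [e', e'', e]
  ring

theorem core (a b c d : ℂ) (hΔ : a * d - b * c ≠ 0) {ε M : ℝ} (hε : 0 < ε) (hM : 0 < M) :
    ∃ C : ℝ, 0 < C ∧ ∀ z : ℂ, ε ≤ ‖c * z + d‖ → ‖c * z + d‖ ≤ M →
      (∀ v : ℂ, ‖v‖ ≤ 1 / C → c * (z + v) + d ≠ 0) ∧
      (∃ κ : ℂ, 1 / C ≤ ‖κ‖ ∧ ‖κ‖ ≤ C ∧ ∀ v : ℂ, ‖v‖ ≤ 1 / C →
        ‖(a * (z + v) + b) / (c * (z + v) + d) - (a * z + b) / (c * z + d) - κ * v‖ ≤
          C * ‖v‖ ^ 2) ∧
      ∀ y : ℂ, ‖y - (a * z + b) / (c * z + d)‖ ≤ 1 / C →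
        ∃ z' : ℂ, c * z' + d ≠ 0 ∧ (a * z' + b) / (c * z' + d) = y ∧
          ‖z' - z‖ ≤ C * ‖y - (a * z + b) / (c * z + d)‖ := by
  set δ := ‖a * d - b * c‖ with hδ
  have hδ0 : 0 < δ := norm_pos_iff.2 hΔ
  have hK : 0 ≤ ‖c‖ := norm_nonneg c
  obtain ⟨C, hC, c1, c2, c3, c4, c5⟩ : ∃ C : ℝ, 0 < C ∧ 2 * ‖c‖ / ε ≤ C ∧ δ / ε ^ 2 ≤ C ∧
      δ * ‖c‖ / (ε ^ 2 * (ε / 2)) ≤ C ∧ 2 * (M * ‖c‖) / δ ≤ C ∧ M ^ 2 / (δ / 2) ≤ C := by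
    have p1 : 0 ≤ 2 * ‖c‖ / ε := by positivity
    have p2 : 0 < δ / ε ^ 2 := by positivity
    have p3 : 0 ≤ δ * ‖c‖ / (ε ^ 2 * (ε / 2)) := by positivity
    have p4 : 0 ≤ 2 * (M * ‖c‖) / δ := by positivity
    have p5 : 0 ≤ M ^ 2 / (δ / 2) := by positivity
    refine ⟨2 * ‖c‖ / ε + δ / ε ^ 2 + δ * ‖c‖ / (ε ^ 2 * (ε / 2)) + 2 * (M * ‖c‖) / δ +
      M ^ 2 / (δ / 2), ?_, ?_, ?_, ?_, ?_, ?_⟩ <;> linarith
  refine ⟨C, hC, fun z h1 h2 => ?_⟩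
  have hu : c * z + d ≠ 0 := norm_pos_iff.1 (hε.trans_le h1)
  have hlow : ∀ v : ℂ, ‖v‖ ≤ 1 / C → ε / 2 ≤ ‖c * (z + v) + d‖ := by
    intro v hv
    rw [show c * (z + v) + d = (c * z + d) + c * v by ring]
    refine half_le h1 ?_
    rw [norm_mul]
    exact mul_le_of_le_inv hC hK hε hv c1
  have hne : ∀ v : ℂ, ‖v‖ ≤ 1 / C → c * (z + v) + d ≠ 0 := fun v hv =>
    norm_pos_iff.1 ((half_pos hε).trans_le (hlow v hv))
  refine ⟨hne, ⟨(a * d - b * c) / (c * z + d) ^ 2, ?_, ?_, fun v hv => ?_⟩, fun y hy => ?_⟩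
  · rw [norm_div, norm_pow, ← hδ]
    calc 1 / C ≤ 1 / (M ^ 2 / (δ / 2)) := one_div_le_one_div_of_le (by positivity) c5
      _ = δ / 2 / M ^ 2 := by rw [one_div_div]
      _ ≤ δ / ‖c * z + d‖ ^ 2 := by
        have : 0 < ‖c * z + d‖ := hε.trans_le h1
        gcongr
        linarith
  · rw [norm_div, norm_pow, ← hδ]
    refine le_trans ?_ c2
    gcongr
  · have hv' := hne v hv
    have e : (a * (z + v) + b) / (c * (z + v) + d) - (a * z + b) / (c * z + d) -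
        (a * d - b * c) / (c * z + d) ^ 2 * v =
        -((a * d - b * c) * c / ((c * z + d) ^ 2 * (c * (z + v) + d)) * v ^ 2) :=
      id₁ hu hv' rfl rfl
    rw [e, norm_neg, norm_mul, norm_div, norm_mul, norm_mul, norm_pow, norm_pow, ← hδ]
    refine mul_le_mul_of_nonneg_right (le_trans ?_ c3) (by positivity)
    have := hlow v hv
    gcongr
  · set w := y - (a * z + b) / (c * z + d) with hw
    have hq : δ / 2 ≤ ‖(a * d - b * c) + -(w * (c * z + d) * c)‖ := by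
      refine half_le le_rfl ?_
      rw [norm_neg, norm_mul, norm_mul]
      calc ‖w‖ * ‖c * z + d‖ * ‖c‖ ≤ ‖w‖ * M * ‖c‖ := by gcongr
        _ = M * ‖c‖ * ‖w‖ := by ring
        _ ≤ δ / 2 := mul_le_of_le_inv hC (by positivity) hδ0 hy c4
    set q := (a * d - b * c) + -(w * (c * z + d) * c) with hqd
    have hq0 : q ≠ 0 := norm_pos_iff.1 ((half_pos hδ0).trans_le hq)
    have e1 : c * (z + w * (c * z + d) ^ 2 / q) + d = (c * z + d) * (a * d - b * c) / q := by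
      field_simp
      rw [hqd]
      ring
    refine ⟨z + w * (c * z + d) ^ 2 / q, ?_, ?_, ?_⟩
    · rw [e1]
      exact div_ne_zero (mul_ne_zero hu hΔ) hq0
    · have e2 : y = (a * z + b) / (c * z + d) + w := by rw [hw]; ring
      rw [e1, e2]
      exact id₂ hu hq0 hΔ rfl hqd rfl
    · rw [add_sub_cancel_left, norm_div, norm_mul, norm_pow, mul_div_assoc, mul_comm]
      refine mul_le_mul_of_nonneg_right (le_trans ?_ c5) (norm_nonneg _)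
      gcongr

end MobAux

theorem mob_local (g : GL (Fin 2) ℂ) {L : Set ℂ} (hL : IsCompact L)
    (h : ∀ z ∈ L, g • (z : OnePoint ℂ) ≠ OnePoint.infty) : ∃ (m : ℂ → ℂ) (C : ℝ), 0 < C ∧
      ∀ z ∈ L, (∀ v : ℂ, ‖v‖ ≤ 1 / C → g • ((z + v : ℂ) : OnePoint ℂ) = (m (z + v) : ℂ)) ∧
        (∃ κ : ℂ, 1 / C ≤ ‖κ‖ ∧ ‖κ‖ ≤ C ∧
          ∀ v : ℂ, ‖v‖ ≤ 1 / C → ‖m (z + v) - m z - κ * v‖ ≤ C * ‖v‖ ^ 2) ∧
        ∀ y : ℂ, ‖y - m z‖ ≤ 1 / C →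
          ∃ z' : ℂ, g • (z' : OnePoint ℂ) = (y : ℂ) ∧ ‖z' - z‖ ≤ C * ‖y - m z‖ := by
  have hΔ : g 0 0 * g 1 1 - g 0 1 * g 1 0 ≠ 0 := by
    have := g.det_ne_zero
    rwa [Matrix.det_fin_two] at this
  have hu : ∀ z ∈ L, g 1 0 * z + g 1 1 ≠ 0 := by
    intro z hz h0
    refine h z hz ?_
    rw [OnePoint.smul_some_eq_ite, if_pos h0]
  obtain ⟨ε, M, hε, hM, hb⟩ := MobAux.bounds hL (u := fun z => g 1 0 * z + g 1 1)
    (by fun_prop) hu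
  obtain ⟨C, hC, hc⟩ := MobAux.core (g 0 0) (g 0 1) (g 1 0) (g 1 1) hΔ hε hM
  refine ⟨fun z => (g 0 0 * z + g 0 1) / (g 1 0 * z + g 1 1), C, hC, fun z hz => ?_⟩
  obtain ⟨h1, h2, h3⟩ := hc z (hb z hz).1 (hb z hz).2
  refine ⟨fun v hv => ?_, h2, fun y hy => ?_⟩
  · rw [OnePoint.smul_some_eq_ite, if_neg (h1 v hv)]
  · obtain ⟨z', e1, e2, e3⟩ := h3 y hy
    exact ⟨z', by rw [OnePoint.smul_some_eq_ite, if_neg e1, e2], e3⟩

end Pool.Agent.Lib.MP_44acff_gt.NU
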