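import Pool.Agent.Lib.MP_44acff_gt.H70Base

/-! Transfer along a bi-Lipschitz map that is conformal off the set. -/

namespace Pool.Agent.Lib.MP_44acff_gt.NU

open Set Metric MeasureTheory Filter Topology ComplexConjugate
open scoped ContDiff

namespace TransAux

variable {E : Set ℂ} {f : ℂ → ℂ}

theorem near (hl : LipschitzWith (1 / 2) (fun z => f z - z)) (z w : ℂ) :
    ‖f z - f w - (z - w)‖ ≤ 1 / 2 * ‖z - w‖ := by
  have := hl.dist_le_mul z w
  rw [dist_eq_norm, dist_eq_norm] at this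
  rw [show f z - f w - (z - w) = f z - z - (f w - w) by ring]
  simpa using this

theorem upper (hl : LipschitzWith (1 / 2) (fun z => f z - z)) (z w : ℂ) :
    dist (f z) (f w) ≤ 3 / 2 * dist z w := by
  have h1 := near hl z w
  have h2 := norm_add_le (f z - f w - (z - w)) (z - w)
  rw [sub_add_cancel] at h2
  rw [dist_eq_norm, dist_eq_norm]
  linarith

theorem lower (hl : LipschitzWith (1 / 2) (fun z => f z - z)) (z w : ℂ) :
    dist z w ≤ 2 * dist (f z) (f w) := by
  have h1 := near hl z w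
  have h2 := norm_sub_le (f z - f w) (f z - f w - (z - w))
  rw [sub_sub_cancel] at h2
  rw [dist_eq_norm, dist_eq_norm]
  linarith

theorem homeo (hl : LipschitzWith (1 / 2) (fun z => f z - z)) : ∃ H : ℂ ≃ₜ ℂ, ⇑H = f := by
  have h : ApproximatesLinearOn f
      ((ContinuousLinearEquiv.refl ℂ ℂ : ℂ ≃L[ℂ] ℂ) : ℂ →L[ℂ] ℂ) univ (1 / 2) := by
    intro z _ w _
    simpa using near hl z w
  refine ⟨h.toHomeomorph f (Or.inr ?_), rfl⟩
  simp only [ContinuousLinearEquiv.refl_symm, ContinuousLinearEquiv.coe_refl,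
    ContinuousLinearMap.nnnorm_id, inv_one]
  norm_num

theorem infDist_upper (hE : Dom E) (hl : LipschitzWith (1 / 2) (fun z => f z - z)) (z : ℂ) :
    infDist (f z) (f '' E) ≤ 3 / 2 * infDist z E := by
  obtain ⟨ξ, hξ, e⟩ := hE.closed.exists_infDist_eq_dist hE.nonempty z
  rw [e]
  exact (infDist_le_dist_of_mem (mem_image_of_mem f hξ)).trans (upper hl z ξ)

theorem infDist_lower (hE : Dom E) (hl : LipschitzWith (1 / 2) (fun z => f z - z)) (z : ℂ) :
    infDist z E / 2 ≤ infDist (f z) (f '' E) := by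
  rw [le_infDist (hE.nonempty.image f)]
  rintro _ ⟨ξ, hξ, rfl⟩
  have h1 := infDist_le_dist_of_mem (x := z) hξ
  have h2 := lower hl z ξ
  linarith

theorem hasDeriv (hE : Dom E) (hf : DifferentiableOn ℂ f Eᶜ) {z : ℂ} (hz : z ∉ E) :
    HasDerivAt f (deriv f z) z :=
  (hf.differentiableAt (hE.closed.isOpen_compl.mem_nhds hz)).hasDerivAt

theorem deriv_bounds (hE : Dom E) (hl : LipschitzWith (1 / 2) (fun z => f z - z))
    (hf : DifferentiableOn ℂ f Eᶜ) {z : ℂ} (hz : z ∉ E) :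
    1 / 2 ≤ ‖deriv f z‖ ∧ ‖deriv f z‖ ≤ 3 / 2 := by
  have h1 : HasDerivAt (fun z => f z - z) (deriv f z - 1) z :=
    (hasDeriv hE hf hz).sub (hasDerivAt_id z)
  have h2 : ‖deriv f z - 1‖ ≤ 1 / 2 := by
    simpa using h1.le_of_lipschitz hl
  have h3 := norm_add_le (deriv f z - 1) 1
  have h4 := norm_sub_le (deriv f z) (deriv f z - 1)
  rw [sub_add_cancel, norm_one] at h3
  rw [sub_sub_cancel, norm_one] at h4
  constructor <;> linarith

theorem det_smul (a : ℂ) : (a • (1 : ℂ →L[ℝ] ℂ)).det = ‖a‖ ^ 2 := by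
  rw [← Complex.normSq_eq_norm_sq, ← Algebra.norm_complex_apply, Algebra.norm_apply]
  rfl

theorem meas (hE : Dom E) (hl : LipschitzWith (1 / 2) (fun z => f z - z))
    (hf : DifferentiableOn ℂ f Eᶜ) {A : ℝ} (hA : MeasCond E A) :
    MeasCond (f '' E) (9 / 2 * (A * 2 ^ (7 / 4 : ℝ))) := by
  obtain ⟨H, rfl⟩ := homeo hl
  intro p r hr
  have hsub : ball p r \ H '' E ⊆ H '' (ball (H.symm p) (2 * r) \ E) := by
    rintro y ⟨h1, h2⟩
    refine ⟨H.symm y, ⟨?_, fun h => h2 ⟨_, h, H.apply_symm_apply y⟩⟩, H.apply_symm_apply y⟩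
    have := lower hl (H.symm y) (H.symm p)
    rw [H.apply_symm_apply, H.apply_symm_apply] at this
    rw [mem_ball] at h1 ⊢
    linarith
  have hms : MeasurableSet (ball (H.symm p) (2 * r) \ E) :=
    measurableSet_ball.diff hE.closed.measurableSet
  refine (lintegral_mono_set hsub).trans ?_
  rw [lintegral_image_eq_lintegral_abs_det_fderiv_mul volume hms
    (f' := fun z => deriv H z • (1 : ℂ →L[ℝ] ℂ))
    (fun z hz => (hasDeriv hE hf hz.2).complexToReal_fderiv.hasFDerivWithinAt)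
    H.injective.injOn]
  calc _ ≤ ∫⁻ z in ball (H.symm p) (2 * r) \ E,
        ENNReal.ofReal (9 / 2) * ENNReal.ofReal (infDist z E ^ (-(1 / 4) : ℝ)) := by
        refine setLIntegral_mono' hms fun z hz => ?_
        rw [← ENNReal.ofReal_mul (abs_nonneg _), ← ENNReal.ofReal_mul (by norm_num)]
        refine ENNReal.ofReal_le_ofReal ?_
        have hd : 0 < infDist z E := (hE.closed.notMem_iff_infDist_pos hE.nonempty).1 hz.2
        have h1 : |(deriv H z • (1 : ℂ →L[ℝ] ℂ)).det| ≤ 9 / 4 := by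
          rw [det_smul, abs_of_nonneg (by positivity)]
          have := (deriv_bounds hE hl hf hz.2).2
          nlinarith [norm_nonneg (deriv H z)]
        have h2 : infDist (H z) (H '' E) ^ (-(1 / 4) : ℝ) ≤ 2 * infDist z E ^ (-(1 / 4) : ℝ) := by
          have h3 : infDist (H z) (H '' E) ^ (-(1 / 4) : ℝ) ≤
              (infDist z E / 16) ^ (-(1 / 4) : ℝ) :=
            Real.rpow_le_rpow_of_nonpos (by positivity)
              (by linarith [infDist_lower hE hl z]) (by norm_num)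
          have h4 : (16 : ℝ) ^ (-(1 / 4) : ℝ) = 1 / 2 := by
            rw [show (16 : ℝ) = 2 ^ (4 : ℝ) by norm_num, ← Real.rpow_mul (by norm_num)]
            norm_num
          rw [Real.div_rpow hd.le (by norm_num), h4] at h3
          linarith
        calc _ ≤ 9 / 4 * (2 * infDist z E ^ (-(1 / 4) : ℝ)) :=
              mul_le_mul h1 h2 (Real.rpow_nonneg infDist_nonneg _) (by norm_num)
          _ = _ := by ring
    _ = ENNReal.ofReal (9 / 2) * ∫⁻ z in ball (H.symm p) (2 * r) \ E,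
        ENNReal.ofReal (infDist z E ^ (-(1 / 4) : ℝ)) :=
        lintegral_const_mul' _ _ ENNReal.ofReal_ne_top
    _ ≤ ENNReal.ofReal (9 / 2) * ENNReal.ofReal (A * (2 * r) ^ (7 / 4 : ℝ)) := by
        gcongr
        exact hA _ _ (by linarith)
    _ = _ := by
        rw [← ENNReal.ofReal_mul (by norm_num), Real.mul_rpow (by norm_num) hr.le]
        congr 1
        ring

theorem hyp (hE : Dom E) (H : ℂ ≃ₜ ℂ) (hl : LipschitzWith (1 / 2) (fun z => H z - z))
    (hf : DifferentiableOn ℂ H Eᶜ) {lam : ℂ → ℝ} {κ c : ℝ} (hκ : 0 < κ) (hκ' : κ ≤ 1)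
    (hc : 0 < c) (h : Hyp E lam κ c) :
    Hyp (H '' E) (fun y => lam (H.symm y) / ‖deriv H (H.symm y)‖) (κ / 3) (c / 3) := by
  intro y hy
  obtain ⟨z, rfl⟩ := H.surjective y
  have hz : z ∉ E := fun h => hy (mem_image_of_mem _ h)
  obtain ⟨h1, φ, h2, h3, h4, h5⟩ := h z hz
  have hd : 0 < infDist z E := (hE.closed.notMem_iff_infDist_pos hE.nonempty).1 hz
  have hlo := infDist_lower hE hl z
  have hup := infDist_upper hE hl z
  have hmaps : MapsTo H.symm (ball (H z) (κ / 3 * infDist (H z) (H '' E)))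
      (ball z (κ * infDist z E)) := by
    intro w hw
    have := lower hl (H.symm w) z
    rw [H.apply_symm_apply] at this
    rw [mem_ball] at hw ⊢
    nlinarith
  have hout : ∀ x ∈ ball z (κ * infDist z E), x ∉ E := fun x hx =>
    ball_infDist_subset_compl (ball_subset_ball (by nlinarith) hx)
  have hinv : ∀ w ∈ ball (H z) (κ / 3 * infDist (H z) (H '' E)),
      HasDerivAt H.symm (deriv H (H.symm w))⁻¹ w := by
    intro w hw
    have hw' := hout _ (hmaps hw)
    refine HasDerivAt.of_local_left_inverse H.symm.continuous.continuousAt (hasDeriv hE hf hw')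
      ?_ (Eventually.of_forall H.apply_symm_apply)
    exact norm_pos_iff.1 (lt_of_lt_of_le (by norm_num) (deriv_bounds hE hl hf hw').1)
  have hcomp : ∀ w ∈ ball (H z) (κ / 3 * infDist (H z) (H '' E)),
      HasDerivAt (φ ∘ H.symm) (deriv φ (H.symm w) * (deriv H (H.symm w))⁻¹) w := fun w hw =>
    (h2.differentiableAt (isOpen_ball.mem_nhds (hmaps hw))).hasDerivAt.comp w (hinv w hw)
  refine ⟨?_, φ ∘ H.symm, fun w hw => (hcomp w hw).differentiableAt.differentiableWithinAt,
    h3.comp hmaps, by simp [h4], fun w hw => ?_⟩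
  · simp only [H.symm_apply_apply]
    obtain ⟨b1, b2⟩ := deriv_bounds hE hl hf hz
    have h6 : 0 ≤ lam z := le_trans (by positivity) h1
    calc c / 3 / infDist (H z) (H '' E) ≤ c / 3 / (infDist z E / 2) := by gcongr
      _ = c / infDist z E / (3 / 2) := by
        field_simp
      _ ≤ lam z / ‖deriv H z‖ := by
        have : 0 < ‖deriv H z‖ := by linarith
        gcongr
  · simp only [(hcomp w hw).deriv, h5 _ (hmaps hw), Function.comp_apply, norm_mul, norm_inv]
    ring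

end TransAux

theorem transfer {E : Set ℂ} (hE : Dom E) {f : ℂ → ℂ}
    (hl : LipschitzWith (1 / 2) (fun z => f z - z)) (hf : DifferentiableOn ℂ f Eᶜ) :
    (∃ H : ℂ ≃ₜ ℂ, ⇑H = f) ∧ Dom (f '' E) ∧ (∀ A, MeasCond E A → ∃ A', MeasCond (f '' E) A') ∧
      ∀ (lam : ℂ → ℝ) (κ c : ℝ), 0 < κ → κ ≤ 1 → 0 < c → Hyp E lam κ c →
        ∃ (lam' : ℂ → ℝ) (κ' c' : ℝ), 0 < κ' ∧ κ' ≤ 1 ∧ 0 < c' ∧ Hyp (f '' E) lam' κ' c' ∧
          ∀ z ∉ E, lam' (f z) * ‖deriv f z‖ = lam z := by
  refine ⟨TransAux.homeo hl, ?_, fun A hA => ⟨_, TransAux.meas hE hl hf hA⟩, ?_⟩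
  · obtain ⟨H, rfl⟩ := TransAux.homeo hl
    exact ⟨H.isClosedMap _ hE.closed, hE.nonempty.image _⟩
  · intro lam κ c hκ hκ' hc h
    obtain ⟨H, rfl⟩ := TransAux.homeo hl
    refine ⟨_, κ / 3, c / 3, by linarith, by linarith, by linarith,
      TransAux.hyp hE H hl hf hκ hκ' hc h, fun z hz => ?_⟩
    have : 0 < ‖deriv H z‖ := lt_of_lt_of_le (by norm_num) (TransAux.deriv_bounds hE hl hf hz).1
    simp only [H.symm_apply_apply]
    field_simp

end Pool.Agent.Lib.MP_44acff_gt.NU
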