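import Pool.Agent.Lib.MP_44acff_gt.H70Cross
import Pool.Agent.Lib.MP_44acff_gt.H70Mob
import Pool.Agent.Lib.MP_44acff_gt.H70NS
import Pool.Agent.Lib.MP_44acff_gt.H70Trans

/-! The two domains are not related by a Moebius transformation. -/

namespace Pool.Agent.Lib.MP_44acff_gt.NU

open Set Metric MeasureTheory Filter Topology ComplexConjugate
open scoped ContDiff

namespace IneqAux

theorem comp_app {u p k κ S : ℂ} {F : ℂ → ℂ} {r ε ε' : ℝ} (hε : ε ≤ 1 / 2) (hr : 0 ≤ r)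
    (hS : ‖S‖ ≤ 3 / 2 * r) (hu : ‖u - p - k * S‖ ≤ ε * ‖k‖ * r)
    (hF : ∀ v : ℂ, ‖v‖ ≤ 2 * ‖k‖ * r →
      ‖F (p + v) - F p - κ * v‖ ≤ ε' * ‖κ‖ * (2 * ‖k‖ * r)) :
    ‖F u - F p - κ * k * S‖ ≤ (ε + 2 * ε') * ‖κ * k‖ * r := by
  have hk : 0 ≤ ‖k‖ * r := by positivity
  have h1 : ‖u - p‖ ≤ 2 * ‖k‖ * r := by
    have h2 := norm_add_le (u - p - k * S) (k * S)
    rw [sub_add_cancel, norm_mul] at h2
    have h3 := mul_le_mul_of_nonneg_left hS (norm_nonneg k)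
    have h4 := mul_le_mul_of_nonneg_right hε hk
    linarith
  have h2 := hF _ h1
  rw [add_sub_cancel] at h2
  have h3 := norm_add_le (F u - F p - κ * (u - p)) (κ * (u - p - k * S))
  rw [show F u - F p - κ * (u - p) + κ * (u - p - k * S) = F u - F p - κ * k * S by ring,
    norm_mul] at h3
  have h4 := mul_le_mul_of_nonneg_left hu (norm_nonneg κ)
  rw [norm_mul]
  linarith

theorem ns_scale {F : ℂ → ℂ} {η : ℝ} (h : NS F η) (hη : η ≤ 1 / 30) (R : ℝ) : ∃ C > 0,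
    ∀ x ∈ closedBall (0 : ℂ) R, ∀ s : ℝ, 0 < s → s ≤ 1 → ∃ κ : ℂ,
      ‖κ‖ * s ≤ C * s ^ (4 / 5 : ℝ) ∧ s ^ (6 / 5 : ℝ) ≤ C * (‖κ‖ * s) ∧
        ∀ v : ℂ, ‖v‖ ≤ s → ‖F (x + v) - F x - κ * v‖ ≤ η * ‖κ‖ * s := by
  obtain ⟨C, hC, H⟩ := ns_holder h hη (R + 1)
  refine ⟨2 * C, by positivity, fun x hx s hs hs1 => ?_⟩
  obtain ⟨κ, -, hκ⟩ := h x s hs
  have hn : ‖(s : ℂ)‖ = s := by rw [Complex.norm_real, Real.norm_of_nonneg hs.le]
  rw [mem_closedBall_zero_iff] at hx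
  obtain ⟨h1, h2⟩ := H (x + s)
    (mem_closedBall_zero_iff.2 ((norm_add_le _ _).trans (by rw [hn]; linarith))) x
    (mem_closedBall_zero_iff.2 (by linarith))
  rw [add_sub_cancel_left, hn] at h1 h2
  have h3 := hκ s hn.le
  have h4 := norm_sub_norm_le (F (x + s) - F x) (κ * s)
  have h5 := norm_sub_norm_le (κ * s) (F (x + s) - F x)
  rw [norm_sub_rev (κ * s)] at h5
  rw [norm_mul, hn] at h4 h5
  have h6 := mul_le_mul_of_nonneg_right hη (show 0 ≤ ‖κ‖ * s by positivity)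
  have h7 : 0 ≤ ‖κ‖ * s := by positivity
  refine ⟨κ, by linarith, h2.trans ?_, hκ⟩
  have := mul_le_mul_of_nonneg_left (show ‖F (x + s) - F x‖ ≤ 2 * (‖κ‖ * s) by linarith) hC.le
  linarith

theorem up {r s t A B : ℝ} (hr : 0 ≤ r) (hr1 : r ≤ 1) (hs : 0 ≤ s) (hA : 0 ≤ A) (hB : 0 ≤ B)
    (h1 : s ≤ A * r ^ (4 / 5 : ℝ)) (h2 : t ≤ B * s ^ (4 / 5 : ℝ)) :
    t ≤ B * A ^ (4 / 5 : ℝ) * √r := by
  refine h2.trans ?_
  rw [mul_assoc]
  refine mul_le_mul_of_nonneg_left ((Real.rpow_le_rpow hs h1 (by norm_num)).trans ?_) hB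
  rw [Real.mul_rpow hA (by positivity), ← Real.rpow_mul hr, Real.sqrt_eq_rpow]
  exact mul_le_mul_of_nonneg_left
    (Real.rpow_le_rpow_of_exponent_ge' hr hr1 (by norm_num) (by norm_num)) (by positivity)

theorem down {r s t A B : ℝ} (hr : 0 ≤ r) (hr1 : r ≤ 1) (hs : 0 ≤ s) (hA : 0 ≤ A)
    (h1 : r ^ (6 / 5 : ℝ) ≤ A * s) (h2 : s ^ (6 / 5 : ℝ) ≤ B * t) :
    r ^ 2 ≤ A ^ (6 / 5 : ℝ) * B * t := by
  rw [mul_assoc]
  refine le_trans ?_ (mul_le_mul_of_nonneg_left h2 (by positivity))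
  rw [← Real.mul_rpow hA hs]
  refine le_trans ?_ (Real.rpow_le_rpow (by positivity) h1 (by norm_num))
  rw [← Real.rpow_mul hr, ← Real.rpow_natCast]
  exact Real.rpow_le_rpow_of_exponent_ge' hr hr1 (by norm_num) (by norm_num)

theorem small_rpow {A δ : ℝ} (hA : 0 < A) (hδ : 0 < δ) :
    ∃ ε > 0, ε ≤ 1 ∧ ∀ r : ℝ, 0 ≤ r → r ≤ ε → A * r ^ (4 / 5 : ℝ) ≤ δ := by
  refine ⟨min 1 ((δ / A) ^ (5 / 4 : ℝ)), by positivity, min_le_left _ _, fun r hr h => ?_⟩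
  have h1 := Real.rpow_le_rpow hr (h.trans (min_le_right _ _)) (show (0 : ℝ) ≤ 4 / 5 by norm_num)
  rw [← Real.rpow_mul (by positivity), show (5 / 4 : ℝ) * (4 / 5) = 1 by norm_num,
    Real.rpow_one, le_div_iff₀ hA] at h1
  linarith

theorem rad_small {a α : ℕ → ℝ} (h : Gaps a α) {ε : ℝ} (hε : 0 < ε) :
    ∃ N, ∀ n ≥ N, rad α n ≤ ε := by
  have h1 : ∀ n, α n ≤ (1 / 2) ^ n := fun n => by
    induction n with
    | zero => linarith [h.small, pow_zero (1 / 2 : ℝ)]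
    | succ n ih => linarith [h.half n, pow_succ (1 / 2 : ℝ) n]
  obtain ⟨N, hN⟩ := exists_pow_lt_of_lt_one (show 0 < (ε ^ 2) ^ 2 by positivity)
    (show (1 / 2 : ℝ) < 1 by norm_num)
  refine ⟨N, fun n hn => Real.sqrt_le_iff.2 ⟨hε.le, Real.sqrt_le_iff.2 ⟨by positivity, ?_⟩⟩⟩
  exact (h1 n).trans ((pow_le_pow_of_le_one (by norm_num) (by norm_num) hn).trans hN.le)

theorem pole (g : GL (Fin 2) ℂ) {P : ℂ → ℂ} (hP : Function.Injective P) :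
    ∃ c : ℂ, (c = 1 ∨ c = -1) ∧
      ∀ w ∈ P '' closedBall c (1 / 2), g • (w : OnePoint ℂ) ≠ OnePoint.infty := by
  by_contra h
  push Not at h
  obtain ⟨_, ⟨z, hz, rfl⟩, h1⟩ := h 1 (Or.inl rfl)
  obtain ⟨_, ⟨z', hz', rfl⟩, h2⟩ := h (-1) (Or.inr rfl)
  obtain rfl := hP (OnePoint.coe_injective (MulAction.injective g (h1.trans h2.symm)))
  rw [mem_closedBall_iff_norm] at hz hz'
  have h3 := norm_sub_le (z - -1) (z - 1)
  rw [show z - -1 - (z - 1) = 2 by ring, Complex.norm_two] at h3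
  linarith

theorem core {τ : ℝ} (hτ : 0 < τ) (hτ1 : τ ≤ 1 / 2) {a α b β : ℕ → ℝ} {f ζ₁ ζ₂ : ℂ ≃ₜ ℂ}
    (hD : Data τ (τ / 20000) a α b β f) (h₁ : NS ζ₁ (τ / 20000)) (h₂ : NS ζ₂ (τ / 20000))
    {σ : ℂ →+* ℂ} (hσ : σ = RingHom.id ℂ ∨ σ = conj) {g : GL (Fin 2) ℂ}
    (key : ∀ z y : ℂ, g • ((ζ₂ (f z) : ℂ) : OnePoint ℂ) = y →
      (z ∈ Eset a α b β ↔ ζ₁.symm (σ y) ∈ Eset a α b β)) : False := by
  set η := τ / 20000 with hη
  have hη0 : 0 < η := by positivity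
  have hη1 : 3 * η ≤ 1 / 30 := by linarith
  have hη2 : η ≤ 1 / 30 := by linarith
  have σn : ∀ z, ‖σ z‖ = ‖z‖ := fun z => by rcases hσ with rfl | rfl <;> simp
  have σσ : ∀ z, σ (σ z) = z := fun z => by rcases hσ with rfl | rfl <;> simp
  have flip : ∀ x y, ‖x - y‖ ≤ 2 * ‖f x - f y‖ := fun x y => by
    have h1 := hD.lip.norm_sub_le x y
    have h2 := norm_sub_le (f x - f y) (f x - x - (f y - y))
    rw [show f x - f y - (f x - x - (f y - y)) = x - y by ring] at h2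
    push_cast at h1
    linarith
  obtain ⟨c, hc, hpole⟩ := pole g (P := fun z => ζ₂ (f z)) (ζ₂.injective.comp f.injective)
  have hP : Continuous fun z => ζ₂ (f z) := ζ₂.continuous.comp f.continuous
  have hK := isCompact_closedBall c (1 / 2)
  obtain ⟨m, C₀, hC₀, hm⟩ := mob_local g (hK.image hP) hpole
  have hm0 : ∀ z ∈ closedBall c (1 / 2),
      g • ((ζ₂ (f z) : ℂ) : OnePoint ℂ) = (m (ζ₂ (f z)) : ℂ) := fun z hz => by
    simpa only [add_zero] using (hm _ ⟨z, hz, rfl⟩).1 0 (by rw [norm_zero]; positivity)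
  have hmc : ∀ w ∈ (fun z => ζ₂ (f z)) '' closedBall c (1 / 2), ContinuousAt m w := by
    intro w hw
    obtain ⟨κ, -, -, h⟩ := (hm w hw).2.1
    rw [ContinuousAt, tendsto_iff_norm_sub_tendsto_zero]
    have h1 : ContinuousAt (fun z => C₀ * ‖z - w‖ ^ 2 + ‖κ * (z - w)‖) w := by fun_prop
    refine squeeze_zero' (.of_forall fun _ => norm_nonneg _) ?_ (by simpa using h1.tendsto)
    filter_upwards [closedBall_mem_nhds w (one_div_pos.2 hC₀)] with z hz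
    have h2 := h _ (mem_closedBall_iff_norm.1 hz)
    have h3 := norm_add_le (m z - m w - κ * (z - w)) (κ * (z - w))
    rw [add_sub_cancel] at h2
    rw [sub_add_cancel, norm_mul] at h3
    linarith
  have hQ : ContinuousOn (fun z => σ (m (ζ₂ (f z)))) (closedBall c (1 / 2)) := fun z hz => by
    have h1 : Continuous σ := by
      rcases hσ with rfl | rfl
      exacts [continuous_id, Complex.continuous_conj]
    exact (h1.continuousAt.comp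
      ((hmc _ ⟨z, hz, rfl⟩).comp (f := fun z => ζ₂ (f z)) hP.continuousAt)).continuousWithinAt
  obtain ⟨R₁, hR₁⟩ := hK.exists_bound_of_continuousOn f.continuous.continuousOn
  obtain ⟨R₂, hR₂⟩ := hK.exists_bound_of_continuousOn hP.continuousOn
  obtain ⟨R₃, hR₃⟩ := hK.exists_bound_of_continuousOn hQ
  obtain ⟨R₄, hR₄⟩ := hK.exists_bound_of_continuousOn (ζ₁.symm.continuous.comp_continuousOn hQ)
  obtain ⟨A₁, hA₁, H₁⟩ := ns_holder h₁ hη2 (R₄ + 1)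
  obtain ⟨A₂, hA₂, H₂⟩ := ns_holder (ns_symm h₂ hη2) hη1 (R₂ + 1)
  obtain ⟨B₂, hB₂, S₂⟩ := ns_scale h₂ hη2 R₁
  obtain ⟨B₁, hB₁, S₁⟩ := ns_scale (ns_symm h₁ hη2) hη1 R₃
  obtain ⟨ε₁, hε₁, hε₁', e₁⟩ := small_rpow hA₁ (one_div_pos.2 hC₀)
  obtain ⟨ε₂, hε₂, hε₂', e₂⟩ := small_rpow (A := 2 * B₂) (by positivity)
    (show 0 < η / (C₀ + 1) ^ 2 by positivity)
  obtain ⟨C, hC, k₁, k₂, k₃, k₄⟩ : ∃ C > 0, 1 / ε₁ ≤ C ∧
      (2 * A₂ * (C₀ * A₁) ^ (4 / 5 : ℝ)) ^ 2 ≤ C ∧ (B₂ * C₀) ^ (6 / 5 : ℝ) * B₁ * 2 ≤ C ∧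
      B₁ * (C₀ * B₂) ^ (4 / 5 : ℝ) ≤ C := by
    have p₁ : 0 < 1 / ε₁ := by positivity
    have p₂ : 0 < (2 * A₂ * (C₀ * A₁) ^ (4 / 5 : ℝ)) ^ 2 := by positivity
    have p₃ : 0 < (B₂ * C₀) ^ (6 / 5 : ℝ) * B₁ * 2 := by positivity
    have p₄ : 0 < B₁ * (C₀ * B₂) ^ (4 / 5 : ℝ) := by positivity
    exact ⟨_, add_pos (add_pos p₁ p₂) (add_pos p₃ p₄), by linarith, by linarith, by linarith,
      by linarith⟩
  refine cross (G := fun z => ζ₁.symm (σ (m (ζ₂ (f z))))) (c := c) hτ hτ1 hC hD.ga hD.gb hD.le₁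
    hD.le₂ (fun z hz hE => (key _ _ (hm0 z hz)).1 hE) (fun z hz ξ hξ hd => ?_) fun N => ?_
  · have hd1 := hd.trans ((one_div_le hC hε₁).2 k₁)
    have hG := hR₄ z hz
    simp only [Function.comp_def] at hG
    generalize hδ : ‖ξ - ζ₁.symm (σ (m (ζ₂ (f z))))‖ = δ at hd1 ⊢
    have hδ0 : 0 ≤ δ := hδ ▸ norm_nonneg _
    have hξ1 : ‖ξ‖ ≤ R₄ + 1 := by
      linarith [norm_sub_norm_le ξ (ζ₁.symm (σ (m (ζ₂ (f z)))))]
    have h1 := (H₁ ξ (mem_closedBall_zero_iff.2 hξ1) (ζ₁.symm (σ (m (ζ₂ (f z)))))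
      (mem_closedBall_zero_iff.2 (by linarith))).1
    rw [hδ, ζ₁.apply_symm_apply, ← σn, map_sub, σσ] at h1
    have h2 := h1.trans (e₁ δ hδ0 hd1)
    obtain ⟨w, hw, hw'⟩ := (hm _ ⟨z, hz, rfl⟩).2.2 _ h2
    have h3 : ‖w - ζ₂ (f z)‖ ≤ 1 := hw'.trans (by rwa [le_div_iff₀' hC₀] at h2)
    have h4 := hR₂ z hz
    have h5 := (H₂ w (mem_closedBall_zero_iff.2 (by linarith [norm_sub_norm_le w (ζ₂ (f z))]))
      (ζ₂ (f z)) (mem_closedBall_zero_iff.2 (by linarith))).1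
    refine ⟨f.symm (ζ₂.symm w), (key _ (σ (ζ₁ ξ)) (by simpa using hw)).2 (by simpa [σσ]), ?_⟩
    have h6 := flip (f.symm (ζ₂.symm w)) z
    rw [ζ₂.symm_apply_apply] at h5
    rw [f.apply_symm_apply] at h6
    have h7 := up (A := C₀ * A₁) (B := 2 * A₂) (t := ‖f.symm (ζ₂.symm w) - z‖) hδ0
      (hd1.trans hε₁') (norm_nonneg _) (by positivity) (by positivity)
      (hw'.trans ((mul_le_mul_of_nonneg_left h1 hC₀.le).trans_eq (mul_assoc _ _ _).symm))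
      (by linarith)
    refine (pow_le_pow_left₀ (norm_nonneg _) h7 2).trans ?_
    rw [mul_pow, Real.sq_sqrt hδ0]
    exact mul_le_mul_of_nonneg_right k₂ hδ0
  · obtain ⟨N', hN'⟩ := rad_small hD.ga (half_pos hε₂)
    obtain ⟨n, hn, hA, hf⟩ := hD.good c hc (max N N')
    have hr0 : 0 < rad α n := Real.sqrt_pos.2 (Real.sqrt_pos.2 (hD.ga.pos n))
    have hr := hN' n (le_of_max_le_right hn)
    refine ⟨n, le_of_max_le_left hn, hA, ?_⟩
    have hx : crs a b n ∈ closedBall c (1 / 2) :=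
      mem_closedBall_iff_norm.2 (hA.1.trans (by norm_num))
    generalize crs a b n = x at hf hx ⊢
    generalize rad α n = r at hf hr0 hr ⊢
    obtain ⟨κ₂, u₂, l₂, a₂⟩ := S₂ (f x) (mem_closedBall_zero_iff.2 (hR₁ x hx)) (2 * r)
      (by positivity) (by linarith)
    obtain ⟨κ₃, l₃, u₃, a₃⟩ := (hm _ ⟨x, hx, rfl⟩).2.1
    have hs₂ : 2 * ‖κ₂‖ * r * (C₀ + 1) ^ 2 ≤ η := by
      have h1 := e₂ (2 * r) (by positivity) (by linarith)
      have h2 : 0 ≤ ‖κ₂‖ * (2 * r) := by positivity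
      rw [← le_div_iff₀ (by positivity)]
      linarith
    have hκ₂ : 0 < ‖κ₂‖ * (2 * r) := (mul_pos_iff_of_pos_left hB₂).1
      ((Real.rpow_pos_of_pos (by positivity) _).trans_le l₂)
    have hκ₃ : 0 < ‖κ₃‖ := (one_div_pos.2 hC₀).trans_le l₃
    rw [div_le_iff₀ hC₀] at l₃
    have hk : 2 * ‖σ (κ₃ * (κ₂ * 1))‖ * r = ‖κ₃‖ * (‖κ₂‖ * (2 * r)) := by
      rw [σn, mul_one, norm_mul]
      ring
    have hs₃ : ‖κ₃‖ * (‖κ₂‖ * (2 * r)) ≤ C₀ * (‖κ₂‖ * (2 * r)) :=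
      mul_le_mul_of_nonneg_right u₃ hκ₂.le
    have hq : 0 < C₀ * (‖κ₂‖ * (2 * r)) := by positivity
    have hq' : 0 < C₀ ^ 2 * (‖κ₂‖ * (2 * r)) := by positivity
    obtain ⟨κ₄, u₄, l₄, a₄⟩ := S₁ _ (mem_closedBall_zero_iff.2 (hR₃ x hx))
      (‖κ₃‖ * (‖κ₂‖ * (2 * r))) (by positivity) (by linarith)
    have hκ : ‖κ₄‖ * (‖κ₃‖ * (‖κ₂‖ * (2 * r))) = 2 * (‖κ₄ * σ (κ₃ * (κ₂ * 1))‖ * r) := by
      rw [norm_mul, ← hk]
      ring
    refine ⟨κ₄ * σ (κ₃ * (κ₂ * 1)), ?_, ?_, ?_⟩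
    · have h1 := down (A := B₂ * C₀) (r := 2 * r) (by positivity) (by linarith) (by positivity)
        (by positivity) (l₂.trans (by
          rw [mul_assoc]
          refine mul_le_mul_of_nonneg_left ?_ hB₂.le
          have := mul_le_mul_of_nonneg_right l₃ hκ₂.le
          linarith)) l₄
      rw [hκ] at h1
      have h2 := mul_le_mul_of_nonneg_right k₃
        (show 0 ≤ ‖κ₄ * σ (κ₃ * (κ₂ * 1))‖ * r by positivity)
      rw [div_le_iff₀ hC]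
      refine le_of_mul_le_mul_right ?_ hr0
      nlinarith
    · have h1 := up (A := C₀ * B₂) (r := 2 * r) (by positivity) (by linarith) (by positivity)
        (by positivity) hB₁.le
        (hs₃.trans ((mul_le_mul_of_nonneg_left u₂ hC₀.le).trans_eq (mul_assoc _ _ _).symm)) u₄
      have h2 : √(2 * r) ≤ 2 * √r := Real.sqrt_le_iff.2 ⟨by positivity, by
        rw [mul_pow, Real.sq_sqrt hr0.le]
        linarith⟩
      have h3 := mul_le_mul k₄ h2 (by positivity) hC.le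
      linarith
    · have main : ∀ h : ℂ, ‖h‖ ≤ r → ‖ζ₁.symm (σ (m (ζ₂ (f (x + h))))) -
          ζ₁.symm (σ (m (ζ₂ (f x)))) - κ₄ * σ (κ₃ * (κ₂ * 1)) * σ (shear τ h)‖ ≤
            τ / 1000 * ‖κ₄ * σ (κ₃ * (κ₂ * 1))‖ * r := fun h hh => by
        have hS : ‖shear τ h‖ ≤ 3 / 2 * r := by
          refine (norm_add_le _ _).trans ?_
          rw [norm_mul, norm_mul, Complex.norm_I, Complex.norm_conj, Complex.norm_real,
            Real.norm_of_nonneg hτ.le]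
          nlinarith [norm_nonneg h]
        have t₂ := comp_app (k := 1) (F := ζ₂) (κ := κ₂) (ε := η) (ε' := η) (by linarith) hr0.le hS
          (by simpa using hf h hh) (by simpa using a₂)
        have t₃ := comp_app (F := m) (κ := κ₃) (ε' := η) (by linarith) hr0.le hS t₂ fun v hv => by
          rw [mul_one] at hv ⊢
          refine (a₃ v (hv.trans (by rw [le_div_iff₀ hC₀]; linarith))).trans ?_
          have h1 := pow_le_pow_left₀ (norm_nonneg _) hv 2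
          have h2 := mul_le_mul_of_nonneg_right l₃ hη0.le
          have h3 : C₀ * (‖κ₂‖ * (2 * r)) ≤ η * ‖κ₃‖ :=
            le_of_mul_le_mul_right (by linarith) hC₀
          have h4 := mul_le_mul_of_nonneg_right h3 hκ₂.le
          have h5 := mul_le_mul_of_nonneg_left h1 hC₀.le
          linarith
        rw [← σn, map_sub, map_sub, map_mul, ← σn (κ₃ * _)] at t₃
        have t₄ := comp_app (F := ζ₁.symm) (κ := κ₄) (ε' := 3 * η) (by linarith) hr0.le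
          ((σn _).trans_le hS) t₃ (by rw [hk]; exact a₄)
        refine t₄.trans (mul_le_mul_of_nonneg_right
          (mul_le_mul_of_nonneg_right (by linarith) (norm_nonneg _)) hr0.le)
      rcases hσ with rfl | rfl
      exacts [Or.inl main, Or.inr main]

end IneqAux

theorem ineq {τ : ℝ} (hτ : 0 < τ) (hτ1 : τ ≤ 1 / 2) : ∃ η > 0, ∀ (a α b β : ℕ → ℝ)
    (f ζ₁ ζ₂ : ℂ → ℂ), Data τ η a α b β f → NS ζ₁ η → NS ζ₂ η →
      ¬ MoebiusRelated (sph (ζ₁ '' (Eset a α b β)ᶜ)) (sph (ζ₂ '' (f '' Eset a α b β)ᶜ)) := by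
  refine ⟨τ / 20000, by positivity, fun a α b β f ζ₁ ζ₂ hD h₁ h₂ ⟨g, hg⟩ => ?_⟩
  obtain ⟨ζ₁, rfl⟩ := ns_homeo h₁ (by linarith)
  obtain ⟨ζ₂, rfl⟩ := ns_homeo h₂ (by linarith)
  obtain ⟨f, rfl⟩ := (transfer (dom_eset hD.ga hD.gb) hD.lip hD.holo).1
  obtain ⟨σ, hσ, hs⟩ : ∃ σ : ℂ →+* ℂ, (σ = RingHom.id ℂ ∨ σ = conj) ∧
      (fun z => g • ((σ (ζ₁ z) : ℂ) : OnePoint ℂ)) '' (Eset a α b β)ᶜ =
        (fun z => ((ζ₂ (f z) : ℂ) : OnePoint ℂ)) '' (Eset a α b β)ᶜ := by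
    simp only [sph, ← image_compl_eq f.bijective, image_image] at hg
    rcases hg with hg | hg
    exacts [⟨_, Or.inl rfl, hg⟩, ⟨_, Or.inr rfl, hg⟩]
  have σσ : ∀ z, σ (σ z) = z := fun z => by rcases hσ with rfl | rfl <;> simp
  refine IneqAux.core hτ hτ1 hD h₁ h₂ hσ (g := g⁻¹) fun z y h => not_iff_not.1 ?_
  rw [inv_smul_eq_iff] at h
  constructor
  · intro hz
    obtain ⟨z', hz', e⟩ := hs.ge ⟨z, hz, rfl⟩
    obtain rfl := OnePoint.coe_injective (MulAction.injective g (e.trans h))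
    rwa [σσ, ζ₁.symm_apply_apply]
  · intro hz
    obtain ⟨z', hz', e⟩ := hs.le ⟨_, hz, rfl⟩
    simp only [ζ₁.apply_symm_apply, σσ] at e
    obtain rfl := f.injective (ζ₂.injective (OnePoint.coe_injective (e.trans h.symm)))
    exact hz'

end Pool.Agent.Lib.MP_44acff_gt.NU
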