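import Pool.Agent.Lib.MP_44acff_gt.H70Norm

/-! Interior estimates, limits and fixed points. -/

namespace Pool.Agent.Lib.MP_44acff_gt.NU

open Set Metric MeasureTheory Filter Topology ComplexConjugate
open scoped ContDiff

variable {E : Set ℂ} {θ : ℝ}

namespace IntAux

theorem del_pos {p : ℂ × ℂ} (hp : p ∈ Tube E θ) : 0 < del E θ p := hp

/-- The ball of radius `del / 6` stays in the tube. -/
theorem ball_facts (hθ : 0 < θ) (hθ1 : θ ≤ 1) {p q : ℂ × ℂ} (hp : p ∈ Tube E θ)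
    (hq : q ∈ ball p (del E θ p / 6)) :
    q ∈ Tube E θ ∧ ‖mid q - mid p‖ ≤ DD E p / 2 ∧ del E θ p / 2 ≤ del E θ q := by
  have h0 := del_pos hp
  have h1 := del_sub_le (E := E) hθ hθ1 p q
  have h2 : ‖q - p‖ < del E θ p / 6 := by rwa [mem_ball, dist_eq_norm] at hq
  have h3 := norm_mid_sub p q
  have h4 := del_le (E := E) (θ := θ) p
  have h5 := DD_pos hp
  have h6 : θ * DD E p ≤ DD E p := by nlinarith
  refine ⟨?_, by linarith, by linarith⟩
  show 0 < del E θ q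
  linarith

theorem adm_ball (hθ : 0 < θ) (hθ1 : θ ≤ 1) {W : ℂ × ℂ → ℝ} {K : ℝ} (hW : Adm E θ W K)
    {p q : ℂ × ℂ} (hp : p ∈ Tube E θ) (hq : q ∈ ball p (del E θ p / 6)) : W q ≤ K * W p := by
  obtain ⟨h1, h2, h3⟩ := ball_facts hθ hθ1 hp hq
  exact hW.le p hp q h1 h2 h3

theorem adm_K_pos (hθ : 0 < θ) (hθ1 : θ ≤ 1) {W : ℂ × ℂ → ℝ} {K : ℝ} (hW : Adm E θ W K)
    {p : ℂ × ℂ} (hp : p ∈ Tube E θ) : 0 < K := by
  have h0 := del_pos hp
  have h1 := adm_ball hθ hθ1 hW hp (q := p) (mem_ball_self (by linarith))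
  have h2 := hW.pos p hp
  by_contra hK
  have : K * W p ≤ 0 := mul_nonpos_of_nonpos_of_nonneg (not_lt.mp hK) h2.le
  linarith

theorem nonneg_of_le {a M w : ℝ} (ha : 0 ≤ a) (hw : 0 < w) (h : a ≤ M * w) : 0 ≤ M := by
  by_contra hM
  have : M * w < 0 := mul_neg_of_neg_of_pos (not_le.mp hM) hw
  linarith

/-- First derivatives of a function with a weighted bound. -/
theorem first_est (hθ : 0 < θ) (hθ1 : θ ≤ 1) {W : ℂ × ℂ → ℝ} {K : ℝ} (hW : Adm E θ W K)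
    {H : ℂ × ℂ → ℂ} {δ : ℝ} (hH : DifferentiableOn ℂ H (Tube E θ))
    (hb : ∀ q ∈ Tube E θ, ‖H q‖ ≤ δ * W q) {p : ℂ × ℂ} (hp : p ∈ Tube E θ) :
    ‖dz H p‖ ≤ 12 * K * δ * W p / del E θ p ∧ ‖dw H p‖ ≤ 12 * K * δ * W p / del E θ p := by
  have h0 := del_pos hp
  have hδ : 0 ≤ δ := nonneg_of_le (norm_nonneg _) (hW.pos p hp) (hb p hp)
  have h1 := cauchy_est (F := H) (p := p) (r := del E θ p / 6) (M := δ * (K * W p)) (c := 0)
    (by linarith) (hH.mono fun q hq => (ball_facts hθ hθ1 hp hq).1) (fun q hq => by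
      rw [sub_zero]
      exact (hb q (ball_facts hθ hθ1 hp hq).1).trans
        (mul_le_mul_of_nonneg_left (adm_ball hθ hθ1 hW hp hq) hδ))
  have e : 2 * (δ * (K * W p)) / (del E θ p / 6) = 12 * K * δ * W p / del E θ p := by
    field_simp
    ring
  rwa [e] at h1

/-- A weighted bound controls the pointwise norm of order one. -/
theorem n1_le_of_sup (hθ : 0 < θ) (hθ1 : θ ≤ 1) {W : ℂ × ℂ → ℝ} {K : ℝ} (hW : Adm E θ W K)
    {p : ℂ × ℂ} (hp : p ∈ Tube E θ) : ∃ C : ℝ, ∀ (H : ℂ × ℂ → ℂ) (δ : ℝ),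
      DifferentiableOn ℂ H (Tube E θ) → (∀ q ∈ Tube E θ, ‖H q‖ ≤ δ * W q) →
      n1 E θ W H p ≤ C * δ := by
  have h0 := del_pos hp
  have hK := adm_K_pos hθ hθ1 hW hp
  have hw := hW.pos p hp
  have hD := DD_pos hp
  have ha := aw_pos hp
  set c1 : ℝ := 24 * K * K * W p / del E θ p with hc1
  set c0 : ℝ := 12 * K * W p / del E θ p with hc0
  set c2 : ℝ := 2 * c1 / (del E θ p / 6) with hc2
  refine ⟨(W p + aw E θ p * (c0 + c0)) / W p +
    (c0 + aw E θ p * (c2 + c2)) / (W p / DD E p) + (c0 + aw E θ p * (c2 + c2)) / (W p / DD E p),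
    fun H δ hH hb => ?_⟩
  have hδ : 0 ≤ δ := nonneg_of_le (norm_nonneg _) hw (hb p hp)
  have hloc : ∀ q ∈ ball p (del E θ p / 6), ‖dz H q‖ ≤ δ * c1 ∧ ‖dw H q‖ ≤ δ * c1 := by
    intro q hq
    obtain ⟨q1, -, q3⟩ := ball_facts hθ hθ1 hp hq
    have q4 := adm_ball hθ hθ1 hW hp hq
    have q5 := first_est hθ hθ1 hW hH hb q1
    have q6 : 12 * K * δ * W q / del E θ q ≤ δ * c1 := by
      calc 12 * K * δ * W q / del E θ q ≤ 12 * K * δ * (K * W p) / (del E θ p / 2) := by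
            gcongr
        _ = δ * c1 := by
            rw [hc1]
            field_simp
            ring
    exact ⟨q5.1.trans q6, q5.2.trans q6⟩
  have hsub : ball p (del E θ p / 6) ⊆ Tube E θ := fun q hq => (ball_facts hθ hθ1 hp hq).1
  have e2 : 2 * (δ * c1) / (del E θ p / 6) = δ * c2 := by
    rw [hc2]
    ring
  have hz := cauchy_est (F := dz H) (p := p) (r := del E θ p / 6) (M := δ * c1) (c := 0)
    (by linarith) ((holo_dz (isOpen_tube E θ) hH).mono hsub) (fun q hq => by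
      rw [sub_zero]; exact (hloc q hq).1)
  have hw' := cauchy_est (F := dw H) (p := p) (r := del E θ p / 6) (M := δ * c1) (c := 0)
    (by linarith) ((holo_dw (isOpen_tube E θ) hH).mono hsub) (fun q hq => by
      rw [sub_zero]; exact (hloc q hq).2)
  rw [e2] at hz hw'
  have h1 := first_est hθ hθ1 hW hH hb hp
  have e0 : 12 * K * δ * W p / del E θ p = δ * c0 := by
    rw [hc0]
    ring
  rw [e0] at h1
  have hb0 := hb p hp
  have hWD : 0 < W p / DD E p := by positivity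
  calc n1 E θ W H p = (‖H p‖ + aw E θ p * (‖dz H p‖ + ‖dw H p‖)) / W p +
        (‖dz H p‖ + aw E θ p * (‖dz (dz H) p‖ + ‖dw (dz H) p‖)) / (W p / DD E p) +
        (‖dw H p‖ + aw E θ p * (‖dz (dw H) p‖ + ‖dw (dw H) p‖)) / (W p / DD E p) := rfl
    _ ≤ (δ * W p + aw E θ p * (δ * c0 + δ * c0)) / W p +
        (δ * c0 + aw E θ p * (δ * c2 + δ * c2)) / (W p / DD E p) +
        (δ * c0 + aw E θ p * (δ * c2 + δ * c2)) / (W p / DD E p) := by
        gcongr
        exacts [h1.1, h1.2, h1.1, hz.1, hz.2, h1.2, hw'.1, hw'.2]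
    _ = _ := by ring

theorem b0_div {j : ℤ} {F : ℂ × ℂ → ℂ} {M : ℝ} (h : B0 E θ (Wj E (j - 1)) F M) :
    B0 E θ (Wj E j / DD E) F M :=
  ⟨h.1, fun p hp => by
    rw [n0_congr (W' := Wj E (j - 1)) (G := F) hp (fun _ _ => rfl) (Wj_div j hp)]
    exact h.2 p hp⟩

theorem n1_mul0 {p : ℂ × ℂ} {F G : ℂ × ℂ → ℂ} (h : p ∈ Tube E θ)
    (hF : DifferentiableOn ℂ F (Tube E θ)) (hG : DifferentiableOn ℂ G (Tube E θ)) :
    n1 E θ (Wj E 0) (F * G) p ≤ n1 E θ (Wj E 0) F p * n1 E θ (Wj E 0) G p := by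
  have h1 := n1_mul h (Wj_pos 0 h) (Wj_pos 0 h) hF hG
  rwa [n1_congr (W' := Wj E 0) (G := F * G) h (fun _ _ => rfl) (by simp [Wj_zero])] at h1

theorem b1_one : B1 E θ (Wj E 0) (1 : ℂ × ℂ → ℂ) 1 := by
  have h := B1.const (E := E) (θ := θ) 1
  rw [norm_one] at h
  exact h

theorem quad_unique {a b X : ℂ} (ha : a = 1 + X * a * a) (hb : b = 1 + X * b * b)
    (ha' : ‖a - 1‖ ≤ 1 / 2) (hb' : ‖b - 1‖ ≤ 1 / 2) (hX : ‖X‖ ≤ 1 / 10) : a = b := by
  have e : (a - b) * (1 - X * (a + b)) = 0 := by linear_combination ha - hb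
  rcases mul_eq_zero.mp e with h | h
  · exact sub_eq_zero.mp h
  · exfalso
    have h1 : X * (a + b) = 1 := by linear_combination -h
    have h2 : ‖a + b‖ ≤ 3 := by
      calc ‖a + b‖ = ‖(a - 1) + (b - 1) + 2‖ := by ring_nf
        _ ≤ ‖a - 1‖ + ‖b - 1‖ + ‖(2 : ℂ)‖ := norm_add₃_le
        _ ≤ 3 := by
          rw [Complex.norm_two]
          linarith
    have h3 : ‖X * (a + b)‖ ≤ 1 / 10 * 3 := by
      rw [norm_mul]
      gcongr
    rw [h1, norm_one] at h3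
    norm_num at h3

end IntAux

open IntAux

/-- Derivatives on a smaller tube. -/
theorem int_d {θ' : ℝ} (hθ : 0 < θ) (h : θ < θ') (h1 : θ' ≤ 1) (j : ℤ) : ∃ C > 0,
    ∀ (E : Set ℂ) (F : ℂ × ℂ → ℂ) (M : ℝ), DifferentiableOn ℂ F (Tube E θ') →
      (∀ p ∈ Tube E θ', ‖F p‖ ≤ M * Wj E j p) →
      ∀ p ∈ Tube E θ, ‖dz F p‖ ≤ C * M * Wj E (j - 1) p ∧ ‖dw F p‖ ≤ C * M * Wj E (j - 1) p := by
  have hd : 0 < θ' - θ := sub_pos.mpr h
  refine ⟨12 * 2 ^ j.natAbs / (θ' - θ), by positivity, fun E F M hF hM p hp => ?_⟩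
  have hp' : p ∈ Tube E θ' := tube_mono h.le hp
  have h2 := first_est (hθ.trans h) h1 (adm_Wj (E := E) (θ := θ') j) hF hM hp'
  have hD := DD_pos hp
  have hw := Wj_pos j hp
  have hM0 : 0 ≤ M := nonneg_of_le (norm_nonneg _) hw (hM p hp')
  have h3 : (θ' - θ) * DD E p ≤ del E θ' p := by
    have h4 := del_pos hp
    unfold del at h4 ⊢
    linarith
  have h5 : 12 * 2 ^ j.natAbs * M * Wj E j p / del E θ' p ≤
      12 * 2 ^ j.natAbs / (θ' - θ) * M * Wj E (j - 1) p := by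
    rw [← Wj_div j hp, Pi.div_apply]
    calc 12 * 2 ^ j.natAbs * M * Wj E j p / del E θ' p
        ≤ 12 * 2 ^ j.natAbs * M * Wj E j p / ((θ' - θ) * DD E p) := by gcongr
      _ = _ := by field_simp
  exact ⟨h2.1.trans h5, h2.2.trans h5⟩

namespace IntAux

/-- Bounded functions on a larger tube are bounded of order zero. -/
theorem int_B0 {θ' : ℝ} (hθ : 0 < θ) (h : θ < θ') (h1 : θ' ≤ 1) (j : ℤ) : ∃ C > 0,
    ∀ (E : Set ℂ) (F : ℂ × ℂ → ℂ) (M : ℝ), DifferentiableOn ℂ F (Tube E θ') →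
      (∀ p ∈ Tube E θ', ‖F p‖ ≤ M * Wj E j p) → B0 E θ (Wj E j) F (C * M) := by
  obtain ⟨C, hC, hd⟩ := int_d hθ h h1 j
  refine ⟨3 * (1 + C), by positivity, fun E F M hF hM => ?_⟩
  rw [mul_assoc]
  refine B0.of_le (hF.mono (tube_mono h.le)) (fun p hp => Wj_pos j hp) (fun p hp => ?_)
  have hp' : p ∈ Tube E θ' := tube_mono h.le hp
  have hw := Wj_pos j hp
  have hD := DD_pos hp
  have ha := aw_pos hp
  have haD := aw_le (h.le.trans h1) hp
  have hM0 : 0 ≤ M := nonneg_of_le (norm_nonneg _) hw (hM p hp')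
  have h2 := hd E F M hF hM p hp
  have h3 : C * M * Wj E (j - 1) p ≤ (1 + C) * M * Wj E j p / aw E θ p := by
    rw [← Wj_div j hp, Pi.div_apply, ← mul_div_assoc]
    gcongr
    linarith
  refine ⟨(hM p hp').trans ?_, h2.1.trans h3, h2.2.trans h3⟩
  have h4 : 0 ≤ C * M * Wj E j p := by positivity
  nlinarith

end IntAux

/-- Bounded functions on a larger tube are bounded of order one. -/
theorem int_B1 {θ' : ℝ} (hθ : 0 < θ) (h : θ < θ') (h1 : θ' ≤ 1) (j : ℤ) : ∃ C > 0,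
    ∀ (E : Set ℂ) (F : ℂ × ℂ → ℂ) (M : ℝ), DifferentiableOn ℂ F (Tube E θ') →
      (∀ p ∈ Tube E θ', ‖F p‖ ≤ M * Wj E j p) → B1 E θ (Wj E j) F (C * M) := by
  have ha : θ < (θ + θ') / 2 := by linarith
  have hb : (θ + θ') / 2 < θ' := by linarith
  obtain ⟨C0, hC0, h0⟩ := int_B0 hθ h h1 j
  obtain ⟨C1, hC1, hd⟩ := int_d (hθ.trans ha) hb h1 j
  obtain ⟨C2, hC2, h2⟩ := int_B0 hθ ha (hb.le.trans h1) (j - 1)
  refine ⟨C0 + C2 * C1 + C2 * C1, by positivity, fun E F M hF hM => ?_⟩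
  have hsub : Tube E ((θ + θ') / 2) ⊆ Tube E θ' := tube_mono hb.le
  have e : (C0 + C2 * C1 + C2 * C1) * M = C0 * M + C2 * (C1 * M) + C2 * (C1 * M) := by ring
  rw [e]
  refine B1.of_b0 (h0 E F M hF hM) (b0_div (h2 E _ _ ?_ ?_)) (b0_div (h2 E _ _ ?_ ?_))
  · exact (holo_dz (isOpen_tube E θ') hF).mono hsub
  · exact fun p hp => (hd E F M hF hM p hp).1
  · exact (holo_dw (isOpen_tube E θ') hF).mono hsub
  · exact fun p hp => (hd E F M hF hM p hp).2

/-- Completeness. -/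
theorem exists_limit (hθ : 0 < θ) (hθ1 : θ ≤ 1) {W : ℂ × ℂ → ℝ} {K : ℝ} (hW : Adm E θ W K)
    (F : ℕ → ℂ × ℂ → ℂ) (ε : ℕ → ℝ) (hε : Tendsto ε atTop (𝓝 0))
    (hF : ∀ n, DifferentiableOn ℂ (F n) (Tube E θ))
    (h : ∀ n m, n ≤ m → B1 E θ W (F m - F n) (ε n)) :
    ∃ G, DifferentiableOn ℂ G (Tube E θ) ∧ ∀ n, B1 E θ W (G - F n) (ε n) := by
  have hsup : ∀ n m, n ≤ m → ∀ p ∈ Tube E θ, ‖F m p - F n p‖ ≤ ε n * W p := fun n m hnm p hp =>
    (((h n m hnm).b0 hW.pos).norm_le hp (hW.pos p hp)).1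
  set G : ℂ × ℂ → ℂ := fun p => limUnder atTop (fun n => F n p) with hG
  have hlim : ∀ p ∈ Tube E θ, Tendsto (fun n => F n p) atTop (𝓝 (G p)) := by
    intro p hp
    refine CauchySeq.tendsto_limUnder ?_
    refine cauchySeq_of_le_tendsto_0' (fun n => ε n * W p) (fun n m hnm => ?_) ?_
    · rw [dist_comm, dist_eq_norm]
      exact hsup n m hnm p hp
    · simpa using hε.mul_const (W p)
  have hGs : ∀ n, ∀ p ∈ Tube E θ, ‖(G - F n) p‖ ≤ ε n * W p := by
    intro n p hp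
    refine le_of_tendsto ((hlim p hp).sub_const (F n p)).norm ?_
    filter_upwards [eventually_ge_atTop n] with m hm using hsup n m hm p hp
  have hGd : DifferentiableOn ℂ G (Tube E θ) := by
    intro p hp
    have h0 := del_pos hp
    have hK := adm_K_pos hθ hθ1 hW hp
    have hw := hW.pos p hp
    have hε0 : ∀ n, 0 ≤ ε n := fun n => nonneg_of_le (norm_nonneg _) hw (hGs n p hp)
    have hsub : ball p (del E θ p / 6) ⊆ Tube E θ := fun q hq => (ball_facts hθ hθ1 hp hq).1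
    have hloc : ∀ n, ∀ q ∈ ball p (del E θ p / 6), ‖(G - F n) q‖ ≤ ε n * (K * W p) :=
      fun n q hq => (hGs n q (hsub hq)).trans
        (mul_le_mul_of_nonneg_left (adm_ball hθ hθ1 hW hp hq) (hε0 n))
    have h1 : DifferentiableAt ℂ (G - F 0) p := by
      refine MP_08f711_an.differentiableAt_of_approx (R := del E θ p / 6) (by linarith)
        (hloc 0) (fun δ hδ => ?_)
      have h2 : Tendsto (fun n => ε n * (K * W p)) atTop (𝓝 0) := by
        simpa using hε.mul_const (K * W p)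
      obtain ⟨n, hn⟩ := (h2.eventually_le_const hδ).exists
      refine ⟨F n - F 0, ((hF n).sub (hF 0)).mono hsub, fun q hq => ?_⟩
      have e : (F n - F 0) q - (G - F 0) q = -((G - F n) q) := by simp
      rw [e, norm_neg]
      exact (hloc n q hq).trans hn
    have h3 := h1.add ((hF 0).differentiableAt ((isOpen_tube E θ).mem_nhds hp))
    rw [sub_add_cancel] at h3
    exact h3.differentiableWithinAt
  refine ⟨G, hGd, fun n => ⟨hGd.sub (hF n), fun p hp => ?_⟩⟩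
  obtain ⟨C, hC⟩ := n1_le_of_sup hθ hθ1 hW hp
  have h4 : Tendsto (fun m => C * ε m + ε n) atTop (𝓝 (ε n)) := by
    simpa using (hε.const_mul C).add_const (ε n)
  refine ge_of_tendsto h4 ?_
  filter_upwards [eventually_ge_atTop n] with m hm
  have e : G - F n = (G - F m) + (F m - F n) := by abel
  rw [e]
  refine (n1_add hp (hW.pos p hp) (hGd.sub (hF m)) ((hF m).sub (hF n))).trans ?_
  exact add_le_add (hC _ _ (hGd.sub (hF m)) (hGs m)) ((h n m hm).2 p hp)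

/-- The contraction principle. -/
theorem fixed_point (hθ : 0 < θ) (hθ1 : θ ≤ 1) {W : ℂ × ℂ → ℝ} {K : ℝ} (hW : Adm E θ W K)
    {r : ℝ} (hr : 0 ≤ r) (V : Set (ℂ × ℂ → ℂ)) (h0 : (0 : ℂ × ℂ → ℂ) ∈ V)
    (hV : ∀ G, DifferentiableOn ℂ G (Tube E θ) →
      (∀ ε > 0, ∃ F ∈ V, DifferentiableOn ℂ F (Tube E θ) ∧ B1 E θ W (G - F) ε) → G ∈ V)
    (T : (ℂ × ℂ → ℂ) → ℂ × ℂ → ℂ)
    (hT : ∀ F ∈ V, B1 E θ W F r → T F ∈ V ∧ B1 E θ W (T F) r)
    (hL : ∀ F ∈ V, ∀ G ∈ V, ∀ L, 0 ≤ L → B1 E θ W F r → B1 E θ W G r → B1 E θ W (F - G) L →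
      B1 E θ W (T F - T G) (L / 2)) :
    ∃ F ∈ V, B1 E θ W F r ∧ EqOn (T F) F (Tube E θ) := by
  set F : ℕ → ℂ × ℂ → ℂ := fun n => T^[n] 0 with hFdef
  have hs : ∀ n, F (n + 1) = T (F n) := fun n => Function.iterate_succ_apply' T n 0
  have hz : F 0 = 0 := rfl
  have hin : ∀ n, F n ∈ V ∧ B1 E θ W (F n) r := by
    intro n
    induction n with
    | zero => exact ⟨h0, B1.zero.mono hr⟩
    | succ n ih =>
      rw [hs]
      exact hT _ ih.1 ih.2
  have hdiff : ∀ n k, B1 E θ W (F (n + k) - F n) (r * (1 / 2) ^ n) := by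
    intro n
    induction n with
    | zero =>
      intro k
      rw [hz, sub_zero, pow_zero, mul_one]
      exact (hin _).2
    | succ n ih =>
      intro k
      have e : n + 1 + k = n + k + 1 := by ring
      have e2 : r * (1 / 2) ^ (n + 1) = r * (1 / 2) ^ n / 2 := by ring
      rw [e, hs, hs, e2]
      exact hL _ (hin _).1 _ (hin _).1 _ (by positivity) (hin _).2 (hin _).2 (ih k)
  have hε : Tendsto (fun n : ℕ => r * (1 / 2 : ℝ) ^ n) atTop (𝓝 0) := by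
    simpa using (tendsto_pow_atTop_nhds_zero_of_lt_one (r := (1 / 2 : ℝ)) (by norm_num)
      (by norm_num)).const_mul r
  obtain ⟨G, hGd, hG⟩ := exists_limit hθ hθ1 hW F (fun n => r * (1 / 2) ^ n) hε
    (fun n => (hin n).2.1) (fun n m hnm => by
      obtain ⟨k, rfl⟩ := Nat.exists_eq_add_of_le hnm
      exact hdiff n k)
  have hGV : G ∈ V := by
    refine hV G hGd (fun ε hε0 => ?_)
    obtain ⟨n, hn⟩ := (hε.eventually_le_const hε0).exists
    exact ⟨F n, (hin n).1, (hin n).2.1, (hG n).mono hn⟩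
  have hGr : B1 E θ W G r := by
    have h1 := hG 0
    rwa [hz, sub_zero, pow_zero, mul_one] at h1
  refine ⟨G, hGV, hGr, ?_⟩
  have h2 : EqOn (T G - G) 0 (Tube E θ) := by
    refine B0.eq_zero (W := W) (fun ε hε0 => ?_) hW.pos
    obtain ⟨n, hn⟩ := (hε.eventually_le_const hε0).exists
    have h3 := hL _ hGV _ (hin n).1 _ (by positivity) hGr (hin n).2 (hG n)
    have h4 := h3.sub (hG (n + 1)) hW.pos
    have e : T G - T (F n) - (G - F (n + 1)) = T G - G := by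
      rw [hs]
      abel
    rw [e] at h4
    refine (h4.b0 hW.pos).mono (le_trans (le_of_eq ?_) hn)
    ring
  intro p hp
  have h5 := h2 hp
  simpa [sub_eq_zero] using h5

namespace IntAux

theorem cat_step (hθ : 0 < θ) (hθ1 : θ ≤ 1) {x : ℂ × ℂ → ℂ} (hx : B1 E θ (Wj E 0) x (1 / 10)) :
    ∃ c : ℂ × ℂ → ℂ, EqOn c (1 + x * c * c) (Tube E θ) ∧ B1 E θ (Wj E 0) (c - 1) (1 / 2) := by
  have hpos : ∀ p ∈ Tube E θ, 0 < Wj E 0 p := fun p hp => Wj_pos 0 hp
  obtain ⟨u, -, hu, hfix⟩ := fixed_point hθ hθ1 (adm_Wj (E := E) (θ := θ) 0) (r := 1 / 2)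
    (by norm_num) univ (mem_univ _) (fun _ _ _ => mem_univ _)
    (fun u => x * (1 + u) * (1 + u)) (fun u _ hu => ⟨mem_univ _, by
      have h1 := b1_one.add hu hpos
      exact ((hx.mulj h1 (k := 0) (by simp)).mulj h1 (k := 0) (by simp)).mono (by norm_num)⟩)
    (fun u _ v _ L hL hu hv huv => by
      have h1 := (b1_one.add hu hpos).add (b1_one.add hv hpos) hpos
      have h2 := (hx.mulj h1 (k := 0) (by simp)).mulj huv (k := 0) (by simp)
      have e : x * (1 + u + (1 + v)) * (u - v) =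
          x * (1 + u) * (1 + u) - x * (1 + v) * (1 + v) := by ring
      rw [e] at h2
      exact h2.mono (by linarith))
  refine ⟨1 + u, fun p hp => ?_, by rwa [add_sub_cancel_left]⟩
  have h3 := hfix hp
  simp only [Pi.add_apply, Pi.mul_apply, Pi.one_apply] at h3 ⊢
  rw [h3]

end IntAux

/-- The small solution of `c = 1 + x c ^ 2`. -/
theorem exists_cat (hθ : 0 < θ) (hθ1 : θ ≤ 1) : ∃ c : (ℂ × ℂ → ℂ) → ℂ × ℂ → ℂ,
    (∀ x, B1 E θ (Wj E 0) x (1 / 10) → EqOn (c x) (1 + x * c x * c x) (Tube E θ) ∧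
      B1 E θ (Wj E 0) (c x - 1) (1 / 2) ∧
      (EqOn (st x) x (Tube E θ) → EqOn (st (c x)) (c x) (Tube E θ))) ∧
    ∀ x x' L, P1 E θ 0 x x' (1 / 10) L → P1 E θ 0 (c x) (c x') 2 (4 * L) := by
  have hpos : ∀ p ∈ Tube E θ, 0 < Wj E 0 p := fun p hp => Wj_pos 0 hp
  have key : ∀ x : ℂ × ℂ → ℂ, ∃ c : ℂ × ℂ → ℂ, B1 E θ (Wj E 0) x (1 / 10) →
      EqOn c (1 + x * c * c) (Tube E θ) ∧ B1 E θ (Wj E 0) (c - 1) (1 / 2) := by
    intro x
    by_cases hx : B1 E θ (Wj E 0) x (1 / 10)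
    · obtain ⟨c, hc⟩ := cat_step hθ hθ1 hx
      exact ⟨c, fun _ => hc⟩
    · exact ⟨0, fun h => absurd h hx⟩
  choose c hc using key
  have hnorm : ∀ {F : ℂ × ℂ → ℂ} {M : ℝ}, B1 E θ (Wj E 0) F M → ∀ p ∈ Tube E θ, ‖F p‖ ≤ M := by
    intro F M hF p hp
    have h1 := ((hF.b0 hpos).norm_le hp (hpos p hp)).1
    rwa [Wj_zero, mul_one] at h1
  have hb : ∀ x, B1 E θ (Wj E 0) x (1 / 10) → B1 E θ (Wj E 0) (c x) (3 / 2) := by
    intro x hx
    have h1 := (hc x hx).2.add b1_one hpos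
    rw [sub_add_cancel] at h1
    exact h1.mono (by norm_num)
  refine ⟨c, fun x hx => ⟨(hc x hx).1, (hc x hx).2, fun hs p hp => ?_⟩, fun x x' L hP => ?_⟩
  · have h1 := (hc x hx).1 hp
    have h2 := (hc x hx).1 (sig_mem hp)
    have h3 := hs hp
    have h4 := hnorm (hc x hx).2 p hp
    have h5 := hnorm (hc x hx).2 _ (sig_mem hp)
    simp only [Pi.add_apply, Pi.mul_apply, Pi.one_apply, Pi.sub_apply] at h1 h2 h4 h5
    refine quad_unique (X := x p) ?_ h1 ?_ h4 (hnorm hx p hp)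
    · have h6 := congrArg conj h2
      simp only [map_add, map_mul, map_one] at h6
      rw [← h3]
      exact h6
    · have e : st (c x) p - 1 = conj (c x (sig p) - 1) := by simp [st]
      rw [e, Complex.norm_conj]
      exact h5
  · obtain ⟨hx, hx', hd⟩ := hP
    have hc1 := hb x hx
    have hc2 := hb x' hx'
    refine ⟨hc1.mono (by norm_num), hc2.mono (by norm_num), hc1.1.sub hc2.1, fun p hp => ?_⟩
    have hA := (hd.mulj hc1 (k := 0) (by simp)).mulj hc1 (k := 0) (by simp)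
    have hB := hx'.mulj (hc1.add hc2 hpos) (k := 0) (by simp)
    have hD : DifferentiableOn ℂ (c x - c x') (Tube E θ) := hc1.1.sub hc2.1
    have hEq : EqOn (c x - c x')
        ((x - x') * c x * c x + x' * (c x + c x') * (c x - c x')) (Tube E θ) := by
      intro q hq
      have h1 := (hc x hx).1 hq
      have h2 := (hc x' hx').1 hq
      simp only [Pi.add_apply, Pi.mul_apply, Pi.one_apply, Pi.sub_apply] at h1 h2 ⊢
      linear_combination h1 - h2
    have h3 := n1_congr (W := Wj E 0) (W' := Wj E 0) hp hEq rfl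
    have h4 := n1_add hp (hpos p hp) hA.1 (hB.1.mul hD)
    have h5 := n1_mul0 hp hB.1 hD
    have h6 := hA.2 p hp
    have h7 := hB.2 p hp
    have h8 : 0 ≤ n1 E θ (Wj E 0) (c x - c x') p := n1_nonneg hp (hpos p hp)
    have h9 : 0 ≤ L := (n1_nonneg hp (hpos p hp)).trans (hd.2 p hp)
    have h10 : n1 E θ (Wj E 0) (x' * (c x + c x')) p * n1 E θ (Wj E 0) (c x - c x') p ≤
        1 / 10 * (3 / 2 + 3 / 2) * n1 E θ (Wj E 0) (c x - c x') p :=
      mul_le_mul_of_nonneg_right h7 h8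
    linarith

end Pool.Agent.Lib.MP_44acff_gt.NU
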