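import Pool.Agent.Lib.MP_44acff_gt.H70Base
import Pool.Agent.Lib.MP_21db80_an.RMT

/-! The square root construction of Koebe. -/

namespace Pool.Agent.Lib.MP_44acff_gt.NU

open Set Metric MeasureTheory Filter Topology ComplexConjugate
open scoped ContDiff

namespace KoebeAux

open Pool.Agent.Lib.MP_21db80_an

/-- Holomorphic square roots on the disc, with prescribed value at the centre. -/
theorem exists_sqrt {g : ℂ → ℂ} (hg : DifferentiableOn ℂ g (ball 0 1))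
    (h0 : ∀ t ∈ ball (0 : ℂ) 1, g t ≠ 0) {s₀ : ℂ} (hs : s₀ ^ 2 = g 0) :
    ∃ s : ℂ → ℂ, DifferentiableOn ℂ s (ball 0 1) ∧ s 0 = s₀ ∧
      ∀ t ∈ ball (0 : ℂ) 1, s t ^ 2 = g t := by
  have hd : DifferentiableOn ℂ (fun t => deriv g t / g t) (ball 0 1) :=
    (hg.deriv isOpen_ball).div hg h0
  obtain ⟨h, hh0, hh⟩ := hd.isExactOn_ball.with_val_at 0 0
  have key : ∀ t ∈ ball (0 : ℂ) 1, HasDerivAt (fun t => g t * Complex.exp (-h t)) 0 t := by
    intro t ht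
    have h1 := ((hg.differentiableAt (isOpen_ball.mem_nhds ht)).hasDerivAt).mul
      (hh t ht).neg.cexp
    refine HasDerivAt.congr_deriv (f := fun t => g t * Complex.exp (-h t)) h1 ?_
    have := h0 t ht
    simp only [Pi.neg_apply]
    field_simp
    ring
  refine ⟨fun t => s₀ * Complex.exp (h t / 2), fun t ht =>
    (((hh t ht).div_const 2).cexp.const_mul s₀).differentiableAt.differentiableWithinAt,
    by simp [hh0], fun t ht => ?_⟩
  have h1 := isOpen_ball.is_const_of_deriv_eq_zero (convex_ball (0 : ℂ) 1).isPreconnected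
    (fun t ht => (key t ht).differentiableAt.differentiableWithinAt)
    (fun t ht => (key t ht).deriv) ht (mem_ball_self one_pos)
  rw [hh0, neg_zero, Complex.exp_zero, mul_one] at h1
  rw [mul_pow, hs, ← h1, sq, ← Complex.exp_add, add_halves, mul_assoc, ← Complex.exp_add,
    neg_add_cancel, Complex.exp_zero, mul_one]

theorem dmob_neg {a w : ℂ} (ha : ‖a‖ < 1) (hw : ‖w‖ < 1) : dmob (-a) (dmob a w) = w := by
  have h1 := dmob_den ha hw
  have h2 := dmob_den (a := -a) (by rwa [norm_neg]) (norm_dmob ha hw)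
  have h3 : dmob a w * (1 - conj a * w) = w - a := div_mul_cancel₀ _ h1
  rw [dmob, div_eq_iff h2, map_neg]
  linear_combination h3

theorem dmob_neg' {a w : ℂ} (ha : ‖a‖ < 1) (hw : ‖w‖ < 1) : dmob a (dmob (-a) w) = w := by
  have := dmob_neg (a := -a) (by rwa [norm_neg]) hw
  rwa [neg_neg] at this

theorem diff_dmob {a : ℂ} (ha : ‖a‖ < 1) {f : ℂ → ℂ} {S : Set ℂ} (hf : DifferentiableOn ℂ f S)
    (h : ∀ t ∈ S, ‖f t‖ < 1) : DifferentiableOn ℂ (fun t => dmob a (f t)) S := fun t ht =>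
  (hasDerivAt_dmob ha (h t ht)).differentiableAt.comp_differentiableWithinAt t (hf t ht)

theorem sq_lt {w : ℂ} (hw : ‖w‖ < 1) : ‖w ^ 2‖ < 1 := by
  rw [norm_pow]
  exact pow_lt_one₀ (norm_nonneg _) hw two_ne_zero

theorem lt_of_sq {w : ℂ} (hw : ‖w ^ 2‖ < 1) : ‖w‖ < 1 := by
  rw [norm_pow] at hw
  exact lt_of_pow_lt_pow_left₀ 2 zero_le_one (by simpa using hw)

/-- The class of the extremal problem. -/
structure Good (Ω : Set ℂ) (z₀ : ℂ) (U : Set ℂ) (p : ℂ → ℂ) : Prop where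
  op : IsOpen U
  sub : U ⊆ ball 0 1
  zero : (0 : ℂ) ∈ U
  diff : DifferentiableOn ℂ p U
  maps : MapsTo p U Ω
  val : p 0 = z₀
  lifts : Lifts p U Ω

theorem exists_good {Ω : Set ℂ} (hΩ : IsOpen Ω) (hb : Bornology.IsBounded Ω) {z₀ : ℂ}
    (hz : z₀ ∈ Ω) : ∃ U p, Good Ω z₀ U p := by
  obtain ⟨R, hR, hΩR⟩ := hb.subset_ball_lt 0 z₀
  have hR' : (R : ℂ) ≠ 0 := Complex.ofReal_ne_zero.2 hR.ne'
  refine ⟨(fun w => z₀ + R * w) ⁻¹' Ω, fun w => z₀ + R * w, hΩ.preimage (by fun_prop),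
    fun w hw => ?_, by simpa using hz, by fun_prop, fun w hw => hw, by simp,
    fun ψ hψ hm x _ hx => ⟨fun t => (ψ t - z₀) / R, (hψ.sub_const _).div_const _,
      fun t ht => ?_, ?_, fun t _ => ?_⟩⟩
  · have h1 := hΩR hw
    rw [mem_ball, dist_eq_norm, add_sub_cancel_left, norm_mul, Complex.norm_real,
      Real.norm_of_nonneg hR.le] at h1
    rw [mem_ball_zero_iff]
    exact (mul_lt_iff_lt_one_right hR).1 h1
  · change z₀ + R * ((ψ t - z₀) / R) ∈ Ω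
    rw [mul_div_cancel₀ _ hR', add_sub_cancel]
    exact hm ht
  · change (ψ 0 - z₀) / R = x
    rw [← hx, add_sub_cancel_left, mul_div_cancel_left₀ _ hR']
  · change z₀ + R * ((ψ t - z₀) / R) = ψ t
    rw [mul_div_cancel₀ _ hR', add_sub_cancel]

theorem Good.lower {Ω : Set ℂ} {z₀ : ℂ} {ρ : ℝ} (hρ : 0 < ρ) (hs : ball z₀ ρ ⊆ Ω) {U : Set ℂ}
    {p : ℂ → ℂ} (h : Good Ω z₀ U p) : ρ ≤ ‖deriv p 0‖ := by
  have m0 : (0 : ℂ) ∈ ball (0 : ℂ) 1 := mem_ball_self one_pos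
  obtain ⟨χ, hχ, hm, h0, he⟩ := h.lifts (fun t => z₀ + ρ * t) (by fun_prop) (fun t ht => hs (by
    rw [mem_ball, dist_eq_norm, add_sub_cancel_left, norm_mul, Complex.norm_real,
      Real.norm_of_nonneg hρ.le]
    exact mul_lt_of_lt_one_right hρ (mem_ball_zero_iff.1 ht))) 0 h.zero (by simp [h.val])
  have h1 : ‖deriv χ 0‖ ≤ 1 / 1 := Complex.norm_deriv_le_div_of_mapsTo_ball hχ
    (fun t ht => by rw [h0]; exact ball_subset_closedBall (h.sub (hm ht))) one_pos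
  have d1 := (hχ.differentiableAt (isOpen_ball.mem_nhds m0)).hasDerivAt
  have d2 : HasDerivAt p (deriv p 0) (χ 0) := by
    rw [h0]
    exact (h.diff.differentiableAt (h.op.mem_nhds h.zero)).hasDerivAt
  have d3 : HasDerivAt (fun t : ℂ => z₀ + ρ * t) (ρ * 1) 0 :=
    ((hasDerivAt_id (0 : ℂ)).const_mul (ρ : ℂ)).const_add z₀
  have d4 : HasDerivAt (p ∘ χ) (ρ * 1) 0 := d3.congr_of_eventuallyEq (by
    filter_upwards [isOpen_ball.mem_nhds m0] with t ht using he t ht)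
  have e := congrArg norm ((d2.comp 0 d1).unique d4)
  rw [norm_mul, mul_one, Complex.norm_real, Real.norm_of_nonneg hρ.le] at e
  rw [← e]
  exact mul_le_of_le_one_right (norm_nonneg _) (by simpa using h1)

theorem Good.improve {Ω : Set ℂ} {z₀ : ℂ} {U : Set ℂ} {p : ℂ → ℂ} (h : Good Ω z₀ U p) {r : ℝ}
    (hr : r < 1) {a : ℂ} (har : ‖a‖ < r) (haU : a ∉ U) :
    ∃ U' p', Good Ω z₀ U' p' ∧ ‖deriv p' 0‖ ≤ (1 - (1 - r) ^ 2 / 8) * ‖deriv p 0‖ := by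
  have ha : ‖a‖ < 1 := har.trans hr
  have ha' : ‖-a‖ < 1 := by rwa [norm_neg]
  obtain ⟨b, hb⟩ := IsAlgClosed.exists_pow_nat_eq (-a) two_pos
  have hb1 : ‖b‖ < 1 := lt_of_sq (by rwa [hb])
  have hb1' : ‖-b‖ < 1 := by rwa [norm_neg]
  have n0 : ‖(0 : ℂ)‖ < 1 := by simp
  set B : ℂ → ℂ := fun y => dmob (-a) (dmob (-b) y ^ 2) with hB
  have hBd : DifferentiableOn ℂ B (ball 0 1) :=
    diff_dmob ha' ((diff_dmob hb1' differentiableOn_id fun t ht => mem_ball_zero_iff.1 ht).pow 2)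
      fun t ht => sq_lt (norm_dmob hb1' (mem_ball_zero_iff.1 ht))
  have e0 : dmob (-b) 0 = b := by simp [dmob]
  have B0 : B 0 = 0 := by
    change dmob (-a) (dmob (-b) 0 ^ 2) = 0
    rw [e0, hb, dmob, sub_self, zero_div]
  refine ⟨ball 0 1 ∩ B ⁻¹' U, p ∘ B, ⟨hBd.continuousOn.isOpen_inter_preimage isOpen_ball h.op,
    inter_subset_left, ⟨mem_ball_self one_pos, by rw [mem_preimage, B0]; exact h.zero⟩,
    h.diff.comp (hBd.mono inter_subset_left) fun y hy => hy.2, fun y hy => h.maps hy.2,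
    by rw [Function.comp_apply, B0, h.val], fun ψ hψ hm x hx hpx => ?_⟩, ?_⟩
  · obtain ⟨χ, hχ, hχm, hχ0, he⟩ := h.lifts ψ hψ hm (B x) hx.2 hpx
    have hx1 := mem_ball_zero_iff.1 hx.1
    have c1 : ∀ t ∈ ball (0 : ℂ) 1, ‖χ t‖ < 1 := fun t ht => mem_ball_zero_iff.1 (h.sub (hχm ht))
    obtain ⟨s, hs, hs0, hs2⟩ := exists_sqrt (diff_dmob ha hχ c1) (fun t ht =>
      div_ne_zero (sub_ne_zero.2 fun e => haU (e ▸ hχm ht)) (dmob_den ha (c1 t ht)))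
      (s₀ := dmob (-b) x) (by
        rw [hχ0]
        exact (dmob_neg' ha (sq_lt (norm_dmob hb1' hx1))).symm)
    have s1 : ∀ t ∈ ball (0 : ℂ) 1, ‖s t‖ < 1 := fun t ht =>
      lt_of_sq (by rw [hs2 t ht]; exact norm_dmob ha (c1 t ht))
    have eB : ∀ t ∈ ball (0 : ℂ) 1, B (dmob b (s t)) = χ t := fun t ht => by
      change dmob (-a) (dmob (-b) (dmob b (s t)) ^ 2) = χ t
      rw [dmob_neg hb1 (s1 t ht), hs2 t ht, dmob_neg ha (c1 t ht)]
    refine ⟨fun t => dmob b (s t), diff_dmob hb1 hs s1, fun t ht =>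
      ⟨mem_ball_zero_iff.2 (norm_dmob hb1 (s1 t ht)), ?_⟩, ?_, fun t ht => ?_⟩
    · rw [mem_preimage, eB t ht]
      exact hχm ht
    · change dmob b (s 0) = x
      rw [hs0, dmob_neg' hb1 hx1]
    · rw [Function.comp_apply, eB t ht, he t ht]
  · have d1 := (hasDerivAt_dmob hb1' n0).pow 2
    have d2 := (hasDerivAt_dmob ha' (sq_lt (norm_dmob hb1' n0))).comp (0 : ℂ) d1
    have d3 : HasDerivAt p (deriv p 0) (B 0) := by
      rw [B0]
      exact (h.diff.differentiableAt (h.op.mem_nhds h.zero)).hasDerivAt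
    have d4 := d3.comp (0 : ℂ) (h := B) d2
    rw [d4.deriv, norm_mul, mul_comm]
    refine mul_le_mul_of_nonneg_right ?_ (norm_nonneg _)
    have e2 : conj (-b) * -b = ((‖b‖ ^ 2 : ℝ) : ℂ) := by
      rw [mul_comm, Complex.mul_conj, Complex.normSq_eq_norm_sq, norm_neg]
    have e3 : conj (-a) * -a = ((‖b‖ ^ 4 : ℝ) : ℂ) := by
      rw [mul_comm, Complex.mul_conj, Complex.normSq_eq_norm_sq, ← hb, norm_pow, ← pow_mul]
      rfl
    have e4 : ‖b‖ ^ 2 < r := by rwa [← norm_pow, hb, norm_neg]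
    have hβ := norm_nonneg b
    have hb2 : 0 < 1 - ‖b‖ ^ 2 := by linarith
    have hb4 : 0 < 1 - ‖b‖ ^ 4 := by nlinarith
    rw [e0, hb, e2, e3]
    simp only [norm_mul, norm_div, norm_pow, mul_zero, sub_zero, one_pow, div_one,
      Nat.cast_ofNat, Complex.norm_ofNat, Nat.add_one_sub_one, pow_one]
    rw [← Complex.ofReal_one, ← Complex.ofReal_sub, ← Complex.ofReal_sub, Complex.norm_real,
      Complex.norm_real, Real.norm_of_nonneg hb2.le, Real.norm_of_nonneg hb4.le]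
    have e5 : (1 - ‖b‖ ^ 4) / (1 - ‖b‖ ^ 4) ^ 2 * (2 * ‖b‖ * (1 - ‖b‖ ^ 2)) =
        2 * ‖b‖ / (1 + ‖b‖ ^ 2) := by
      have e6 : 1 - ‖b‖ ^ 4 = (1 - ‖b‖ ^ 2) * (1 + ‖b‖ ^ 2) := by ring
      rw [e6]
      field_simp
    rw [e5, div_le_iff₀ (by positivity)]
    have f1 : (1 - r) / 2 ≤ 1 - ‖b‖ := by nlinarith [sq_nonneg (1 - ‖b‖)]
    have f2 : ((1 - r) / 2) ^ 2 ≤ (1 - ‖b‖) ^ 2 := pow_le_pow_left₀ (by linarith) f1 2
    have f3 : (1 - r) ^ 2 / 8 * (1 + ‖b‖ ^ 2) ≤ (1 - r) ^ 2 / 8 * 2 :=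
      mul_le_mul_of_nonneg_left (by linarith) (by positivity)
    nlinarith

end KoebeAux

theorem koebe {Ω : Set ℂ} (hΩ : IsOpen Ω) (hb : Bornology.IsBounded Ω) {z₀ : ℂ} (hz : z₀ ∈ Ω)
    {r : ℝ} (hr : r < 1) : ∃ (U : Set ℂ) (p : ℂ → ℂ), IsOpen U ∧ ball 0 r ⊆ U ∧ U ⊆ ball 0 1 ∧
      (0 : ℂ) ∈ U ∧ DifferentiableOn ℂ p U ∧ MapsTo p U Ω ∧ p 0 = z₀ ∧ Lifts p U Ω := by
  by_contra hn
  have miss : ∀ U p, KoebeAux.Good Ω z₀ U p → ∃ a : ℂ, ‖a‖ < r ∧ a ∉ U := fun U p h => by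
    by_contra hc
    push Not at hc
    exact hn ⟨U, p, h.op, fun a ha => hc a (mem_ball_zero_iff.1 ha), h.sub, h.zero, h.diff, h.maps,
      h.val, h.lifts⟩
  obtain ⟨U₀, p₀, h₀⟩ := KoebeAux.exists_good hΩ hb hz
  obtain ⟨ρ, hρ, hs⟩ := Metric.isOpen_iff.1 hΩ z₀ hz
  have hr0 : 0 < r := by
    obtain ⟨a, ha, -⟩ := miss U₀ p₀ h₀
    exact (norm_nonneg a).trans_lt ha
  set q : ℝ := 1 - (1 - r) ^ 2 / 8 with hq
  have q0 : 0 < q := by nlinarith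
  have q1 : q < 1 := by
    have : 0 < (1 - r) ^ 2 := pow_pos (by linarith) 2
    linarith
  let S : Set ℝ := {t | ∃ U p, KoebeAux.Good Ω z₀ U p ∧ ‖deriv p 0‖ = t}
  have hS : S.Nonempty := ⟨_, U₀, p₀, h₀, rfl⟩
  have lo : ∀ t ∈ S, ρ ≤ t := by
    rintro _ ⟨U, p, h, rfl⟩
    exact h.lower hρ hs
  have m0 : 0 < sInf S := hρ.trans_le (le_csInf hS lo)
  obtain ⟨_, ⟨U, p, h, rfl⟩, ht⟩ := exists_lt_of_csInf_lt hS (b := sInf S / q)
    (by rw [lt_div_iff₀ q0]; exact mul_lt_of_lt_one_right m0 q1)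
  obtain ⟨a, ha, haU⟩ := miss U p h
  obtain ⟨U', p', h', hle⟩ := h.improve hr ha haU
  have h1 : sInf S ≤ ‖deriv p' 0‖ := csInf_le ⟨ρ, lo⟩ ⟨U', p', h', rfl⟩
  rw [lt_div_iff₀ q0, mul_comm] at ht
  exact absurd (h1.trans hle) (not_le.2 ht)

end Pool.Agent.Lib.MP_44acff_gt.NU
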