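import Pool.Agent.Lib.MP_44acff_gt.H70Int

/-! Extension of the hyperbolic density to a tube. -/

namespace Pool.Agent.Lib.MP_44acff_gt.NU

open Set Metric MeasureTheory Filter Topology ComplexConjugate
open scoped ContDiff

namespace RhoAux

/-- `φ` is a developing map of `lam` on a disc. -/
structure Rep (lam : ℂ → ℝ) (φ : ℂ → ℂ) (m : ℂ) (s : ℝ) : Prop where
  holo : DifferentiableOn ℂ φ (ball m s)
  maps : MapsTo φ (ball m s) (ball 0 1)
  eq : ∀ w ∈ ball m s, lam w = 2 * ‖deriv φ w‖ / (1 - ‖φ w‖ ^ 2)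

/-- The extension of the square of the density. -/
noncomputable def RR (φ : ℂ → ℂ) (p : ℂ × ℂ) : ℂ :=
  4 * (deriv φ p.1 * conj (deriv φ (conj p.2))) / (1 - φ p.1 * conj (φ (conj p.2))) ^ 2

variable {lam : ℂ → ℝ} {φ ψ : ℂ → ℂ} {m : ℂ} {s : ℝ} {p : ℂ × ℂ}

theorem Rep.mono (h : Rep lam φ m s) {m' : ℂ} {s' : ℝ} (hs : ball m' s' ⊆ ball m s) :
    Rep lam φ m' s' :=
  ⟨h.holo.mono hs, h.maps.mono_left hs, fun w hw => h.eq w (hs hw)⟩

theorem diffAt_conj {f : ℂ → ℂ} (hf : DifferentiableAt ℂ f (conj p.2)) :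
    DifferentiableAt ℂ (fun q : ℂ × ℂ => conj (f (conj q.2))) p := by
  have h1 : DifferentiableAt ℂ (conj ∘ f ∘ conj) p.2 := differentiableAt_conj_conj_iff.2 hf
  exact h1.comp p differentiableAt_snd

theorem Rep.den_ne (h : Rep lam φ m s) (h1 : p.1 ∈ ball m s) (h2 : conj p.2 ∈ ball m s) :
    1 - φ p.1 * conj (φ (conj p.2)) ≠ 0 := by
  have a1 := mem_ball_zero_iff.1 (h.maps h1)
  have a2 := mem_ball_zero_iff.1 (h.maps h2)
  intro h0
  have h3 : ‖φ p.1 * conj (φ (conj p.2))‖ = 1 := by rw [← sub_eq_zero.1 h0, norm_one]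
  rw [norm_mul, Complex.norm_conj] at h3
  nlinarith [norm_nonneg (φ p.1), norm_nonneg (φ (conj p.2))]

theorem Rep.diffAt (h : Rep lam φ m s) (h1 : p.1 ∈ ball m s) (h2 : conj p.2 ∈ ball m s) :
    DifferentiableAt ℂ (RR φ) p := by
  have hd := h.holo.deriv isOpen_ball
  have a1 := (h.holo.differentiableAt (isOpen_ball.mem_nhds h1)).comp p differentiableAt_fst
  have a2 := diffAt_conj (h.holo.differentiableAt (isOpen_ball.mem_nhds h2))
  have a3 := (hd.differentiableAt (isOpen_ball.mem_nhds h1)).comp p differentiableAt_fst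
  have a4 := diffAt_conj (hd.differentiableAt (isOpen_ball.mem_nhds h2))
  have a5 : DifferentiableAt ℂ (fun q : ℂ × ℂ => (1 - φ q.1 * conj (φ (conj q.2))) ^ 2) p :=
    ((a1.mul a2).const_sub 1).pow 2
  have a6 := ((a3.mul a4).const_mul 4).mul (a5.inv (pow_ne_zero 2 (h.den_ne h1 h2)))
  exact a6.congr_of_eventuallyEq (Eventually.of_forall fun q => div_eq_mul_inv _ _)

theorem Rep.RR_diag (h : Rep lam φ m s) {w : ℂ} (hw : w ∈ ball m s) :
    RR φ (diag w) = (lam w : ℂ) ^ 2 := by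
  rw [h.eq w hw]
  simp only [RR, diag, Complex.conj_conj, Complex.mul_conj, Complex.normSq_eq_norm_sq]
  push_cast
  rw [div_pow]
  ring

theorem RR_sig (φ : ℂ → ℂ) (p : ℂ × ℂ) : RR φ (sig p) = conj (RR φ p) := by
  simp only [RR, sig, Complex.conj_conj, map_div₀, map_mul, map_pow, map_sub, map_one, map_ofNat]
  ring

theorem indep (h : Rep lam φ (mid p) s) (h' : Rep lam ψ (mid p) s)
    (hp : ‖p.1 - mid p‖ < s / 2) : RR φ p = RR ψ p := by
  set m := mid p with hm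
  set u : ℂ := -Complex.I * (p.1 - m) with hu
  have hun : ‖u‖ = ‖p.1 - m‖ := by simp [hu]
  let γ : ℂ → ℂ × ℂ := fun t => (m + t * u, conj m + t * conj u)
  have hγ : Differentiable ℂ γ := by fun_prop
  have m1 : ∀ t ∈ ball (0 : ℂ) 2, (γ t).1 ∈ ball m s ∧ conj (γ t).2 ∈ ball m s := by
    intro t ht
    have h1 := mem_ball_zero_iff.1 ht
    have h2 : ‖t‖ * ‖u‖ < s := by nlinarith [norm_nonneg t, norm_nonneg u]
    constructor
    · simpa [γ, mem_ball, dist_eq_norm] using h2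
    · simpa [γ, mem_ball, dist_eq_norm] using h2
  have a1 : AnalyticOnNhd ℂ (RR φ ∘ γ) (ball 0 2) :=
    DifferentiableOn.analyticOnNhd (fun t ht =>
      ((h.diffAt (m1 t ht).1 (m1 t ht).2).comp t (hγ t)).differentiableWithinAt) isOpen_ball
  have a2 : AnalyticOnNhd ℂ (RR ψ ∘ γ) (ball 0 2) :=
    DifferentiableOn.analyticOnNhd (fun t ht =>
      ((h'.diffAt (m1 t ht).1 (m1 t ht).2).comp t (hγ t)).differentiableWithinAt) isOpen_ball
  have hfr : ∃ᶠ z in 𝓝[≠] (0 : ℂ), (RR φ ∘ γ) z = (RR ψ ∘ γ) z := by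
    have ht : Tendsto (fun x : ℝ => (x : ℂ)) (𝓝[≠] 0) (𝓝[≠] 0) := by
      refine tendsto_nhdsWithin_iff.2 ⟨?_, ?_⟩
      · simpa using (Complex.continuous_ofReal.tendsto 0).mono_left nhdsWithin_le_nhds
      · filter_upwards [self_mem_nhdsWithin] with x hx
        simpa using hx
    refine ht.frequently (Eventually.frequently ?_)
    have hb : ∀ᶠ x : ℝ in 𝓝[≠] 0, (x : ℂ) ∈ ball (0 : ℂ) 2 :=
      (tendsto_nhdsWithin_iff.1 ht).1.eventually (ball_mem_nhds _ (by norm_num))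
    filter_upwards [hb] with x hx
    have e : γ x = diag (m + x * u) := by simp [γ, diag]
    have hw := (m1 x hx).1
    simp only [Function.comp_apply, e]
    rw [h.RR_diag hw, h'.RR_diag hw]
  have key := a1.eqOn_of_preconnected_of_frequently_eq a2 (convex_ball _ _).isPreconnected
    (mem_ball_self (by norm_num)) hfr (show Complex.I ∈ ball (0 : ℂ) 2 by simp)
  have e : γ Complex.I = p := by
    have hI : Complex.I * Complex.I = -1 := Complex.I_mul_I
    ext
    · simp only [γ, hu]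
      linear_combination (-(p.1 - m)) * hI
    · simp only [γ, hu, hm, mid, map_mul, map_neg, Complex.conj_I, map_sub, map_div₀, map_add,
        Complex.conj_conj, map_ofNat]
      linear_combination (conj p.1 - (conj p.1 + p.2) / 2) * hI
  simpa only [Function.comp_apply, e] using key

theorem Rep.bound (h : Rep lam φ m s) (h0 : φ m = 0) {w : ℂ} (hw : w ∈ ball m (s / 2)) :
    ‖φ w‖ ≤ 1 / 2 ∧ ‖deriv φ w‖ ≤ 4 / s := by
  have hs : 0 < s := by linarith [nonempty_ball.1 ⟨w, hw⟩]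
  have hw' := mem_ball.1 hw
  constructor
  · have := Complex.dist_le_div_mul_dist_of_mapsTo_ball (R₂ := 1) h.holo
      (fun z hz => by rw [h0]; exact ball_subset_closedBall (h.maps hz))
      (ball_subset_ball (by linarith) hw)
    rw [h0, dist_zero_right] at this
    refine this.trans ?_
    rw [div_mul_eq_mul_div, div_le_iff₀ hs]
    linarith
  · have hsub : ball w (s / 2) ⊆ ball m s := ball_subset_ball' (by linarith)
    have := MP_08f711_an.norm_fderiv_le_of_bound (half_pos hs) (h.holo.mono hsub) (M := 1)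
      fun y hy => (mem_ball_zero_iff.1 (h.maps (hsub hy))).le
    rw [norm_deriv_eq_norm_fderiv]
    refine this.trans (le_of_eq ?_)
    field_simp
    norm_num

theorem mem_of_ball {r : ℝ} (hp : p ∈ ball (diag m) r) : p.1 ∈ ball m r ∧ conj p.2 ∈ ball m r := by
  rw [← ball_prod_same] at hp
  refine ⟨hp.1, ?_⟩
  have h2 : ‖p.2 - conj m‖ < r := mem_ball_iff_norm.1 hp.2
  rw [mem_ball_iff_norm, ← Complex.norm_conj]
  simpa using h2

theorem Rep.norm_RR (h : Rep lam φ m s) (h0 : φ m = 0) (hp : p ∈ ball (diag m) (s / 2)) :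
    ‖RR φ p‖ ≤ 256 / s ^ 2 := by
  have hs : 0 < s := by linarith [nonempty_ball.1 ⟨p, hp⟩]
  obtain ⟨a1, a2⟩ := h.bound h0 (mem_of_ball hp).1
  obtain ⟨a3, a4⟩ := h.bound h0 (mem_of_ball hp).2
  have h1 : 1 / 2 ≤ ‖1 - φ p.1 * conj (φ (conj p.2))‖ := by
    have h2 := norm_sub_norm_le (1 : ℂ) (φ p.1 * conj (φ (conj p.2)))
    rw [norm_one, norm_mul, Complex.norm_conj] at h2
    nlinarith [norm_nonneg (φ p.1), norm_nonneg (φ (conj p.2))]
  have h3 : ‖deriv φ p.1‖ * ‖deriv φ (conj p.2)‖ ≤ 4 / s * (4 / s) :=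
    mul_le_mul a2 a4 (norm_nonneg _) (by positivity)
  rw [RR, norm_div, norm_mul, norm_mul, norm_pow, Complex.norm_conj, Complex.norm_ofNat]
  calc _ ≤ 4 * (4 / s * (4 / s)) / (1 / 2) ^ 2 := by gcongr
    _ = _ := by field_simp; norm_num

theorem Rep.dist_RR (h : Rep lam φ m s) (h0 : φ m = 0) (hp : p ∈ ball (diag m) (s / 2)) :
    ‖RR φ p - (lam m : ℂ) ^ 2‖ ≤ 1024 / s ^ 3 * ‖p - diag m‖ := by
  have hs : 0 < s := by linarith [nonempty_ball.1 ⟨p, hp⟩]
  have hsub : ball m (s / 2) ⊆ ball m s := ball_subset_ball (by linarith)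
  have := Complex.dist_le_div_mul_dist_of_mapsTo_ball (f := RR φ) (R₂ := 512 / s ^ 2)
    (fun q hq => (h.diffAt (hsub (mem_of_ball hq).1)
      (hsub (mem_of_ball hq).2)).differentiableWithinAt)
    (fun q hq => by
      rw [mem_closedBall_iff_norm]
      refine (norm_sub_le _ _).trans ?_
      have a1 := h.norm_RR h0 hq
      have a2 := h.norm_RR h0 (mem_ball_self (half_pos hs))
      have a3 : 512 / s ^ 2 = 256 / s ^ 2 + 256 / s ^ 2 := by ring
      linarith) hp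
  rw [dist_eq_norm, dist_eq_norm, h.RR_diag (mem_ball_self hs)] at this
  refine this.trans (le_of_eq ?_)
  field_simp
  ring

theorem norm_sub_diag (p : ℂ × ℂ) : ‖p - diag (mid p)‖ = ‖p.1 - mid p‖ := by
  have e : p.2 - conj (mid p) = -conj (p.1 - mid p) := by
    simp only [mid, map_sub, map_div₀, map_add, Complex.conj_conj, map_ofNat]
    ring
  rw [Prod.norm_def]
  simp only [Prod.fst_sub, Prod.snd_sub, diag, e, norm_neg, Complex.norm_conj, max_self]

/-- The extension of the square of the density, on a thin tube. -/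
theorem exists_sq {E : Set ℂ} {κ c : ℝ} (hκ : 0 < κ) (hκ1 : κ ≤ 1) (hc : 0 < c)
    (h : Hyp E lam κ c) : ∃ (θ : ℝ) (R : ℂ × ℂ → ℂ), 0 < θ ∧ θ ≤ 1 ∧
      DifferentiableOn ℂ R (Tube E θ) ∧ (∀ p, R (sig p) = conj (R p)) ∧
      ∀ p ∈ Tube E θ, ‖R p‖ ≤ (16 / κ / DD E p) ^ 2 ∧ (c / 2 / DD E p) ^ 2 ≤ (R p).re ∧
        (p = diag (mid p) → R p = (lam (mid p) : ℂ) ^ 2) := by
  classical
  have H : ∀ z, ∃ φ : ℂ → ℂ, z ∉ E → Rep lam φ z (κ * infDist z E) ∧ φ z = 0 := by
    intro z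
    by_cases hz : z ∈ E
    · exact ⟨0, fun h => absurd hz h⟩
    · obtain ⟨φ, h1, h2, h3, h4⟩ := (h z hz).2
      exact ⟨φ, fun _ => ⟨⟨h1, h2, h4⟩, h3⟩⟩
  choose Φ hΦ using H
  set θ := min (κ / 8) (c ^ 2 * κ ^ 3 / 1024) with hθ
  have θ0 : 0 < θ := lt_min (by positivity) (by positivity)
  have θ1 : θ ≤ κ / 8 := min_le_left _ _
  have θ2 : θ ≤ c ^ 2 * κ ^ 3 / 1024 := min_le_right _ _
  have near : ∀ p ∈ Tube E θ, ‖p.1 - mid p‖ < κ * DD E p / 4 := by
    intro p hp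
    have a1 := norm_fst_sub_mid hp
    have a2 := DD_pos hp
    nlinarith [mul_le_mul_of_nonneg_right θ1 a2.le, mul_pos hκ a2]
  have near' : ∀ p ∈ Tube E θ, p ∈ ball (diag (mid p)) (κ * DD E p / 2) := by
    intro p hp
    rw [mem_ball_iff_norm, norm_sub_diag]
    linarith [near p hp, mul_pos hκ (DD_pos hp)]
  refine ⟨θ, fun p => RR (Φ (mid p)) p, θ0, by linarith, fun p hp => ?_,
    fun p => by simp only [mid_sig, RR_sig], fun p hp => ?_⟩
  · obtain ⟨r0, -⟩ := hΦ _ (mid_notMem hp)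
    have hD := mul_pos hκ (DD_pos hp)
    have hsub : ball (mid p) (κ * DD E p / 2) ⊆ ball (mid p) (κ * infDist (mid p) E) :=
      ball_subset_ball (half_le_self hD.le)
    have d0 := r0.diffAt (hsub (mem_of_ball (near' p hp)).1) (hsub (mem_of_ball (near' p hp)).2)
    refine (d0.congr_of_eventuallyEq ?_).differentiableWithinAt
    have cm : Continuous mid := by unfold mid; fun_prop
    have c1 : Continuous fun q => κ * DD E q / 2 + dist (mid q) (mid p) := by
      have : Continuous (DD E) := (continuous_infDist_pt E).comp cm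
      fun_prop
    have e1 : ∀ᶠ q in 𝓝 p, κ * DD E q / 2 + dist (mid q) (mid p) < κ * DD E p :=
      c1.continuousAt.eventually_lt continuousAt_const (by rw [dist_self]; linarith)
    filter_upwards [e1, (isOpen_tube E θ).mem_nhds hp] with q h1 hq
    obtain ⟨r1, -⟩ := hΦ _ (mid_notMem hq)
    have hDq := mul_pos hκ (DD_pos hq)
    exact indep (s := κ * DD E q / 2) (r1.mono (ball_subset_ball (half_le_self hDq.le)))
      (r0.mono (ball_subset_ball' h1.le)) (by linarith [near q hq])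
  · obtain ⟨r0, z0⟩ := hΦ _ (mid_notMem hp)
    have hD := DD_pos hp
    have a1 := r0.norm_RR z0 (near' p hp)
    have a2 := r0.dist_RR z0 (near' p hp)
    have a3 := (h _ (mid_notMem hp)).1
    have a4 := norm_fst_sub_mid hp
    rw [norm_sub_diag] at a2
    change ‖RR (Φ (mid p)) p‖ ≤ 256 / (κ * DD E p) ^ 2 at a1
    change ‖RR (Φ (mid p)) p - (lam (mid p) : ℂ) ^ 2‖ ≤ 1024 / (κ * DD E p) ^ 3 * _ at a2
    change c / DD E p ≤ _ at a3
    refine ⟨a1.trans (le_of_eq (by field_simp; norm_num)), ?_, fun e => ?_⟩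
    · have a5 : 1024 / (κ * DD E p) ^ 3 * ‖p.1 - mid p‖ ≤ (c / DD E p) ^ 2 / 2 := by
        calc _ ≤ 1024 / (κ * DD E p) ^ 3 * (c ^ 2 * κ ^ 3 / 1024 * DD E p / 2) := by
              gcongr
              exact a4.trans (by gcongr)
          _ = _ := by field_simp
      have a6 := (Complex.abs_re_le_norm _).trans (a2.trans a5)
      rw [Complex.sub_re, ← Complex.ofReal_pow, Complex.ofReal_re] at a6
      have a7 : (c / DD E p) ^ 2 ≤ lam (mid p) ^ 2 := by gcongr
      have a8 : (c / 2 / DD E p) ^ 2 = (c / DD E p) ^ 2 / 4 := by ring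
      have a9 := (abs_le.1 a6).1
      nlinarith [sq_nonneg (c / DD E p)]
    · have := r0.RR_diag (mem_ball_self (mul_pos hκ hD))
      rwa [← e] at this

end RhoAux

theorem exists_rho {E : Set ℂ} {lam : ℂ → ℝ} {κ c : ℝ} (hE : Dom E) (hκ : 0 < κ) (hκ1 : κ ≤ 1)
    (hc : 0 < c) (h : Hyp E lam κ c) :
    ∃ (θ : ℝ) (ρ : ℂ × ℂ → ℂ) (R : ℝ), 0 < θ ∧ θ ≤ 1 ∧ Rho E θ lam ρ R := by
  obtain ⟨θ, R, θ0, θ1, hR, hs, hb⟩ := RhoAux.exists_sq hκ hκ1 hc h
  set ρ : ℂ × ℂ → ℂ := fun p => R p ^ (2⁻¹ : ℂ) with hρ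
  have slit : ∀ p ∈ Tube E θ, R p ∈ Complex.slitPlane := fun p hp =>
    Or.inl (lt_of_lt_of_le (by have := DD_pos hp; positivity) (hb p hp).2.1)
  have d1 : DifferentiableOn ℂ ρ (Tube E θ) := hR.cpow_const slit
  have sq : ∀ p, ‖ρ p‖ ^ 2 = ‖R p‖ := fun p => by
    rw [← norm_pow, hρ, Complex.cpow_ofNat_inv_pow]
  have up : ∀ p ∈ Tube E θ, ‖ρ p‖ ≤ 16 / κ * Wj E (-1) p := fun p hp => by
    have hD := DD_pos hp
    rw [Wj, zpow_neg_one, ← div_eq_mul_inv]
    exact (pow_le_pow_iff_left₀ (norm_nonneg _) (by positivity) two_ne_zero).1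
      (sq p ▸ (hb p hp).1)
  have lo : ∀ p ∈ Tube E θ, c / 2 / DD E p ≤ ‖ρ p‖ := fun p hp => by
    have hD := DD_pos hp
    exact (pow_le_pow_iff_left₀ (by positivity) (norm_nonneg _) two_ne_zero).1
      (sq p ▸ (hb p hp).2.1.trans (Complex.re_le_norm _))
  have ne : ∀ p ∈ Tube E θ, ρ p ≠ 0 := fun p hp =>
    norm_pos_iff.1 (lt_of_lt_of_le (by have := DD_pos hp; positivity) (lo p hp))
  have up' : ∀ p ∈ Tube E θ, ‖ρ⁻¹ p‖ ≤ 2 / c * Wj E 1 p := fun p hp => by
    have hD := DD_pos hp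
    rw [Pi.inv_apply, norm_inv, Wj, zpow_one]
    refine (inv_anti₀ (by positivity) (lo p hp)).trans (le_of_eq ?_)
    field_simp
  have s1 : Tube E (θ / 2) ⊆ Tube E θ := tube_mono (by linarith)
  have s2 : Tube E (θ / 4) ⊆ Tube E θ := tube_mono (by linarith)
  obtain ⟨C1, -, k1⟩ := int_B1 (θ := θ / 4) (θ' := θ) (by positivity) (by linarith) θ1 (-1)
  obtain ⟨C2, -, k2⟩ := int_B1 (θ := θ / 4) (θ' := θ) (by positivity) (by linarith) θ1 1
  obtain ⟨C3, -, k3⟩ := int_B1 (θ := θ / 4) (θ' := θ / 2) (by positivity) (by linarith)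
    (by linarith) (-1)
  obtain ⟨C4, C40, k4⟩ := int_d (θ := θ / 2) (θ' := θ) (by positivity) (by linarith) θ1 (-1)
  have b1 := k1 E ρ _ d1 up
  have b2 := k2 E ρ⁻¹ _ (d1.inv ne) up'
  have b3 := k3 E (dw ρ / ρ) (C4 * (16 / κ) * (2 / c))
    (by
      rw [div_eq_mul_inv]
      exact ((holo_dw (isOpen_tube E θ) d1).mul (d1.inv ne)).mono s1) fun p hp => by
      have hD := DD_pos hp
      have a1 := (k4 E ρ _ d1 up p hp).2
      have a2 := up' p (s1 hp)
      rw [div_eq_mul_inv, Pi.mul_apply, norm_mul]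
      refine (mul_le_mul a1 a2 (norm_nonneg _) ((norm_nonneg _).trans a1)).trans (le_of_eq ?_)
      simp only [Wj]
      rw [show (-1 - 1 : ℤ) = -2 by norm_num]
      field_simp
  have pos : ∀ z ∉ E, 0 < lam z := fun z hz =>
    lt_of_lt_of_le (div_pos hc ((hE.closed.notMem_iff_infDist_pos hE.nonempty).1 hz)) (h z hz).1
  refine ⟨θ / 4, ρ, max (C1 * (16 / κ)) (max (C2 * (2 / c)) (C3 * (C4 * (16 / κ) * (2 / c)))),
    by positivity, by linarith, b1.mono (le_max_left _ _), fun p hp => ne p (s2 hp),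
    b2.mono (le_max_of_le_right (le_max_left _ _)),
    b3.mono (le_max_of_le_right (le_max_right _ _)), fun p hp => ?_, fun z hz => ?_, pos⟩
  · simp only [st, hρ, hs]
    rw [← Complex.cpow_conj _ _ (Complex.slitPlane_arg_ne_pi (slit p (s2 hp)))]
    simp only [map_inv₀, map_ofNat]
  · have := (hb _ (diag_mem hE θ0 hz)).2.2 (by rw [mid_diag])
    simp only [hρ]
    rw [this, mid_diag]
    exact Complex.sq_cpow_two_inv (by simpa using pos z hz)

end Pool.Agent.Lib.MP_44acff_gt.NU
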