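import Pool.Agent.Lib.MP_44acff_gt.H70Gaps

/-! Topology of the product set. -/

namespace Pool.Agent.Lib.MP_44acff_gt.NU

open Set Metric MeasureTheory Filter Topology ComplexConjugate
open scoped ContDiff

variable {a α b β : ℕ → ℝ}

namespace TopAux

theorem centre_notMem (ha : Gaps a α) (n : ℕ) : a n ∉ Cant a α := fun h => by
  have h1 := h n
  have h2 := ha.pos n
  simp only [sub_self, abs_zero] at h1
  linarith

theorem convex_abs (c r : ℝ) (L : ℂ →ₗ[ℝ] ℝ) : Convex ℝ {z : ℂ | |L z - c| < r} := by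
  have : {z : ℂ | |L z - c| < r} = L ⁻¹' Ioo (c - r) (c + r) := by
    ext z
    simp only [mem_ofPred_eq, mem_preimage, mem_Ioo, abs_lt]
    constructor <;> rintro ⟨h1, h2⟩ <;> constructor <;> linarith
  rw [this]
  exact (convex_Ioo _ _).linear_preimage L

theorem isClosed_eset (a α b β : ℕ → ℝ) : IsClosed (Eset a α b β) :=
  ((isClosed_cant a α).preimage Complex.continuous_re).inter
    ((isClosed_cant b β).preimage Complex.continuous_im)

theorem near_of_preconnected (ha : Gaps a α) (hb : Gaps b β) {t : Set (OnePoint ℂ)}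
    (ht : IsPreconnected t) (hs : t ⊆ (sph (Eset a α b β)ᶜ)ᶜ) {z : ℂ}
    (hz : (z : OnePoint ℂ) ∈ t) {r : ℝ} (hr : 0 < r) :
    t ⊆ sph (Ioo (z.re - r) (z.re + r) ×ℂ Ioo (z.im - r) (z.im + r)) := by
  obtain ⟨i, hi⟩ := ha.dense (z.re - r) z.re (by linarith)
  obtain ⟨j, hj⟩ := ha.dense z.re (z.re + r) (by linarith)
  obtain ⟨k, hk⟩ := hb.dense (z.im - r) z.im (by linarith)
  obtain ⟨l, hl⟩ := hb.dense z.im (z.im + r) (by linarith)
  have hU : IsOpen (sph (Ioo (a i) (a j) ×ℂ Ioo (b k) (b l))) :=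
    OnePoint.isOpenEmbedding_coe.isOpenMap _ (isOpen_Ioo.reProdIm isOpen_Ioo)
  have hW : IsOpen (sph (Icc (a i) (a j) ×ℂ Icc (b k) (b l)))ᶜ :=
    ((isCompact_Icc.reProdIm isCompact_Icc).image OnePoint.continuous_coe).isClosed.isOpen_compl
  have hsub : t ⊆ sph (Ioo (a i) (a j) ×ℂ Ioo (b k) (b l)) := by
    refine ht.subset_left_of_subset_union hU hW ?_ ?_ ⟨z, hz, z, ⟨⟨hi.2, hj.1⟩, hk.2, hl.1⟩, rfl⟩
    · rw [disjoint_compl_right_iff_subset]
      exact image_mono fun w hw => ⟨Ioo_subset_Icc_self hw.1, Ioo_subset_Icc_self hw.2⟩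
    · intro ξ hξ
      by_cases h : ξ ∈ sph (Icc (a i) (a j) ×ℂ Icc (b k) (b l))
      · left
        obtain ⟨w, hw, rfl⟩ := h
        have hE : w ∈ Eset a α b β := by
          by_contra hcon
          exact hs hξ ⟨w, hcon, rfl⟩
        refine ⟨w, ⟨⟨lt_of_le_of_ne hw.1.1 fun e => ?_, lt_of_le_of_ne hw.1.2 fun e => ?_⟩,
          lt_of_le_of_ne hw.2.1 fun e => ?_, lt_of_le_of_ne hw.2.2 fun e => ?_⟩, rfl⟩
        · exact centre_notMem ha i (e ▸ hE.1)
        · exact centre_notMem ha j (e ▸ hE.1)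
        · exact centre_notMem hb k (e ▸ hE.2)
        · exact centre_notMem hb l (e ▸ hE.2)
      · exact Or.inr h
  exact hsub.trans (image_mono fun w hw =>
    ⟨⟨hi.1.trans hw.1.1, hw.1.2.trans hj.2⟩, hk.1.trans hw.2.1, hw.2.2.trans hl.2⟩)

theorem eq_of_preconnected (ha : Gaps a α) (hb : Gaps b β) {t : Set (OnePoint ℂ)}
    (ht : IsPreconnected t) (hs : t ⊆ (sph (Eset a α b β)ᶜ)ᶜ) {z : ℂ}
    (hz : (z : OnePoint ℂ) ∈ t) {ξ : OnePoint ℂ} (hξ : ξ ∈ t) : ξ = z := by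
  obtain ⟨w, -, rfl⟩ := near_of_preconnected ha hb ht hs hz one_pos hξ
  have key : ∀ r : ℝ, 0 < r → |w.re - z.re| ≤ r ∧ |w.im - z.im| ≤ r := by
    intro r hr
    obtain ⟨w', hw', e⟩ := near_of_preconnected ha hb ht hs hz hr hξ
    obtain rfl : w' = w := OnePoint.coe_injective e
    obtain ⟨⟨h1, h2⟩, h3, h4⟩ := hw'
    exact ⟨abs_le.2 ⟨by linarith, by linarith⟩, abs_le.2 ⟨by linarith, by linarith⟩⟩
  have h1 : |w.re - z.re| ≤ 0 := le_of_forall_pos_le_add fun r hr => by simpa using (key r hr).1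
  have h2 : |w.im - z.im| ≤ 0 := le_of_forall_pos_le_add fun r hr => by simpa using (key r hr).2
  have : w = z := Complex.ext (sub_eq_zero.1 (abs_nonpos_iff.1 h1))
    (sub_eq_zero.1 (abs_nonpos_iff.1 h2))
  rw [this]

theorem subsingleton_of_preconnected (ha : Gaps a α) (hb : Gaps b β) {t : Set (OnePoint ℂ)}
    (ht : IsPreconnected t) (hs : t ⊆ (sph (Eset a α b β)ᶜ)ᶜ) : t.Subsingleton := by
  intro ξ hξ ξ' hξ'
  induction ξ using OnePoint.rec with
  | infty =>
    induction ξ' using OnePoint.rec with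
    | infty => rfl
    | coe w => exact eq_of_preconnected ha hb ht hs hξ' hξ
  | coe z => exact (eq_of_preconnected ha hb ht hs hξ hξ').symm

end TopAux

theorem interior_eset (ha : Gaps a α) : interior (Eset a α b β) = ∅ := by
  refine eq_empty_of_forall_notMem fun z hz => ?_
  obtain ⟨r, hr, hball⟩ := Metric.mem_nhds_iff.1 (mem_interior_iff_mem_nhds.1 hz)
  obtain ⟨n, hn⟩ := ha.dense z.re (z.re + r) (by linarith)
  have hw : (⟨a n, z.im⟩ : ℂ) ∈ ball z r := by
    rw [mem_ball, Complex.dist_of_im_eq (by rfl), Real.dist_eq, abs_lt]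
    exact ⟨by linarith [hn.1], by linarith [hn.2]⟩
  exact TopAux.centre_notMem ha n (hball hw).1

theorem isConnected_compl (ha : Gaps a α) (hb : Gaps b β) : IsConnected (Eset a α b β)ᶜ := by
  have hV : ∀ n, {z : ℂ | |Complex.reLm z - a n| < α n} ⊆ (Eset a α b β)ᶜ :=
    fun n z hz h => absurd (h.1 n) (not_le.2 hz)
  have hH : ∀ n, {z : ℂ | |Complex.imLm z - b n| < β n} ⊆ (Eset a α b β)ᶜ :=
    fun n z hz h => absurd (h.2 n) (not_le.2 hz)
  have mV : ∀ n m, (⟨a n, b m⟩ : ℂ) ∈ {z : ℂ | |Complex.reLm z - a n| < α n} := fun n m => by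
    simpa using ha.pos n
  have mH : ∀ n m, (⟨a n, b m⟩ : ℂ) ∈ {z : ℂ | |Complex.imLm z - b m| < β m} := fun n m => by
    simpa using hb.pos m
  have hU : ∀ n m, IsPreconnected ({z : ℂ | |Complex.reLm z - a n| < α n} ∪
      {z : ℂ | |Complex.imLm z - b m| < β m}) := fun n m =>
    IsPreconnected.union _ (mV n m) (mH n m) (TopAux.convex_abs _ _ _).isPreconnected
      (TopAux.convex_abs _ _ _).isPreconnected
  refine ⟨⟨_, hV 0 (mV 0 0)⟩, isPreconnected_of_forall (⟨a 0, b 0⟩ : ℂ) fun y hy => ?_⟩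
  rcases not_and_or.1 hy with h | h
  · obtain ⟨n, hn⟩ := not_forall.1 h
    exact ⟨_, union_subset (hV n) (hH 0), Or.inr (mH 0 0), Or.inl (not_le.1 hn), hU n 0⟩
  · obtain ⟨n, hn⟩ := not_forall.1 h
    exact ⟨_, union_subset (hV 0) (hH n), Or.inl (mV 0 0), Or.inr (not_le.1 hn), hU 0 n⟩

theorem circle_domain (ha : Gaps a α) (hb : Gaps b β) (H : ℂ ≃ₜ ℂ) :
    IsCircleDomain (sph (H '' (Eset a α b β)ᶜ)) := by
  refine ⟨OnePoint.isOpenEmbedding_coe.isOpenMap _
      (H.isOpenMap _ (TopAux.isClosed_eset a α b β).isOpen_compl),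
    ((isConnected_compl ha hb).image _ H.continuous.continuousOn).image _
      OnePoint.continuous_coe.continuousOn, fun ξ hξ => Or.inl ?_⟩
  have h1 : IsPreconnected (H.onePointCongr.symm ''
      connectedComponentIn (sph (H '' (Eset a α b β)ᶜ))ᶜ ξ) :=
    isPreconnected_connectedComponentIn.image _ H.onePointCongr.symm.continuous.continuousOn
  have h2 := TopAux.subsingleton_of_preconnected ha hb h1 (by
    rintro _ ⟨ζ, hζ, rfl⟩ ⟨w, hw, e⟩
    refine connectedComponentIn_subset _ _ hζ ⟨H w, ⟨w, hw, rfl⟩, ?_⟩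
    have := congrArg H.onePointCongr e
    rw [Homeomorph.apply_symm_apply] at this
    exact this)
  exact (subsingleton_of_image H.onePointCongr.symm.injective _ h2).eq_singleton_of_mem
    (mem_connectedComponentIn hξ)

end Pool.Agent.Lib.MP_44acff_gt.NU
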