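import Pool.Agent.Lib.MP_44acff_gt.H70Solve
import Pool.Agent.Lib.MP_44acff_gt.H70Geo
import Pool.Agent.Lib.MP_44acff_gt.H70Top
import Pool.Agent.Lib.MP_44acff_gt.H70Data
import Pool.Agent.Lib.MP_44acff_gt.H70Hyp
import Pool.Agent.Lib.MP_44acff_gt.H70Rho
import Pool.Agent.Lib.MP_44acff_gt.H70Surf
import Pool.Agent.Lib.MP_44acff_gt.H70Ineq

/-! Assembly. -/

namespace Pool.Agent.Lib.MP_44acff_gt.NU

open Set Metric MeasureTheory Filter Topology ComplexConjugate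
open scoped ContDiff

theorem point_domain {a α b β : ℕ → ℝ} (ha : Gaps a α) (hb : Gaps b β) (H : ℂ ≃ₜ ℂ) :
    IsCircleDomain (sph (H '' (Eset a α b β)ᶜ)) ∧
      IsTotallyDisconnected (sph (H '' (Eset a α b β)ᶜ))ᶜ ∧
      frontier (sph (H '' (Eset a α b β)ᶜ)) = (sph (H '' (Eset a α b β)ᶜ))ᶜ := by
  have h := circle_domain ha hb H
  refine ⟨h, fun t ht hp => ?_, ?_⟩
  · refine subsingleton_of_image H.onePointCongr.symm.injective _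
      (TopAux.subsingleton_of_preconnected ha hb
        (hp.image _ H.onePointCongr.symm.continuous.continuousOn) ?_)
    rintro _ ⟨ζ, hζ, rfl⟩ ⟨w, hw, e⟩
    refine ht hζ ⟨H w, ⟨w, hw, rfl⟩, ?_⟩
    have := congrArg H.onePointCongr e
    rw [Homeomorph.apply_symm_apply] at this
    exact this
  · have h1 : Dense (Eset a α b β)ᶜ := interior_eq_empty_iff_dense_compl.mp (interior_eset ha)
    have h2 : Dense (sph (H '' (Eset a α b β)ᶜ)) :=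
      OnePoint.denseRange_coe.dense_image OnePoint.continuous_coe
        (H.surjective.denseRange.dense_image H.continuous h1)
    rw [h.1.frontier_eq, h2.closure_eq, ← compl_eq_univ_sdiff]

theorem main : ∃ K₀ ∈ Ioo (-1 : ℝ) 0, ∀ K ∈ Ioo K₀ 0, ∃ (Ω : Set ℂ) (lam : ℂ → ℝ)
    (Γ₁ Γ₂ : Set (OnePoint ℂ)) (C₁ C₂ : Set (ℂ × ℝ)), CompleteSurface K Ω lam ∧
      (IsCircleDomain Γ₁ ∧ IsTotallyDisconnected Γ₁ᶜ ∧ frontier Γ₁ = Γ₁ᶜ) ∧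
      (IsCircleDomain Γ₂ ∧ IsTotallyDisconnected Γ₂ᶜ ∧ frontier Γ₂ = Γ₂ᶜ) ∧
      IsDomainFor Γ₁ C₁ ∧ IsDomainFor Γ₂ C₂ ∧
      IsometricTo Ω lam C₁ ∧ IsometricTo Ω lam C₂ ∧ ¬ MoebiusRelated Γ₁ Γ₂ := by
  obtain ⟨τ, hτ, hτ1, hd⟩ := exists_data
  obtain ⟨η, hη, hne⟩ := ineq hτ hτ1
  obtain ⟨a, α, b, β, f, D⟩ := hd η hη
  set E := Eset a α b β with hEdef
  have hE : Dom E := dom_eset D.ga D.gb
  have hcon : IsConnected Eᶜ := isConnected_compl D.ga D.gb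
  have hi : interior E = ∅ := interior_eset D.ga
  obtain ⟨c, hc, hF⟩ := eset_fat D.ga D.gb
  obtain ⟨A, hA⟩ := eset_meas D.ga D.gb
  obtain ⟨lam, c₁, hc₁, hH⟩ := exists_hyp hE hc hF (eset_bdd D.ga D.gb) hcon
  obtain ⟨⟨H, hHf⟩, hE', hA', hT⟩ := transfer hE D.lip D.holo
  obtain ⟨A', hA'⟩ := hA' A hA
  obtain ⟨lam', κ', c', hκ', hκ1', hc', hH', hl⟩ := hT lam 1 c₁ one_pos le_rfl hc₁ hH
  obtain ⟨θ₁, ρ₁, R₁, hθ₁, hθ₁', hρ₁⟩ := exists_rho hE one_pos le_rfl hc₁ hH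
  obtain ⟨θ₂, ρ₂, R₂, hθ₂, hθ₂', hρ₂⟩ := exists_rho hE' hκ' hκ1' hc' hH'
  obtain ⟨η₁, hη₁, hg₁⟩ := geo hθ₁ hθ₁'
  obtain ⟨η₂, hη₂, hg₂⟩ := geo hθ₂ hθ₂'
  have hη₃ : 0 < min (min η (1 / 30)) (min η₁ η₂) := by positivity
  obtain ⟨e₁, he₁, hs₁⟩ := solve hE hA hθ₁ hθ₁' hρ₁ hη₃
  obtain ⟨e₂, he₂, hs₂⟩ := solve hE' hA' hθ₂ hθ₂' hρ₂ hη₃
  have hm : 0 < min (1 / 2 : ℝ) (min e₁ e₂) := by positivity
  refine ⟨-min (1 / 2) (min e₁ e₂), ⟨by linarith [min_le_left (1 / 2 : ℝ) (min e₁ e₂)],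
    by linarith⟩, fun K hK => ?_⟩
  obtain ⟨e, rfl⟩ : ∃ e, K = -e := ⟨-K, by ring⟩
  have he : 0 < e := by linarith [hK.2]
  have he' : e < min e₁ e₂ := by linarith [hK.1, min_le_right (1 / 2 : ℝ) (min e₁ e₂)]
  obtain ⟨Z₁, Θ₁, S₁⟩ := hs₁ e he (he'.trans_le (min_le_left _ _))
  obtain ⟨Z₂, Θ₂, S₂⟩ := hs₂ e he (he'.trans_le (min_le_right _ _))
  have hi' : interior (f '' E) = ∅ := by
    rw [← hHf, ← H.image_interior, hi, image_empty]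
  obtain ⟨C₁, d₁, s₁, m₁, i₁⟩ := hg₁ E lam e _ Z₁ Θ₁ hE hi he
    ((min_le_right _ _).trans (min_le_left _ _)) S₁
  obtain ⟨C₂, d₂, s₂, m₂, i₂⟩ := hg₂ (f '' E) lam' e _ Z₂ Θ₂ hE' hi' he
    ((min_le_right _ _).trans (min_le_right _ _)) S₂
  obtain ⟨H₁, hH₁⟩ := ns_homeo S₁.ns ((min_le_left _ _).trans (min_le_right _ _))
  obtain ⟨H₂, hH₂⟩ := ns_homeo S₂.ns ((min_le_left _ _).trans (min_le_right _ _))
  have hfc : f '' Eᶜ = (f '' E)ᶜ := by rw [← hHf]; exact H.image_compl E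
  have hmaps : MapsTo f Eᶜ (f '' E)ᶜ := fun z hz => hfc ▸ mem_image_of_mem f hz
  have hEo : IsOpen Eᶜ := hE.closed.isOpen_compl
  refine ⟨Eᶜ, fun z => lam z / √e, _, _, C₁, C₂,
    surface hE one_pos hc₁ hH (eset_bdd D.ga D.gb) hcon he, ?_, ?_, d₁, d₂,
    ⟨emb e Z₁ Θ₁, s₁, m₁, i₁, S₁.metric⟩, ⟨emb e Z₂ Θ₂ ∘ f, ?_, ?_, ?_, fun z hz v => ?_⟩,
    hne a α b β f _ _ D (S₁.ns.mono ((min_le_left _ _).trans (min_le_left _ _)))
      (S₂.ns.mono ((min_le_left _ _).trans (min_le_left _ _)))⟩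
  · rw [← hH₁]
    exact point_domain D.ga D.gb H₁
  · have := point_domain D.ga D.gb (H.trans H₂)
    rwa [show ⇑(H.trans H₂) = H₂ ∘ H from rfl, image_comp, hHf, hH₂, hfc] at this
  · exact s₂.comp (((D.holo.contDiffOn hEo).restrict_scalars ℝ)) hmaps
  · have e1 : IsEmbedding (hmaps.restrict f Eᶜ (f '' E)ᶜ) := by
      refine IsEmbedding.restrict ?_ hmaps
      rw [← hHf]
      exact H.isEmbedding
    exact m₂.comp e1
  · rw [image_comp, hfc, i₂]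
  · have hz' := hmaps hz
    have hd := (D.holo.differentiableAt (hEo.mem_nhds hz)).hasDerivAt
    have h1 : DifferentiableAt ℝ (emb e Z₂ Θ₂) (f z) :=
      (s₂.contDiffAt (hE'.closed.isOpen_compl.mem_nhds hz')).differentiableAt (by simp)
    have h2 : HasFDerivAt f ((ContinuousLinearMap.toSpanSingleton ℂ (deriv f z)).restrictScalars ℝ)
        z := hd.hasFDerivAt.restrictScalars ℝ
    have h3 : fderiv ℝ (emb e Z₂ Θ₂ ∘ f) z v = fderiv ℝ (emb e Z₂ Θ₂) (f z) (v * deriv f z) := by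
      rw [(h1.hasFDerivAt.comp z h2).fderiv]
      simp
    rw [h3, Function.comp_apply, S₂.metric (f z) hz', norm_mul]
    simp only [← hl z hz]
    ring

end Pool.Agent.Lib.MP_44acff_gt.NU
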