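import Pool.Agent.Lib.MP_44acff_gt.H70Tube

/-! A fixed point gives an isometric immersion. -/

namespace Pool.Agent.Lib.MP_44acff_gt.NU

open Set Metric MeasureTheory Filter Topology ComplexConjugate
open scoped ContDiff

variable {E : Set ℂ} {θ e : ℝ} {k Z ρ : ℂ × ℂ → ℂ} {lam : ℂ → ℝ}

namespace MetricAux

theorem holo_nn (hk : DifferentiableOn ℂ k (Tube E θ)) :
    DifferentiableOn ℂ (nn e k) (Tube E θ) :=
  (hk.mul (holo_st hk)).const_smul (e : ℂ)

theorem holo_qq (hk : DifferentiableOn ℂ k (Tube E θ)) :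
    DifferentiableOn ℂ (qq e k) (Tube E θ) :=
  (hk.mul hk).const_smul (e : ℂ)

theorem st_nn (e : ℝ) (k : ℂ × ℂ → ℂ) : st (nn e k) = nn e k := by
  rw [nn, st_smul, st_mul, st_st, mul_comm, Complex.conj_ofReal]

theorem holo_Th (hk : DifferentiableOn ℂ k (Tube E θ)) (hρ : DifferentiableOn ℂ ρ (Tube E θ))
    (hZ : DifferentiableOn ℂ Z (Tube E θ)) (hρ0 : ∀ p ∈ Tube E θ, ρ p ≠ 0) :
    DifferentiableOn ℂ (Th e k Z ρ) (Tube E θ) := by
  have hU := holo_dz (isOpen_tube E θ) hZ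
  have hc : DifferentiableOn ℂ (1 + nn e k) (Tube E θ) :=
    (differentiableOn_const (1 : ℂ)).add (holo_nn hk)
  have hr : DifferentiableOn ℂ ρ⁻¹ (Tube E θ) := hρ.inv hρ0
  exact ((hU.mul (holo_st hU)).mul (hc.mul hc)).mul (hr.mul hr)

theorem st_Th (hρs : EqOn (st ρ) ρ (Tube E θ)) :
    EqOn (st (Th e k Z ρ)) (Th e k Z ρ) (Tube E θ) := by
  intro p hp
  rw [Th, st_mul, st_mul, st_mul, st_mul, st_mul, st_st, st_add, st_one, st_nn, st_inv]
  simp only [Pi.mul_apply, Pi.inv_apply, hρs hp]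
  ring

theorem dw_Th (hk : DifferentiableOn ℂ k (Tube E θ)) (hρ : DifferentiableOn ℂ ρ (Tube E θ))
    (hZ : DifferentiableOn ℂ Z (Tube E θ)) (hρ0 : ∀ p ∈ Tube E θ, ρ p ≠ 0)
    (hZ0 : ∀ p ∈ Tube E θ, dz Z p ≠ 0)
    (hB : ∀ p ∈ Tube E θ, dw Z p = (-qq e k) p * dz Z p)
    (h1 : ∀ p ∈ Tube E θ, (1 - -nn e k) p ≠ 0) {p : ℂ × ℂ} (hp : p ∈ Tube E θ) :
    dw (Th e k Z ρ) p = 2 * Th e k Z ρ p * (newP e k Z p - (dw ρ / ρ) p) := by
  have hT := isOpen_tube E θ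
  have hN := hT.mem_nhds hp
  have hU := holo_dz hT hZ
  have hUp : DifferentiableAt ℂ (dz Z) p := hU.differentiableAt hN
  have hSp : DifferentiableAt ℂ (st (dz Z)) p := (holo_st hU).differentiableAt hN
  have hnp : DifferentiableAt ℂ (nn e k) p := (holo_nn hk).differentiableAt hN
  have hqp : DifferentiableAt ℂ (-qq e k) p := (holo_qq hk).neg.differentiableAt hN
  have hone : DifferentiableAt ℂ (1 : ℂ × ℂ → ℂ) p := differentiableAt_const (1 : ℂ)
  have hcp : DifferentiableAt ℂ (1 + nn e k) p := hone.add hnp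
  have hρp : DifferentiableAt ℂ ρ p := hρ.differentiableAt hN
  have hrp : DifferentiableAt ℂ ρ⁻¹ p := hρp.inv (hρ0 p hp)
  have e1 : dw (dz Z) p = dz (-qq e k) p * dz Z p + (-qq e k) p * dz (dz Z) p := by
    rw [← dz_dw_comm hT hZ hp, ← dz_mul hqp hUp]
    exact dz_congr hT (fun q hq => hB q hq) hp
  have e2 : dw (1 + nn e k) p = dw (nn e k) p := by
    rw [dw_add hone hnp]
    have : dw (1 : ℂ × ℂ → ℂ) p = 0 := dw_const 1 p
    rw [this, zero_add]
  have hs0 : st (dz Z) p ≠ 0 := by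
    simpa [st] using hZ0 _ (sig_mem hp)
  have hc0 : 1 + nn e k p ≠ 0 := by simpa using h1 p hp
  have hu0 := hZ0 p hp
  have hr0 := hρ0 p hp
  rw [Th, dw_mul ((hUp.mul hSp).mul (hcp.mul hcp)) (hrp.mul hrp),
    dw_mul (hUp.mul hSp) (hcp.mul hcp), dw_mul hUp hSp, dw_mul hcp hcp, dw_mul hrp hrp,
    dw_inv hρp hr0, e1, e2, dw_st, newP, pre, st_div]
  simp only [Pi.mul_apply, Pi.add_apply, Pi.inv_apply, Pi.one_apply, Pi.smul_apply, Pi.div_apply,
    smul_eq_mul, Pi.neg_apply, sub_neg_eq_add]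
  field_simp
  ring

theorem alg (e L : ℝ) (U K v : ℂ) (he : 0 < e) (hL : L ≠ 0) (hU : U ≠ 0) (T : ℝ)
    (hT : T = Complex.normSq U * (1 + e * Complex.normSq K) ^ 2 / L ^ 2) (dT : ℝ)
    (hd : dT = -4 * T * L * (conj K * v).re / (1 + e * Complex.normSq K)) :
    (‖U * v + -(e * (K * K)) * U * conj v‖ ^ 2 + (1 / (2 * √(e * T)) * (e * dT)) ^ 2) /
      √(e * T) ^ 2 = (L / √e) ^ 2 * ‖v‖ ^ 2 := by
  have hc : 0 < 1 + e * Complex.normSq K := by
    have := Complex.normSq_nonneg K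
    positivity
  have hU' : 0 < Complex.normSq U := Complex.normSq_pos.2 hU
  have hT0 : 0 < T := by rw [hT]; positivity
  have h1 : U * v + -(e * (K * K)) * U * conj v = U * (v - e * (K * K) * conj v) := by ring
  have h2 : Complex.normSq (v - e * (K * K) * conj v) + 4 * e * (conj K * v).re ^ 2 =
      (1 + e * Complex.normSq K) ^ 2 * Complex.normSq v := by
    simp only [Complex.normSq_apply, Complex.sub_re, Complex.sub_im, Complex.mul_re,
      Complex.mul_im, Complex.ofReal_re, Complex.ofReal_im, Complex.conj_re, Complex.conj_im]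
    ring
  have h3 : Complex.normSq U = T * L ^ 2 / (1 + e * Complex.normSq K) ^ 2 := by
    rw [hT]; field_simp
  rw [h1, ← Complex.normSq_eq_norm_sq, ← Complex.normSq_eq_norm_sq, map_mul, mul_pow, div_pow,
    div_pow, mul_pow, Real.sq_sqrt (by positivity), Real.sq_sqrt he.le, hd,
    eq_sub_of_add_eq h2, h3]
  field_simp
  ring

end MetricAux

open MetricAux in
theorem metric_id (hE : Dom E) (hθ : 0 < θ) (he : 0 < e)
    (hk : DifferentiableOn ℂ k (Tube E θ)) (hρ : DifferentiableOn ℂ ρ (Tube E θ))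
    (hZ : DifferentiableOn ℂ Z (Tube E θ)) (hρ0 : ∀ p ∈ Tube E θ, ρ p ≠ 0)
    (hρs : EqOn (st ρ) ρ (Tube E θ)) (hρd : ∀ z ∉ E, ρ (diag z) = lam z)
    (hZ0 : ∀ p ∈ Tube E θ, dz Z p ≠ 0)
    (hB : ∀ p ∈ Tube E θ, dw Z p = (-qq e k) p * dz Z p)
    (h1 : ∀ p ∈ Tube E θ, (1 - -nn e k) p ≠ 0)
    (hP : ∀ p ∈ Tube E θ, newP e k Z p = (dw ρ / ρ) p - (ρ * k * (1 - -nn e k)⁻¹) p) :
    DifferentiableOn ℂ (Th e k Z ρ) (Tube E θ) ∧ EqOn (st (Th e k Z ρ)) (Th e k Z ρ) (Tube E θ) ∧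
    (∀ z ∉ E, 0 < (Th e k Z ρ (diag z)).re) ∧ ∀ z ∉ E, ∀ v : ℂ,
      (‖(fderiv ℝ (emb e Z (Th e k Z ρ)) z v).1‖ ^ 2 +
        (fderiv ℝ (emb e Z (Th e k Z ρ)) z v).2 ^ 2) / (emb e Z (Th e k Z ρ) z).2 ^ 2 =
        (lam z / √e) ^ 2 * ‖v‖ ^ 2 := by
  have hT := isOpen_tube E θ
  have hTh := holo_Th (e := e) hk hρ hZ hρ0
  have hs := st_Th (e := e) (k := k) (Z := Z) hρs
  have hl : ∀ z ∉ E, lam z ≠ 0 := fun z hz h => by
    have := hρ0 _ (diag_mem hE hθ hz)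
    rw [hρd z hz, h] at this
    exact this rfl
  have hn : ∀ z, nn e k (diag z) = (e * Complex.normSq (k (diag z)) : ℝ) := fun z => by
    simp only [nn, Pi.smul_apply, Pi.mul_apply, st_diag, Complex.mul_conj, smul_eq_mul]
    push_cast
    rfl
  have hv : ∀ z ∉ E, Th e k Z ρ (diag z) = (Complex.normSq (dz Z (diag z)) *
      (1 + e * Complex.normSq (k (diag z))) ^ 2 / lam z ^ 2 : ℝ) := fun z hz => by
    simp only [Th, Pi.mul_apply, Pi.add_apply, Pi.inv_apply, Pi.one_apply, st_diag,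
      Complex.mul_conj, hn, hρd z hz]
    push_cast
    ring
  have hpos : ∀ z ∉ E, 0 < (Th e k Z ρ (diag z)).re := fun z hz => by
    rw [hv z hz, Complex.ofReal_re]
    have h2 := Complex.normSq_pos.2 (hZ0 _ (diag_mem hE hθ hz))
    have h3 := Complex.normSq_nonneg (k (diag z))
    have h4 := hl z hz
    positivity
  refine ⟨hTh, hs, hpos, fun z hz v => ?_⟩
  have hm := diag_mem hE hθ hz
  have hN := hT.mem_nhds hm
  obtain ⟨hZ1, hZ2⟩ := fderiv_diag (hZ.differentiableAt hN)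
  obtain ⟨hT1, hT2⟩ := fderiv_diag (hTh.differentiableAt hN)
  have hre := (Complex.reCLM.hasFDerivAt.comp z hT1.hasFDerivAt).const_mul e
  have hsq := hre.sqrt (mul_pos he (hpos z hz)).ne'
  have hemb : HasFDerivAt (emb e Z (Th e k Z ρ)) _ z := hZ1.hasFDerivAt.prodMk hsq
  have hw := dw_Th hk hρ hZ hρ0 hZ0 hB h1 hm
  have hz' : dz (Th e k Z ρ) (diag z) = conj (dw (Th e k Z ρ) (diag z)) := by
    rw [← dz_congr hT hs hm, dz_st, st_diag]
  rw [hemb.fderiv]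
  simp only [ContinuousLinearMap.prod_apply, smul_apply,
    ContinuousLinearMap.comp_apply, Complex.reCLM_apply, smul_eq_mul, Function.comp_apply, hZ2,
    hT2, emb]
  have hq : (-qq e k) (diag z) = -(e * (k (diag z) * k (diag z))) := by simp [qq]
  rw [hB _ hm, hq]
  refine alg e (lam z) _ _ v he (hl z hz) (hZ0 _ hm) _ (by rw [hv z hz, Complex.ofReal_re]) _ ?_
  have hc : (1 + e * Complex.normSq (k (diag z)) : ℝ) ≠ 0 := by
    have h3 := Complex.normSq_nonneg (k (diag z))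
    positivity
  have hw2 : dw (Th e k Z ρ) (diag z) = ((-2 * (Th e k Z ρ (diag z)).re * lam z /
      (1 + e * Complex.normSq (k (diag z))) : ℝ) : ℂ) * k (diag z) := by
    rw [hw, hP _ hm]
    simp only [Pi.mul_apply, Pi.sub_apply, Pi.inv_apply, Pi.neg_apply, Pi.one_apply, hn,
      hρd z hz]
    rw [hv z hz, Complex.ofReal_re]
    push_cast
    ring
  rw [hz', hw2]
  simp only [map_mul, Complex.conj_ofReal, Complex.add_re, Complex.mul_re, Complex.mul_im,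
    Complex.ofReal_re, Complex.ofReal_im, Complex.conj_re, Complex.conj_im]
  field_simp
  ring

end Pool.Agent.Lib.MP_44acff_gt.NU
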