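import Pool.Agent.Lib.MP_44acff_gt.H70Tube

/-! Algebra of the weighted norms. -/

namespace Pool.Agent.Lib.MP_44acff_gt.NU

open Set Metric MeasureTheory ComplexConjugate

variable {E : Set ℂ} {θ : ℝ} {p : ℂ × ℂ} {F F' G G' : ℂ × ℂ → ℂ} {W W' : ℂ × ℂ → ℝ}
  {M M' A A' L L' K : ℝ} {i j k : ℤ}

theorem Wj_pos (j : ℤ) (h : p ∈ Tube E θ) : 0 < Wj E j p := zpow_pos (DD_pos h) j

theorem Wj_zero (p : ℂ × ℂ) : Wj E 0 p = 1 := zpow_zero _

namespace NormAux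

theorem dAt (hF : DifferentiableOn ℂ F (Tube E θ)) (h : p ∈ Tube E θ) : DifferentiableAt ℂ F p :=
  hF.differentiableAt ((isOpen_tube E θ).mem_nhds h)

theorem aw_nonneg (p : ℂ × ℂ) : 0 ≤ aw E θ p := Real.sqrt_nonneg _

theorem div_pos' (h : p ∈ Tube E θ) (hW : 0 < W p) : 0 < (W / DD E) p := div_pos hW (DD_pos h)

theorem n0_w (hW : W p = W' p) : n0 E θ W F p = n0 E θ W' F p := by rw [n0, n0, hW]

theorem n0_le {c : ℝ} (hW : 0 < W p) (hW' : 0 < W' p) (hc : W p ≤ c * W' p) :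
    n0 E θ W' F p ≤ c * n0 E θ W F p := by
  have h0 : 0 ≤ ‖F p‖ + aw E θ p * (‖dz F p‖ + ‖dw F p‖) := by
    have := aw_nonneg (E := E) (θ := θ) p
    positivity
  rw [n0, n0, ← mul_div_assoc, div_le_div_iff₀ hW' hW]
  nlinarith [mul_le_mul_of_nonneg_left hc h0]

theorem n0_neg : n0 E θ W (-F) p = n0 E θ W F p := by
  simp only [n0, dz_neg, dw_neg, Pi.neg_apply, norm_neg]

theorem n1_neg : n1 E θ W (-F) p = n1 E θ W F p := by
  rw [n1, n1, show dz (-F) = -dz F from funext (dz_neg F), show dw (-F) = -dw F from funext (dw_neg F),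
    n0_neg, n0_neg, n0_neg]

theorem n0_smul (c : ℂ) : n0 E θ W (c • F) p = ‖c‖ * n0 E θ W F p := by
  simp only [n0, dz_smul, dw_smul, Pi.smul_apply, smul_eq_mul, norm_mul]
  ring

theorem n1_smul (c : ℂ) : n1 E θ W (c • F) p = ‖c‖ * n1 E θ W F p := by
  rw [n1, n1, show dz (c • F) = c • dz F from funext (dz_smul c F),
    show dw (c • F) = c • dw F from funext (dw_smul c F), n0_smul, n0_smul, n0_smul]
  ring

theorem n0_st (hW : W (sig p) = W p) : n0 E θ W (st F) p = n0 E θ W F (sig p) := by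
  rw [n0, n0, dz_st, dw_st, hW, aw_sig, add_comm ‖dz F (sig p)‖]
  simp only [st, RCLike.norm_conj]

theorem n1_st (hW : W (sig p) = W p) : n1 E θ W (st F) p = n1 E θ W F (sig p) := by
  have h : (W / DD E) (sig p) = (W / DD E) p := by simp only [Pi.div_apply, hW, DD_sig]
  rw [n1, n1, dz_st, dw_st, n0_st hW, n0_st h, n0_st h]
  ring

theorem Wj_add (e : i + j = k) (h : p ∈ Tube E θ) : (Wj E i * Wj E j) p = Wj E k p := by
  rw [Pi.mul_apply, Wj, Wj, Wj, ← e, zpow_add₀ (DD_pos h).ne']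

theorem Wj_zero_mul : Wj E 0 * W = W := by
  funext p
  rw [Pi.mul_apply, Wj_zero, one_mul]

theorem DD_cmp {q : ℂ × ℂ} (h : ‖mid q - mid p‖ ≤ DD E p / 2) :
    DD E p ≤ 2 * DD E q ∧ DD E q ≤ 2 * DD E p := by
  have h1 := abs_le.1 ((abs_DD_sub (E := E) p q).trans h)
  have h2 : 0 ≤ DD E p := infDist_nonneg
  exact ⟨by linarith [h1.1], by linarith [h1.2]⟩

end NormAux

open NormAux

theorem Wj_div (j : ℤ) (h : p ∈ Tube E θ) : (Wj E j / DD E) p = Wj E (j - 1) p := by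
  rw [Pi.div_apply, Wj, Wj, zpow_sub_one₀ (DD_pos h).ne', div_eq_mul_inv]

theorem adm_Wj (j : ℤ) : Adm E θ (Wj E j) (2 ^ j.natAbs) := by
  refine ⟨fun p hp => Wj_pos j hp, fun p hp q hq h1 _ => ?_⟩
  obtain ⟨h2, h3⟩ := DD_cmp h1
  have h4 := DD_pos hp
  have h5 := DD_pos hq
  obtain ⟨n, rfl | rfl⟩ := j.eq_nat_or_neg
  · simp only [Wj, zpow_natCast, Int.natAbs_natCast, ← mul_pow]
    gcongr
  · simp only [Wj, zpow_neg, zpow_natCast, Int.natAbs_neg, Int.natAbs_natCast]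
    rw [← div_eq_mul_inv, inv_eq_one_div, div_le_div_iff₀ (by positivity) (by positivity), one_mul,
      ← mul_pow]
    gcongr

theorem Adm.div (h : Adm E θ W K) : Adm E θ (W / DD E) (2 * K) := by
  refine ⟨fun p hp => div_pos' hp (h.pos p hp), fun p hp q hq h1 h2 => ?_⟩
  have h3 := (DD_cmp h1).1
  have h4 := h.le p hp q hq h1 h2
  have h5 := h.pos q hq
  have h6 := DD_pos hp
  rw [Pi.div_apply, Pi.div_apply, ← mul_div_assoc, div_le_div_iff₀ (DD_pos hq) h6]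
  calc W q * DD E p ≤ (K * W p) * (2 * DD E q) := mul_le_mul h4 h3 h6.le (h5.le.trans h4)
    _ = _ := by ring

theorem n0_nonneg (hW : 0 < W p) : 0 ≤ n0 E θ W F p := by
  have := aw_nonneg (E := E) (θ := θ) p
  unfold n0
  positivity

theorem n1_nonneg (h : p ∈ Tube E θ) (hW : 0 < W p) : 0 ≤ n1 E θ W F p := by
  exact add_nonneg (add_nonneg (n0_nonneg hW) (n0_nonneg (div_pos' h hW)))
    (n0_nonneg (div_pos' h hW))

theorem n0_add (hW : 0 < W p) (hF : DifferentiableAt ℂ F p) (hG : DifferentiableAt ℂ G p) :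
    n0 E θ W (F + G) p ≤ n0 E θ W F p + n0 E θ W G p := by
  have h0 := aw_nonneg (E := E) (θ := θ) p
  rw [n0, n0, n0, ← add_div, dz_add hF hG, dw_add hF hG, Pi.add_apply]
  refine div_le_div_of_nonneg_right ?_ hW.le
  have h1 := norm_add_le (F p) (G p)
  have h2 := mul_le_mul_of_nonneg_left (norm_add_le (dz F p) (dz G p)) h0
  have h3 := mul_le_mul_of_nonneg_left (norm_add_le (dw F p) (dw G p)) h0
  linarith

theorem n0_mul (hW : 0 < W p) (hW' : 0 < W' p) (hF : DifferentiableAt ℂ F p)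
    (hG : DifferentiableAt ℂ G p) :
    n0 E θ (W * W') (F * G) p ≤ n0 E θ W F p * n0 E θ W' G p := by
  have h0 := aw_nonneg (E := E) (θ := θ) p
  rw [n0, n0, n0, div_mul_div_comm, dz_mul hF hG, dw_mul hF hG, Pi.mul_apply, Pi.mul_apply,
    norm_mul]
  refine div_le_div_of_nonneg_right ?_ (mul_pos hW hW').le
  have h2 := mul_le_mul_of_nonneg_left (norm_add_le (dz F p * G p) (F p * dz G p)) h0
  have h3 := mul_le_mul_of_nonneg_left (norm_add_le (dw F p * G p) (F p * dw G p)) h0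
  have h4 : 0 ≤ aw E θ p * (‖dz F p‖ + ‖dw F p‖) * (aw E θ p * (‖dz G p‖ + ‖dw G p‖)) := by
    positivity
  rw [norm_mul, norm_mul] at h2 h3
  linarith

theorem NormAux.n0_eq (h : p ∈ Tube E θ) (hF : EqOn F G (Tube E θ)) :
    n0 E θ W F p = n0 E θ W G p := by
  rw [n0, n0, hF h, dz_congr (isOpen_tube E θ) hF h, dw_congr (isOpen_tube E θ) hF h]

theorem n1_add (h : p ∈ Tube E θ) (hW : 0 < W p) (hF : DifferentiableOn ℂ F (Tube E θ))
    (hG : DifferentiableOn ℂ G (Tube E θ)) :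
    n1 E θ W (F + G) p ≤ n1 E θ W F p + n1 E θ W G p := by
  have o := isOpen_tube E θ
  have h1 := n0_add (E := E) (θ := θ) hW (dAt hF h) (dAt hG h)
  have h2 := n0_add (E := E) (θ := θ) (div_pos' h hW) (dAt (holo_dz o hF) h) (dAt (holo_dz o hG) h)
  have h3 := n0_add (E := E) (θ := θ) (div_pos' h hW) (dAt (holo_dw o hF) h) (dAt (holo_dw o hG) h)
  rw [n1, n1, n1, n0_eq (G := dz F + dz G) h fun q hq => dz_add (dAt hF hq) (dAt hG hq),
    n0_eq (F := dw (F + G)) (G := dw F + dw G) h fun q hq => dw_add (dAt hF hq) (dAt hG hq)]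
  linarith

theorem NormAux.leib (h : p ∈ Tube E θ) (hW : 0 < W p) (hW' : 0 < W' p)
    (hF : DifferentiableOn ℂ F (Tube E θ)) (hG : DifferentiableOn ℂ G (Tube E θ))
    (hF' : DifferentiableOn ℂ F' (Tube E θ)) (hG' : DifferentiableOn ℂ G' (Tube E θ)) :
    n0 E θ (W * W' / DD E) (F' * G + F * G') p ≤
      n0 E θ (W / DD E) F' p * n0 E θ W' G p + n0 E θ W F p * n0 E θ (W' / DD E) G' p := by
  refine (n0_add (div_pos' h (W := W * W') (mul_pos hW hW')) ((dAt hF' h).mul (dAt hG h))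
    ((dAt hF h).mul (dAt hG' h))).trans (add_le_add ?_ ?_)
  · refine (n0_w ?_).le.trans (n0_mul (div_pos' h hW) hW' (dAt hF' h) (dAt hG h))
    simp only [Pi.div_apply, Pi.mul_apply]
    ring
  · refine (n0_w ?_).le.trans (n0_mul hW (div_pos' h hW') (dAt hF h) (dAt hG' h))
    simp only [Pi.div_apply, Pi.mul_apply]
    ring

theorem n1_mul (h : p ∈ Tube E θ) (hW : 0 < W p) (hW' : 0 < W' p)
    (hF : DifferentiableOn ℂ F (Tube E θ)) (hG : DifferentiableOn ℂ G (Tube E θ)) :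
    n1 E θ (W * W') (F * G) p ≤ n1 E θ W F p * n1 E θ W' G p := by
  have o := isOpen_tube E θ
  have h1 := n0_mul (E := E) (θ := θ) hW hW' (dAt hF h) (dAt hG h)
  have h2 := leib h hW hW' hF hG (holo_dz o hF) (holo_dz o hG)
  have h3 := leib h hW hW' hF hG (holo_dw o hF) (holo_dw o hG)
  have a1 := n0_nonneg (E := E) (θ := θ) (F := dz F) (div_pos' h hW)
  have a2 := n0_nonneg (E := E) (θ := θ) (F := dw F) (div_pos' h hW)
  have b1 := n0_nonneg (E := E) (θ := θ) (F := dz G) (div_pos' h hW')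
  have b2 := n0_nonneg (E := E) (θ := θ) (F := dw G) (div_pos' h hW')
  rw [n1, n1, n1, n0_eq (G := dz F * G + F * dz G) h fun q hq => dz_mul (dAt hF hq) (dAt hG hq),
    n0_eq (F := dw (F * G)) (G := dw F * G + F * dw G) h
      fun q hq => dw_mul (dAt hF hq) (dAt hG hq)]
  have := mul_nonneg (add_nonneg a1 a2) (add_nonneg b1 b2)
  linarith

theorem n0_congr (h : p ∈ Tube E θ) (hF : EqOn F G (Tube E θ)) (hW : W p = W' p) :
    n0 E θ W F p = n0 E θ W' G p := by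
  rw [n0_eq h hF, n0_w hW]

theorem n1_congr (h : p ∈ Tube E θ) (hF : EqOn F G (Tube E θ)) (hW : W p = W' p) :
    n1 E θ W F p = n1 E θ W' G p := by
  have e : (W / DD E) p = (W' / DD E) p := by rw [Pi.div_apply, Pi.div_apply, hW]
  rw [n1, n1, n0_congr h hF hW, n0_congr h (dz_congr (isOpen_tube E θ) hF) e,
    n0_congr h (dw_congr (isOpen_tube E θ) hF) e]

theorem B0.mono (h : B0 E θ W F M) (hM : M ≤ M') : B0 E θ W F M' :=
  ⟨h.1, fun p hp => (h.2 p hp).trans hM⟩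

theorem B1.mono (h : B1 E θ W F M) (hM : M ≤ M') : B1 E θ W F M' :=
  ⟨h.1, fun p hp => (h.2 p hp).trans hM⟩

theorem B0.congr (h : B0 E θ W F M) (hF : EqOn F G (Tube E θ)) : B0 E θ W G M := by
  exact ⟨h.1.congr fun p hp => (hF hp).symm, fun p hp => (n0_congr hp hF rfl).symm.le.trans (h.2 p hp)⟩

theorem B1.congr (h : B1 E θ W F M) (hF : EqOn F G (Tube E θ)) : B1 E θ W G M := by
  exact ⟨h.1.congr fun p hp => (hF hp).symm, fun p hp => (n1_congr hp hF rfl).symm.le.trans (h.2 p hp)⟩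

theorem NormAux.b0w (h : B0 E θ W F M) (hW : ∀ p ∈ Tube E θ, W p = W' p) : B0 E θ W' F M :=
  ⟨h.1, fun p hp => (n0_w (hW p hp)).symm.le.trans (h.2 p hp)⟩

theorem NormAux.b1w (h : B1 E θ W F M) (hW : ∀ p ∈ Tube E θ, W p = W' p) : B1 E θ W' F M :=
  ⟨h.1, fun p hp => (n1_congr hp (fun _ _ => rfl) (hW p hp)).symm.le.trans (h.2 p hp)⟩

theorem B0.weight {c : ℝ} (h : B0 E θ W F M) (hW : ∀ p ∈ Tube E θ, 0 < W p)
    (hW' : ∀ p ∈ Tube E θ, 0 < W' p) (hc : ∀ p ∈ Tube E θ, W p ≤ c * W' p) :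
    B0 E θ W' F (c * M) := by
  refine ⟨h.1, fun p hp => (n0_le (hW p hp) (hW' p hp) (hc p hp)).trans ?_⟩
  exact mul_le_mul_of_nonneg_left (h.2 p hp)
    ((mul_pos_iff_of_pos_right (hW' p hp)).1 ((hW p hp).trans_le (hc p hp))).le

theorem B1.weight {c : ℝ} (h : B1 E θ W F M) (hW : ∀ p ∈ Tube E θ, 0 < W p)
    (hW' : ∀ p ∈ Tube E θ, 0 < W' p) (hc : ∀ p ∈ Tube E θ, W p ≤ c * W' p) :
    B1 E θ W' F (c * M) := by
  refine ⟨h.1, fun p hp => le_trans ?_ (mul_le_mul_of_nonneg_left (h.2 p hp)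
    ((mul_pos_iff_of_pos_right (hW' p hp)).1 ((hW p hp).trans_le (hc p hp))).le)⟩
  have e : (W / DD E) p ≤ c * (W' / DD E) p := by
    rw [Pi.div_apply, Pi.div_apply, ← mul_div_assoc]
    exact div_le_div_of_nonneg_right (hc p hp) (DD_pos hp).le
  rw [n1, n1, mul_add, mul_add]
  exact add_le_add (add_le_add (n0_le (hW p hp) (hW' p hp) (hc p hp))
    (n0_le (div_pos' hp (hW p hp)) (div_pos' hp (hW' p hp)) e))
    (n0_le (div_pos' hp (hW p hp)) (div_pos' hp (hW' p hp)) e)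

theorem B0.norm_le (h : B0 E θ W F M) (hp : p ∈ Tube E θ) (hW : 0 < W p) :
    ‖F p‖ ≤ M * W p ∧ ‖dz F p‖ ≤ M * W p / aw E θ p ∧ ‖dw F p‖ ≤ M * W p / aw E θ p := by
  have h1 := h.2 p hp
  have h2 := aw_pos hp
  rw [n0, div_le_iff₀ hW] at h1
  have h3 := mul_nonneg h2.le (norm_nonneg (dz F p))
  have h4 := mul_nonneg h2.le (norm_nonneg (dw F p))
  have h5 := norm_nonneg (F p)
  rw [le_div_iff₀ h2, le_div_iff₀ h2]
  exact ⟨by linarith, by linarith, by linarith⟩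

theorem B0.of_le (hF : DifferentiableOn ℂ F (Tube E θ)) (hW : ∀ p ∈ Tube E θ, 0 < W p)
    (h : ∀ p ∈ Tube E θ,
      ‖F p‖ ≤ M * W p ∧ ‖dz F p‖ ≤ M * W p / aw E θ p ∧ ‖dw F p‖ ≤ M * W p / aw E θ p) :
    B0 E θ W F (3 * M) := by
  refine ⟨hF, fun p hp => ?_⟩
  obtain ⟨h1, h2, h3⟩ := h p hp
  rw [le_div_iff₀ (aw_pos hp)] at h2 h3
  rw [n0, div_le_iff₀ (hW p hp)]
  linarith

theorem B1.b0 (h : B1 E θ W F M) (hW : ∀ p ∈ Tube E θ, 0 < W p) : B0 E θ W F M := by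
  refine ⟨h.1, fun p hp => le_trans ?_ (h.2 p hp)⟩
  have h1 := n0_nonneg (E := E) (θ := θ) (F := dz F) (div_pos' hp (hW p hp))
  have h2 := n0_nonneg (E := E) (θ := θ) (F := dw F) (div_pos' hp (hW p hp))
  rw [n1]
  linarith

theorem B1.dz (h : B1 E θ W F M) (hW : ∀ p ∈ Tube E θ, 0 < W p) :
    B0 E θ (W / DD E) (dz F) M := by
  refine ⟨holo_dz (isOpen_tube E θ) h.1, fun p hp => le_trans ?_ (h.2 p hp)⟩
  have h1 := n0_nonneg (E := E) (θ := θ) (F := F) (hW p hp)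
  have h2 := n0_nonneg (E := E) (θ := θ) (F := dw F) (div_pos' hp (hW p hp))
  rw [n1]
  linarith

theorem B1.dw (h : B1 E θ W F M) (hW : ∀ p ∈ Tube E θ, 0 < W p) :
    B0 E θ (W / DD E) (dw F) M := by
  refine ⟨holo_dw (isOpen_tube E θ) h.1, fun p hp => le_trans ?_ (h.2 p hp)⟩
  have h1 := n0_nonneg (E := E) (θ := θ) (F := F) (hW p hp)
  have h2 := n0_nonneg (E := E) (θ := θ) (F := NU.dz F) (div_pos' hp (hW p hp))
  rw [n1]
  linarith

theorem B1.of_b0 {M₁ M₂ M₃ : ℝ} (h : B0 E θ W F M₁) (h₁ : B0 E θ (W / DD E) (NU.dz F) M₂)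
    (h₂ : B0 E θ (W / DD E) (NU.dw F) M₃) : B1 E θ W F (M₁ + M₂ + M₃) := by
  exact ⟨h.1, fun p hp => add_le_add (add_le_add (h.2 p hp) (h₁.2 p hp)) (h₂.2 p hp)⟩

theorem B0.add (h : B0 E θ W F M) (h' : B0 E θ W G M') (hW : ∀ p ∈ Tube E θ, 0 < W p) :
    B0 E θ W (F + G) (M + M') := by
  exact ⟨h.1.add h'.1, fun p hp => (n0_add (hW p hp) (dAt h.1 hp) (dAt h'.1 hp)).trans
    (add_le_add (h.2 p hp) (h'.2 p hp))⟩

theorem B1.add (h : B1 E θ W F M) (h' : B1 E θ W G M') (hW : ∀ p ∈ Tube E θ, 0 < W p) :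
    B1 E θ W (F + G) (M + M') := by
  exact ⟨h.1.add h'.1, fun p hp => (n1_add hp (hW p hp) h.1 h'.1).trans
    (add_le_add (h.2 p hp) (h'.2 p hp))⟩

theorem B0.neg (h : B0 E θ W F M) : B0 E θ W (-F) M := by
  exact ⟨h.1.neg, fun p hp => n0_neg.le.trans (h.2 p hp)⟩

theorem B1.neg (h : B1 E θ W F M) : B1 E θ W (-F) M := by
  exact ⟨h.1.neg, fun p hp => n1_neg.le.trans (h.2 p hp)⟩

theorem B0.sub (h : B0 E θ W F M) (h' : B0 E θ W G M') (hW : ∀ p ∈ Tube E θ, 0 < W p) :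
    B0 E θ W (F - G) (M + M') := by
  rw [sub_eq_add_neg]
  exact h.add h'.neg hW

theorem B1.sub (h : B1 E θ W F M) (h' : B1 E θ W G M') (hW : ∀ p ∈ Tube E θ, 0 < W p) :
    B1 E θ W (F - G) (M + M') := by
  rw [sub_eq_add_neg]
  exact h.add h'.neg hW

theorem B0.smul (c : ℂ) (h : B0 E θ W F M) : B0 E θ W (c • F) (‖c‖ * M) := by
  exact ⟨h.1.const_smul c, fun p hp => (n0_smul c).le.trans
    (mul_le_mul_of_nonneg_left (h.2 p hp) (norm_nonneg c))⟩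

theorem B1.smul (c : ℂ) (h : B1 E θ W F M) : B1 E θ W (c • F) (‖c‖ * M) := by
  exact ⟨h.1.const_smul c, fun p hp => (n1_smul c).le.trans
    (mul_le_mul_of_nonneg_left (h.2 p hp) (norm_nonneg c))⟩

theorem B0.mul (h : B0 E θ W F M) (h' : B0 E θ W' G M') (hW : ∀ p ∈ Tube E θ, 0 < W p)
    (hW' : ∀ p ∈ Tube E θ, 0 < W' p) : B0 E θ (W * W') (F * G) (M * M') := by
  exact ⟨h.1.mul h'.1, fun p hp => (n0_mul (hW p hp) (hW' p hp) (dAt h.1 hp) (dAt h'.1 hp)).trans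
    (mul_le_mul (h.2 p hp) (h'.2 p hp) (n0_nonneg (hW' p hp))
      ((n0_nonneg (hW p hp)).trans (h.2 p hp)))⟩

theorem B1.mul (h : B1 E θ W F M) (h' : B1 E θ W' G M') (hW : ∀ p ∈ Tube E θ, 0 < W p)
    (hW' : ∀ p ∈ Tube E θ, 0 < W' p) : B1 E θ (W * W') (F * G) (M * M') := by
  exact ⟨h.1.mul h'.1, fun p hp => (n1_mul hp (hW p hp) (hW' p hp) h.1 h'.1).trans
    (mul_le_mul (h.2 p hp) (h'.2 p hp) (n1_nonneg hp (hW' p hp))
      ((n1_nonneg hp (hW p hp)).trans (h.2 p hp)))⟩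

/-- Multiplication by a function of weight one. -/
theorem B0.mul_left (h : B0 E θ (Wj E 0) F M) (h' : B0 E θ W G M') (hW : ∀ p ∈ Tube E θ, 0 < W p) :
    B0 E θ W (F * G) (M * M') := by
  have := h.mul h' (fun p hp => Wj_pos 0 hp) hW
  rwa [Wj_zero_mul] at this

theorem B1.mul_left (h : B1 E θ (Wj E 0) F M) (h' : B1 E θ W G M') (hW : ∀ p ∈ Tube E θ, 0 < W p) :
    B1 E θ W (F * G) (M * M') := by
  have := h.mul h' (fun p hp => Wj_pos 0 hp) hW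
  rwa [Wj_zero_mul] at this

theorem B0.st (h : B0 E θ W F M) (hW : ∀ p, W (sig p) = W p) : B0 E θ W (st F) M := by
  exact ⟨holo_st h.1, fun p hp => (n0_st (hW p)).le.trans (h.2 _ (sig_mem hp))⟩

theorem B1.st (h : B1 E θ W F M) (hW : ∀ p, W (sig p) = W p) : B1 E θ W (st F) M := by
  exact ⟨holo_st h.1, fun p hp => (n1_st (hW p)).le.trans (h.2 _ (sig_mem hp))⟩

theorem B1.zero : B1 E θ W 0 0 := by
  refine ⟨differentiableOn_const 0, fun p _ => ?_⟩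
  have := n1_smul (E := E) (θ := θ) (W := W) (F := 0) (p := p) 0
  rw [smul_zero, norm_zero, zero_mul] at this
  exact this.le

theorem B1.const (c : ℂ) : B1 E θ (Wj E 0) (fun _ => c) ‖c‖ := by
  refine ⟨differentiableOn_const c, fun p _ => ?_⟩
  rw [n1, show NU.dz (fun _ => c) = fun _ => 0 from funext (dz_const c),
    show NU.dw (fun _ => c) = fun _ => 0 from funext (dw_const c)]
  simp [n0, Wj_zero]

theorem B0.eq_zero (h : ∀ ε > 0, B0 E θ W F ε) (hW : ∀ p ∈ Tube E θ, 0 < W p) :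
    EqOn F 0 (Tube E θ) := by
  intro p hp
  have h0 := hW p hp
  refine norm_le_zero_iff.1 (le_of_forall_pos_le_add fun ε hε => ?_)
  have := ((h (ε / W p) (div_pos hε h0)).norm_le hp h0).1
  rw [div_mul_cancel₀ _ h0.ne'] at this
  rwa [zero_add]

theorem B0.mulj (h : B0 E θ (Wj E i) F M) (h' : B0 E θ (Wj E j) G M') (e : i + j = k) :
    B0 E θ (Wj E k) (F * G) (M * M') := by
  exact b0w (h.mul h' (fun p hp => Wj_pos i hp) fun p hp => Wj_pos j hp) fun p hp => Wj_add e hp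

theorem B1.mulj (h : B1 E θ (Wj E i) F M) (h' : B1 E θ (Wj E j) G M') (e : i + j = k) :
    B1 E θ (Wj E k) (F * G) (M * M') := by
  exact b1w (h.mul h' (fun p hp => Wj_pos i hp) fun p hp => Wj_pos j hp) fun p hp => Wj_add e hp

theorem B1.dzj (h : B1 E θ (Wj E i) F M) (e : i - 1 = k) :
    B0 E θ (Wj E k) (NU.dz F) M := by
  exact b0w (h.dz fun p hp => Wj_pos i hp) fun p hp => e ▸ Wj_div i hp

theorem B1.dwj (h : B1 E θ (Wj E i) F M) (e : i - 1 = k) :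
    B0 E θ (Wj E k) (NU.dw F) M := by
  exact b0w (h.dw fun p hp => Wj_pos i hp) fun p hp => e ▸ Wj_div i hp

/-- The inverse of `1 - F` for small `F`. -/
theorem B1.inv (h : B1 E θ (Wj E 0) F (1 / 2)) :
    (∀ p ∈ Tube E θ, (1 - F) p ≠ 0) ∧ B1 E θ (Wj E 0) (1 - F)⁻¹ 2 := by
  have hne : ∀ p ∈ Tube E θ, (1 - F) p ≠ 0 := fun p hp e => by
    have h1 := ((h.b0 fun q hq => Wj_pos 0 hq).norm_le hp (Wj_pos 0 hp)).1
    rw [Pi.sub_apply, Pi.one_apply, sub_eq_zero] at e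
    rw [← e, Wj_zero, norm_one] at h1
    norm_num at h1
  have hd : DifferentiableOn ℂ (1 - F)⁻¹ (Tube E θ) :=
    ((differentiableOn_const 1).sub h.1).inv hne
  refine ⟨hne, hd, fun p hp => ?_⟩
  have e : EqOn (1 - F)⁻¹ ((fun _ => 1) + F * (1 - F)⁻¹) (Tube E θ) := fun q hq => by
    have := hne q hq
    simp only [Pi.add_apply, Pi.mul_apply, Pi.inv_apply, Pi.sub_apply, Pi.one_apply] at this ⊢
    field_simp
    ring
  have h1 := n1_congr (W := Wj E 0) hp e rfl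
  have h2 := n1_add hp (Wj_pos 0 hp) (differentiableOn_const (1 : ℂ)) (h.1.mul hd)
  have h3 := n1_mul hp (Wj_pos 0 hp) (Wj_pos 0 hp) h.1 hd
  have h4 := (B1.const (E := E) (θ := θ) 1).2 p hp
  have h5 := mul_le_mul_of_nonneg_right (h.2 p hp) (n1_nonneg (F := (1 - F)⁻¹) hp (Wj_pos 0 hp))
  rw [Wj_zero_mul] at h3
  rw [norm_one] at h4
  linarith

theorem P0.mono (h : P0 E θ j F F' A L) (hA : A ≤ A') (hL : L ≤ L') : P0 E θ j F F' A' L' :=
  ⟨h.1.mono hA, h.2.1.mono hA, h.2.2.mono hL⟩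

theorem P1.mono (h : P1 E θ j F F' A L) (hA : A ≤ A') (hL : L ≤ L') : P1 E θ j F F' A' L' :=
  ⟨h.1.mono hA, h.2.1.mono hA, h.2.2.mono hL⟩

theorem P1.refl (h : B1 E θ (Wj E j) F A) : P1 E θ j F F A 0 := by
  refine ⟨h, h, ?_⟩
  rw [sub_self]
  exact B1.zero

theorem P1.p0 (h : P1 E θ j F F' A L) : P0 E θ j F F' A L := by
  exact ⟨h.1.b0 fun _ => Wj_pos j, h.2.1.b0 fun _ => Wj_pos j, h.2.2.b0 fun _ => Wj_pos j⟩

theorem P1.dz (h : P1 E θ i F F' A L) (e : i - 1 = k) :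
    P0 E θ k (NU.dz F) (NU.dz F') A L := by
  exact ⟨h.1.dzj e, h.2.1.dzj e,
    (h.2.2.dzj e).congr fun p hp => dz_sub (dAt h.1.1 hp) (dAt h.2.1.1 hp)⟩

theorem P1.dw (h : P1 E θ i F F' A L) (e : i - 1 = k) :
    P0 E θ k (NU.dw F) (NU.dw F') A L := by
  exact ⟨h.1.dwj e, h.2.1.dwj e,
    (h.2.2.dwj e).congr fun p hp => dw_sub (dAt h.1.1 hp) (dAt h.2.1.1 hp)⟩

theorem P0.add (h : P0 E θ j F F' A L) (h' : P0 E θ j G G' A' L') :
    P0 E θ j (F + G) (F' + G') (A + A') (L + L') := by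
  refine ⟨h.1.add h'.1 fun _ => Wj_pos j, h.2.1.add h'.2.1 fun _ => Wj_pos j, ?_⟩
  rw [add_sub_add_comm]
  exact h.2.2.add h'.2.2 fun _ => Wj_pos j

theorem P1.add (h : P1 E θ j F F' A L) (h' : P1 E θ j G G' A' L') :
    P1 E θ j (F + G) (F' + G') (A + A') (L + L') := by
  refine ⟨h.1.add h'.1 fun _ => Wj_pos j, h.2.1.add h'.2.1 fun _ => Wj_pos j, ?_⟩
  rw [add_sub_add_comm]
  exact h.2.2.add h'.2.2 fun _ => Wj_pos j

theorem P0.sub (h : P0 E θ j F F' A L) (h' : P0 E θ j G G' A' L') :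
    P0 E θ j (F - G) (F' - G') (A + A') (L + L') := by
  refine ⟨h.1.sub h'.1 fun _ => Wj_pos j, h.2.1.sub h'.2.1 fun _ => Wj_pos j, ?_⟩
  rw [sub_sub_sub_comm]
  exact h.2.2.sub h'.2.2 fun _ => Wj_pos j

theorem P1.sub (h : P1 E θ j F F' A L) (h' : P1 E θ j G G' A' L') :
    P1 E θ j (F - G) (F' - G') (A + A') (L + L') := by
  refine ⟨h.1.sub h'.1 fun _ => Wj_pos j, h.2.1.sub h'.2.1 fun _ => Wj_pos j, ?_⟩
  rw [sub_sub_sub_comm]
  exact h.2.2.sub h'.2.2 fun _ => Wj_pos j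

theorem P0.neg (h : P0 E θ j F F' A L) : P0 E θ j (-F) (-F') A L := by
  refine ⟨h.1.neg, h.2.1.neg, ?_⟩
  rw [← neg_sub']
  exact h.2.2.neg

theorem P1.neg (h : P1 E θ j F F' A L) : P1 E θ j (-F) (-F') A L := by
  refine ⟨h.1.neg, h.2.1.neg, ?_⟩
  rw [← neg_sub']
  exact h.2.2.neg

theorem P0.smul (c : ℂ) (h : P0 E θ j F F' A L) :
    P0 E θ j (c • F) (c • F') (‖c‖ * A) (‖c‖ * L) := by
  refine ⟨h.1.smul c, h.2.1.smul c, ?_⟩
  rw [← smul_sub]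
  exact h.2.2.smul c

theorem P1.smul (c : ℂ) (h : P1 E θ j F F' A L) :
    P1 E θ j (c • F) (c • F') (‖c‖ * A) (‖c‖ * L) := by
  refine ⟨h.1.smul c, h.2.1.smul c, ?_⟩
  rw [← smul_sub]
  exact h.2.2.smul c

theorem P0.mul (h : P0 E θ i F F' A L) (h' : P0 E θ j G G' A' L') (e : i + j = k) :
    P0 E θ k (F * G) (F' * G') (A * A') (A * L' + L * A') := by
  refine ⟨h.1.mulj h'.1 e, h.2.1.mulj h'.2.1 e, ?_⟩
  rw [show F * G - F' * G' = F * (G - G') + (F - F') * G' by ring]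
  exact (h.1.mulj h'.2.2 e).add (h.2.2.mulj h'.2.1 e) fun _ => Wj_pos k

theorem P1.mul (h : P1 E θ i F F' A L) (h' : P1 E θ j G G' A' L') (e : i + j = k) :
    P1 E θ k (F * G) (F' * G') (A * A') (A * L' + L * A') := by
  refine ⟨h.1.mulj h'.1 e, h.2.1.mulj h'.2.1 e, ?_⟩
  rw [show F * G - F' * G' = F * (G - G') + (F - F') * G' by ring]
  exact (h.1.mulj h'.2.2 e).add (h.2.2.mulj h'.2.1 e) fun _ => Wj_pos k

theorem P0.st (h : P0 E θ j F F' A L) :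
    P0 E θ j (NU.st F) (NU.st F') A L := by
  refine ⟨h.1.st (Wj_sig j), h.2.1.st (Wj_sig j), ?_⟩
  rw [← st_sub]
  exact h.2.2.st (Wj_sig j)

theorem P1.st (h : P1 E θ j F F' A L) :
    P1 E θ j (NU.st F) (NU.st F') A L := by
  refine ⟨h.1.st (Wj_sig j), h.2.1.st (Wj_sig j), ?_⟩
  rw [← st_sub]
  exact h.2.2.st (Wj_sig j)

theorem P1.inv (h : P1 E θ 0 F F' (1 / 2) L) : P1 E θ 0 (1 - F)⁻¹ (1 - F')⁻¹ 2 (4 * L) := by
  obtain ⟨n1, b1⟩ := h.1.inv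
  obtain ⟨n2, b2⟩ := h.2.1.inv
  refine ⟨b1, b2, (((b1.mulj h.2.2 rfl).mulj b2 rfl).congr fun p hp => ?_).mono (by linarith)⟩
  have h1 := n1 p hp
  have h2 := n2 p hp
  simp only [Pi.mul_apply, Pi.inv_apply, Pi.sub_apply, Pi.one_apply] at h1 h2 ⊢
  field_simp
  ring

end Pool.Agent.Lib.MP_44acff_gt.NU
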