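import Pool.Agent.Lib.MP_44acff_gt.H70Norm

/-! Estimates on the tube without loss of derivatives. -/

namespace Pool.Agent.Lib.MP_44acff_gt.NU

open Set Metric MeasureTheory Filter Topology ComplexConjugate
open scoped ContDiff

variable {θ : ℝ}

/-- The oscillation bound near the real slice. -/
def Osc (E : Set ℂ) (θ : ℝ) (W : ℂ × ℂ → ℝ) (U : ℂ × ℂ → ℂ) (M : ℝ) : Prop :=
  ∀ z ∉ E, ∀ p ∈ ball (diag z) (θ * infDist z E / 8),
    ‖U p - U (diag z)‖ ≤ M * W (diag z) * infDist z E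

namespace TLAux

variable {E : Set ℂ} {W : ℂ × ℂ → ℝ} {U F : ℂ × ℂ → ℂ} {M K : ℝ} {p q : ℂ × ℂ}

/-- The segment from the real slice to `p`. -/
noncomputable def sg (p : ℂ × ℂ) (s : ℝ) : ℂ × ℂ := (p.1, conj p.1 + s * (p.2 - conj p.1))

/-- The lower bound for the defining function along the segment. -/
noncomputable def uu (E : Set ℂ) (θ : ℝ) (p : ℂ × ℂ) (s : ℝ) : ℝ :=
  del E θ p + (1 - s) * ‖p.1 - conj p.2‖ / 2

theorem sg_zero (p : ℂ × ℂ) : sg p 0 = diag p.1 := by simp [sg, diag]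

theorem sg_one (p : ℂ × ℂ) : sg p 1 = p := by simp [sg]

theorem uu_one (E : Set ℂ) (θ : ℝ) (p : ℂ × ℂ) : uu E θ p 1 = del E θ p := by simp [uu]

theorem del_le_uu {s : ℝ} (hs : s ∈ Icc (0 : ℝ) 1) : del E θ p ≤ uu E θ p s := by
  have h1 : 0 ≤ (1 - s) * ‖p.1 - conj p.2‖ := mul_nonneg (by linarith [hs.2]) (norm_nonneg _)
  unfold uu
  linarith

theorem uu_pos (h : p ∈ Tube E θ) {s : ℝ} (hs : s ∈ Icc (0 : ℝ) 1) : 0 < uu E θ p s :=
  lt_of_lt_of_le h (del_le_uu hs)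

theorem uu_zero_le (hθ1 : θ ≤ 1) (h : p ∈ Tube E θ) : uu E θ p 0 ≤ DD E p := by
  have h1 := DD_pos h
  have h2 := norm_nonneg (p.1 - conj p.2)
  unfold uu del
  nlinarith

theorem norm_sub_eq (p : ℂ × ℂ) : ‖p.2 - conj p.1‖ = ‖p.1 - conj p.2‖ := by
  rw [← Complex.norm_conj, map_sub, Complex.conj_conj, norm_sub_rev]

theorem hasDerivAt_sqrt_uu (h : p ∈ Tube E θ) {s : ℝ} (hs : s ∈ Icc (0 : ℝ) 1) :
    HasDerivAt (fun s => √(uu E θ p s)) (-(‖p.1 - conj p.2‖ / (4 * √(uu E θ p s)))) s := by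
  have h1 : HasDerivAt (uu E θ p) (-1 * ‖p.1 - conj p.2‖ / 2) s :=
    ((((hasDerivAt_id s).const_sub 1).mul_const _).div_const 2).const_add _
  have h2 := h1.sqrt (uu_pos h hs).ne'
  have h3 : 0 < √(uu E θ p s) := Real.sqrt_pos.2 (uu_pos h hs)
  refine h2.congr_deriv ?_
  field_simp
  norm_num

theorem sg_facts (hθ : 0 < θ) (hθ1 : θ ≤ 1) (hW : Adm E θ W K) (h : p ∈ Tube E θ) {s : ℝ}
    (hs : s ∈ Icc (0 : ℝ) 1) : sg p s ∈ Tube E θ ∧ W (sg p s) ≤ K * W p ∧
      DD E p / 2 ≤ DD E (sg p s) ∧ uu E θ p s ≤ del E θ (sg p s) ∧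
      √(DD E p) * √(uu E θ p s) / 2 ≤ aw E θ (sg p s) := by
  obtain ⟨h1, h2⟩ := seg_mem hθ hθ1 h hs
  have hD := DD_pos h
  have h1' : uu E θ p s ≤ del E θ (sg p s) := h1
  have h2' : ‖mid (sg p s) - mid p‖ ≤ DD E p / 2 := h2.trans (by nlinarith)
  have hu := uu_pos h hs
  have hm : sg p s ∈ Tube E θ := lt_of_lt_of_le hu h1'
  have h0 : 0 < del E θ p := h
  have h3 : DD E p / 2 ≤ DD E (sg p s) := by
    have := (abs_le.1 ((abs_DD_sub (E := E) p (sg p s)).trans h2')).1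
    linarith
  refine ⟨hm, hW.le p h _ hm h2' (by linarith [del_le_uu (E := E) (θ := θ) (p := p) hs]), h3,
    h1', ?_⟩
  unfold aw
  refine Real.le_sqrt_of_sq_le ?_
  rw [div_pow, mul_pow, Real.sq_sqrt hD.le, Real.sq_sqrt hu.le]
  have h4 : DD E p / 2 * uu E θ p s ≤ DD E (sg p s) * del E θ (sg p s) :=
    mul_le_mul h3 h1' hu.le (by linarith)
  nlinarith [mul_pos hD hu]

theorem seg_bound (hθ : 0 < θ) (hθ1 : θ ≤ 1) (hW : Adm E θ W K)
    (hF : DifferentiableOn ℂ F (Tube E θ)) (h : p ∈ Tube E θ) {B B' : ℝ → ℝ}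
    (hB : ∀ s ∈ Icc (0 : ℝ) 1, HasDerivAt B (B' s) s) (h0 : ‖F (diag p.1)‖ ≤ B 0)
    (hb : ∀ s ∈ Icc (0 : ℝ) 1, ‖p.1 - conj p.2‖ * ‖dw F (sg p s)‖ ≤ B' s) : ‖F p‖ ≤ B 1 := by
  have hd : ∀ s ∈ Icc (0 : ℝ) 1,
      HasDerivAt (fun s => F (sg p s)) ((p.2 - conj p.1) * dw F (sg p s)) s := by
    intro s hs
    have h1 : HasDerivAt (sg p) ((0 : ℂ), p.2 - conj p.1) s := by
      refine (hasDerivAt_const s p.1).prodMk ?_
      have h2 := ((hasDerivAt_id s).ofReal_comp.mul_const (p.2 - conj p.1)).const_add (conj p.1)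
      simpa using h2
    have h2 : DifferentiableAt ℂ F (sg p s) :=
      hF.differentiableAt ((isOpen_tube E θ).mem_nhds (sg_facts hθ hθ1 hW h hs).1)
    have h3 := (h2.hasFDerivAt.restrictScalars ℝ).comp_hasDerivAt s h1
    refine h3.congr_deriv ?_
    rw [ContinuousLinearMap.coe_restrictScalars', fderiv_eq]
    simp
  have key := image_norm_le_of_norm_deriv_right_le_deriv_boundary'
    (f := fun s => F (sg p s)) (f' := fun s => (p.2 - conj p.1) * dw F (sg p s)) (a := 0) (b := 1)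
    (fun s hs => (hd s hs).continuousAt.continuousWithinAt)
    (fun s hs => (hd s (Ico_subset_Icc_self hs)).hasDerivWithinAt) (B := B) (B' := B')
    (by rw [sg_zero]; exact h0) (fun s hs => (hB s hs).continuousAt.continuousWithinAt)
    (fun s hs => (hB s (Ico_subset_Icc_self hs)).hasDerivWithinAt)
    (fun s hs => by rw [norm_mul, norm_sub_eq]; exact hb s (Ico_subset_Icc_self hs))
    (right_mem_Icc.2 zero_le_one)
  simpa only [sg_one] using key

theorem near_diag (hθ : 0 < θ) (hθ1 : θ ≤ 1) (hE : Dom E) {z : ℂ} (hz : z ∉ E)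
    (hq : q ∈ ball (diag z) (θ * infDist z E / 8)) : q ∈ Tube E θ ∧
      ‖mid q - mid (diag z)‖ ≤ DD E (diag z) / 2 ∧ del E θ (diag z) / 2 ≤ del E θ q := by
  have h0 := DD_pos (diag_mem hE hθ hz)
  have h1 := del_sub_le (E := E) hθ hθ1 (diag z) q
  have h2 := norm_mid_sub (diag z) q
  rw [mem_ball, dist_eq_norm] at hq
  rw [DD_diag] at h0 ⊢
  rw [del_diag] at h1 ⊢
  have h3 := mul_pos hθ h0
  have h4 : θ * infDist z E ≤ infDist z E := by nlinarith
  refine ⟨?_, by linarith, by linarith⟩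
  change 0 < del E θ q
  linarith

theorem slice (hθ : 0 < θ) (hθ1 : θ ≤ 1) (hE : Dom E) (hU : DifferentiableOn ℂ U (Tube E θ))
    (ho : Osc E θ W U M) {z : ℂ} (hz : z ∉ E) :
    ‖dz U (diag z)‖ ≤ 32 * (M * W (diag z)) / θ ∧
      ‖dz (dz U) (diag z)‖ ≤ 1024 * (M * W (diag z)) / (θ ^ 2 * infDist z E) := by
  have h0 := DD_pos (diag_mem hE hθ hz)
  rw [DD_diag] at h0
  have hr : 0 < θ * infDist z E / 16 := by positivity
  have h1 : ∀ q ∈ ball (diag z) (θ * infDist z E / 16), ‖dz U q‖ ≤ 32 * (M * W (diag z)) / θ := by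
    intro q hq
    have hs : ball q (θ * infDist z E / 16) ⊆ ball (diag z) (θ * infDist z E / 8) :=
      ball_subset_ball' (by rw [mem_ball] at hq; linarith)
    have h2 := (cauchy_est hr (hU.mono fun y hy => (near_diag hθ hθ1 hE hz (hs hy)).1)
      fun y hy => ho z hz y (hs hy)).1
    refine h2.trans_eq ?_
    field_simp
    ring
  refine ⟨h1 _ (mem_ball_self hr), ?_⟩
  have hs : ball (diag z) (θ * infDist z E / 16) ⊆ ball (diag z) (θ * infDist z E / 8) :=
    ball_subset_ball (by linarith)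
  have h2 := (cauchy_est (c := 0) hr ((holo_dz (isOpen_tube E θ) hU).mono
    fun y hy => (near_diag hθ hθ1 hE hz (hs hy)).1)
    fun y hy => by rw [sub_zero]; exact h1 y hy).1
  refine h2.trans_eq ?_
  field_simp
  ring

theorem second (hθ : 0 < θ) (hθ1 : θ ≤ 1) (hW : Adm E θ W K) (hF : B0 E θ W F M) (hM : 0 ≤ M)
    (h : q ∈ Tube E θ) :
    ‖dz (dz F) q‖ ≤ 24 * (M * (K * W q)) / (aw E θ q * del E θ q) := by
  have h0 : 0 < del E θ q := h
  have hD := DD_pos h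
  have ha := aw_pos h
  have hr : 0 < del E θ q / 6 := by positivity
  have h1 : ∀ y ∈ ball q (del E θ q / 6), y ∈ Tube E θ ∧
      ‖dz F y - 0‖ ≤ 2 * (M * (K * W q)) / aw E θ q := by
    intro y hy
    rw [mem_ball, dist_eq_norm] at hy
    have e1 := del_sub_le (E := E) hθ hθ1 q y
    have e2 := norm_mid_sub q y
    have e3 := del_le (E := E) (θ := θ) q
    have e4 : θ * DD E q ≤ DD E q := by nlinarith
    have e5 : del E θ q / 2 ≤ del E θ y := by linarith
    have e6 : y ∈ Tube E θ := lt_of_lt_of_le (by positivity) e5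
    have e7 : ‖mid y - mid q‖ ≤ DD E q / 2 := by linarith
    have e8 : DD E q / 2 ≤ DD E y := by
      have := (abs_le.1 ((abs_DD_sub (E := E) q y).trans e7)).1
      linarith
    have e9 : aw E θ q / 2 ≤ aw E θ y := by
      unfold aw
      refine Real.le_sqrt_of_sq_le ?_
      rw [div_pow, Real.sq_sqrt (mul_pos hD h0).le]
      have := mul_le_mul e8 e5 (by positivity) (by linarith)
      linarith
    have e10 := hW.le q h y e6 e7 e5
    refine ⟨e6, ?_⟩
    rw [sub_zero]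
    refine (hF.norm_le e6 (hW.pos y e6)).2.1.trans ?_
    have e11 : M * W y ≤ M * (K * W q) := mul_le_mul_of_nonneg_left e10 hM
    have e12 : 0 ≤ M * W y := mul_nonneg hM (hW.pos y e6).le
    calc M * W y / aw E θ y ≤ M * (K * W q) / (aw E θ q / 2) :=
          div_le_div₀ (e12.trans e11) e11 (by positivity) e9
      _ = _ := by field_simp
  have h2 := (cauchy_est hr ((holo_dz (isOpen_tube E θ) hF.1).mono fun y hy => (h1 y hy).1)
    fun y hy => (h1 y hy).2).1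
  refine h2.trans_eq ?_
  field_simp
  ring

theorem comm (hU : DifferentiableOn ℂ U (Tube E θ)) : EqOn (dw (dz U)) (dz (dw U)) (Tube E θ) :=
  fun _ hq => (dz_dw_comm (isOpen_tube E θ) hU hq).symm

theorem one_le (hW : Adm E θ W K) (h : p ∈ Tube E θ) : 1 ≤ K := by
  have h0 : 0 < del E θ p := h
  have h1 := hW.le p h p h (by rw [sub_self, norm_zero]; linarith [DD_pos h]) (by linarith)
  have h2 := hW.pos p h
  nlinarith

theorem first_le (hθ : 0 < θ) (hθ1 : θ ≤ 1) (hE : Dom E) (hW : Adm E θ W K)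
    (hU : DifferentiableOn ℂ U (Tube E θ)) (hg : B0 E θ W (dw U) M) (ho : Osc E θ W U M)
    (h : p ∈ Tube E θ) : ‖dz U p‖ ≤ (32 / θ + 8) * (M * (K * W p)) := by
  have hM : 0 ≤ M := (n0_nonneg (hW.pos p h)).trans (hg.2 p h)
  have hK := one_le hW h
  have hp := hW.pos p h
  have hD := DD_pos h
  have hsD : 0 < √(DD E p) := Real.sqrt_pos.2 hD
  set X := M * (K * W p) with hX
  have hX0 : 0 ≤ X := mul_nonneg hM (by positivity)
  have h00 : (0 : ℝ) ∈ Icc (0 : ℝ) 1 := left_mem_Icc.2 zero_le_one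
  have hw0 : W (diag p.1) ≤ K * W p := by
    have := (sg_facts hθ hθ1 hW h h00).2.1
    rwa [sg_zero] at this
  have h1 : ‖dz U (diag p.1)‖ ≤ 32 / θ * X := by
    refine (slice hθ hθ1 hE hU ho (fst_notMem hθ1 h)).1.trans ?_
    have := mul_le_mul_of_nonneg_left hw0 hM
    rw [div_mul_eq_mul_div]
    gcongr
  have h2 : 8 * X / √(DD E p) * √(uu E θ p 0) ≤ 8 * X := by
    calc _ ≤ 8 * X / √(DD E p) * √(DD E p) :=
          mul_le_mul_of_nonneg_left (Real.sqrt_le_sqrt (uu_zero_le hθ1 h)) (by positivity)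
      _ = _ := div_mul_cancel₀ _ hsD.ne'
  have key := seg_bound hθ hθ1 hW (holo_dz (isOpen_tube E θ) hU) h
    (B := fun s => (32 / θ + 8) * X - 8 * X / √(DD E p) * √(uu E θ p s))
    (B' := fun s => 8 * X / √(DD E p) * (‖p.1 - conj p.2‖ / (4 * √(uu E θ p s))))
    (fun s hs => (((hasDerivAt_sqrt_uu h hs).const_mul _).const_sub _).congr_deriv (by ring))
    (by linarith) fun s hs => by
      obtain ⟨e1, e2, -, -, e5⟩ := sg_facts hθ hθ1 hW h hs
      have e6 : 0 < √(uu E θ p s) := Real.sqrt_pos.2 (uu_pos h hs)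
      have e7 := (hg.norm_le e1 (hW.pos _ e1)).2.1
      rw [comm hU e1]
      have e8 : M * W (sg p s) / aw E θ (sg p s) ≤ X / (√(DD E p) * √(uu E θ p s) / 2) :=
        div_le_div₀ hX0 (mul_le_mul_of_nonneg_left e2 hM) (by positivity) e5
      refine (mul_le_mul_of_nonneg_left (e7.trans e8) (norm_nonneg _)).trans_eq ?_
      field_simp
      ring
  have h3 : 0 ≤ 8 * X / √(DD E p) * √(uu E θ p 1) := by positivity
  linarith

theorem second_le (hθ : 0 < θ) (hθ1 : θ ≤ 1) (hE : Dom E) (hW : Adm E θ W K)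
    (hU : DifferentiableOn ℂ U (Tube E θ)) (hg : B0 E θ W (dw U) M) (ho : Osc E θ W U M)
    (h : p ∈ Tube E θ) :
    ‖dz (dz U) p‖ ≤ (2048 / θ ^ 2 + 192) * (M * (K * (K * W p))) / aw E θ p := by
  have hM : 0 ≤ M := (n0_nonneg (hW.pos p h)).trans (hg.2 p h)
  have hK := one_le hW h
  have hp := hW.pos p h
  have hD := DD_pos h
  have ha := aw_pos h
  have hsD : 0 < √(DD E p) := Real.sqrt_pos.2 hD
  set X := M * (K * (K * W p)) with hX
  have hX0 : 0 ≤ X := mul_nonneg hM (by positivity)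
  have h00 : (0 : ℝ) ∈ Icc (0 : ℝ) 1 := left_mem_Icc.2 zero_le_one
  obtain ⟨-, hw0, hd0, -⟩ := sg_facts hθ hθ1 hW h h00
  rw [sg_zero] at hw0 hd0
  rw [DD_diag] at hd0
  have h1 : ‖dz (dz U) (diag p.1)‖ ≤ 2048 / θ ^ 2 * X / aw E θ p := by
    refine (slice hθ hθ1 hE hU ho (fst_notMem hθ1 h)).2.trans ?_
    have e1 : M * W (diag p.1) ≤ X := by
      refine mul_le_mul_of_nonneg_left (hw0.trans ?_) hM
      exact le_mul_of_one_le_left (by positivity) hK
    have e2 : aw E θ p / 2 ≤ infDist p.1 E := by linarith [aw_le hθ1 h]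
    calc _ ≤ 1024 * X / (θ ^ 2 * (aw E θ p / 2)) :=
          div_le_div₀ (by positivity) (by linarith) (by positivity)
            (mul_le_mul_of_nonneg_left e2 (by positivity))
      _ = _ := by
          field_simp
          ring
  have hdz := holo_dz (isOpen_tube E θ) hU
  have key := seg_bound hθ hθ1 hW (holo_dz (isOpen_tube E θ) hdz) h
    (B := fun s => 2048 / θ ^ 2 * X / aw E θ p + 192 * X / √(DD E p) * (√(uu E θ p s))⁻¹)
    (B' := fun s => 192 * X / √(DD E p) *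
      (‖p.1 - conj p.2‖ / (4 * √(uu E θ p s)) / √(uu E θ p s) ^ 2))
    (fun s hs => ((((hasDerivAt_sqrt_uu h hs).inv
      (Real.sqrt_pos.2 (uu_pos h hs)).ne').const_mul _).const_add _).congr_deriv (by ring))
    (h1.trans (le_add_of_nonneg_right (by positivity))) fun s hs => by
      obtain ⟨e1, e2, -, e4, e5⟩ := sg_facts hθ hθ1 hW h hs
      have e0 := uu_pos h hs
      have e6 : 0 < √(uu E θ p s) := Real.sqrt_pos.2 e0
      have e7 := second hθ hθ1 hW hg hM e1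
      rw [comm hdz e1, dz_congr (isOpen_tube E θ) (comm hU) e1, Real.sq_sqrt e0.le]
      have e9 : M * (K * W (sg p s)) ≤ X :=
        mul_le_mul_of_nonneg_left (mul_le_mul_of_nonneg_left e2 (by linarith)) hM
      have e8 : 24 * (M * (K * W (sg p s))) / (aw E θ (sg p s) * del E θ (sg p s)) ≤
          24 * X / (√(DD E p) * √(uu E θ p s) / 2 * uu E θ p s) :=
        div_le_div₀ (by positivity) (by linarith) (by positivity)
          (mul_le_mul e5 e4 e0.le (aw_pos e1).le)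
      refine (mul_le_mul_of_nonneg_left (e7.trans e8) (norm_nonneg _)).trans_eq ?_
      field_simp
      ring
  refine key.trans_eq ?_
  have h0 : 0 < del E θ p := h
  have h4 : aw E θ p = √(DD E p) * √(del E θ p) := Real.sqrt_mul hD.le _
  have h5 : 0 < √(del E θ p) := Real.sqrt_pos.2 h0
  rw [uu_one, h4]
  field_simp

end TLAux

open TLAux

theorem tl0 (hθ : 0 < θ) (hθ1 : θ ≤ 1) (K : ℝ) : ∃ C > 0, ∀ (E : Set ℂ) (W : ℂ × ℂ → ℝ)
    (U : ℂ × ℂ → ℂ) (M : ℝ), Dom E → Adm E θ W K → DifferentiableOn ℂ U (Tube E θ) →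
      B0 E θ W (dw U) M → Osc E θ W U M → B0 E θ W (dz U) (C * M) := by
  refine ⟨3 * ((2048 / θ ^ 2 + 192) * (K ^ 2 + 1)), by positivity, fun E W U M hE hW hU hg ho => ?_⟩
  rw [mul_assoc]
  refine B0.of_le (holo_dz (isOpen_tube E θ) hU) hW.pos fun p h => ?_
  have hM : 0 ≤ M := (n0_nonneg (hW.pos p h)).trans (hg.2 p h)
  have hK := one_le hW h
  have hp := hW.pos p h
  have ha := aw_pos h
  have hY : 0 ≤ M * W p := mul_nonneg hM hp.le
  have h1 : 32 / θ + 8 ≤ 2048 / θ ^ 2 + 192 := by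
    have : 32 / θ ≤ 2048 / θ ^ 2 := div_le_div₀ (by norm_num) (by norm_num) (by positivity)
      (by nlinarith)
    linarith
  have h2 : (1 : ℝ) ≤ 2048 / θ ^ 2 + 192 := by
    have : 0 ≤ 2048 / θ ^ 2 := by positivity
    linarith
  refine ⟨(first_le hθ hθ1 hE hW hU hg ho h).trans ?_,
    (second_le hθ hθ1 hE hW hU hg ho h).trans ?_, ?_⟩
  · calc (32 / θ + 8) * (M * (K * W p)) = (32 / θ + 8) * K * (M * W p) := by ring
      _ ≤ (2048 / θ ^ 2 + 192) * (K ^ 2 + 1) * (M * W p) :=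
          mul_le_mul_of_nonneg_right (mul_le_mul h1 (by nlinarith) (by linarith) (by linarith)) hY
      _ = _ := by ring
  · refine div_le_div_of_nonneg_right ?_ ha.le
    calc (2048 / θ ^ 2 + 192) * (M * (K * (K * W p)))
        = (2048 / θ ^ 2 + 192) * K ^ 2 * (M * W p) := by ring
      _ ≤ (2048 / θ ^ 2 + 192) * (K ^ 2 + 1) * (M * W p) :=
          mul_le_mul_of_nonneg_right (mul_le_mul_of_nonneg_left (by linarith) (by linarith)) hY
      _ = _ := by ring
  · rw [comm hU h]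
    refine (hg.norm_le h hp).2.1.trans (div_le_div_of_nonneg_right ?_ ha.le)
    calc M * W p ≤ (2048 / θ ^ 2 + 192) * (K ^ 2 + 1) * (M * W p) :=
          le_mul_of_one_le_left hY (one_le_mul_of_one_le_of_one_le h2 (by nlinarith))
      _ = _ := by ring

theorem tl1 (hθ : 0 < θ) (hθ1 : θ ≤ 1) (K : ℝ) : ∃ C > 0, ∀ (E : Set ℂ) (W : ℂ × ℂ → ℝ)
    (U : ℂ × ℂ → ℂ) (M : ℝ), Dom E → Adm E θ W K → DifferentiableOn ℂ U (Tube E θ) →
      B1 E θ W (dw U) M → Osc E θ W U M → B1 E θ W (dz U) (C * M) := by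
  obtain ⟨C₁, hC₁, h₁⟩ := tl0 hθ hθ1 K
  obtain ⟨C₂, hC₂, h₂⟩ := tl0 hθ hθ1 (2 * K)
  refine ⟨C₁ + C₂ * (C₁ * (|K| + 1) + 1) + 1, by positivity, fun E W U M hE hW hU hg ho => ?_⟩
  have hdz := holo_dz (isOpen_tube E θ) hU
  refine ⟨hdz, fun p h => ?_⟩
  have hM : 0 ≤ M := (n1_nonneg h (hW.pos p h)).trans (hg.2 p h)
  have hK := one_le hW h
  have b1 := h₁ E W U M hE hW hU (hg.b0 hW.pos) ho
  have b2 : B0 E θ (W / DD E) (dw (dz U)) M := (hg.dz hW.pos).congr (comm hU).symm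
  have hc : 0 ≤ C₁ * (|K| + 1) := by positivity
  have o2 : Osc E θ (W / DD E) (dz U) ((C₁ * (|K| + 1) + 1) * M) := by
    intro z hz q hq
    obtain ⟨e1, e2, e3⟩ := near_diag hθ hθ1 hE hz hq
    have e0 := diag_mem hE hθ hz
    have e4 := hW.le _ e0 q e1 e2 e3
    have e5 := (b1.norm_le e1 (hW.pos _ e1)).1
    have e6 := (b1.norm_le e0 (hW.pos _ e0)).1
    have e7 := DD_pos e0
    have e8 := hW.pos _ e0
    have e9 : C₁ * M * W q ≤ C₁ * M * (K * W (diag z)) :=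
      mul_le_mul_of_nonneg_left e4 (by positivity)
    have e10 : 0 ≤ M * W (diag z) := by positivity
    rw [Pi.div_apply, ← DD_diag z, mul_assoc, div_mul_cancel₀ _ e7.ne', abs_of_pos (by linarith)]
    nlinarith [norm_sub_le (dz U q) (dz U (diag z))]
  have b3 := h₂ E (W / DD E) (dz U) _ hE hW.div hdz (b2.mono (by nlinarith)) o2
  refine ((B1.of_b0 b1 b3 b2).2 p h).trans_eq ?_
  ring

end Pool.Agent.Lib.MP_44acff_gt.NU
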