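import Pool.Agent.Lib.MP_44acff_gt.H70Ext
import Pool.Agent.Lib.MP_44acff_gt.H70TL
import Pool.Agent.Lib.MP_44acff_gt.H70Int

/-! The normalised Beltrami equation. -/

namespace Pool.Agent.Lib.MP_44acff_gt.NU

open Set Metric MeasureTheory Filter Topology ComplexConjugate
open scoped ContDiff

variable {E : Set ℂ} {A θ : ℝ}

namespace PairAux

variable {x y : ℂ} {p : ℂ × ℂ} {g : ℂ × ℂ → ℂ} {M : ℝ}

theorem seg_le (hθ : 0 < θ) (hθ1 : θ ≤ 1) (hp : p ∈ Tube E θ) {s : ℝ} (hs : s ∈ uIcc (0 : ℝ) 1) :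
    del E θ p ≤ del E θ (p.1, conj p.1 + s * (p.2 - conj p.1)) := by
  rw [uIcc_of_le zero_le_one] at hs
  have := mul_nonneg (sub_nonneg.2 hs.2) (norm_nonneg (p.1 - conj p.2))
  linarith [(seg_mem hθ hθ1 hp hs).1]

theorem seg_tube (hθ : 0 < θ) (hθ1 : θ ≤ 1) (hp : p ∈ Tube E θ) {s : ℝ} (hs : s ∈ uIcc (0 : ℝ) 1) :
    (p.1, conj p.1 + s * (p.2 - conj p.1)) ∈ Tube E θ :=
  lt_of_lt_of_le hp (seg_le hθ hθ1 hp hs)

theorem seg_int (hθ : 0 < θ) (hθ1 : θ ≤ 1) (hp : p ∈ Tube E θ)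
    (hg : DifferentiableOn ℂ g (Tube E θ)) :
    IntervalIntegrable (fun s : ℝ => g (p.1, conj p.1 + s * (p.2 - conj p.1))) volume 0 1 :=
  (hg.continuousOn.comp (by fun_prop) fun _ hs => seg_tube hθ hθ1 hp hs).intervalIntegrable

theorem diag_le (hE : Dom E) (hθ : 0 < θ) (h : Pair E x y) (hg : B0 E θ (Wp E x y) g M) :
    ContinuousOn (fun ζ => g (diag ζ)) Eᶜ ∧ ∀ ζ ∉ E, ‖g (diag ζ)‖ ≤ M * wr E x y ζ :=
  ⟨(contDiffOn_diag hE hθ hg.1).continuousOn, fun ζ hζ => by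
    have h1 := diag_mem hE hθ hζ
    simpa [Wp] using (hg.norm_le h1 ((adm_Wp h).pos _ h1)).1⟩

theorem seg_bound (hθ : 0 < θ) (hθ1 : θ ≤ 1) (h : Pair E x y) (hM : 0 ≤ M)
    (hg : B0 E θ (Wp E x y) g M) (hp : p ∈ Tube E θ) :
    ‖ext E x y g p - ext E x y g (diag p.1)‖ ≤ ‖p.2 - conj p.1‖ * (M * (4 * Wp E x y p)) := by
  rw [ext_diag, ext, add_sub_cancel_left, norm_mul]
  refine mul_le_mul_of_nonneg_left ?_ (norm_nonneg _)
  refine (intervalIntegral.norm_integral_le_of_norm_le_const (C := M * (4 * Wp E x y p))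
    fun s hs => ?_).trans_eq (by simp)
  have hs' := uIoc_subset_uIcc hs
  have h1 := seg_tube hθ hθ1 hp hs'
  have h2 := seg_le hθ hθ1 hp hs'
  have h3 := (seg_mem hθ hθ1 hp (uIcc_of_le (zero_le_one' ℝ) ▸ hs')).2
  have h4 : 0 < del E θ p := hp
  refine (hg.norm_le h1 ((adm_Wp h).pos _ h1)).1.trans (mul_le_mul_of_nonneg_left
    ((adm_Wp h).le p hp _ h1 ?_ (by linarith)) hM)
  nlinarith [DD_pos hp]

theorem absorb {W : ℂ × ℂ → ℝ} {a : ℝ} (ha : 0 ≤ a) (hM : 0 ≤ M) (hg : B1 E θ W g M)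
    (h : ∀ M, 0 ≤ M → B1 E θ W g M → B1 E θ W g (a + M / 2)) : B1 E θ W g (2 * a) := by
  have h1 : ∀ n : ℕ, B1 E θ W g (2 * a + M * (1 / 2) ^ n) := fun n => by
    induction n with
    | zero => exact hg.mono (by linarith)
    | succ n ih => exact (h _ (by positivity) ih).mono (le_of_eq (by ring))
  have h2 : Tendsto (fun n : ℕ => 2 * a + M * (1 / 2) ^ n) atTop (𝓝 (2 * a + M * 0)) :=
    ((tendsto_pow_atTop_nhds_zero_of_lt_one (by norm_num) (by norm_num)).const_mul M).const_add _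
  rw [mul_zero, add_zero] at h2
  exact ⟨hg.1, fun p hp => ge_of_tendsto' h2 fun n => (h1 n).2 p hp⟩

theorem const_le (h : Pair E x y) (a : ℂ) : B1 E θ (Wp E x y) (fun _ => a) (2 * ‖a‖) :=
  (B1.const a).weight (fun _ hp => Wj_pos 0 hp) (adm_Wp h).pos fun p hp => by
    rw [Wj_zero]
    linarith [Wp_ge h hp]

end PairAux

open PairAux

theorem ext_congr (hE : Dom E) (hθ : 0 < θ) (hθ1 : θ ≤ 1) {x y : ℂ} {g g' : ℂ × ℂ → ℂ}
    (h : EqOn g g' (Tube E θ)) :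
    EqOn (ext E x y g) (ext E x y g') (Tube E θ) ∧
      ∀ z, ext E x y g (diag z) = ext E x y g' (diag z) := by
  have h1 : ∀ z, cau E x y (fun ζ => g (diag ζ)) z = cau E x y (fun ζ => g' (diag ζ)) z := by
    intro z
    rw [cau, cau, setIntegral_congr_fun hE.closed.measurableSet.compl]
    exact fun ζ hζ => by simp only [h (diag_mem hE hθ hζ)]
  refine ⟨fun p hp => ?_, fun z => by rw [ext_diag, ext_diag, h1]⟩
  rw [ext, ext, h1, intervalIntegral.integral_congr fun s hs => h (seg_tube hθ hθ1 hp hs)]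

theorem ext_smul (x y c : ℂ) (g : ℂ × ℂ → ℂ) : ext E x y (c • g) = c • ext E x y g := by
  funext p
  simp only [ext, cau, Pi.smul_apply, smul_eq_mul, mul_assoc, integral_const_mul,
    intervalIntegral.integral_const_mul]
  ring

theorem ext_sub (hE : Dom E) (hA : MeasCond E A) (hθ : 0 < θ) (hθ1 : θ ≤ 1) {x y : ℂ}
    (h : Pair E x y) {g g' : ℂ × ℂ → ℂ} {M M' : ℝ} (hM : 0 ≤ M) (hM' : 0 ≤ M')
    (hg : B0 E θ (Wp E x y) g M) (hg' : B0 E θ (Wp E x y) g' M') :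
    EqOn (ext E x y (g - g')) (ext E x y g - ext E x y g') (Tube E θ) := by
  obtain ⟨C, -, hC⟩ := cau_est hE hA
  intro p hp
  have h1 := diag_le hE hθ h hg
  have h2 := diag_le hE hθ h hg'
  simp only [ext, cau, Pi.sub_apply, sub_mul]
  rw [integral_sub ((hC x y _ M h hM h1.1 h1.2).1 _) ((hC x y _ M' h hM' h2.1 h2.2).1 _),
    intervalIntegral.integral_sub (seg_int hθ hθ1 hp hg.1) (seg_int hθ hθ1 hp hg'.1)]
  ring

theorem ext_bound (hE : Dom E) (hA : MeasCond E A) (hθ : 0 < θ) (hθ1 : θ ≤ 1) : ∃ C > 0,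
    ∀ (x y : ℂ) (g : ℂ × ℂ → ℂ) (M : ℝ), Pair E x y → 0 ≤ M → B1 E θ (Wp E x y) g M →
      B1 E θ (Wp E x y) (dz (ext E x y g)) (C * M) ∧
      ∀ p ∈ Tube E θ, ‖ext E x y g p - ext E x y g (diag p.1)‖ ≤ C * M * Wp E x y p * DD E p := by
  obtain ⟨C, hC0, hC⟩ := cau_est hE hA
  obtain ⟨C', hC0', hC'⟩ := tl1 hθ hθ1 4
  refine ⟨C' * (C + 4) + 4, by positivity, fun x y g M h hM hg => ⟨?_, fun p hp => ?_⟩⟩
  · have hb := hg.b0 (adm_Wp h).pos
    have h1 := diag_le hE hθ h hb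
    have h2 := ext_holo hE hA hθ hθ1 h hM hg.1 h1.2
    refine (hC' E _ _ ((C + 4) * M) hE (adm_Wp h) h2.1
      ((hg.congr h2.2.symm).mono (by nlinarith)) fun z hz p hp => ?_).mono (by nlinarith)
    have hz' := diag_mem hE hθ hz
    have hd : 0 < infDist z E := by simpa using DD_pos hz'
    have hd' : θ * infDist z E ≤ infDist z E := mul_le_of_le_one_left hd.le hθ1
    rw [mem_ball_iff_norm] at hp
    have h3 := del_sub_le (E := E) hθ hθ1 (diag z) p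
    have h4 := norm_mid_sub (diag z) p
    have h5 : ‖p.1 - z‖ ≤ ‖p - diag z‖ := norm_fst_le (p - diag z)
    have h6 : ‖p.2 - conj z‖ ≤ ‖p - diag z‖ := norm_snd_le (p - diag z)
    have h7 : ‖p.2 - conj p.1‖ ≤ ‖p.2 - conj z‖ + ‖p.1 - z‖ := by
      rw [← RCLike.norm_conj (p.1 - z), map_sub]
      exact norm_sub_le_norm_sub_add_norm_sub _ _ _ |>.trans (by rw [norm_sub_rev (conj z)])
    rw [del_diag] at h3
    have hp' : p ∈ Tube E θ := show 0 < del E θ p by nlinarith [mul_pos hθ hd]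
    have h8 := (adm_Wp h).le _ hz' p hp' (by rw [DD_diag]; linarith)
      (by rw [del_diag]; nlinarith [mul_pos hθ hd])
    have h9 := (seg_bound hθ hθ1 h hM hb hp').trans (mul_le_mul (show _ ≤ infDist z E / 4 by linarith)
      (mul_le_mul_of_nonneg_left (mul_le_mul_of_nonneg_left h8 (by norm_num)) hM)
      (mul_nonneg hM (by linarith [(adm_Wp h).pos p hp'])) (by positivity))
    have h10 := (hC x y _ M h hM h1.1 h1.2).2.2 z hz p.1 (by linarith)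
    rw [← ext_diag, ← ext_diag, ← mid_diag z, ← Wp, mid_diag] at h10
    refine (norm_sub_le_norm_sub_add_norm_sub _ (ext E x y g (diag p.1)) _).trans ?_
    linarith
  · have h1 : ‖p.2 - conj p.1‖ ≤ DD E p := by
      have h2 : 0 < θ * DD E p - ‖p.1 - conj p.2‖ := hp
      rw [← RCLike.norm_conj, map_sub, Complex.conj_conj, norm_sub_rev]
      nlinarith [DD_pos hp]
    have h2 := (adm_Wp h).pos p hp
    have h3 := DD_pos hp
    refine (seg_bound hθ hθ1 h hM (hg.b0 (adm_Wp h).pos) hp).trans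
      ((mul_le_mul_of_nonneg_right h1 (by positivity)).trans ?_)
    have : 0 ≤ C' * (C + 4) * M * Wp E x y p * DD E p := by positivity
    linarith

/-- The equation `g = μ (a + ∂ (ext g))`. -/
def Eqn (E : Set ℂ) (θ : ℝ) (x y : ℂ) (μ : ℂ × ℂ → ℂ) (a : ℂ) (g : ℂ × ℂ → ℂ) : Prop :=
  ∀ p ∈ Tube E θ, g p = μ p * (a + dz (ext E x y g) p)

theorem pair_sol (hE : Dom E) (hA : MeasCond E A) (hθ : 0 < θ) (hθ1 : θ ≤ 1) :
    ∃ η₁ > 0, ∃ C > 0, ∀ x y : ℂ, Pair E x y →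
      (∀ μ η, 0 ≤ η → η ≤ η₁ → B1 E θ (Wj E 0) μ η →
        ∃ g, B1 E θ (Wp E x y) g (C * η) ∧ Eqn E θ x y μ 1 g) ∧
      ∀ μ μ' g g' a M L, 0 ≤ L → 0 ≤ M → P1 E θ 0 μ μ' η₁ L → B1 E θ (Wp E x y) g M →
        B1 E θ (Wp E x y) g' M → Eqn E θ x y μ a g → Eqn E θ x y μ' a g' →
        B1 E θ (Wp E x y) (g - g') (C * ‖a‖ * L) := by
  obtain ⟨C, hC0, hC⟩ := ext_bound hE hA hθ hθ1
  obtain ⟨η₁, h0, e⟩ : ∃ η₁ > 0, η₁ * C = 1 / 2 := ⟨1 / (2 * C), by positivity, by field_simp⟩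
  refine ⟨η₁, h0, 8, by norm_num, fun x y h => ?_⟩
  have hW := (adm_Wp (θ := θ) h).pos
  have h1 : ∀ {μ g η M} (a : ℂ), 0 ≤ M → B1 E θ (Wj E 0) μ η → B1 E θ (Wp E x y) g M →
      B1 E θ (Wp E x y) (μ * ((fun _ => a) + dz (ext E x y g))) (η * (2 * ‖a‖ + C * M)) :=
    fun a hM hμ hg => hμ.mul_left ((const_le h a).add (hC x y _ _ h hM hg).1 hW) hW
  have h2 : ∀ {g g' M M'}, 0 ≤ M → 0 ≤ M' → B1 E θ (Wp E x y) g M → B1 E θ (Wp E x y) g' M' →
      ∀ p ∈ Tube E θ, dz (ext E x y (g - g')) p = dz (ext E x y g) p - dz (ext E x y g') p := by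
    intro g g' M M' hM hM' hg hg' p hp
    have h3 := (isOpen_tube E θ).mem_nhds hp
    rw [dz_congr (isOpen_tube E θ) (ext_sub hE hA hθ hθ1 h hM hM' (hg.b0 hW) (hg'.b0 hW)) hp]
    exact dz_sub ((ext_holo hE hA hθ hθ1 h hM hg.1
      (diag_le hE hθ h (hg.b0 hW)).2).1.differentiableAt h3) ((ext_holo hE hA hθ hθ1 h hM' hg'.1
        (diag_le hE hθ h (hg'.b0 hW)).2).1.differentiableAt h3)
  refine ⟨fun μ η hη hη₁ hμ => ?_, fun μ μ' g g' a M L hL hM hμ hg hg' he he' => ?_⟩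
  · have h3 : η * C ≤ 1 / 2 := e ▸ mul_le_mul_of_nonneg_right hη₁ hC0.le
    have hr : 0 ≤ 4 * η := by positivity
    obtain ⟨g, -, hg, he⟩ := fixed_point hθ hθ1 (adm_Wp h) hr univ trivial (fun _ _ _ => trivial)
      (fun g => μ * ((fun _ => 1) + dz (ext E x y g)))
      (fun g _ hg => ⟨trivial, (h1 1 hr hμ hg).mono (by rw [norm_one]; nlinarith)⟩)
      fun g _ g' _ L hL hg hg' hd => ((hμ.mul_left (hC x y _ _ h hL hd).1 hW).congr fun p hp => by
        simp only [Pi.mul_apply, Pi.sub_apply, Pi.add_apply, h2 hr hr hg hg' p hp]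
        ring).mono (by nlinarith)
    exact ⟨g, hg.mono (by linarith), fun p hp => (he hp).symm⟩
  · have h3 := absorb (a := 2 * η₁ * ‖a‖) (by positivity) hM hg fun M hM hg =>
      ((h1 a hM hμ.1 hg).congr fun p hp => (he p hp).symm).mono
        (le_of_eq (by linear_combination M * e))
    refine (absorb (a := 4 * ‖a‖ * L) (by positivity) (add_nonneg hM hM) (hg.sub hg' hW)
      fun N hN hd => ?_).mono (le_of_eq (by ring))
    refine (((h1 a (by positivity) hμ.2.2 h3).add (hμ.2.1.mul_left (hC x y _ _ h hN hd).1 hW)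
      hW).congr fun p hp => ?_).mono (le_of_eq (by linear_combination (4 * L * ‖a‖ + N) * e))
    simp only [Pi.mul_apply, Pi.sub_apply, Pi.add_apply, h2 hM hM hg hg' p hp]
    rw [he p hp, he' p hp]
    ring

end Pool.Agent.Lib.MP_44acff_gt.NU
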