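import Pool.Agent.Lib.MP_44acff_gt.H70TL

/-! The regularity lemma. -/

namespace Pool.Agent.Lib.MP_44acff_gt.NU

open Set Metric MeasureTheory Filter Topology ComplexConjugate
open scoped ContDiff

variable {θ : ℝ}

namespace RLAux

/-- The auxiliary weights. -/
noncomputable def Wa (E : Set ℂ) (θ a : ℝ) (p : ℂ × ℂ) : ℝ := max (DD E p)⁻¹ (a / del E θ p)

variable {E : Set ℂ} {a M : ℝ} {p q : ℂ × ℂ}

theorem Wa_pos (hp : p ∈ Tube E θ) : 0 < Wa E θ a p :=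
  (inv_pos.2 (DD_pos hp)).trans_le (le_max_left _ _)

theorem Wa_sig (p : ℂ × ℂ) : Wa E θ a (sig p) = Wa E θ a p := by simp [Wa]

theorem Wd_pos (hp : p ∈ Tube E θ) : 0 < (Wa E θ a / DD E) p := div_pos (Wa_pos hp) (DD_pos hp)

theorem Wd_sig (p : ℂ × ℂ) : (Wa E θ a / DD E) (sig p) = (Wa E θ a / DD E) p := by
  simp [Wa]

theorem Wj_neg_one (p : ℂ × ℂ) : Wj E (-1) p = (DD E p)⁻¹ := zpow_neg_one _

theorem Wj_le (p : ℂ × ℂ) : Wj E (-1) p ≤ 1 * Wa E θ a p := by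
  rw [one_mul, Wj_neg_one]
  exact le_max_left _ _

theorem Wj_le' (hp : p ∈ Tube E θ) : Wj E (-2) p ≤ 1 * (Wa E θ a / DD E) p := by
  rw [one_mul, show (-2 : ℤ) = -1 - 1 by norm_num, ← Wj_div _ hp]
  exact div_le_div_of_nonneg_right ((Wj_le p).trans_eq (one_mul _)) (DD_pos hp).le

theorem adm_Wa (ha : 0 < a) : Adm E θ (Wa E θ a) 2 := by
  refine ⟨fun p hp => Wa_pos hp, fun p hp q _ h1 h2 => max_le ?_ ?_⟩
  · have h3 := (abs_le.1 (abs_DD_sub (E := E) p q)).1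
    have hD := DD_pos hp
    refine (inv_anti₀ (half_pos hD) (by linarith)).trans ?_
    rw [inv_div, div_eq_mul_inv]
    exact mul_le_mul_of_nonneg_left (le_max_left _ _) zero_le_two
  · have hd : 0 < del E θ p := hp
    refine (div_le_div_of_nonneg_left ha.le (half_pos hd) h2).trans ?_
    rw [div_div_eq_mul_div, mul_comm, mul_div_assoc]
    exact mul_le_mul_of_nonneg_left (le_max_right _ _) zero_le_two

theorem del_le_DD (hθ1 : θ ≤ 1) (hp : p ∈ Tube E θ) : del E θ p ≤ DD E p :=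
  (del_le p).trans (mul_le_of_le_one_left (DD_pos hp).le hθ1)

theorem near (hθ : 0 < θ) (hθ1 : θ ≤ 1) (hp : p ∈ Tube E θ) (hq : q ∈ ball p (del E θ p / 6)) :
    q ∈ Tube E θ ∧ DD E p / 2 ≤ DD E q ∧ aw E θ p / 2 ≤ aw E θ q := by
  have hd : 0 < del E θ p := hp
  have hD := DD_pos hp
  have h1 := mem_ball_iff_norm.1 hq
  have h2 := del_sub_le (E := E) hθ hθ1 p q
  have h3 := (abs_le.1 ((abs_DD_sub (E := E) p q).trans (norm_mid_sub p q))).1
  have h4 := del_le_DD hθ1 hp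
  have h5 : DD E p / 2 ≤ DD E q := by linarith
  refine ⟨show 0 < del E θ q by linarith, h5, Real.le_sqrt_of_sq_le ?_⟩
  rw [div_pow, aw, Real.sq_sqrt (by positivity)]
  have := mul_le_mul h5 (show del E θ p / 2 ≤ del E θ q by linarith) (half_pos hd).le
    ((half_pos hD).le.trans h5)
  linarith

theorem apriori (hθ : 0 < θ) (hθ1 : θ ≤ 1) (ha : 0 < a) (hM : 0 ≤ M) {F : ℂ × ℂ → ℂ}
    (hF : DifferentiableOn ℂ F (Tube E θ))
    (h : ∀ p ∈ Tube E θ, ‖F p‖ ≤ M * Wj E (-1) p / aw E θ p) :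
    B0 E θ (Wa E θ a / DD E) F (3 * (48 * M / a)) := by
  refine B0.of_le hF (fun p hp => Wd_pos hp) fun p hp => ?_
  have hd : 0 < del E θ p := hp
  have hD := DD_pos hp
  have hw := aw_pos hp
  have h1 : 48 * M / (del E θ p * DD E p) ≤ 48 * M / a * (Wa E θ a / DD E) p := by
    have e : 48 * M / (del E θ p * DD E p) = 48 * M / a * (a / del E θ p / DD E p) := by
      field_simp
    rw [e]
    exact mul_le_mul_of_nonneg_left (div_le_div_of_nonneg_right (le_max_right _ _) hD.le)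
      (by positivity)
  have h2 : del E θ p ≤ aw E θ p := Real.le_sqrt_of_sq_le (by
    rw [sq]
    exact mul_le_mul_of_nonneg_right (del_le_DD hθ1 hp) hd.le)
  have h3 := cauchy_est (c := 0) (M := 4 * M / (DD E p * aw E θ p))
    (show 0 < del E θ p / 6 by positivity) (hF.mono fun q hq => (near hθ hθ1 hp hq).1)
    fun q hq => by
      obtain ⟨a1, a2, a3⟩ := near hθ hθ1 hp hq
      have e : 4 * M / (DD E p * aw E θ p) = M * (DD E p / 2)⁻¹ / (aw E θ p / 2) := by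
        field_simp
        ring
      rw [sub_zero, e]
      refine (h q a1).trans ?_
      rw [Wj_neg_one]
      gcongr
  have h4 : 2 * (4 * M / (DD E p * aw E θ p)) / (del E θ p / 6) ≤
      48 * M / a * (Wa E θ a / DD E) p / aw E θ p := by
    refine le_trans (le_of_eq ?_) (div_le_div_of_nonneg_right h1 hw.le)
    field_simp
    ring
  refine ⟨(h p hp).trans (le_trans ?_ h1), h3.1.trans h4, h3.2.trans h4⟩
  have e : 48 * M / (del E θ p * DD E p) = 48 * M * (DD E p)⁻¹ / del E θ p := by field_simp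
  rw [e, Wj_neg_one]
  gcongr
  linarith

theorem absorb {W : ℂ × ℂ → ℝ} {F : ℂ × ℂ → ℂ} {A N₀ : ℝ} (hW : ∀ p ∈ Tube E θ, 0 < W p)
    (h0 : B1 E θ W F N₀) (h : ∀ N, 0 ≤ N → B1 E θ W F N → B1 E θ W F (A + N / 2)) :
    B1 E θ W F (2 * A) := by
  refine ⟨h0.1, fun p hp => ?_⟩
  have hb : BddAbove (n1 E θ W F '' Tube E θ) := ⟨N₀, by
    rintro _ ⟨q, hq, rfl⟩
    exact h0.2 q hq⟩
  have h1 : B1 E θ W F (sSup (n1 E θ W F '' Tube E θ)) :=
    ⟨h0.1, fun q hq => le_csSup hb ⟨q, hq, rfl⟩⟩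
  have h2 := h _ ((n1_nonneg hp (hW p hp)).trans (h1.2 p hp)) h1
  have h3 : sSup (n1 E θ W F '' Tube E θ) ≤ A + sSup (n1 E θ W F '' Tube E θ) / 2 :=
    csSup_le ⟨_, p, hp, rfl⟩ (by
      rintro _ ⟨q, hq, rfl⟩
      exact h2.2 q hq)
  linarith [h1.2 p hp]

theorem osc (hθ : 0 < θ) (hθ1 : θ ≤ 1) (hE : Dom E) (hM : 0 ≤ M) {U : ℂ × ℂ → ℂ}
    (hU : B0 E θ (Wj E (-1)) U M) {M' : ℝ} (h : 3 * M ≤ M') :
    Osc E θ (Wa E θ a / DD E) U M' := by
  intro z hz p hp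
  have h0 := diag_mem hE hθ hz
  have hd : 0 < infDist z E := DD_diag (E := E) z ▸ DD_pos h0
  have h1 := mem_ball_iff_norm.1 hp
  have h2 := del_sub_le (E := E) hθ hθ1 (diag z) p
  have h3 := (abs_le.1 ((abs_DD_sub (E := E) (diag z) p).trans (norm_mid_sub (diag z) p))).1
  rw [del_diag] at h2
  rw [DD_diag] at h3
  have h4 := mul_pos hθ hd
  have h5 := mul_le_of_le_one_left hd.le hθ1
  have hp' : p ∈ Tube E θ := show 0 < del E θ p by linarith
  have h6 := (hU.norm_le hp' (Wj_pos _ hp')).1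
  have h7 := (hU.norm_le h0 (Wj_pos _ h0)).1
  rw [Wj_neg_one] at h6 h7
  rw [DD_diag] at h7
  have h8 : (DD E p)⁻¹ ≤ 2 * (infDist z E)⁻¹ := by
    refine (inv_anti₀ (half_pos hd) (by linarith)).trans_eq ?_
    rw [inv_div, div_eq_mul_inv]
  have h9 : (infDist z E)⁻¹ ≤ Wa E θ a (diag z) := DD_diag (E := E) z ▸ le_max_left _ _
  rw [Pi.div_apply, DD_diag, mul_assoc, div_mul_cancel₀ _ hd.ne']
  have h10 := mul_le_mul h h9 (inv_pos.2 hd).le (by linarith)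
  have h11 := mul_le_mul_of_nonneg_left h8 hM
  linarith [norm_sub_le (U p) (U (diag z))]

end RLAux

open RLAux

theorem rl (hθ : 0 < θ) (hθ1 : θ ≤ 1) : ∃ C > 0, ∃ η > 0, ∀ (E : Set ℂ)
    (P α₁ α₂ Y G : ℂ × ℂ → ℂ) (M : ℝ), Dom E → B0 E θ (Wj E (-1)) P M →
      B1 E θ (Wj E 0) α₁ η → B1 E θ (Wj E 0) α₂ η → B1 E θ (Wj E (-1)) Y M →
      B0 E θ (Wj E (-2)) G M →
      (∀ p ∈ Tube E θ, dz P p = G p - dz (α₁ * st P + α₂ * P + Y) p -
        dw (st (α₁ * st P + α₂ * P + Y)) p) →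
      B1 E θ (Wj E (-1)) P (C * M) := by
  obtain ⟨C, hC, tl⟩ := tl0 hθ hθ1 (2 * 2)
  refine ⟨2 * (4 + 3 * C), by positivity, 1 / (8 * (C + 1)), by positivity,
    fun E P α₁ α₂ Y G M hE hP h1 h2 hY hG he => ⟨hP.1, fun p hp => ?_⟩⟩
  have hM : 0 ≤ M := (n0_nonneg (Wj_pos _ hp)).trans (hP.2 p hp)
  have hd : 0 < del E θ p := hp
  have hD := DD_pos hp
  have ha : 0 < del E θ p / DD E p := div_pos hd hD
  have e : Wj E (-1) p = Wa E θ (del E θ p / DD E p) p := by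
    rw [Wj_neg_one, Wa, div_right_comm, div_self hd.ne', one_div, max_self]
  rw [n1_congr hp (fun _ _ => rfl) e, mul_assoc]
  generalize del E θ p / DD E p = a at ha
  have hW : ∀ q ∈ Tube E θ, 0 < Wa E θ a q := fun q hq => Wa_pos hq
  have hW' : ∀ q ∈ Tube E θ, 0 < (Wa E θ a / DD E) q := fun q hq => Wd_pos hq
  have hP0 := hP.weight (fun q hq => Wj_pos _ hq) hW fun q _ => Wj_le q
  refine (absorb hW (B1.of_b0 hP0
    (apriori hθ hθ1 ha hM (holo_dz (isOpen_tube E θ) hP.1)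
      fun q hq => (hP.norm_le hq (Wj_pos _ hq)).2.1)
    (apriori hθ hθ1 ha hM (holo_dw (isOpen_tube E θ) hP.1)
      fun q hq => (hP.norm_le hq (Wj_pos _ hq)).2.2)) fun N hN hPN => ?_).2 p hp
  have hU := ((h1.mul_left (hPN.st Wa_sig) hW).add (h2.mul_left hPN hW) hW).add
    (hY.weight (fun q hq => Wj_pos _ hq) hW fun q _ => Wj_le q) hW
  have hz := (((hG.weight (fun q hq => Wj_pos _ hq) hW' fun q hq => Wj_le' hq).sub (hU.dz hW)
    hW').sub ((hU.st Wa_sig).dw hW) hW').congr (G := dz P) fun q hq => (he q hq).symm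
  have hη : 0 ≤ 1 / (8 * (C + 1)) * N := by positivity
  have hw := tl E _ (st P) _ hE (adm_Wa ha).div (holo_st hP.1) (dw_st P ▸ hz.st Wd_sig)
    (osc hθ hθ1 hE hM (hP.st (Wj_sig _)) (by linarith))
  rw [dz_st] at hw
  have hw' := hw.st Wd_sig
  rw [st_st] at hw'
  refine (B1.of_b0 hP0 hz hw').mono (le_of_eq ?_)
  field_simp
  ring

end Pool.Agent.Lib.MP_44acff_gt.NU
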