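import Pool.Agent.Lib.MP_44acff_gt.H70SolveA
import Pool.Agent.Lib.MP_44acff_gt.H70Id

/-! The slope as a function of the unknown, and one step of the iteration. -/

namespace Pool.Agent.Lib.MP_44acff_gt.NU

open Set Metric MeasureTheory Filter Topology ComplexConjugate
open scoped ContDiff

namespace SolveAux

variable {E : Set ℂ} {θ e a L ε C R : ℝ} {k k' ρ P P' Z Z' : ℂ × ℂ → ℂ} {lam : ℂ → ℝ}
  {c : (ℂ × ℂ → ℂ) → ℂ × ℂ → ℂ}

/-- The quotient `-k / c`. -/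
noncomputable def pp (ρ P : ℂ × ℂ → ℂ) : ℂ × ℂ → ℂ := (P - dw ρ / ρ) * ρ⁻¹

/-- The quantity `n / c ^ 2`. -/
noncomputable def xx (e : ℝ) (ρ P : ℂ × ℂ → ℂ) : ℂ × ℂ → ℂ := (e : ℂ) • (pp ρ P * st (pp ρ P))

/-- The slope. -/
noncomputable def kk (c : (ℂ × ℂ → ℂ) → ℂ × ℂ → ℂ) (e : ℝ) (ρ P : ℂ × ℂ → ℂ) : ℂ × ℂ → ℂ :=
  -(pp ρ P * c (xx e ρ P))

/-- The properties of the solution of the quadratic equation. -/
def Cat (E : Set ℂ) (θ : ℝ) (c : (ℂ × ℂ → ℂ) → ℂ × ℂ → ℂ) : Prop :=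
  (∀ x, B1 E θ (Wj E 0) x (1 / 10) → EqOn (c x) (1 + x * c x * c x) (Tube E θ) ∧
      B1 E θ (Wj E 0) (c x - 1) (1 / 2) ∧
      (EqOn (st x) x (Tube E θ) → EqOn (st (c x)) (c x) (Tube E θ))) ∧
    ∀ x x' L, P1 E θ 0 x x' (1 / 10) L → P1 E θ 0 (c x) (c x') 2 (4 * L)

/-- The closedness condition. -/
def VV (E : Set ℂ) (θ : ℝ) : Set (ℂ × ℂ → ℂ) := {F | ∀ p ∈ Tube E θ, dz F p = dw (st F) p}

theorem dAt {F : ℂ × ℂ → ℂ} {p : ℂ × ℂ} (h : DifferentiableOn ℂ F (Tube E θ))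
    (hp : p ∈ Tube E θ) : DifferentiableAt ℂ F p :=
  h.differentiableAt ((isOpen_tube E θ).mem_nhds hp)

theorem p_pp (hρ : Rho E θ lam ρ R) (hR : 1 ≤ R) (hP : P1 E θ (-1) P P' 1 L) :
    P1 E θ 0 (pp ρ P) (pp ρ P') (2 * R ^ 2) (R * L) :=
  ((hP.sub (P1.refl hρ.bl)).mul (P1.refl hρ.binv) (by norm_num)).mono (by nlinarith)
    (le_of_eq (by ring))

theorem p_xx (hρ : Rho E θ lam ρ R) (hR : 1 ≤ R) (he : 0 < e) (hε : e * (4 * R ^ 2) ^ 2 ≤ 2 / 5)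
    (hP : P1 E θ (-1) P P' 1 L) :
    P1 E θ 0 (xx e ρ P) (xx e ρ P') (1 / 10) (4 * e * R ^ 3 * L) := by
  have h := p_pp hρ hR hP
  exact ((h.mul h.st (add_zero 0)).smul (e : ℂ)).mono (by rw [nrm he]; nlinarith)
    (le_of_eq (by rw [nrm he]; ring))

theorem slope (hc : Cat E θ c) (hρ : Rho E θ lam ρ R) (hR : 1 ≤ R) (he : 0 < e)
    (hε : e * (4 * R ^ 2) ^ 2 ≤ 2 / 5) (hL : 0 ≤ L) (hP : P1 E θ (-1) P P' 1 L) :
    KP E θ e (4 * R ^ 2) L (e * (4 * R ^ 2) ^ 2) (kk c e ρ P) (kk c e ρ P') := by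
  refine ⟨he, by nlinarith, hL, rfl, by linarith, ?_⟩
  have h1 : 0 ≤ R * L := by positivity
  have h2 : e * (4 * R ^ 2) ^ 2 * (R * L) ≤ 2 / 5 * (R * L) := mul_le_mul_of_nonneg_right hε h1
  have h3 : 1 * (R * L) ≤ R * (R * L) := mul_le_mul_of_nonneg_right hR h1
  exact ((p_pp hρ hR hP).mul (hc.2 _ _ _ (p_xx hρ hR he hε hP)) (add_zero 0)).neg.mono
    (le_of_eq (by ring)) (by nlinarith)

theorem st_nn (e : ℝ) (k : ℂ × ℂ → ℂ) : st (nn e k) = nn e k := by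
  rw [nn, st_smul, st_mul, st_st, Complex.conj_ofReal, mul_comm]

theorem rel (hc : Cat E θ c) (hρ : Rho E θ lam ρ R) (hR : 1 ≤ R) (he : 0 < e)
    (hε : e * (4 * R ^ 2) ^ 2 ≤ 2 / 5) (hP : B1 E θ (Wj E (-1)) P 1) :
    EqOn (ρ * kk c e ρ P * (1 - -nn e (kk c e ρ P))⁻¹) (dw ρ / ρ - P) (Tube E θ) := by
  intro p hp
  have hx := (p_xx hρ hR he hε (P1.refl hP)).1
  obtain ⟨h1, -, h2⟩ := hc.1 _ hx
  have h3 : st (xx e ρ P) = xx e ρ P := st_nn e (pp ρ P)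
  have h4 := h2 (fun q _ => by rw [h3]) hp
  have h5 := h1 hp
  have hk := slope hc hρ hR he hε le_rfl (P1.refl hP)
  have h6 := (hk.nn.neg.mono hk.hε1 le_rfl).1.inv.1 p hp
  have h7 : (1 - -nn e (kk c e ρ P)) p = c (xx e ρ P) p := by
    rw [h5]
    simp only [nn, kk, st_neg, st_mul, Pi.sub_apply, Pi.neg_apply, Pi.mul_apply, Pi.add_apply,
      Pi.smul_apply, Pi.one_apply, smul_eq_mul, h4]
    rw [xx]
    simp only [Pi.mul_apply, Pi.smul_apply, smul_eq_mul]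
    ring
  have h8 := hρ.ne p hp
  rw [h7] at h6
  rw [Pi.mul_apply, Pi.mul_apply, Pi.inv_apply, h7]
  simp only [kk, pp, Pi.sub_apply, Pi.neg_apply, Pi.mul_apply, Pi.inv_apply, Pi.div_apply]
  field_simp
  ring

theorem ell_mem (hρ : Rho E θ lam ρ R) : dw ρ / ρ ∈ VV E θ := by
  intro p hp
  have ho := isOpen_tube E θ
  have h1 : EqOn (st (dw ρ / ρ)) (dz ρ * ρ⁻¹) (Tube E θ) := fun q hq => by
    rw [st_div, ← dz_st, Pi.div_apply, dz_congr ho hρ.sym hq, hρ.sym hq, div_eq_mul_inv]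
    rfl
  have h2 := dAt hρ.b.1 hp
  have h3 := hρ.ne p hp
  rw [dw_congr ho h1 hp, div_eq_mul_inv, dz_mul (dAt (holo_dw ho hρ.b.1) hp) (h2.inv h3),
    dw_mul (dAt (holo_dz ho hρ.b.1) hp) (h2.inv h3), dz_inv h2 h3, dw_inv h2 h3,
    dz_dw_comm ho hρ.b.1 hp]
  ring

theorem integ (hρ : Rho E θ lam ρ R) (hP : DifferentiableOn ℂ P (Tube E θ)) (hV : P ∈ VV E θ)
    (h : EqOn (ρ * k * (1 - -nn e k)⁻¹) (dw ρ / ρ - P) (Tube E θ)) :
    ∀ p ∈ Tube E θ, dz (ρ * k * (1 - -nn e k)⁻¹) p = dw (ρ * st k * (1 - -nn e k)⁻¹) p := by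
  intro p hp
  have ho := isOpen_tube E θ
  have h1 : EqOn (ρ * st k * (1 - -nn e k)⁻¹) (st (dw ρ / ρ) - st P) (Tube E θ) := fun q hq => by
    have h2 := st_congr h hq
    rw [st_mul, st_mul, st_inv, st_sub, st_neg, st_nn, st_one, st_sub] at h2
    rw [← h2]
    simp only [Pi.mul_apply, hρ.sym hq]
  rw [dz_congr ho h hp, dw_congr ho h1 hp, dz_sub (dAt hρ.bl.1 hp) (dAt hP hp),
    dw_sub (dAt (holo_st hρ.bl.1) hp) (dAt (holo_st hP) hp), ell_mem hρ p hp, hV p hp]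

theorem zero_mem : (0 : ℂ × ℂ → ℂ) ∈ VV E θ := by
  intro p _
  have : st (0 : ℂ × ℂ → ℂ) = 0 := by funext q; simp [st]
  rw [this]
  exact (dz_const 0 p).trans (dw_const 0 p).symm

theorem closed_VV (G : ℂ × ℂ → ℂ) (hG : DifferentiableOn ℂ G (Tube E θ))
    (h : ∀ ε > 0, ∃ F ∈ VV E θ, DifferentiableOn ℂ F (Tube E θ) ∧
      B1 E θ (Wj E (-1)) (G - F) ε) : G ∈ VV E θ := by
  have h1 : EqOn (dz G - dw (st G)) 0 (Tube E θ) := by
    refine B0.eq_zero (W := Wj E (-2)) (fun ε hε => ?_) fun p hp => Wj_pos _ hp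
    obtain ⟨F, hV, hF, hb⟩ := h (ε / 2) (by positivity)
    have e1 : (-1 : ℤ) - 1 = -2 := by norm_num
    refine (((hb.dzj e1).sub ((hb.st (Wj_sig _)).dwj e1) fun p hp => Wj_pos _ hp).congr
      fun p hp => ?_).mono (le_of_eq (by ring))
    rw [Pi.sub_apply, Pi.sub_apply, st_sub, dz_sub (dAt hG hp) (dAt hF hp),
      dw_sub (dAt (holo_st hG) hp) (dAt (holo_st hF) hp), hV p hp]
    ring
  exact fun p hp => sub_eq_zero.mp (h1 hp)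

/-- The conclusion of the regularity lemma. -/
def RL (E : Set ℂ) (θ C η : ℝ) : Prop :=
  ∀ (P α₁ α₂ Y G : ℂ × ℂ → ℂ) (M : ℝ), B0 E θ (Wj E (-1)) P M →
    B1 E θ (Wj E 0) α₁ η → B1 E θ (Wj E 0) α₂ η → B1 E θ (Wj E (-1)) Y M →
    B0 E θ (Wj E (-2)) G M →
    (∀ p ∈ Tube E θ, dz P p = G p - dz (α₁ * st P + α₂ * P + Y) p -
      dw (st (α₁ * st P + α₂ * P + Y)) p) → B1 E θ (Wj E (-1)) P (C * M)

/-- The second order identity for the new unknown. -/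
def Idn (E : Set ℂ) (θ e : ℝ) (k Z l : ℂ × ℂ → ℂ) : Prop :=
  ∀ p ∈ Tube E θ, dz (newP e k Z) p = GG e k p -
    dz (al1 e k * st (newP e k Z) + al2 e k * newP e k Z + YY e k l) p -
    dw (st (al1 e k * st (newP e k Z) + al2 e k * newP e k Z + YY e k l)) p

theorem ident (hρ : Rho E θ lam ρ R) (hk : KP E θ e a L ε k k') {η : ℝ}
    (hZ : Belt E θ (-qq e k) Z η)
    (hI : ∀ p ∈ Tube E θ,
      dz (ρ * k * (1 - -nn e k)⁻¹) p = dw (ρ * st k * (1 - -nn e k)⁻¹) p) :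
    newP e k Z ∈ VV E θ ∧ Idn E θ e k Z (dw ρ / ρ) :=
  identity hk.hk.1.1 hρ.b.1 hZ.holo hρ.ne hρ.sym hZ.ne hZ.eqn
    (hk.nn.neg.mono hk.hε1 le_rfl).1.inv.1 (hk.nn.mono hk.hε1 le_rfl).1.inv.1 hI

theorem step_one {C' η : ℝ} {l : ℂ × ℂ → ℂ} (hr : RL E θ C' η) (hk : KP E θ e a 0 ε k k)
    (hη : 2 * ε ≤ η) (hC : 0 < C) (hl : B1 E θ (Wj E (-1)) l a)
    (hS : B0 E θ (Wj E (-1)) (pre Z) (C * ε)) (hI : Idn E θ e k Z l) :
    B1 E θ (Wj E (-1)) (newP e k Z) (C' * ((2 * C + 4 * a + 8) * ε)) := by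
  have h0 := hk.pos
  have h1 := hk.ha
  have h2 : 0 ≤ C * ε := by positivity
  have h3 : 0 ≤ a * ε := by positivity
  have hS' : P0 E θ (-1) (pre Z) (pre Z) (C * ε) (C * (2 * ε * 0)) := by
    refine ⟨hS, hS, ?_⟩
    rw [sub_self]
    exact (B1.zero.b0 fun p hp => Wj_pos _ hp).mono (le_of_eq (by ring))
  exact hr _ _ _ _ _ _ ((hk.newP hC hS').1.mono (by nlinarith)) (hk.al1.1.mono hη)
    (hk.al2.1.mono hη) ((hk.YY hl).1.mono (by nlinarith)) (hk.GG.1.mono (by nlinarith)) hI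

theorem step_two {C' η : ℝ} {l : ℂ × ℂ → ℂ} (hr : RL E θ C' η) (hk : KP E θ e a L ε k k')
    (hη : 2 * ε ≤ η) (hC : 0 < C) (hl : B1 E θ (Wj E (-1)) l a)
    (hS : P0 E θ (-1) (pre Z) (pre Z') (C * ε) (C * (2 * ε * L))) (hI : Idn E θ e k Z l)
    (hI' : Idn E θ e k' Z' l) (hb : B1 E θ (Wj E (-1)) (newP e k' Z') 1) :
    B1 E θ (Wj E (-1)) (newP e k Z - newP e k' Z') (C' * ((4 * C + 16 * a + 64) * (ε * L))) := by
  obtain ⟨-, h0, -⟩ := hk.sq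
  have h1 := hk.ha
  have h2 : 0 ≤ C * (ε * L) := by positivity
  have h3 : 0 ≤ a * (ε * L) := by positivity
  have hN := hk.newP hC hS
  have hW : ∀ p ∈ Tube E θ, 0 < Wj E (-1) p := fun p hp => Wj_pos _ hp
  have hY := ((hk.al1.2.2.mul_left (hb.st (Wj_sig _)) hW).add (hk.al2.2.2.mul_left hb hW) hW).add
    (hk.YY hl).2.2 hW
  refine hr _ _ _ _ _ _ (hN.2.2.mono (by nlinarith)) (hk.al1.1.mono hη) (hk.al2.1.mono hη)
    (hY.mono (by nlinarith)) (hk.GG.2.2.mono (by nlinarith)) fun p hp => ?_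
  have hU : DifferentiableOn ℂ (al1 e k * st (newP e k Z) + al2 e k * newP e k Z + YY e k l)
      (Tube E θ) :=
    ((hk.al1.1.1.mul (holo_st hN.1.1)).add (hk.al2.1.1.mul hN.1.1)).add (hk.YY hl).1.1
  have hU' : DifferentiableOn ℂ
      (al1 e k' * st (newP e k' Z') + al2 e k' * newP e k' Z' + YY e k' l) (Tube E θ) :=
    ((hk.al1.2.1.1.mul (holo_st hN.2.1.1)).add (hk.al2.2.1.1.mul hN.2.1.1)).add (hk.YY hl).2.1.1
  have hE : al1 e k * st (newP e k Z - newP e k' Z') + al2 e k * (newP e k Z - newP e k' Z') +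
      ((al1 e k - al1 e k') * st (newP e k' Z') + (al2 e k - al2 e k') * newP e k' Z' +
        (YY e k l - YY e k' l)) =
      (al1 e k * st (newP e k Z) + al2 e k * newP e k Z + YY e k l) -
        (al1 e k' * st (newP e k' Z') + al2 e k' * newP e k' Z' + YY e k' l) := by
    rw [st_sub]; ring
  rw [hE, st_sub, dz_sub (dAt hN.1.1 hp) (dAt hN.2.1.1 hp), dz_sub (dAt hU hp) (dAt hU' hp),
    dw_sub (dAt (holo_st hU) hp) (dAt (holo_st hU') hp), hI p hp, hI' p hp, Pi.sub_apply]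
  ring

end SolveAux

end Pool.Agent.Lib.MP_44acff_gt.NU
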