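import Pool.Agent.Lib.MP_44acff_gt.H70Belt
import Pool.Agent.Lib.MP_44acff_gt.H70RL
import Pool.Agent.Lib.MP_44acff_gt.H70Id
import Pool.Agent.Lib.MP_44acff_gt.H70Metric
import Pool.Agent.Lib.MP_44acff_gt.H70SolveB

/-! Solution of the isometric embedding problem. -/

namespace Pool.Agent.Lib.MP_44acff_gt.NU

open Set Metric MeasureTheory Filter Topology ComplexConjugate
open scoped ContDiff

variable {E : Set ℂ} {A θ R : ℝ} {lam : ℂ → ℝ} {ρ : ℂ × ℂ → ℂ}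

namespace SolveAux

theorem ns_mono {F : ℂ → ℂ} {η η' : ℝ} (h : NS F η) (hη : η ≤ η') : NS F η' := by
  intro x s hs
  obtain ⟨κ, h0, h1⟩ := h x s hs
  exact ⟨κ, h0, fun v hv => (h1 v hv).trans (by gcongr)⟩

theorem sol_of {e a ε η η' : ℝ} {k Z : ℂ × ℂ → ℂ} (hE : Dom E) (hθ : 0 < θ)
    (hρ : Rho E θ lam ρ R) (hR : 1 ≤ R) (hRa : R ≤ a) (hk : KP E θ e a 0 ε k k)
    (hZ : Belt E θ (-qq e k) Z η') (h1 : η' ≤ 1) (h2 : η' ≤ η) (h3 : 64 * ε ≤ η)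
    (hP : ∀ p ∈ Tube E θ, newP e k Z p = (dw ρ / ρ) p - (ρ * k * (1 - -nn e k)⁻¹) p) :
    Sol E θ lam e η Z (Th e k Z ρ) := by
  obtain ⟨m1, m2, m3, m4⟩ := metric_id hE hθ hk.he hk.hk.1.1 hρ.b.1 hZ.holo hρ.ne hρ.sym hρ.diag
    hZ.ne hZ.eqn (hk.nn.neg.mono hk.hε1 le_rfl).1.inv.1 hP
  refine ⟨hZ.holo, m1, m2, ns_mono hZ.ns h2, fun x hx => ?_, m3, m4⟩
  obtain ⟨b, hb, h⟩ := hZ.loc x hx
  have hd : 0 ≤ infDist x E := infDist_nonneg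
  refine ⟨b, hb, fun p hp hm => ⟨(h p hp hm).2.trans (by gcongr), ?_⟩⟩
  have hU : ∀ q ∈ Tube E θ, ‖mid q - x‖ ≤ infDist x E / 2 → ‖dz Z q‖ ≤ 2 * ‖b‖ := fun q hq hm' => by
    have h4 := (h q hq hm').1
    have h5 := norm_sub_norm_le (dz Z q) b
    have h6 : η' * ‖b‖ ≤ 1 * ‖b‖ := by gcongr
    linarith
  have u1 := hU p hp hm
  have u2 : ‖st (dz Z) p‖ ≤ 2 * ‖b‖ := by
    rw [st, Complex.norm_conj]
    exact hU _ (sig_mem hp) (by rwa [mid_sig])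
  have u3 : ‖(1 + nn e k) p‖ ≤ 2 := by
    have h4 := ((hk.nn.1.b0 fun q hq => Wj_pos _ hq).norm_le hp (Wj_pos _ hp)).1
    rw [Wj_zero] at h4
    have h5 := norm_add_le (1 : ℂ) (nn e k p)
    have h6 := hk.hε1
    rw [norm_one] at h5
    rw [Pi.add_apply, Pi.one_apply]
    linarith
  have u4 : ‖ρ⁻¹ p‖ ≤ 2 * a * infDist x E := by
    have h4 := ((hρ.binv.b0 fun q hq => Wj_pos _ hq).norm_le hp (Wj_pos _ hp)).1
    rw [Wj, zpow_one] at h4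
    have h5 := abs_DD_sub (E := E) (diag x) p
    rw [DD_diag, mid_diag] at h5
    have h6 : DD E p ≤ 2 * infDist x E := by linarith [(abs_le.mp h5).2]
    have h7 : R * DD E p ≤ a * (2 * infDist x E) :=
      mul_le_mul hRa h6 (DD_pos hp).le (by linarith)
    linarith
  have he := hk.he
  have ha := hk.ha
  have u5 : ‖Th e k Z ρ p‖ ≤ 2 * ‖b‖ * (2 * ‖b‖) * (2 * 2) *
      (2 * a * infDist x E * (2 * a * infDist x E)) := by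
    simp only [Th, Pi.mul_apply, norm_mul]
    gcongr
  calc e * ‖Th e k Z ρ p‖ ≤ e * (2 * ‖b‖ * (2 * ‖b‖) * (2 * 2) *
      (2 * a * infDist x E * (2 * a * infDist x E))) := by gcongr
    _ = 64 * ε * (‖b‖ * infDist x E) ^ 2 := by rw [← hk.hε]; ring
    _ ≤ _ := by gcongr

theorem solve' (hE : Dom E) (hA : MeasCond E A) (hθ : 0 < θ) (hθ1 : θ ≤ 1)
    (hρ : Rho E θ lam ρ R) (hR : 1 ≤ R) {η : ℝ} (hη : 0 < η) :
    ∃ e₀ > 0, ∀ e, 0 < e → e < e₀ → ∃ Z Θ, Sol E θ lam e η Z Θ := by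
  obtain ⟨η₁, hη₁, C, hC, ZZ, hZ, hZ'⟩ := beltrami hE hA hθ hθ1
  obtain ⟨C', hC', η₂, hη₂, hr⟩ := rl hθ hθ1
  obtain ⟨c, hc⟩ : ∃ c, Cat E θ c := exists_cat hθ hθ1
  have hr' : RL E θ C' η₂ := fun P α₁ α₂ Y G M => hr E P α₁ α₂ Y G M hE
  set a := 4 * R ^ 2 with ha
  have ha1 : 1 ≤ a := by nlinarith
  have hRa : R ≤ a := by nlinarith
  have hsm : ∀ᶠ ε in 𝓝[>] (0 : ℝ), ε ≤ 2 / 5 ∧ ε ≤ η₁ ∧ 2 * ε ≤ η₂ ∧ C * ε ≤ 1 ∧ C * ε ≤ η ∧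
      64 * ε ≤ η ∧ C' * ((4 * C + 16 * a + 64) * ε) ≤ 1 / 2 := by
    have key : ∀ u v : ℝ, 0 < v → ∀ᶠ ε in 𝓝[>] (0 : ℝ), u * ε ≤ v := fun u v hv => by
      have h1 : Tendsto (fun ε : ℝ => u * ε) (𝓝 0) (𝓝 0) := by
        simpa using (tendsto_id (x := 𝓝 (0 : ℝ))).const_mul u
      exact (h1.eventually (ge_mem_nhds hv)).filter_mono nhdsWithin_le_nhds
    filter_upwards [key 1 (2 / 5) (by norm_num), key 1 η₁ hη₁, key 2 η₂ hη₂, key C 1 one_pos,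
      key C η hη, key 64 η hη, key (C' * (4 * C + 16 * a + 64)) (1 / 2) (by norm_num)]
      with ε h1 h2 h3 h4 h5 h6 h7
    exact ⟨by linarith, by linarith, h3, h4, h5, h6, by linarith⟩
  obtain ⟨ε₀, hε₀, hsm⟩ := (mem_nhdsGT_iff_exists_Ioo_subset).mp hsm
  have hε₀' : 0 < ε₀ := hε₀
  refine ⟨ε₀ / a ^ 2, by positivity, fun e he he' => ?_⟩
  have hε : 0 < e * a ^ 2 := by positivity
  obtain ⟨s1, s2, s3, s4, s5, s6, s7⟩ := hsm ⟨hε, (lt_div_iff₀ (by positivity)).mp he'⟩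
  have hl : B1 E θ (Wj E (-1)) (dw ρ / ρ) a := hρ.bl.mono hRa
  have hK : ∀ P, B1 E θ (Wj E (-1)) P 1 →
      KP E θ e a 0 (e * a ^ 2) (kk c e ρ P) (kk c e ρ P) := fun P hP =>
    slope hc hρ hR he s1 le_rfl (P1.refl hP)
  have hB : ∀ P, B1 E θ (Wj E (-1)) P 1 → Belt E θ (-qq e (kk c e ρ P))
      (ZZ (-qq e (kk c e ρ P))) (C * (e * a ^ 2)) := fun P hP =>
    hZ _ _ hε.le s2 (hK P hP).qq.neg.1
  have hI := fun P (hV : P ∈ VV E θ) (hP : B1 E θ (Wj E (-1)) P 1) =>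
    ident hρ (hK P hP) (hB P hP) (integ hρ hP.1 hV (rel hc hρ hR he s1 hP))
  have hT : ∀ P ∈ VV E θ, B1 E θ (Wj E (-1)) P 1 → B1 E θ (Wj E (-1))
      (newP e (kk c e ρ P) (ZZ (-qq e (kk c e ρ P)))) 1 := fun P hV hP => by
    refine (step_one hr' (hK P hP) s3 hC hl (hB P hP).bd (hI P hV hP).2).mono ?_
    have h1 : C' * ((2 * C + 4 * a + 8) * (e * a ^ 2)) ≤
        C' * ((4 * C + 16 * a + 64) * (e * a ^ 2)) := by gcongr <;> linarith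
    linarith
  obtain ⟨P, hV, hP, hfix⟩ := fixed_point hθ hθ1 (adm_Wj (E := E) (-1)) zero_le_one (VV E θ)
    zero_mem closed_VV (fun P => newP e (kk c e ρ P) (ZZ (-qq e (kk c e ρ P))))
    (fun P hV hP => ⟨(hI P hV hP).1, hT P hV hP⟩) (fun P hV P' hV' L hL hP hP' hD => by
      have hk := slope hc hρ hR he s1 hL ⟨hP, hP', hD⟩
      have hS := hZ' _ _ _ (by positivity) (hk.qq.neg.mono s2 le_rfl)
      refine (step_two hr' hk s3 hC hl ⟨(hB P hP).bd, (hB P' hP').bd, hS⟩ (hI P hV hP).2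
        (hI P' hV' hP').2 (hT P' hV' hP')).mono ?_
      have h1 := mul_le_mul_of_nonneg_right s7 hL
      linarith)
  refine ⟨_, _, sol_of hE hθ hρ hR hRa (hK P hP) (hB P hP) s4 s5 s6 fun p hp => ?_⟩
  rw [rel hc hρ hR he s1 hP hp, Pi.sub_apply, sub_sub_cancel]
  exact hfix hp

end SolveAux

theorem solve (hE : Dom E) (hA : MeasCond E A) (hθ : 0 < θ) (hθ1 : θ ≤ 1)
    (hρ : Rho E θ lam ρ R) {η : ℝ} (hη : 0 < η) :
    ∃ e₀ > 0, ∀ e, 0 < e → e < e₀ → ∃ Z Θ, Sol E θ lam e η Z Θ :=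
  SolveAux.solve' (R := max R 1) hE hA hθ hθ1 ⟨hρ.b.mono (le_max_left _ _), hρ.ne,
    hρ.binv.mono (le_max_left _ _), hρ.bl.mono (le_max_left _ _), hρ.sym, hρ.diag, hρ.pos⟩
    (le_max_right _ _) hη

end Pool.Agent.Lib.MP_44acff_gt.NU
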