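import Pool.Agent.Lib.MP_44acff_gt.H70Norm

/-! Bounds for the terms of the fixed point equation. -/

namespace Pool.Agent.Lib.MP_44acff_gt.NU

open Set Metric MeasureTheory Filter Topology ComplexConjugate
open scoped ContDiff

namespace SolveAux

variable {E : Set ℂ} {θ e a L ε C : ℝ} {k k' l S S' : ℂ × ℂ → ℂ}

theorem nrm (he : 0 < e) : ‖(e : ℂ)‖ = e := by
  rw [Complex.norm_real, Real.norm_eq_abs, abs_of_pos he]

/-- The standing assumptions on a pair of slopes. -/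
structure KP (E : Set ℂ) (θ e a L ε : ℝ) (k k' : ℂ × ℂ → ℂ) : Prop where
  he : 0 < e
  ha : 1 ≤ a
  hL : 0 ≤ L
  hε : e * a ^ 2 = ε
  hε1 : ε ≤ 1 / 2
  hk : P1 E θ 0 k k' a (a * L)

theorem KP.pos (h : KP E θ e a L ε k k') : 0 < ε := by
  have := h.ha
  rw [← h.hε]
  exact mul_pos h.he (by positivity)

theorem KP.nn (h : KP E θ e a L ε k k') : P1 E θ 0 (nn e k) (nn e k') ε (2 * ε * L) :=
  ((h.hk.mul h.hk.st (add_zero 0)).smul (e : ℂ)).mono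
    (le_of_eq (by rw [nrm h.he, ← h.hε]; ring)) (le_of_eq (by rw [nrm h.he, ← h.hε]; ring))

theorem KP.qq (h : KP E θ e a L ε k k') : P1 E θ 0 (qq e k) (qq e k') ε (2 * ε * L) :=
  ((h.hk.mul h.hk (add_zero 0)).smul (e : ℂ)).mono
    (le_of_eq (by rw [nrm h.he, ← h.hε]; ring)) (le_of_eq (by rw [nrm h.he, ← h.hε]; ring))

theorem KP.sq (h : KP E θ e a L ε k k') : ε * ε * L ≤ ε * L / 2 ∧ 0 ≤ ε * L ∧ ε * ε ≤ ε / 2 := by
  have h1 := h.pos
  have h2 := h.hε1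
  have h3 := h.hL
  have h4 : 0 ≤ ε * L := by positivity
  refine ⟨by nlinarith, h4, by nlinarith⟩

theorem KP.n2 (h : KP E θ e a L ε k k') :
    P1 E θ 0 (NU.nn e k * NU.nn e k) (NU.nn e k' * NU.nn e k') ε (2 * ε * L) := by
  have := h.sq
  have := h.pos
  exact (h.nn.mul h.nn (add_zero 0)).mono (by nlinarith) (by nlinarith)

theorem KP.ip (h : KP E θ e a L ε k k') :
    P1 E θ 0 (1 - -NU.nn e k)⁻¹ (1 - -NU.nn e k')⁻¹ 2 (8 * ε * L) :=
  (h.nn.neg.mono h.hε1 le_rfl).inv.mono le_rfl (le_of_eq (by ring))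

theorem KP.im (h : KP E θ e a L ε k k') :
    P1 E θ 0 (1 - NU.nn e k)⁻¹ (1 - NU.nn e k')⁻¹ 2 (8 * ε * L) :=
  (h.nn.mono h.hε1 le_rfl).inv.mono le_rfl (le_of_eq (by ring))

theorem KP.i2 (h : KP E θ e a L ε k k') :
    P1 E θ 0 (1 - NU.nn e k * NU.nn e k)⁻¹ (1 - NU.nn e k' * NU.nn e k')⁻¹ 2 (8 * ε * L) :=
  (h.n2.mono h.hε1 le_rfl).inv.mono le_rfl (le_of_eq (by ring))

theorem KP.al1 (h : KP E θ e a L ε k k') :
    P1 E θ 0 (al1 e k) (al1 e k') (2 * ε) (8 * ε * L) := by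
  have := h.sq
  exact (h.qq.mul h.i2 (add_zero 0)).mono (by nlinarith) (by nlinarith)

theorem KP.al2 (h : KP E θ e a L ε k k') :
    P1 E θ 0 (al2 e k) (al2 e k') (2 * ε) (8 * ε * L) := by
  have := h.sq
  exact (h.n2.mul h.i2 (add_zero 0)).mono (by nlinarith) (by nlinarith)

theorem KP.YY (h : KP E θ e a L ε k k') (hl : B1 E θ (Wj E (-1)) l a) :
    P1 E θ (-1) (YY e k l) (YY e k' l) (4 * a * ε) (16 * a * (ε * L)) := by
  obtain ⟨h1, h2, h3⟩ := h.sq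
  have h4 := h.ha
  have hl' := P1.refl hl
  refine (((h.nn.mul hl' (zero_add _)).sub (h.qq.mul hl'.st (zero_add _))).mul h.i2
    (add_zero _)).mono (le_of_eq (by ring)) ?_
  have h5 : a * (ε * ε * L) ≤ a * (ε * L / 2) := mul_le_mul_of_nonneg_left h1 (by linarith)
  nlinarith

theorem KP.GG (h : KP E θ e a L ε k k') :
    P0 E θ (-2) (GG e k) (GG e k') (8 * ε) (48 * (ε * L)) := by
  obtain ⟨h1, h2, h3⟩ := h.sq
  have e1 : (0 : ℤ) - 1 = -1 := by norm_num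
  have e2 : (-1 : ℤ) + -1 = -2 := by norm_num
  have h4 := ((((h.hk.st.dz e1).mul (h.hk.dw e1) e2).sub
    ((h.hk.st.dw e1).mul (h.hk.dz e1) e2)).smul (e : ℂ)).mono (A' := 2 * ε) (L' := 4 * ε * L)
    (le_of_eq (by rw [nrm h.he, ← h.hε]; ring)) (le_of_eq (by rw [nrm h.he, ← h.hε]; ring))
  exact (h4.mul (h.im.mul h.im (add_zero 0)).p0 (add_zero _)).mono (le_of_eq (by ring))
    (by nlinarith)

theorem KP.newP (h : KP E θ e a L ε k k') {Z Z' : ℂ × ℂ → ℂ} (hC : 0 < C)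
    (hS : P0 E θ (-1) (pre Z) (pre Z') (C * ε) (C * (2 * ε * L))) :
    P0 E θ (-1) (newP e k Z) (newP e k' Z') ((2 * C + 3) * ε) ((4 * C + 10) * (ε * L)) := by
  obtain ⟨h1, h2, h3⟩ := h.sq
  have h0 := h.pos
  have e1 : (0 : ℤ) - 1 = -1 := by norm_num
  have h4 := ((((h.qq.neg.p0.mul hS (zero_add _)).add (h.qq.neg.dz e1)).add hS.st).smul
    (1 / 2 : ℂ)).add ((h.nn.dw e1).mul h.ip.p0 (add_zero _))
  have h5 : ‖(1 / 2 : ℂ)‖ = 1 / 2 := by simp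
  rw [h5] at h4
  have h6 : C * (ε * ε * L) ≤ C * (ε * L / 2) := mul_le_mul_of_nonneg_left h1 hC.le
  have h7 : C * (ε * ε) ≤ C * (ε / 2) := mul_le_mul_of_nonneg_left h3 hC.le
  have h8 : 0 ≤ C * ε := by positivity
  have h9 : 0 ≤ C * (ε * L) := by positivity
  exact h4.mono (by nlinarith) (by nlinarith)

end SolveAux

end Pool.Agent.Lib.MP_44acff_gt.NU
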