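import Pool.Agent.Lib.MP_44acff_gt.H70Tube

/-! Local supporting hemispheres. -/

namespace Pool.Agent.Lib.MP_44acff_gt.NU

open Set Metric MeasureTheory Filter Topology ComplexConjugate
open scoped ContDiff

namespace SuppAux

theorem norm_sig_sub (p : ℂ × ℂ) (x : ℂ) : ‖sig p - diag x‖ = ‖p - diag x‖ := by
  have h1 : ‖conj p.2 - x‖ = ‖p.2 - conj x‖ := by
    rw [← Complex.norm_conj (p.2 - conj x)]; simp
  have h2 : ‖conj p.1 - conj x‖ = ‖p.1 - x‖ := by
    rw [← Complex.norm_conj (p.1 - x)]; simp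
  simp only [Prod.norm_def, sig, diag, Prod.fst_sub, Prod.snd_sub, h1, h2, max_comm]

theorem sig_ball {x : ℂ} {r : ℝ} {p : ℂ × ℂ} (hp : p ∈ ball (diag x) r) :
    sig p ∈ ball (diag x) r := by
  rw [mem_ball_iff_norm] at *
  rwa [norm_sig_sub]

theorem norm_diag_sub (z x : ℂ) : ‖diag z - diag x‖ = ‖z - x‖ := by
  have h2 : ‖conj z - conj x‖ = ‖z - x‖ := by
    rw [← Complex.norm_conj (z - x)]; simp
  simp only [Prod.norm_def, diag, Prod.fst_sub, Prod.snd_sub, h2, max_self]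

/-- The real linear equation for the centre. -/
theorem exists_gamma {α b t : ℂ} (h : ‖b‖ < ‖α‖) :
    ∃ γ : ℂ, α * conj γ + b * γ + t = 0 ∧ (‖α‖ - ‖b‖) * ‖γ‖ ≤ ‖t‖ := by
  have hD : α * conj α - b * conj b ≠ 0 := by
    rw [Complex.mul_conj, Complex.mul_conj, Complex.normSq_eq_norm_sq, Complex.normSq_eq_norm_sq]
    have : ‖α‖ ^ 2 - ‖b‖ ^ 2 ≠ 0 := by
      have := norm_nonneg b
      nlinarith
    exact_mod_cast this
  have hD' : conj α * α - conj b * b ≠ 0 := by
    rwa [mul_comm (conj α), mul_comm (conj b)]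
  have key : α * conj ((conj b * t - α * conj t) / (α * conj α - b * conj b)) +
      b * ((conj b * t - α * conj t) / (α * conj α - b * conj b)) + t = 0 := by
    simp only [map_div₀, map_sub, map_mul, Complex.conj_conj]
    rw [mul_comm (conj α) α, mul_comm (conj b) b]
    field_simp
    ring
  refine ⟨_, key, ?_⟩
  set γ := (conj b * t - α * conj t) / (α * conj α - b * conj b)
  have e1 : α * conj γ = -(b * γ + t) := by linear_combination key
  have e2 : ‖α‖ * ‖γ‖ ≤ ‖b‖ * ‖γ‖ + ‖t‖ := by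
    calc ‖α‖ * ‖γ‖ = ‖α * conj γ‖ := by rw [norm_mul, Complex.norm_conj]
      _ = ‖b * γ + t‖ := by rw [e1, norm_neg]
      _ ≤ ‖b‖ * ‖γ‖ + ‖t‖ := by rw [← norm_mul]; exact norm_add_le _ _
  linarith

theorem core {x a : ℂ} {r m : ℝ} (hr : 0 < r) (ha : a ≠ 0) (hm : m ≤ 1 / 64)
    {u T : ℂ × ℂ → ℂ} (hu : DifferentiableOn ℂ u (ball (diag x) r))
    (hT : DifferentiableOn ℂ T (ball (diag x) r)) (hsym : EqOn (st T) T (ball (diag x) r))
    (hu0 : u (diag x) = 0) (hub : ∀ p ∈ ball (diag x) r, ‖u p‖ ≤ m * (‖a‖ * r))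
    (hTb : ∀ p ∈ ball (diag x) r, ‖T p‖ ≤ m * (‖a‖ * r) ^ 2) :
    ∃ γ : ℂ, ∀ z ∈ ball x r, (T (diag x)).re + ‖γ‖ ^ 2 ≤
      (T (diag z)).re + ‖γ + a * (z - x) + u (diag z)‖ ^ 2 := by
  have hA : 0 < ‖a‖ := norm_pos_iff.2 ha
  have hp0 : diag x ∈ ball (diag x) r := mem_ball_self hr
  have hm0 : 0 ≤ m := by
    have h1 := (norm_nonneg _).trans (hub _ hp0)
    exact nonneg_of_mul_nonneg_left h1 (by positivity)
  have hv : DifferentiableOn ℂ (st u) (ball (diag x) r) := fun p hp =>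
    (differentiableAt_st (hu.differentiableAt (isOpen_ball.mem_nhds (sig_ball hp)))).differentiableWithinAt
  have hvb : ∀ p ∈ ball (diag x) r, ‖st u p‖ ≤ m * (‖a‖ * r) := fun p hp => by
    rw [st, Complex.norm_conj]; exact hub _ (sig_ball hp)
  have hv0 : st u (diag x) = 0 := by rw [st_diag, hu0, map_zero]
  obtain ⟨huz, huw⟩ := cauchy_est (c := 0) hr hu fun q hq => by simpa using hub q hq
  obtain ⟨hTz, -⟩ := cauchy_est (c := 0) hr hT fun q hq => by simpa using hTb q hq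
  have e1 : 2 * (m * (‖a‖ * r)) / r = 2 * m * ‖a‖ := by field_simp
  have e2 : 2 * (m * (‖a‖ * r) ^ 2) / r = 2 * m * ‖a‖ * (‖a‖ * r) := by field_simp
  rw [e1] at huz huw
  rw [e2] at hTz
  have hα : ‖a‖ - 2 * m * ‖a‖ ≤ ‖a + dz u (diag x)‖ := by
    have := norm_sub_le (a + dz u (diag x)) (dz u (diag x))
    rw [add_sub_cancel_right] at this
    linarith
  have hmA : m * ‖a‖ ≤ 1 / 64 * ‖a‖ := mul_le_mul_of_nonneg_right hm hA.le
  have hgap : ‖a‖ / 2 ≤ ‖a + dz u (diag x)‖ - ‖conj (dw u (diag x))‖ := by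
    rw [Complex.norm_conj]; linarith
  obtain ⟨γ, hγ, hγb⟩ := exists_gamma (α := a + dz u (diag x)) (b := conj (dw u (diag x)))
    (t := dz T (diag x)) (by linarith)
  have hγn : ‖γ‖ ≤ 4 * m * (‖a‖ * r) := by
    have h1 : ‖a‖ / 2 * ‖γ‖ ≤ 2 * m * ‖a‖ * (‖a‖ * r) :=
      (mul_le_mul_of_nonneg_right hgap (norm_nonneg _)).trans (hγb.trans hTz)
    have h2 : ‖a‖ * ‖γ‖ ≤ ‖a‖ * (4 * m * (‖a‖ * r)) := by linarith
    exact le_of_mul_le_mul_left h2 hA
  let Ξ : ℂ × ℂ → ℂ := fun p => T p + γ * (conj a * (p.2 - conj x) + st u p) +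
    conj γ * (a * (p.1 - x) + u p) + a * (p.1 - x) * st u p + conj a * (p.2 - conj x) * u p +
      u p * st u p
  have hΞ : DifferentiableOn ℂ Ξ (ball (diag x) r) := by
    have h1 : DifferentiableOn ℂ (fun p : ℂ × ℂ => p.1 - x) (ball (diag x) r) := by fun_prop
    have h2 : DifferentiableOn ℂ (fun p : ℂ × ℂ => p.2 - conj x) (ball (diag x) r) := by fun_prop
    exact ((((hT.add (((h2.const_mul _).add hv).const_mul _)).add
      (((h1.const_mul _).add hu).const_mul _)).add ((h1.const_mul _).mul hv)).add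
        ((h2.const_mul _).mul hu)).add (hu.mul hv)
  have hΞb : ∀ p ∈ ball (diag x) r, ‖Ξ p‖ ≤ (‖a‖ * r) ^ 2 / 4 := by
    intro p hp
    have hp' := mem_ball_iff_norm.1 hp
    have h1 : ‖a * (p.1 - x)‖ ≤ ‖a‖ * r := by
      rw [norm_mul]
      exact mul_le_mul_of_nonneg_left ((norm_fst_le (p - diag x)).trans hp'.le) hA.le
    have h2 : ‖conj a * (p.2 - conj x)‖ ≤ ‖a‖ * r := by
      rw [norm_mul, Complex.norm_conj]
      exact mul_le_mul_of_nonneg_left ((norm_snd_le (p - diag x)).trans hp'.le) hA.le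
    have hρ : 0 < ‖a‖ * r := by positivity
    generalize ‖a‖ * r = ρ at *
    have h3 := hub p hp
    have h4 := hvb p hp
    have h5 := hTb p hp
    have b1 : ‖γ * (conj a * (p.2 - conj x) + st u p)‖ ≤ 4 * m * ρ * (ρ + m * ρ) := by
      rw [norm_mul]
      exact mul_le_mul hγn ((norm_add_le _ _).trans (add_le_add h2 h4)) (norm_nonneg _)
        (by positivity)
    have b2 : ‖conj γ * (a * (p.1 - x) + u p)‖ ≤ 4 * m * ρ * (ρ + m * ρ) := by
      rw [norm_mul, Complex.norm_conj]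
      exact mul_le_mul hγn ((norm_add_le _ _).trans (add_le_add h1 h3)) (norm_nonneg _)
        (by positivity)
    have b3 : ‖a * (p.1 - x) * st u p‖ ≤ ρ * (m * ρ) := by
      rw [norm_mul]
      exact mul_le_mul h1 h4 (norm_nonneg _) hρ.le
    have b4 : ‖conj a * (p.2 - conj x) * u p‖ ≤ ρ * (m * ρ) := by
      rw [norm_mul]
      exact mul_le_mul h2 h3 (norm_nonneg _) hρ.le
    have b5 : ‖u p * st u p‖ ≤ m * ρ * (m * ρ) := by
      rw [norm_mul]
      exact mul_le_mul h3 h4 (norm_nonneg _) (by positivity)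
    have b6 : ‖Ξ p‖ ≤ m * ρ ^ 2 + 4 * m * ρ * (ρ + m * ρ) + 4 * m * ρ * (ρ + m * ρ) +
        ρ * (m * ρ) + ρ * (m * ρ) + m * ρ * (m * ρ) :=
      (norm_add_le _ _).trans (add_le_add ((norm_add_le _ _).trans (add_le_add
        ((norm_add_le _ _).trans (add_le_add ((norm_add_le _ _).trans (add_le_add
          ((norm_add_le _ _).trans (add_le_add h5 b1)) b2)) b3)) b4)) b5)
    have b7 : m * (11 + 9 * m) ≤ 1 / 4 := by nlinarith
    have b8 : m * (11 + 9 * m) * ρ ^ 2 ≤ 1 / 4 * ρ ^ 2 :=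
      mul_le_mul_of_nonneg_right b7 (by positivity)
    nlinarith
  have hder : fderiv ℂ Ξ (diag x) = 0 := by
    have nb := isOpen_ball.mem_nhds hp0
    have dT := (hT.differentiableAt nb).hasFDerivAt
    have du := (hu.differentiableAt nb).hasFDerivAt
    have dv := (hv.differentiableAt nb).hasFDerivAt
    have d1 : HasFDerivAt (fun p : ℂ × ℂ => p.1 - x) (ContinuousLinearMap.fst ℂ ℂ ℂ) (diag x) :=
      hasFDerivAt_fst.sub_const x
    have d2 : HasFDerivAt (fun p : ℂ × ℂ => p.2 - conj x) (ContinuousLinearMap.snd ℂ ℂ ℂ)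
        (diag x) := hasFDerivAt_snd.sub_const _
    have dΞ := ((((dT.fun_add (((d2.const_mul (conj a)).fun_add dv).const_mul γ)).fun_add
      (((d1.const_mul a).fun_add du).const_mul (conj γ))).fun_add
        ((d1.const_mul a).fun_mul dv)).fun_add ((d2.const_mul (conj a)).fun_mul du)).fun_add
          (du.fun_mul dv)
    rw [dΞ.fderiv]
    have s1 : dz (st u) (diag x) = conj (dw u (diag x)) := by rw [dz_st, st_diag]
    have s2 : dw (st u) (diag x) = conj (dz u (diag x)) := by rw [dw_st, st_diag]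
    have s3 : dw T (diag x) = conj (dz T (diag x)) := by
      rw [← dw_congr isOpen_ball hsym hp0, dw_st, st_diag]
    have hγ' := congrArg conj hγ
    simp only [map_add, map_mul, Complex.conj_conj, map_zero] at hγ'
    have x1 : (diag x).1 - x = 0 := by simp [diag]
    have x2 : (diag x).2 - conj x = 0 := by simp [diag]
    refine ContinuousLinearMap.ext fun w => ?_
    simp only [add_apply, smul_apply, smul_eq_mul,
      ContinuousLinearMap.coe_fst', ContinuousLinearMap.coe_snd', zero_apply,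
      fderiv_eq, hu0, hv0, x1, x2, s1, s2, s3]
    linear_combination w.1 * hγ + w.2 * hγ'
  refine ⟨γ, fun z hz => ?_⟩
  have hz' : diag z ∈ ball (diag x) r := by
    rw [mem_ball_iff_norm] at *
    rwa [norm_diag_sub]
  have h2 := MP_08f711_an.second_order_bound hr hΞ hΞb hz'
  rw [hder, zero_apply, sub_zero, norm_diag_sub] at h2
  have e3 : 4 * ((‖a‖ * r) ^ 2 / 4) * (‖z - x‖ / r) ^ 2 = ‖a * (z - x)‖ ^ 2 := by
    rw [norm_mul]; field_simp
  rw [e3] at h2
  have h3 : Ξ (diag z) - Ξ (diag x) = T (diag z) - T (diag x) +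
      ((‖γ + a * (z - x) + u (diag z)‖ ^ 2 - ‖γ‖ ^ 2 - ‖a * (z - x)‖ ^ 2 : ℝ) : ℂ) := by
    have n1 : ∀ w : ℂ, ((‖w‖ : ℝ) : ℂ) ^ 2 = w * conj w := fun w => by
      rw [Complex.mul_conj, Complex.normSq_eq_norm_sq]; push_cast; rfl
    push_cast
    rw [n1, n1, n1]
    simp only [Ξ, hu0, hv0, st_diag, map_add, map_mul, map_sub]
    simp only [diag]
    ring
  have h4 := (Complex.abs_re_le_norm _).trans h2
  rw [h3, Complex.add_re, Complex.sub_re, Complex.ofReal_re] at h4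
  linarith [(abs_le.1 h4).1]

end SuppAux

theorem support {θ : ℝ} (hθ : 0 < θ) (hθ1 : θ ≤ 1) : ∃ η₂ > 0, ∀ (E : Set ℂ) (lam : ℂ → ℝ)
    (e η : ℝ) (Z Θ : ℂ × ℂ → ℂ), Dom E → 0 < e → η ≤ η₂ → Sol E θ lam e η Z Θ →
      ∀ x ∉ E, ∃ β : ℂ, ∀ᶠ z in 𝓝 x, e * (Θ (diag x)).re + ‖Z (diag x) - β‖ ^ 2 ≤
        e * (Θ (diag z)).re + ‖Z (diag z) - β‖ ^ 2 := by
  refine ⟨θ ^ 2 / 4096, by positivity, fun E lam e η Z Θ hE he hη hS x hx => ?_⟩
  have hd : 0 < infDist x E := (hE.closed.notMem_iff_infDist_pos hE.nonempty).1 hx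
  obtain ⟨a, ha, hloc⟩ := hS.loc x hx
  have hA : 0 < ‖a‖ := norm_pos_iff.2 ha
  set d := infDist x E with hdd
  have hr : 0 < θ * d / 8 := by positivity
  have hθd : θ * d ≤ d := mul_le_of_le_one_left hd.le hθ1
  have hsub : ball (diag x) (θ * d / 8) ⊆ Tube E θ := fun p hp => by
    have h1 := del_sub_le (E := E) hθ hθ1 (diag x) p
    rw [del_diag] at h1
    have h2 := mem_ball_iff_norm.1 hp
    change 0 < del E θ p
    linarith
  have hmid : ∀ p ∈ ball (diag x) (θ * d / 8), ‖mid p - x‖ ≤ d / 2 := fun p hp => by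
    have h1 := norm_mid_sub (diag x) p
    rw [mid_diag] at h1
    have h2 := mem_ball_iff_norm.1 hp
    linarith
  have hη0 : 0 ≤ η := by
    have h1 := (norm_nonneg _).trans
      (hloc _ (hsub (mem_ball_self hr)) (hmid _ (mem_ball_self hr))).1
    rw [mul_assoc] at h1
    exact nonneg_of_mul_nonneg_left h1 (by positivity)
  obtain ⟨γ, hγ⟩ := SuppAux.core (x := x) (a := a) (m := 64 * η / θ ^ 2)
    (u := fun p => Z p - Z (diag x) - a * (p.1 - x)) (T := (e : ℂ) • Θ) hr ha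
    (by rw [div_le_iff₀ (by positivity)]; linarith)
    (((hS.holoZ.mono hsub).sub_const _).sub (by fun_prop))
    ((hS.holoΘ.mono hsub).const_smul _)
    (fun p hp => by
      rw [st_smul, Complex.conj_ofReal, Pi.smul_apply, Pi.smul_apply, hS.sym (hsub hp)])
    (by simp [diag])
    (fun p hp => by
      refine (hloc p (hsub hp) (hmid p hp)).1.trans ?_
      have e1 : 64 * η / θ ^ 2 * (‖a‖ * (θ * d / 8)) = 8 / θ * (η * ‖a‖ * d) := by
        field_simp; ring
      rw [e1]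
      refine le_mul_of_one_le_left (by positivity) ?_
      rw [le_div_iff₀ hθ]; linarith)
    (fun p hp => by
      have e1 : 64 * η / θ ^ 2 * (‖a‖ * (θ * d / 8)) ^ 2 = η * (‖a‖ * d) ^ 2 := by
        field_simp; ring
      rw [e1, Pi.smul_apply, smul_eq_mul, norm_mul, Complex.norm_real, Real.norm_eq_abs,
        abs_of_pos he]
      exact (hloc p (hsub hp) (hmid p hp)).2)
  refine ⟨Z (diag x) - γ, ?_⟩
  filter_upwards [ball_mem_nhds x hr] with z hz
  have h1 := hγ z hz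
  have e1 : γ + a * (z - x) + (Z (diag z) - Z (diag x) - a * ((diag z).1 - x)) =
      Z (diag z) - (Z (diag x) - γ) := by
    simp only [diag]; ring
  simp only [Pi.smul_apply, smul_eq_mul, Complex.re_ofReal_mul, e1] at h1
  rwa [sub_sub_cancel]

end Pool.Agent.Lib.MP_44acff_gt.NU
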