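import Pool.Agent.Lib.MP_44acff_gt.H70Base

/-! Geometry of the tube and calculus of the derivatives dz and dw. -/

namespace Pool.Agent.Lib.MP_44acff_gt.NU

open Set Metric MeasureTheory ComplexConjugate
open scoped ContDiff

variable {E : Set ℂ} {θ : ℝ} {p q : ℂ × ℂ} {F G : ℂ × ℂ → ℂ}

@[simp] theorem mid_diag (z : ℂ) : mid (diag z) = z := by simp [mid, diag]

@[simp] theorem DD_diag (z : ℂ) : DD E (diag z) = infDist z E := by simp [DD]

@[simp] theorem del_diag (z : ℂ) : del E θ (diag z) = θ * infDist z E := by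
  rw [del, DD_diag]; simp [diag]

@[simp] theorem sig_sig (p : ℂ × ℂ) : sig (sig p) = p := by simp [sig]

@[simp] theorem sig_diag (z : ℂ) : sig (diag z) = diag z := by simp [sig, diag]

@[simp] theorem mid_sig (p : ℂ × ℂ) : mid (sig p) = mid p := by simp [mid, sig, add_comm]

@[simp] theorem DD_sig (p : ℂ × ℂ) : DD E (sig p) = DD E p := by simp [DD]

@[simp] theorem del_sig (p : ℂ × ℂ) : del E θ (sig p) = del E θ p := by
  rw [del, del, DD_sig]; simp [sig, norm_sub_rev]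

@[simp] theorem aw_sig (p : ℂ × ℂ) : aw E θ (sig p) = aw E θ p := by simp [aw]

@[simp] theorem Wj_sig (j : ℤ) (p : ℂ × ℂ) : Wj E j (sig p) = Wj E j p := by simp [Wj]

@[simp] theorem st_st (F : ℂ × ℂ → ℂ) : st (st F) = F := by funext p; simp [st]

theorem st_diag (F : ℂ × ℂ → ℂ) (z : ℂ) : st F (diag z) = conj (F (diag z)) := by simp [st]

theorem sig_mem (h : p ∈ Tube E θ) : sig p ∈ Tube E θ := by
  simpa [Tube] using h

theorem diag_mem (hE : Dom E) (hθ : 0 < θ) {z : ℂ} (hz : z ∉ E) : diag z ∈ Tube E θ := by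
  change 0 < del E θ (diag z)
  rw [del_diag]
  exact mul_pos hθ ((hE.closed.notMem_iff_infDist_pos hE.nonempty).1 hz)

theorem isOpen_tube (E : Set ℂ) (θ : ℝ) : IsOpen (Tube E θ) := by
  refine isOpen_lt continuous_const ?_
  have h1 : Continuous mid := by
    unfold mid
    fun_prop
  have h2 : Continuous (DD E) := (continuous_infDist_pt E).comp h1
  unfold del
  fun_prop

theorem tube_mono {θ' : ℝ} (h : θ ≤ θ') : Tube E θ ⊆ Tube E θ' := by
  intro p hp
  have h1 : 0 < θ * DD E p - ‖p.1 - conj p.2‖ := hp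
  have h2 : θ * DD E p ≤ θ' * DD E p := mul_le_mul_of_nonneg_right h infDist_nonneg
  change 0 < θ' * DD E p - ‖p.1 - conj p.2‖
  linarith

theorem DD_pos (h : p ∈ Tube E θ) : 0 < DD E p := by
  have h1 : 0 < θ * DD E p - ‖p.1 - conj p.2‖ := h
  refine lt_of_le_of_ne infDist_nonneg fun h0 => ?_
  have h2 := norm_nonneg (p.1 - conj p.2)
  rw [← h0, mul_zero] at h1
  linarith

theorem del_le (p : ℂ × ℂ) : del E θ p ≤ θ * DD E p := by
  exact sub_le_self _ (norm_nonneg _)

theorem aw_pos (h : p ∈ Tube E θ) : 0 < aw E θ p := by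
  exact Real.sqrt_pos.2 (mul_pos (DD_pos h) h)

theorem aw_le (hθ1 : θ ≤ 1) (h : p ∈ Tube E θ) : aw E θ p ≤ DD E p := by
  have h1 := DD_pos h
  refine Real.sqrt_le_iff.2 ⟨h1.le, ?_⟩
  rw [sq]
  exact mul_le_mul_of_nonneg_left ((del_le p).trans (mul_le_of_le_one_left h1.le hθ1)) h1.le

theorem mid_notMem (h : p ∈ Tube E θ) : mid p ∉ E := by
  intro h1
  exact (DD_pos h).ne' (infDist_zero_of_mem h1)

theorem norm_fst_sub_mid (h : p ∈ Tube E θ) : ‖p.1 - mid p‖ ≤ θ * DD E p / 2 := by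
  have h1 : 0 < θ * DD E p - ‖p.1 - conj p.2‖ := h
  have h2 : p.1 - mid p = (p.1 - conj p.2) / 2 := by
    rw [mid]
    ring
  rw [h2, norm_div, Complex.norm_two]
  linarith

theorem fst_notMem (hθ1 : θ ≤ 1) (h : p ∈ Tube E θ) : p.1 ∉ E := by
  intro h1
  have h2 : DD E p ≤ dist (mid p) p.1 := infDist_le_dist_of_mem h1
  have h3 := norm_fst_sub_mid h
  have h4 := DD_pos h
  have h5 := mul_le_of_le_one_left h4.le hθ1
  rw [dist_comm, dist_eq_norm] at h2
  linarith

theorem norm_mid_sub (p q : ℂ × ℂ) : ‖mid q - mid p‖ ≤ ‖q - p‖ := by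
  have h1 : mid q - mid p = ((q - p).1 + conj (q - p).2) / 2 := by
    simp only [mid, Prod.fst_sub, Prod.snd_sub, map_sub]
    ring
  have h2 := norm_add_le (q - p).1 (conj (q - p).2)
  rw [Complex.norm_conj] at h2
  rw [h1, norm_div, Complex.norm_two]
  linarith [norm_fst_le (q - p), norm_snd_le (q - p)]

theorem abs_DD_sub (p q : ℂ × ℂ) : |DD E q - DD E p| ≤ ‖mid q - mid p‖ := by
  have h1 := (lipschitz_infDist_pt E).dist_le_mul (mid q) (mid p)
  rwa [NNReal.coe_one, one_mul, Real.dist_eq, dist_eq_norm] at h1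

theorem del_sub_le (hθ : 0 < θ) (hθ1 : θ ≤ 1) (p q : ℂ × ℂ) :
    del E θ p - 3 * ‖q - p‖ ≤ del E θ q := by
  have h1 := (abs_le.1 ((abs_DD_sub (E := E) p q).trans (norm_mid_sub p q))).1
  have h2 : q.1 - conj q.2 = (p.1 - conj p.2) + ((q - p).1 - conj (q - p).2) := by
    simp only [Prod.fst_sub, Prod.snd_sub, map_sub]
    ring
  have h3 := norm_add_le (p.1 - conj p.2) ((q - p).1 - conj (q - p).2)
  have h4 := norm_sub_le (q - p).1 (conj (q - p).2)
  rw [Complex.norm_conj] at h4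
  rw [← h2] at h3
  have h5 := mul_le_mul_of_nonneg_left h1 hθ.le
  have h6 := mul_le_of_le_one_left (norm_nonneg (q - p)) hθ1
  unfold del
  linarith [norm_fst_le (q - p), norm_snd_le (q - p)]

/-- The segment from the real slice to `p`. -/
theorem seg_mem (hθ : 0 < θ) (hθ1 : θ ≤ 1) (h : p ∈ Tube E θ) {s : ℝ} (hs : s ∈ Icc (0 : ℝ) 1) :
    del E θ p + (1 - s) * ‖p.1 - conj p.2‖ / 2 ≤
        del E θ (p.1, conj p.1 + s * (p.2 - conj p.1)) ∧
      ‖mid (p.1, conj p.1 + s * (p.2 - conj p.1)) - mid p‖ ≤ θ * DD E p / 2 := by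
  have h1 : 0 < θ * DD E p - ‖p.1 - conj p.2‖ := h
  have h2 : mid (p.1, conj p.1 + s * (p.2 - conj p.1)) - mid p =
      ((1 - s : ℝ) : ℂ) * (p.1 - conj p.2) / 2 := by
    simp only [mid, map_add, map_mul, map_sub, Complex.conj_conj, Complex.conj_ofReal]
    push_cast
    ring
  have h3 : p.1 - conj (conj p.1 + s * (p.2 - conj p.1)) = (s : ℂ) * (p.1 - conj p.2) := by
    simp only [map_add, map_mul, map_sub, Complex.conj_conj, Complex.conj_ofReal]
    ring
  have h4 : ‖mid (p.1, conj p.1 + s * (p.2 - conj p.1)) - mid p‖ =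
      (1 - s) * ‖p.1 - conj p.2‖ / 2 := by
    rw [h2, norm_div, norm_mul, Complex.norm_two, Complex.norm_real,
      Real.norm_of_nonneg (sub_nonneg.2 hs.2)]
  have h5 := (abs_le.1 (abs_DD_sub (E := E) p (p.1, conj p.1 + s * (p.2 - conj p.1)))).1
  have h6 := norm_nonneg (p.1 - conj p.2)
  have h7 : 0 ≤ (1 - s) * ‖p.1 - conj p.2‖ := mul_nonneg (sub_nonneg.2 hs.2) h6
  have h8 : 0 ≤ s * ‖p.1 - conj p.2‖ := mul_nonneg hs.1 h6
  rw [h4] at h5 ⊢
  refine ⟨?_, by linarith⟩
  have h9 := mul_le_mul_of_nonneg_left h5 hθ.le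
  have h10 := mul_le_of_le_one_left h7 hθ1
  unfold del
  simp only [h3, norm_mul, Complex.norm_real, Real.norm_of_nonneg hs.1]
  linarith

theorem fderiv_eq (F : ℂ × ℂ → ℂ) (p v : ℂ × ℂ) :
    fderiv ℂ F p v = v.1 * dz F p + v.2 * dw F p := by
  have h1 : v = v.1 • ((1, 0) : ℂ × ℂ) + v.2 • ((0, 1) : ℂ × ℂ) := by simp
  conv_lhs => rw [h1]
  rw [map_add, map_smul, map_smul, smul_eq_mul, smul_eq_mul, dz, dw]

theorem holo_dz {V : Set (ℂ × ℂ)} (hV : IsOpen V) (hF : DifferentiableOn ℂ F V) :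
    DifferentiableOn ℂ (dz F) V :=
  MP_08f711_an.differentiableOn_fderiv_apply hV hF _

theorem holo_dw {V : Set (ℂ × ℂ)} (hV : IsOpen V) (hF : DifferentiableOn ℂ F V) :
    DifferentiableOn ℂ (dw F) V :=
  MP_08f711_an.differentiableOn_fderiv_apply hV hF _

theorem dz_congr {V : Set (ℂ × ℂ)} (hV : IsOpen V) (h : EqOn F G V) : EqOn (dz F) (dz G) V := by
  intro p hp
  simp only [dz, (Filter.eventuallyEq_of_mem (hV.mem_nhds hp) h).fderiv_eq]

theorem dw_congr {V : Set (ℂ × ℂ)} (hV : IsOpen V) (h : EqOn F G V) : EqOn (dw F) (dw G) V := by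
  intro p hp
  simp only [dw, (Filter.eventuallyEq_of_mem (hV.mem_nhds hp) h).fderiv_eq]

@[simp] theorem dz_const (c : ℂ) (p : ℂ × ℂ) : dz (fun _ => c) p = 0 := by simp [dz]

@[simp] theorem dw_const (c : ℂ) (p : ℂ × ℂ) : dw (fun _ => c) p = 0 := by simp [dw]

theorem dz_add (hF : DifferentiableAt ℂ F p) (hG : DifferentiableAt ℂ G p) :
    dz (F + G) p = dz F p + dz G p := by
  simp only [dz, fderiv_add hF hG, add_apply]

theorem dw_add (hF : DifferentiableAt ℂ F p) (hG : DifferentiableAt ℂ G p) :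
    dw (F + G) p = dw F p + dw G p := by
  simp only [dw, fderiv_add hF hG, add_apply]

theorem dz_sub (hF : DifferentiableAt ℂ F p) (hG : DifferentiableAt ℂ G p) :
    dz (F - G) p = dz F p - dz G p := by
  simp only [dz, fderiv_sub hF hG, sub_apply]

theorem dw_sub (hF : DifferentiableAt ℂ F p) (hG : DifferentiableAt ℂ G p) :
    dw (F - G) p = dw F p - dw G p := by
  simp only [dw, fderiv_sub hF hG, sub_apply]

theorem dz_neg (F : ℂ × ℂ → ℂ) (p : ℂ × ℂ) : dz (-F) p = -dz F p := by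
  simp only [dz, fderiv_neg, neg_apply]

theorem dw_neg (F : ℂ × ℂ → ℂ) (p : ℂ × ℂ) : dw (-F) p = -dw F p := by
  simp only [dw, fderiv_neg, neg_apply]

theorem dz_smul (c : ℂ) (F : ℂ × ℂ → ℂ) (p : ℂ × ℂ) : dz (c • F) p = c * dz F p := by
  simp only [dz, fderiv_const_smul_field, Pi.smul_apply, smul_apply,
    smul_eq_mul]

theorem dw_smul (c : ℂ) (F : ℂ × ℂ → ℂ) (p : ℂ × ℂ) : dw (c • F) p = c * dw F p := by
  simp only [dw, fderiv_const_smul_field, Pi.smul_apply, smul_apply,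
    smul_eq_mul]

theorem dz_mul (hF : DifferentiableAt ℂ F p) (hG : DifferentiableAt ℂ G p) :
    dz (F * G) p = dz F p * G p + F p * dz G p := by
  simp only [dz, fderiv_mul hF hG, add_apply, smul_apply,
    smul_eq_mul]
  ring

theorem dw_mul (hF : DifferentiableAt ℂ F p) (hG : DifferentiableAt ℂ G p) :
    dw (F * G) p = dw F p * G p + F p * dw G p := by
  simp only [dw, fderiv_mul hF hG, add_apply, smul_apply,
    smul_eq_mul]
  ring

theorem dz_inv (hF : DifferentiableAt ℂ F p) (h : F p ≠ 0) :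
    dz F⁻¹ p = -dz F p / F p ^ 2 := by
  have h1 := (hasDerivAt_inv h).comp_hasFDerivAt p hF.hasFDerivAt
  have h2 : fderiv ℂ F⁻¹ p = _ := h1.fderiv
  simp only [dz, h2, smul_apply, smul_eq_mul]
  ring

theorem dw_inv (hF : DifferentiableAt ℂ F p) (h : F p ≠ 0) :
    dw F⁻¹ p = -dw F p / F p ^ 2 := by
  have h1 := (hasDerivAt_inv h).comp_hasFDerivAt p hF.hasFDerivAt
  have h2 : fderiv ℂ F⁻¹ p = _ := h1.fderiv
  simp only [dw, h2, smul_apply, smul_eq_mul]
  ring

namespace TubeAux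

theorem fderiv_eq_smul (F : ℂ × ℂ → ℂ) : fderiv ℂ F = fun p =>
    dz F p • ContinuousLinearMap.fst ℂ ℂ ℂ + dw F p • ContinuousLinearMap.snd ℂ ℂ ℂ := by
  funext p
  refine ContinuousLinearMap.ext fun v => ?_
  rw [fderiv_eq]
  simp [mul_comm]

theorem contDiffOn_nat {V : Set (ℂ × ℂ)} (hV : IsOpen V) (n : ℕ) :
    ∀ F : ℂ × ℂ → ℂ, DifferentiableOn ℂ F V → ContDiffOn ℂ n F V := by
  induction n with
  | zero => exact fun F hF => contDiffOn_zero.2 hF.continuousOn
  | succ n ih =>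
    intro F hF
    rw [Nat.cast_succ, contDiffOn_succ_iff_fderiv_of_isOpen hV]
    refine ⟨hF, fun h => absurd h (by simp), ?_⟩
    rw [fderiv_eq_smul]
    exact ((ih _ (holo_dz hV hF)).smul contDiffOn_const).add
      ((ih _ (holo_dw hV hF)).smul contDiffOn_const)

theorem norm_sig (v : ℂ × ℂ) : ‖sig v‖ = ‖v‖ := by
  simp only [sig, Prod.norm_def, Complex.norm_conj, max_comm]

theorem hasFDerivAt_st (hF : DifferentiableAt ℂ F (sig p)) : HasFDerivAt (st F)
    (conj (dw F (sig p)) • ContinuousLinearMap.fst ℂ ℂ ℂ +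
      conj (dz F (sig p)) • ContinuousLinearMap.snd ℂ ℂ ℂ) p := by
  have hc : Continuous sig := by
    unfold sig
    fun_prop
  have h1 := hF.hasFDerivAt.isLittleO.comp_tendsto (hc.tendsto p)
  refine HasFDerivAt.of_isLittleO (Asymptotics.IsLittleO.of_norm_norm
    (h1.norm_norm.congr (fun q => ?_) fun q => ?_))
  · rw [← Complex.norm_conj]
    congr 1
    simp only [Function.comp_apply, fderiv_eq, st, map_sub, map_add, map_mul, sig,
      Complex.conj_conj, add_apply,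
      smul_apply, ContinuousLinearMap.coe_fst', ContinuousLinearMap.coe_snd',
      smul_eq_mul]
    ring
  · rw [← norm_sig (q - p)]
    simp only [Function.comp_apply, sig, Prod.mk_sub_mk, Prod.fst_sub, Prod.snd_sub, map_sub]

theorem not_st (hF : ¬DifferentiableAt ℂ F (sig p)) : ¬DifferentiableAt ℂ (st F) p := fun h => by
  have h1 := (hasFDerivAt_st (F := st F) (p := sig p) (by rwa [sig_sig])).differentiableAt
  rw [st_st] at h1
  exact hF h1

end TubeAux

theorem dz_dw_comm {V : Set (ℂ × ℂ)} (hV : IsOpen V) (hF : DifferentiableOn ℂ F V) (h : p ∈ V) :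
    dz (dw F) p = dw (dz F) p := by
  have h1 : ContDiffAt ℂ 2 F p := (TubeAux.contDiffOn_nat hV 2 F hF).contDiffAt (hV.mem_nhds h)
  have h2 := h1.isSymmSndFDerivAt (by simp)
  have h3 : DifferentiableAt ℂ (fderiv ℂ F) p :=
    (h1.fderiv_right (m := 1) (by norm_num)).differentiableAt one_ne_zero
  have h4 : ∀ v w : ℂ × ℂ, fderiv ℂ (fun q => fderiv ℂ F q v) p w = fderiv ℂ (fderiv ℂ F) p w v :=
    fun v w => by
      rw [fderiv_clm_apply h3 (differentiableAt_const v)]
      simp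
  change fderiv ℂ (fun q => fderiv ℂ F q (0, 1)) p (1, 0) =
    fderiv ℂ (fun q => fderiv ℂ F q (1, 0)) p (0, 1)
  rw [h4, h4, h2.eq]

theorem differentiableAt_st (hF : DifferentiableAt ℂ F (sig p)) : DifferentiableAt ℂ (st F) p := by
  exact (TubeAux.hasFDerivAt_st hF).differentiableAt

theorem holo_st (hF : DifferentiableOn ℂ F (Tube E θ)) :
    DifferentiableOn ℂ (st F) (Tube E θ) := by
  exact fun p hp => (differentiableAt_st
    (hF.differentiableAt ((isOpen_tube E θ).mem_nhds (sig_mem hp)))).differentiableWithinAt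

theorem dz_st (F : ℂ × ℂ → ℂ) : dz (st F) = st (dw F) := by
  funext p
  by_cases hF : DifferentiableAt ℂ F (sig p)
  · rw [dz, (TubeAux.hasFDerivAt_st hF).fderiv]
    simp [st]
  · simp [dz, dw, st, fderiv_zero_of_not_differentiableAt hF,
      fderiv_zero_of_not_differentiableAt (TubeAux.not_st hF)]

theorem dw_st (F : ℂ × ℂ → ℂ) : dw (st F) = st (dz F) := by
  funext p
  by_cases hF : DifferentiableAt ℂ F (sig p)
  · rw [dw, (TubeAux.hasFDerivAt_st hF).fderiv]
    simp [st]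
  · simp [dz, dw, st, fderiv_zero_of_not_differentiableAt hF,
      fderiv_zero_of_not_differentiableAt (TubeAux.not_st hF)]

theorem st_add (F G : ℂ × ℂ → ℂ) : st (F + G) = st F + st G := by funext p; simp [st]

theorem st_sub (F G : ℂ × ℂ → ℂ) : st (F - G) = st F - st G := by funext p; simp [st]

theorem st_neg (F : ℂ × ℂ → ℂ) : st (-F) = -st F := by funext p; simp [st]

theorem st_mul (F G : ℂ × ℂ → ℂ) : st (F * G) = st F * st G := by funext p; simp [st]

theorem st_inv (F : ℂ × ℂ → ℂ) : st F⁻¹ = (st F)⁻¹ := by funext p; simp [st]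

theorem st_div (F G : ℂ × ℂ → ℂ) : st (F / G) = st F / st G := by funext p; simp [st]

theorem st_smul (c : ℂ) (F : ℂ × ℂ → ℂ) : st (c • F) = conj c • st F := by funext p; simp [st]

theorem st_one : st 1 = 1 := by funext p; simp [st]

theorem st_congr (h : EqOn F G (Tube E θ)) : EqOn (st F) (st G) (Tube E θ) :=
  fun p hp => by simp only [st, h (sig_mem hp)]

/-- Cauchy estimate. -/
theorem cauchy_est {r M : ℝ} {c : ℂ} (hr : 0 < r) (hF : DifferentiableOn ℂ F (ball p r))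
    (hM : ∀ q ∈ ball p r, ‖F q - c‖ ≤ M) : ‖dz F p‖ ≤ 2 * M / r ∧ ‖dw F p‖ ≤ 2 * M / r := by
  have h1 := MP_08f711_an.norm_fderiv_le_of_bound (f := fun q => F q - c) hr (hF.sub_const c) hM
  rw [fderiv_sub_const] at h1
  constructor
  · simpa [dz] using (fderiv ℂ F p).le_of_opNorm_le h1 (1, 0)
  · simpa [dw] using (fderiv ℂ F p).le_of_opNorm_le h1 (0, 1)

theorem contDiffOn_holo {V : Set (ℂ × ℂ)} (hV : IsOpen V) (hF : DifferentiableOn ℂ F V) :
    ContDiffOn ℂ ∞ F V := by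
  exact contDiffOn_infty.2 fun n => TubeAux.contDiffOn_nat hV n F hF

theorem contDiffOn_diag (hE : Dom E) (hθ : 0 < θ) (hF : DifferentiableOn ℂ F (Tube E θ)) :
    ContDiffOn ℝ ∞ (fun z => F (diag z)) Eᶜ := by
  have h1 : ContDiff ℝ ∞ diag := contDiff_id.prodMk Complex.conjCLE.contDiff
  exact ((contDiffOn_holo (isOpen_tube E θ) hF).restrict_scalars ℝ).comp h1.contDiffOn
    fun z hz => diag_mem hE hθ hz

theorem fderiv_diag {z : ℂ} (hF : DifferentiableAt ℂ F (diag z)) :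
    DifferentiableAt ℝ (fun z => F (diag z)) z ∧ ∀ v : ℂ,
      fderiv ℝ (fun z => F (diag z)) z v = dz F (diag z) * v + dw F (diag z) * conj v := by
  have h1 : HasFDerivAt diag ((ContinuousLinearMap.id ℝ ℂ).prod
      (Complex.conjCLE : ℂ →L[ℝ] ℂ)) z :=
    (hasFDerivAt_id z).prodMk Complex.conjCLE.hasFDerivAt
  have h2 := (hF.hasFDerivAt.restrictScalars ℝ).comp z h1
  refine ⟨h2.differentiableAt, fun v => ?_⟩
  have h3 : fderiv ℝ (fun z => F (diag z)) z = _ := h2.fderiv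
  rw [h3]
  change fderiv ℂ F (diag z) (v, conj v) = _
  rw [fderiv_eq]
  ring

end Pool.Agent.Lib.MP_44acff_gt.NU
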